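import Pool.Agent.H.MP_374efc_lc.Zt.Ke

/-!
# MP_374efc_lc: locally catenative systems whose words are initial and final parts of the next words

`rb_of_lc`: if the system is locally catenative, some word is an initial part and some word is a final part of the
next word, and no word is a proper power, then there is a relation which begins and a relation which ends with the
preceding word.
-/

set_option autoImplicit false

namespace D0L

/-- Sequences of words, each one an initial and a final part of the next one, no proper powers; relations can be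
shifted. -/
structure Ws {α : Type} (W : ℕ → List α) : Prop where
  ne : ∀ n, W n ≠ []
  pre : ∀ n, W n <+: W (n + 1)
  suf : ∀ n, W n <:+ W (n + 1)
  prim : ∀ n (c d : List α), c ++ d = W n → d ++ c = W n → c = [] ∨ d = []
  sh : ∀ (N : ℕ) (js : List ℕ), W N = (js.map W).flatten →
    ∀ m, W (N + m) = ((js.map (· + m)).map W).flatten

namespace Ws

variable {α : Type} {W : ℕ → List α}

/-- Initial parts of the words. -/
def S (W : ℕ → List α) (x : List α) : Prop := ∃ n, x <+: W n

/-- Final parts of the words. -/
def T (W : ℕ → List α) (x : List α) : Prop := ∃ n, x <:+ W n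

theorem S_down {x y : List α} (hxy : x <+: y) (hy : S W y) : S W x := by
  obtain ⟨n, hn⟩ := hy
  exact ⟨n, hxy.trans hn⟩

theorem T_down {x y : List α} (hxy : x <:+ y) (hy : T W y) : T W x := by
  obtain ⟨n, hn⟩ := hy
  exact ⟨n, hxy.trans hn⟩

theorem S_w (n : ℕ) : S W (W n) := ⟨n, List.prefix_rfl⟩

theorem T_w (n : ℕ) : T W (W n) := ⟨n, List.suffix_rfl⟩

variable (h : Ws W)

include h

theorem pre_le {m n : ℕ} (hmn : m ≤ n) : W m <+: W n := by
  induction n, hmn using Nat.le_induction with
  | base => exact List.prefix_rfl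
  | succ n _ ih => exact ih.trans (h.pre n)

theorem suf_le {m n : ℕ} (hmn : m ≤ n) : W m <:+ W n := by
  induction n, hmn using Nat.le_induction with
  | base => exact List.suffix_rfl
  | succ n _ ih => exact ih.trans (h.suf n)

theorem len_le {m n : ℕ} (hmn : m ≤ n) : (W m).length ≤ (W n).length :=
  (h.pre_le hmn).length_le

theorem S_le {x y : List α} (hx : S W x) (hy : S W y) (hl : x.length ≤ y.length) : x <+: y := by
  obtain ⟨m, hm⟩ := hx
  obtain ⟨n, hn⟩ := hy
  exact List.prefix_of_prefix_length_le (hm.trans (h.pre_le (le_max_left m n)))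
    (hn.trans (h.pre_le (le_max_right m n))) hl

theorem T_le {x y : List α} (hx : T W x) (hy : T W y) (hl : x.length ≤ y.length) : x <:+ y := by
  obtain ⟨m, hm⟩ := hx
  obtain ⟨n, hn⟩ := hy
  exact List.suffix_of_suffix_length_le (hm.trans (h.suf_le (le_max_left m n)))
    (hn.trans (h.suf_le (le_max_right m n))) hl

/-- Elements of both kinds whose product is of both kinds commute. -/
theorem comm {b c : List α} (hb : T W b) (hc : S W c) (h1 : S W (b ++ c)) (h2 : T W (b ++ c)) :
    b ++ c = c ++ b := by
  obtain ⟨d, hd⟩ := h.S_le hc h1 (by rw [List.length_append]; omega)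
  have hl : d.length = b.length := by
    have := congrArg List.length hd
    rw [List.length_append, List.length_append] at this
    omega
  have h3 : T W d := T_down ⟨c, hd⟩ h2
  have h4 : d = b := (h.T_le h3 hb hl.le).eq_of_length hl
  rw [← hd, h4]

/-- The last vertex of the path in front of `g`. -/
theorem walk {g : List α} (hg : S W g) (js : List ℕ) : ∀ v : List α,
    S W (v ++ (js.map W).flatten) → v <+: g → g.length < (v ++ (js.map W).flatten).length →
    ∃ a i r, js = a ++ i :: r ∧ v ++ (a.map W).flatten <+: g ∧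
      g.length < (v ++ (a.map W).flatten ++ W i).length := by
  induction js with
  | nil =>
    intro v _ h2 h3
    rw [List.map_nil, List.flatten_nil, List.append_nil] at h3
    have := h2.length_le
    omega
  | cons k js ih =>
    intro v h1 h2 h3
    rw [List.map_cons, List.flatten_cons, ← List.append_assoc] at h1 h3
    rcases lt_or_ge g.length (v ++ W k).length with h4 | h4
    · refine ⟨[], k, js, rfl, ?_, ?_⟩
      · rwa [List.map_nil, List.flatten_nil, List.append_nil]
      · rwa [List.map_nil, List.flatten_nil, List.append_nil]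
    · obtain ⟨a, i, r, e1, e2, e3⟩ := ih (v ++ W k) h1
        (h.S_le (S_down (List.prefix_append _ _) h1) hg h4) h3
      refine ⟨k :: a, i, r, by rw [e1, List.cons_append], ?_, ?_⟩
      · rwa [List.map_cons, List.flatten_cons, ← List.append_assoc]
      · rwa [List.map_cons, List.flatten_cons, ← List.append_assoc]

/-- **The step.** -/
theorem step {g : List α} {j M : ℕ} {js : List ℕ} (hg1 : T W g) (hj : S W (g ++ W j))
    (hM : W M = (js.map W).flatten) (hlt : g.length < (W M).length) :
    ∃ a i r c, js = a ++ i :: r ∧ g = (a.map W).flatten ++ c ∧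
      g.length < ((a.map W).flatten ++ W i).length ∧
      (c ≠ [] → S W c ∧ T W c ∧ S W (c ++ W j)) := by
  have hgS : S W g := S_down (List.prefix_append _ _) hj
  obtain ⟨a, i, r, e1, e2, e3⟩ := h.walk hgS js [] (by rw [List.nil_append, ← hM]; exact S_w M)
    (List.nil_prefix) (by rw [List.nil_append, ← hM]; exact hlt)
  rw [List.nil_append] at e2 e3
  obtain ⟨v, hv⟩ : ∃ v, v = (a.map W).flatten := ⟨_, rfl⟩
  rw [← hv] at e2 e3
  obtain ⟨c, rfl⟩ := e2
  refine ⟨a, i, r, c, e1, by rw [← hv], by rwa [← hv], ?_⟩
  intro hc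
  have hvb : S W (v ++ W i) := by
    refine S_down ?_ (S_w M)
    rw [hM, e1, List.map_append, List.map_cons, List.flatten_append, List.flatten_cons, ← hv,
      ← List.append_assoc]
    exact List.prefix_append _ _
  have h1 : c <+: W i := by
    have := h.S_le hgS hvb e3.le
    exact (List.prefix_append_right_inj v).1 this
  obtain ⟨s, hs⟩ := h1
  have hs0 : s ≠ [] := by
    rintro rfl
    rw [← hs, List.append_nil] at e3
    omega
  have hcS : S W c := S_down ⟨s, hs⟩ (S_w i)
  have hcT : T W c := T_down (List.suffix_append _ _) hg1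
  have hsT : T W s := T_down ⟨c, hs⟩ (T_w i)
  have hnS : ¬ S W s := by
    intro h2
    have h3 := h.comm hcT h2 (by rw [hs]; exact S_w i) (by rw [hs]; exact T_w i)
    rcases h.prim i c s hs (h3 ▸ hs) with h4 | h4
    · exact hc h4
    · exact hs0 h4
  refine ⟨hcS, hcT, ?_⟩
  have h2 : W j <+: s := by
    rcases le_total ((v ++ c) ++ W j).length (v ++ W i).length with h3 | h3
    · have h4 := h.S_le hj hvb h3
      rw [← hs, ← List.append_assoc] at h4
      exact (List.prefix_append_right_inj (v ++ c)).1 h4
    · have h4 := h.S_le hvb hj h3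
      rw [← hs, ← List.append_assoc] at h4
      exact absurd (S_down ((List.prefix_append_right_inj (v ++ c)).1 h4) (S_w j)) hnS
  refine S_down ?_ (S_w i)
  rw [← hs]
  exact (List.prefix_append_right_inj c).2 h2

/-- The relation `W N = W (N - m) ++ ...` of earlier words, with first gap `m`. -/
def Gap (W : ℕ → List α) (m : ℕ) : Prop :=
  ∃ N js, 0 < m ∧ m ≤ N ∧ (∀ j ∈ js, j < N) ∧ W N = (((N - m) :: js).map W).flatten

omit h in
theorem flat_ne (hne : ∀ n, W n ≠ []) {a : List ℕ} (ha : a ≠ []) : (a.map W).flatten ≠ [] := by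
  obtain ⟨i, r, rfl⟩ := List.exists_cons_of_ne_nil ha
  rw [List.map_cons, List.flatten_cons]
  intro h1
  exact hne i (List.append_eq_nil_iff.1 h1).1

omit h in
theorem len_mem {a : List ℕ} {i : ℕ} (hi : i ∈ a) : (W i).length ≤ (a.map W).flatten.length := by
  obtain ⟨b, c, rfl⟩ := List.append_of_mem hi
  rw [List.map_append, List.map_cons, List.flatten_append, List.flatten_cons, List.length_append,
    List.length_append]
  omega

/-- The end of the descent. -/
theorem stop {g : List α} {a b : ℕ} (hg : g ≠ []) (hgS : S W g) (h1 : S W (W a ++ W b))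
    (h2 : S W (g ++ W a)) (hga : g.length < (W a).length) (hgb : g.length ≤ (W b).length) :
    False := by
  obtain ⟨d, hd⟩ := h.S_le hgS (S_w a) hga.le
  have h3 : S W (W a ++ g) :=
    S_down ((List.prefix_append_right_inj (W a)).2 (h.S_le hgS (S_w b) hgb)) h1
  have h4 : g ++ W a = W a ++ g :=
    (h.S_le h2 h3 (by rw [List.length_append, List.length_append]; omega)).eq_of_length
      (by rw [List.length_append, List.length_append]; omega)
  rw [← hd, List.append_assoc, List.append_cancel_left_eq] at h4
  rcases h.prim a g d hd (h4 ▸ hd) with h5 | h5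
  · exact hg h5
  · rw [h5, List.append_nil] at hd
    rw [hd] at hga
    exact lt_irrefl _ hga

/-- **A relation with first gap one.** -/
theorem gap_one {m : ℕ} (hm : Gap W m) (hmin : ∀ q, Gap W q → m ≤ q) : m = 1 := by
  by_contra hm1
  obtain ⟨N, js, h0, hN, hlt, hrel⟩ := hm
  have hm2 : 2 ≤ m := by omega
  -- lengths increase
  have hst : ∀ L, (W L).length < (W (L + 1)).length := by
    intro L
    by_contra hc
    push Not at hc
    have h1 : W L = W (L + 1) :=
      (h.pre L).eq_of_length (le_antisymm (h.len_le (Nat.le_succ L)) hc)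
    have h2 : Gap W 1 := ⟨L + 1, [], one_pos, by omega, by simp, by simp [h1]⟩
    have := hmin 1 h2
    omega
  have hgrow : ∀ n, n ≤ (W n).length := by
    intro n
    induction n with
    | zero => omega
    | succ n ih =>
      have := hst n
      omega
  -- the shifted relation
  obtain ⟨R, hR⟩ : ∃ R : ℕ → List ℕ, ∀ t, R t = ((N - m) :: js).map (· + t) := ⟨_, fun _ => rfl⟩
  have hRel : ∀ t, W (N + t) = ((R t).map W).flatten := by
    intro t
    rw [hR]
    exact h.sh N _ hrel t
  have hhead : ∀ t, ∃ r, R t = (N - m + t) :: r := fun t => ⟨js.map (· + t), by rw [hR]; rfl⟩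
  -- there is a second factor
  obtain ⟨i2, js', rfl⟩ : ∃ i2 js', js = i2 :: js' := by
    refine List.exists_cons_of_ne_nil ?_
    rintro rfl
    rw [List.map_singleton, List.flatten_singleton] at hrel
    have h1 := hst (N - 1)
    rw [Nat.sub_add_cancel (by omega)] at h1
    have h2 := h.len_le (m := N - m) (n := N - 1) (by omega)
    rw [hrel] at h1
    omega
  have htwo : ∀ t, S W (W (N - m + t) ++ W (i2 + t)) := by
    intro t
    refine S_down ?_ (S_w (N + t))
    rw [hRel t, hR]
    simp only [List.map_cons, List.flatten_cons]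
    rw [← List.append_assoc]
    exact List.prefix_append _ _
  obtain ⟨B, hB⟩ : ∃ B, B = (W N).length := ⟨_, rfl⟩
  obtain ⟨A, hA⟩ : ∃ A, A = N - m + (B + 1) := ⟨_, rfl⟩
  have hA1 : B < (W A).length := by
    have := hgrow A
    omega
  have hA2 : B ≤ (W (i2 + (B + 1))).length := by
    have := hgrow (i2 + (B + 1))
    omega
  have hAA : S W (W A ++ W (i2 + (B + 1))) := by
    rw [hA]
    exact htwo _
  obtain ⟨t, ht⟩ : ∃ t, t = A + N := ⟨_, rfl⟩
  obtain ⟨L, hL⟩ : ∃ L, L = N - m + t := ⟨_, rfl⟩
  obtain ⟨j, hj⟩ : ∃ j, j = i2 + t := ⟨_, rfl⟩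
  have hLj : S W (W L ++ W j) := by
    rw [hL, hj]
    exact htwo t
  have hNL : N ≤ L := by omega
  have hAj : A ≤ j := by omega
  -- the descent
  have key : ∀ (k : ℕ) (g : List α), g.length ≤ k → g ≠ [] → S W g → T W g → S W (g ++ W j) →
      (∀ js, g ≠ (List.map W js).flatten) → False := by
    intro k
    induction k with
    | zero =>
      intro g hk hg0 _ _ _ _
      exact hg0 (List.length_eq_zero_iff.1 (by omega))
    | succ k ih =>
      intro g hk hg0 hgS hgT hgj hgn
      rcases lt_or_ge g.length B with hgB | hgB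
      · refine h.stop hg0 hgS hAA ?_ (by omega) (by omega)
        exact S_down ((List.prefix_append_right_inj g).2 (h.pre_le hAj)) hgj
      · -- the scale
        have hex : ∃ M, g.length < (W M).length := ⟨g.length + 1, by
          have := hgrow (g.length + 1)
          omega⟩
        classical
        obtain ⟨M, hM⟩ : ∃ M, M = Nat.find hex := ⟨_, rfl⟩
        have hM1 : g.length < (W M).length := by rw [hM]; exact Nat.find_spec hex
        have hM2 : ∀ q < M, (W q).length ≤ g.length := by
          intro q hq
          have := Nat.find_min hex (m := q) (by rw [← hM]; exact hq)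
          omega
        have hMN : N < M := by
          by_contra hc
          push Not at hc
          have := h.len_le hc
          omega
        obtain ⟨s, rfl⟩ : ∃ s, M = N + s := ⟨M - N, by omega⟩
        obtain ⟨a, i, r, c, e1, e2, e3, e4⟩ := h.step hgT hgj (hRel s) hM1
        have ha : a ≠ [] := by
          rintro rfl
          obtain ⟨r', hr'⟩ := hhead s
          rw [hr', List.nil_append, List.cons.injEq] at e1
          rw [List.map_nil, List.flatten_nil, List.nil_append, ← e1.1] at e3
          have := hM2 (N - m + s) (by omega)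
          omega
        have hc : c ≠ [] := by
          rintro rfl
          exact hgn a (by rw [e2, List.append_nil])
        obtain ⟨f1, f2, f3⟩ := e4 hc
        refine ih c ?_ hc f1 f2 f3 ?_
        · have h1 := congrArg List.length e2
          rw [List.length_append] at h1
          have h2 := List.length_pos_of_ne_nil (flat_ne h.ne ha)
          omega
        · intro js0 hjs0
          refine hgn (a ++ js0) ?_
          rw [List.map_append, List.flatten_append, ← hjs0]
          exact e2
  -- the start
  obtain ⟨s, hs⟩ : ∃ s, L + 1 = N + s := ⟨L + 1 - N, by omega⟩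
  obtain ⟨a, i, r, c, e1, e2, e3, e4⟩ := h.step (T_w L) hLj (hRel s) (by rw [← hs]; exact hst L)
  obtain ⟨r', hr'⟩ := hhead s
  have ha : a ≠ [] := by
    rintro rfl
    rw [hr', List.nil_append, List.cons.injEq] at e1
    rw [List.map_nil, List.flatten_nil, List.nil_append, ← e1.1] at e3
    have := h.len_le (m := N - m + s) (n := L) (by omega)
    omega
  obtain ⟨x, a', rfl⟩ := List.exists_cons_of_ne_nil ha
  rw [hr', List.cons_append, List.cons.injEq] at e1
  -- no product of words begins with `x` and is `W L`
  have hno : ∀ js0, W L ≠ (((x :: a') ++ js0).map W).flatten := by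
    intro js0 h1
    have hx : x = L - (m - 1) := by omega
    have h2 : Gap W (m - 1) := by
      refine ⟨L, a' ++ js0, by omega, by omega, ?_, ?_⟩
      · intro y hy
        by_contra hc
        push Not at hc
        have h3 := h.len_le hc
        have h4 := len_mem (W := W) hy
        rw [List.cons_append, List.map_cons, List.flatten_cons] at h1
        have h5 := congrArg List.length h1
        rw [List.length_append] at h5
        have h6 := List.length_pos_of_ne_nil (h.ne x)
        omega
      · rw [← hx]
        rw [h1, List.cons_append]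
    have := hmin _ h2
    omega
  have hc : c ≠ [] := by
    rintro rfl
    apply hno []
    rw [List.append_nil]
    rw [List.append_nil] at e2
    exact e2
  obtain ⟨f1, f2, f3⟩ := e4 hc
  refine key c.length c le_rfl hc f1 f2 f3 ?_
  intro js0 hjs0
  apply hno js0
  rw [List.map_append, List.flatten_append, ← hjs0]
  exact e2

end Ws

section

variable {α : Type} {h : α → List α} {w : List α}

theorem ws_of (hP : ∀ n, it h n w <+: it h (n + 1) w) (hQ : ∀ n, it h n w <:+ it h (n + 1) w)
    (hn : NoPow h w) : Ws (fun n => it h n w) where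
  ne := by
    intro n h1
    exact hn n 2 [] le_rfl (by rw [h1]; simp)
  pre := hP
  suf := hQ
  prim := by
    intro n c d h1 h2
    obtain ⟨z, a, b, h3, h4⟩ := Tr.comm_pow (h1.trans h2.symm)
    rcases Nat.eq_zero_or_pos a with h5 | h5
    · left
      rw [h3, h5, Tr.wpow_zero]
    rcases Nat.eq_zero_or_pos b with h6 | h6
    · right
      rw [h4, h6, Tr.wpow_zero]
    exfalso
    refine hn n (a + b) z (by omega) ?_
    rw [← h1, h3, h4, ← Tr.wpow_add]
  sh := by
    intro N js h1 m
    rw [List.map_map]
    exact rel_shift h1 m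

theorem kl_pre {m : ℕ} (hP : it h m w <+: it h (m + 1) w) {m' : ℕ} (hm : m ≤ m') :
    it h m' w <+: it h (m' + 1) w := by
  obtain ⟨d, rfl⟩ := Nat.exists_eq_add_of_le hm
  obtain ⟨z, hz⟩ := hP
  refine ⟨it h d z, ?_⟩
  rw [show m + d + 1 = d + (m + 1) by omega, show m + d = d + m by omega, it_add, it_add,
    ← it_append, hz]

theorem kl_suf {m : ℕ} (hQ : it h m w <:+ it h (m + 1) w) {m' : ℕ} (hm : m ≤ m') :
    it h m' w <:+ it h (m' + 1) w := by
  obtain ⟨d, rfl⟩ := Nat.exists_eq_add_of_le hm
  obtain ⟨z, hz⟩ := hQ
  refine ⟨it h d z, ?_⟩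
  rw [show m + d + 1 = d + (m + 1) by omega, show m + d = d + m by omega, it_add, it_add,
    ← it_append, hz]

theorem NoPow.shift (hn : NoPow h w) (q : ℕ) : NoPow h (it h q w) := by
  intro m k u hk h1
  rw [← it_add] at h1
  exact hn _ k u hk h1

theorem rfi_of_lc (hlc : LC h w) (hP : ∃ m, it h m w <+: it h (m + 1) w)
    (hQ : ∃ m, it h m w <:+ it h (m + 1) w) (hn : NoPow h w) : ∃ p, Rfi h w p := by
  classical
  obtain ⟨m1, h1⟩ := hP
  obtain ⟨m2, h2⟩ := hQ
  obtain ⟨q, hq⟩ : ∃ q, q = m1 + m2 := ⟨_, rfl⟩
  have hW : ∀ n, it h n (it h q w) = it h (n + q) w := fun n => (it_add _ _ _ _).symm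
  have hws : Ws (fun n => it h n (it h q w)) := by
    refine ws_of ?_ ?_ (hn.shift q)
    · intro n
      rw [hW, hW, show n + 1 + q = n + q + 1 by omega]
      exact kl_pre h1 (by omega)
    · intro n
      rw [hW, hW, show n + 1 + q = n + q + 1 by omega]
      exact kl_suf h2 (by omega)
  obtain ⟨N, js, hjs, hlt, hrel⟩ := hlc.shift q
  have hex : ∃ m, Ws.Gap (fun n => it h n (it h q w)) m := by
    obtain ⟨i, js', rfl⟩ := List.exists_cons_of_ne_nil hjs
    have h3 := hlt i (by simp)
    refine ⟨N - i, N, js', by omega, by omega, fun j hj => hlt j (List.mem_cons_of_mem _ hj), ?_⟩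
    rw [show N - (N - i) = i by omega]
    exact hrel
  have h3 := hws.gap_one (Nat.find_spec hex) (fun q hq => Nat.find_min' hex hq)
  obtain ⟨N, js, -, hN, hlt, hrel⟩ := h3 ▸ Nat.find_spec hex
  refine ⟨N - 1 + q, js.map (· + q), ?_, ?_⟩
  · intro j hj
    obtain ⟨i, hi, rfl⟩ := List.mem_map.1 hj
    have := hlt i hi
    omega
  · have h4 : (((N - 1) :: js).map fun n => it h n (it h q w)) =
        ((N - 1 + q) :: js.map (· + q)).map fun n => it h n w := by
      rw [List.map_cons, List.map_cons, List.map_map, hW]
      congr 1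
      exact List.map_congr_left fun j _ => hW j
    rw [h4] at hrel
    simp only [hW] at hrel
    unfold Eqn
    rw [show N - 1 + q + 1 = N + q by omega]
    exact hrel

/-- **Relations of both kinds**, if the words are initial and final parts of the next words and no proper powers. -/
theorem rb_of_lc (hlc : LC h w) (hP : ∃ m, it h m w <+: it h (m + 1) w)
    (hQ : ∃ m, it h m w <:+ it h (m + 1) w) (hn : NoPow h w) : ∃ p, RB h w p := by
  obtain ⟨p, hp⟩ := rfi_of_lc hlc hP hQ hn
  obtain ⟨q, hq⟩ : ∃ q, Rfi (rev h) w.reverse q := by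
    refine rfi_of_lc (lc_rev_iff.2 hlc) ?_ ?_ hn.reverse
    · obtain ⟨m, hm⟩ := hQ
      refine ⟨m, ?_⟩
      rw [wf_it_rev, wf_it_rev]
      exact List.reverse_prefix.2 hm
    · obtain ⟨m, hm⟩ := hP
      refine ⟨m, ?_⟩
      rw [wf_it_rev, wf_it_rev]
      exact List.reverse_suffix.2 hm
  refine ⟨p + q, hp.shift q, ?_⟩
  rw [Nat.add_comm]
  exact (rla_of_rev hq).shift p

/-- Words which are no proper powers at all. -/
theorem NoPow.np (hn : NoPow h w) : NP h w := by
  intro p js m hm _ _ h1
  refine hn p m (js.map fun j => it h j w).flatten hm ?_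
  rw [h1, List.map_flatten, List.map_replicate, List.flatten_flatten, List.map_replicate]

end

end D0L
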