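import Pool.Agent.H.MP_374efc_lc.Zt.Kf
import Pool.Agent.H.MP_374efc_lc.Zt.Kl

/-!
# MP_374efc_lc: the locally catenative property for bi-extendable systems without power words

`lc_decidable_bi`: a computable bound `BdB` gives a sound algorithm for the locally catenative property, which decides
it for the systems such that some word is an initial part of the next word, some word is a final part of the next word
and no word is a proper power.
-/

set_option autoImplicit false

namespace D0L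

section

variable {c : List (List ℕ) × List ℕ}

theorem fp_iff_lsat : FP c ↔ ∃ is : List ℕ, LSat c is := Iff.rfl

theorem lc_iff_lsat : LC (hs c) c.2 ↔ ∃ is : List ℕ, LSat c is := by
  rw [← fp_iff_lsat, fp_iff]
  rfl

end

/-- **Decidability from the bound**, with soundness for all systems. -/
theorem rb_decidable_sound (h : ∃ F, Computable F ∧ BdB (fun _ _ _ _ => True) F) :
    ∃ A : List (List ℕ) × List ℕ → Bool, Computable A ∧
      (∀ c, A c = true → (∃ is : List ℕ, is.head? = some 1 ∧ LSat c is) ∧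
        ∃ is : List ℕ, is.getLast? = some 1 ∧ LSat c is) ∧
      ∀ c, ¬ LPow c → ((∃ is : List ℕ, is.head? = some 1 ∧ LSat c is) ∧
        ∃ is : List ℕ, is.getLast? = some 1 ∧ LSat c is) → A c = true := by
  obtain ⟨F, hF, hB⟩ := h
  obtain ⟨hd, h2⟩ := prim_rb
  refine ⟨fun s => @decide ((fun x : (List (List ℕ) × List ℕ) × ℕ => RB (hs x.1) x.1.2 x.2)
    (s, F (sz s))) (hd (s, F (sz s))), ?_, ?_, ?_⟩
  · exact h2.to_comp.comp (Computable.id.pair (hF.comp prim_sz.to_comp))
  · intro s hs0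
    rw [@decide_eq_true_iff _ (hd (s, F (sz s)))] at hs0
    rw [← rfi_iff_lsat, ← rla_iff_lsat]
    exact ⟨⟨_, hs0.1⟩, ⟨_, hs0.2⟩⟩
  · intro s hs1 hs2
    have hn := (np_val s).2 (np_iff_lpow.2 hs1)
    rw [@decide_eq_true_iff _ (hd (s, F (sz s)))]
    rw [← rfi_iff_lsat, ← rla_iff_lsat] at hs2
    obtain ⟨⟨p, hp⟩, ⟨q, hq⟩⟩ := hs2
    have h3 : RB (hs s) s.2 (p + q) := by
      refine ⟨hp.shift q, ?_⟩
      rw [Nat.add_comm]
      exact hq.shift p
    obtain ⟨r, hr, hr1⟩ := hB (Fin (nl s)) (hf s) (wf s) (sz s) (sz_ok s) trivial hn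
      ⟨p + q, (rb_val s _).2 h3⟩
    exact ((rb_val s r).1 hr1).mono hr

/-- **The locally catenative property** for the systems such that some word is an initial part of the next word, some
word is a final part of the next word and no word is a proper power. -/
theorem lc_decidable_bi (h : ∃ F, Computable F ∧ BdB (fun _ _ _ _ => True) F) :
    ∃ A : List (List ℕ) × List ℕ → Bool, Computable A ∧
      (∀ c, A c = true → ∃ is : List ℕ, LSat c is) ∧
      ∀ c, (∃ m, lword c m <+: lword c (m + 1)) → (∃ m, lword c m <:+ lword c (m + 1)) →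
        (∀ (m k : ℕ) (v : List ℕ), 2 ≤ k → lword c m ≠ (List.replicate k v).flatten) →
        (A c = true ↔ ∃ is : List ℕ, LSat c is) := by
  obtain ⟨A, hA, h1, h2⟩ := rb_decidable_sound h
  refine ⟨A, hA, fun c hc => ?_, fun c hP hQ hn => ⟨fun hc => ?_, fun hc => ?_⟩⟩
  · obtain ⟨⟨is, -, h3⟩, -⟩ := h1 c hc
    exact ⟨is, h3⟩
  · obtain ⟨⟨is, -, h3⟩, -⟩ := h1 c hc
    exact ⟨is, h3⟩
  · have hn' : NoPow (hs c) c.2 := fun m k u hk => hn m k u hk
    have h3 : LC (hs c) c.2 := lc_iff_lsat.2 hc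
    obtain ⟨p, hp⟩ := rb_of_lc h3 hP hQ hn'
    refine h2 c (np_iff_lpow.1 hn'.np) ⟨?_, ?_⟩
    · exact rfi_iff_lsat.1 ⟨p, hp.1⟩
    · exact rla_iff_lsat.1 ⟨p, hp.2⟩

end D0L
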