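import Pool.Agent.H.MP_374efc_lc.Zt.Kd
import Pool.Agent.H.MP_374efc_lc.Shell

/-!
# MP_374efc_lc: locally catenative formulas which begin and end with `1`

`LSat c is`: the sequence of the D0L system `c` satisfies the locally catenative formula `is`.  `LPow c`: it satisfies no
formula which is a proper power.  `rb_decidable`: a computable bound `BdB` gives an algorithm which decides, for the
systems without power formulas, whether there are formulas which begin and formulas which end with `1`.
-/

set_option autoImplicit false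

namespace D0L

/-- The word number `n` of the sequence of the D0L system `c`: `c.1` is the list of the images of the letters `0, 1, ..`
(the other letters are erased), `c.2` is the first word. -/
def lword (c : List (List ℕ) × List ℕ) (n : ℕ) : List ℕ :=
  (fun w : List ℕ => w.flatMap (fun a => c.1.getD a []))^[n] c.2

/-- The sequence of `c` satisfies the locally catenative formula `w_n = w_(n - i_1) w_(n - i_2) .. w_(n - i_k)` with
`is = [i_1, .., i_k]` for all large `n`. -/
def LSat (c : List (List ℕ) × List ℕ) (is : List ℕ) : Prop :=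
  is ≠ [] ∧ (∀ i ∈ is, 0 < i) ∧ ∃ p : ℕ, (∀ i ∈ is, i ≤ p) ∧
    ∀ n, p ≤ n → lword c n = (is.map fun i => lword c (n - i)).flatten

/-- The sequence of `c` satisfies a formula which is a proper power. -/
def LPow (c : List (List ℕ) × List ℕ) : Prop :=
  ∃ (v : List ℕ) (m : ℕ), v ≠ [] ∧ 2 ≤ m ∧ LSat c (List.replicate m v).flatten

section formulas

variable {c : List (List ℕ) × List ℕ}

theorem lsat_of_eqn {p : ℕ} {js : List ℕ} (h1 : js ≠ []) (h2 : ∀ j ∈ js, j < p)
    (h3 : Eqn (hs c) c.2 p js) : LSat c (js.map fun j => p - j) := by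
  refine ⟨by simpa using h1, ?_, p, ?_, ?_⟩
  · intro i hi
    obtain ⟨j, hj, rfl⟩ := List.mem_map.1 hi
    have := h2 j hj
    omega
  · intro i hi
    obtain ⟨j, hj, rfl⟩ := List.mem_map.1 hi
    omega
  · intro n hn
    obtain ⟨m, rfl⟩ := Nat.exists_eq_add_of_le hn
    have h4 := h3.shift m
    unfold Eqn at h4
    have e : ∀ k, lword c k = it (hs c) k c.2 := fun k => rfl
    rw [e, h4, List.map_map, List.map_map]
    congr 1
    apply List.map_congr_left
    intro j hj
    have := h2 j hj
    simp only [Function.comp]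
    rw [e, show p + m - (p - j) = j + m by omega]

theorem eqn_of_lsat {is : List ℕ} (h : LSat c is) : ∃ p, (∀ i ∈ is, 0 < i ∧ i ≤ p) ∧
    Eqn (hs c) c.2 p (is.map fun i => p - i) := by
  obtain ⟨-, h2, p, h3, h4⟩ := h
  refine ⟨p, fun i hi => ⟨h2 i hi, h3 i hi⟩, ?_⟩
  unfold Eqn
  rw [List.map_map]
  exact h4 p le_rfl

/-- Formulas which begin with `1`. -/
theorem rfi_iff_lsat : (∃ p, Rfi (hs c) c.2 p) ↔ ∃ is : List ℕ, is.head? = some 1 ∧ LSat c is := by
  constructor
  · rintro ⟨p, js, h1, h2⟩
    refine ⟨(p :: js).map fun j => p + 1 - j, ?_, lsat_of_eqn (List.cons_ne_nil _ _) ?_ h2⟩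
    · simp
    · intro j hj
      rcases List.mem_cons.1 hj with rfl | hj
      · omega
      · have := h1 j hj
        omega
  · rintro ⟨is, h1, h2⟩
    obtain ⟨js, rfl⟩ : ∃ js, is = 1 :: js := by
      cases is with
      | nil => simp at h1
      | cons a js =>
        rw [List.head?_cons, Option.some.injEq] at h1
        exact ⟨js, by rw [h1]⟩
    obtain ⟨p, h3, h4⟩ := eqn_of_lsat h2
    have h5 := h3 1 (by simp)
    refine ⟨p - 1, js.map fun i => p - i, ?_, ?_⟩
    · intro j hj
      obtain ⟨i, hi, rfl⟩ := List.mem_map.1 hj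
      have := h3 i (List.mem_cons_of_mem _ hi)
      omega
    · rw [List.map_cons] at h4
      rwa [Nat.sub_add_cancel h5.2]

/-- Formulas which end with `1`. -/
theorem rla_iff_lsat : (∃ p, Rla (hs c) c.2 p) ↔
    ∃ is : List ℕ, is.getLast? = some 1 ∧ LSat c is := by
  constructor
  · rintro ⟨p, js, h1, h2⟩
    refine ⟨(js ++ [p]).map fun j => p + 1 - j, ?_, lsat_of_eqn (by simp) ?_ h2⟩
    · simp
    · intro j hj
      rcases List.mem_append.1 hj with hj | hj
      · have := h1 j hj
        omega
      · rw [List.mem_singleton.1 hj]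
        omega
  · rintro ⟨is, h1, h2⟩
    obtain ⟨js, rfl⟩ : ∃ js, is = js ++ [1] := by
      rcases List.eq_nil_or_concat is with rfl | ⟨js, a, rfl⟩
      · simp at h1
      · rw [List.concat_eq_append, List.getLast?_append_of_ne_nil _ (by simp),
          List.getLast?_singleton, Option.some.injEq] at h1
        exact ⟨js, by rw [List.concat_eq_append, h1]⟩
    obtain ⟨p, h3, h4⟩ := eqn_of_lsat h2
    have h5 := h3 1 (by simp)
    refine ⟨p - 1, js.map fun i => p - i, ?_, ?_⟩
    · intro j hj
      obtain ⟨i, hi, rfl⟩ := List.mem_map.1 hj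
      have := h3 i (List.mem_append_left _ hi)
      omega
    · rw [List.map_append, List.map_singleton] at h4
      rwa [Nat.sub_add_cancel h5.2]

theorem map_flat_rep {α β : Type} (f : α → β) (m : ℕ) (js : List α) :
    (List.replicate m js).flatten.map f = (List.replicate m (js.map f)).flatten := by
  rw [List.map_flatten, List.map_replicate]

/-- Proper powers. -/
theorem np_iff_lpow : NP (hs c) c.2 ↔ ¬ LPow c := by
  constructor
  · rintro hn ⟨v, m, hv, hm, h⟩
    obtain ⟨p, h1, h2⟩ := eqn_of_lsat h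
    refine hn p (v.map fun i => p - i) m hm (by simpa using hv) ?_ ?_
    · intro j hj
      obtain ⟨i, hi, rfl⟩ := List.mem_map.1 hj
      have := h1 i (List.mem_flatten.2 ⟨v, List.mem_replicate.2 ⟨by omega, rfl⟩, hi⟩)
      omega
    · rwa [map_flat_rep] at h2
  · intro h p js m hm hjs h1 h2
    refine h ⟨js.map fun j => p - j, m, by simpa using hjs, hm, ?_⟩
    rw [← map_flat_rep]
    refine lsat_of_eqn ?_ ?_ h2
    · intro h3
      obtain ⟨a, v, rfl⟩ := List.exists_cons_of_ne_nil hjs
      obtain ⟨m', rfl⟩ : ∃ m', m = m' + 1 := ⟨m - 1, by omega⟩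
      rw [List.replicate_succ, List.flatten_cons, List.cons_append] at h3
      exact absurd h3 (List.cons_ne_nil _ _)
    · intro j hj
      obtain ⟨l, hl, hjl⟩ := List.mem_flatten.1 hj
      rw [(List.mem_replicate.1 hl).2] at hjl
      exact h1 j hjl

theorem eqn_val (s : List (List ℕ) × List ℕ) (p : ℕ) (js : List ℕ) :
    Eqn (hf s) (wf s) p js ↔ Eqn (hs s) s.2 p js := by
  have key : ((js.map (fun j => it (hf s) j (wf s))).flatten).map Fin.val =
      (js.map (fun j => it (hs s) j s.2)).flatten := by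
    rw [List.map_flatten, List.map_map]
    congr 1
    apply List.map_congr_left
    intro j _
    exact it_val s j
  unfold Eqn
  rw [← key]
  have h1 : it (hs s) p s.2 = (it (hf s) p (wf s)).map Fin.val := (it_val s p).symm
  rw [h1]
  exact (List.map_injective_iff.2 Fin.val_injective).eq_iff.symm

theorem rb_val (s : List (List ℕ) × List ℕ) (p : ℕ) :
    RB (hf s) (wf s) p ↔ RB (hs s) s.2 p := by
  simp only [RB, Rfi, Rla, eqn_val]

theorem np_val (s : List (List ℕ) × List ℕ) : NP (hf s) (wf s) ↔ NP (hs s) s.2 := by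
  simp only [NP, eqn_val]

end formulas

section test

theorem rfi_iff_cand (s : List (List ℕ) × List ℕ) (p : ℕ) :
    Rfi (hs s) s.2 p ↔ sqn s p = sqn s (p + 1) ∨ ∃ js ∈ cand (p + 1) (sqn s (p + 1)).length,
      sqn s p ++ (js.map (sqn s)).flatten = sqn s (p + 1) := by
  constructor
  · rintro ⟨js, h1, h2⟩
    obtain ⟨h4, h5⟩ := drop_empty (sqn s) js
    have h6 : sqn s p ++ (js.map (sqn s)).flatten = sqn s (p + 1) := by
      unfold Eqn at h2
      rw [List.map_cons, List.flatten_cons] at h2
      exact h2.symm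
    by_cases hne : js.filter (fun j => !(sqn s j).isEmpty) = []
    · left
      rw [hne] at h4
      simp only [List.map_nil, List.flatten_nil] at h4
      rw [← h4, List.append_nil] at h6
      exact h6
    · right
      refine ⟨_, mem_cand.2 ⟨hne, ?_, ?_⟩, by rw [h4, h6]⟩
      · have h7 := congrArg List.length h6
        rw [List.length_append] at h7
        omega
      · intro j hj
        have := h1 j (List.mem_filter.1 hj).1
        omega
  · rintro (h | ⟨js, h1, h2⟩)
    · refine ⟨[], by simp, ?_⟩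
      unfold Eqn
      rw [List.map_singleton, List.flatten_singleton]
      exact h.symm
    · obtain ⟨-, -, h5⟩ := mem_cand.1 h1
      refine ⟨js, fun j hj => ?_, ?_⟩
      · have := h5 j hj
        omega
      · unfold Eqn
        rw [List.map_cons, List.flatten_cons]
        exact h2.symm

theorem rla_iff_cand (s : List (List ℕ) × List ℕ) (p : ℕ) :
    Rla (hs s) s.2 p ↔ sqn s p = sqn s (p + 1) ∨ ∃ js ∈ cand (p + 1) (sqn s (p + 1)).length,
      (js.map (sqn s)).flatten ++ sqn s p = sqn s (p + 1) := by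
  constructor
  · rintro ⟨js, h1, h2⟩
    obtain ⟨h4, h5⟩ := drop_empty (sqn s) js
    have h6 : (js.map (sqn s)).flatten ++ sqn s p = sqn s (p + 1) := by
      unfold Eqn at h2
      rw [List.map_append, List.flatten_append, List.map_singleton, List.flatten_singleton] at h2
      exact h2.symm
    by_cases hne : js.filter (fun j => !(sqn s j).isEmpty) = []
    · left
      rw [hne] at h4
      simp only [List.map_nil, List.flatten_nil] at h4
      rw [← h4, List.nil_append] at h6
      exact h6
    · right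
      refine ⟨_, mem_cand.2 ⟨hne, ?_, ?_⟩, by rw [h4, h6]⟩
      · have h7 := congrArg List.length h6
        rw [List.length_append] at h7
        omega
      · intro j hj
        have := h1 j (List.mem_filter.1 hj).1
        omega
  · rintro (h | ⟨js, h1, h2⟩)
    · refine ⟨[], by simp, ?_⟩
      unfold Eqn
      rw [List.nil_append, List.map_singleton, List.flatten_singleton]
      exact h.symm
    · obtain ⟨-, -, h5⟩ := mem_cand.1 h1
      refine ⟨js, fun j hj => ?_, ?_⟩
      · have := h5 j hj
        omega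
      · unfold Eqn
        rw [List.map_append, List.flatten_append, List.map_singleton, List.flatten_singleton]
        exact h2.symm

open Primrec

theorem prim_rfi : PrimrecRel (fun (s : List (List ℕ) × List ℕ) (p : ℕ) =>
    Rfi (hs s) s.2 p) := by
  have h0 : Primrec (fun x : (List (List ℕ) × List ℕ) × ℕ => sqn x.1 x.2) := prim_sqn.comp fst snd
  have h0' : Primrec (fun x : (List (List ℕ) × List ℕ) × ℕ => sqn x.1 (x.2 + 1)) :=
    prim_sqn.comp fst (succ.comp snd)
  have h1 : PrimrecRel (fun (js : List ℕ) (x : (List (List ℕ) × List ℕ) × ℕ) =>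
      sqn x.1 x.2 ++ (js.map (sqn x.1)).flatten = sqn x.1 (x.2 + 1)) := by
    refine Primrec.eq.comp₂ ?_ ?_
    · refine (list_append.comp (h0.comp snd) (list_flatten.comp (list_map
        (f := fun y : List ℕ × ((List (List ℕ) × List ℕ) × ℕ) => y.1)
        (g := fun y j => sqn y.2.1 j) fst ?_))).to₂
      exact prim_sqn.comp₂ ((fst.comp snd).comp fst).to₂ snd.to₂
    · exact (h0'.comp snd).to₂
  have h2 := h1.exists_mem_list
  have h3 : PrimrecPred (fun x : (List (List ℕ) × List ℕ) × ℕ =>
      ∃ js ∈ cand (x.2 + 1) (sqn x.1 (x.2 + 1)).length,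
        sqn x.1 x.2 ++ (js.map (sqn x.1)).flatten = sqn x.1 (x.2 + 1)) := by
    refine h2.comp (f := fun x : (List (List ℕ) × List ℕ) × ℕ =>
      cand (x.2 + 1) (sqn x.1 (x.2 + 1)).length) (g := fun x => x) ?_ .id
    exact prim_cand.comp (succ.comp snd) (list_length.comp h0')
  have h4 : PrimrecPred (fun x : (List (List ℕ) × List ℕ) × ℕ =>
      sqn x.1 x.2 = sqn x.1 (x.2 + 1)) := Primrec.eq.comp h0 h0'
  exact (h4.or h3).of_eq (fun x => (rfi_iff_cand x.1 x.2).symm)

theorem prim_rla : PrimrecRel (fun (s : List (List ℕ) × List ℕ) (p : ℕ) =>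
    Rla (hs s) s.2 p) := by
  have h0 : Primrec (fun x : (List (List ℕ) × List ℕ) × ℕ => sqn x.1 x.2) := prim_sqn.comp fst snd
  have h0' : Primrec (fun x : (List (List ℕ) × List ℕ) × ℕ => sqn x.1 (x.2 + 1)) :=
    prim_sqn.comp fst (succ.comp snd)
  have h1 : PrimrecRel (fun (js : List ℕ) (x : (List (List ℕ) × List ℕ) × ℕ) =>
      (js.map (sqn x.1)).flatten ++ sqn x.1 x.2 = sqn x.1 (x.2 + 1)) := by
    refine Primrec.eq.comp₂ ?_ ?_
    · refine (list_append.comp (list_flatten.comp (list_map
        (f := fun y : List ℕ × ((List (List ℕ) × List ℕ) × ℕ) => y.1)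
        (g := fun y j => sqn y.2.1 j) fst ?_)) (h0.comp snd)).to₂
      exact prim_sqn.comp₂ ((fst.comp snd).comp fst).to₂ snd.to₂
    · exact (h0'.comp snd).to₂
  have h2 := h1.exists_mem_list
  have h3 : PrimrecPred (fun x : (List (List ℕ) × List ℕ) × ℕ =>
      ∃ js ∈ cand (x.2 + 1) (sqn x.1 (x.2 + 1)).length,
        (js.map (sqn x.1)).flatten ++ sqn x.1 x.2 = sqn x.1 (x.2 + 1)) := by
    refine h2.comp (f := fun x : (List (List ℕ) × List ℕ) × ℕ =>
      cand (x.2 + 1) (sqn x.1 (x.2 + 1)).length) (g := fun x => x) ?_ .id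
    exact prim_cand.comp (succ.comp snd) (list_length.comp h0')
  have h4 : PrimrecPred (fun x : (List (List ℕ) × List ℕ) × ℕ =>
      sqn x.1 x.2 = sqn x.1 (x.2 + 1)) := Primrec.eq.comp h0 h0'
  exact (h4.or h3).of_eq (fun x => (rla_iff_cand x.1 x.2).symm)

theorem prim_rb : PrimrecRel (fun (s : List (List ℕ) × List ℕ) (p : ℕ) =>
    RB (hs s) s.2 p) := PrimrecPred.and prim_rfi prim_rla

end test

/-- **Decidability from the bound.** -/
theorem rb_decidable (h : ∃ F, Computable F ∧ BdB (fun _ _ _ _ => True) F) :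
    ∃ A : List (List ℕ) × List ℕ → Bool, Computable A ∧ ∀ c, ¬ LPow c →
      (A c = true ↔ (∃ is : List ℕ, is.head? = some 1 ∧ LSat c is) ∧
        ∃ is : List ℕ, is.getLast? = some 1 ∧ LSat c is) := by
  obtain ⟨F, hF, hB⟩ := h
  obtain ⟨hd, h2⟩ := prim_rb
  refine ⟨fun s => @decide ((fun x : (List (List ℕ) × List ℕ) × ℕ => RB (hs x.1) x.1.2 x.2)
    (s, F (sz s))) (hd (s, F (sz s))), ?_, ?_⟩
  · exact h2.to_comp.comp (Computable.id.pair (hF.comp prim_sz.to_comp))
  · intro s hs1
    have hn := (np_val s).2 (np_iff_lpow.2 hs1)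
    rw [@decide_eq_true_iff _ (hd (s, F (sz s))), ← rfi_iff_lsat, ← rla_iff_lsat]
    show RB (hs s) s.2 (F (sz s)) ↔ _
    constructor
    · intro h3
      exact ⟨⟨_, h3.1⟩, ⟨_, h3.2⟩⟩
    · rintro ⟨⟨p, hp⟩, ⟨q, hq⟩⟩
      have h3 : RB (hs s) s.2 (p + q) := by
        refine ⟨hp.shift q, ?_⟩
        rw [Nat.add_comm]
        exact hq.shift p
      obtain ⟨r, hr, hr1⟩ := hB (Fin (nl s)) (hf s) (wf s) (sz s) (sz_ok s) trivial hn
        ⟨p + q, (rb_val s _).2 h3⟩
      exact ((rb_val s r).1 hr1).mono hr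

end D0L
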