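import Pool.Agent.H.MP_374efc_lc.Red.Simp

/-!
# MP_374efc_lc, theorem C: the kernel of a power of a morphism is stable after `card α` steps
-/

set_option autoImplicit false

namespace D0L

/-- `h = g f`: the conjugate system `f g` -/
theorem it_conj {α β : Type} {h : α → List α} {f : α → List β} {g : β → List α}
    (hfg : ∀ a, app g (f a) = h a) (n : ℕ) (x : List α) :
    it (fun d => app f (g d)) n (app f x) = app f (it h n x) := by
  induction n with
  | zero => rfl
  | succ n ih =>
    rw [it_succ, it_succ, ih]
    have h1 : app h (it h n x) = app g (app f (it h n x)) := by
      rw [app_app]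
      congr 1
      funext a
      exact (hfg a).symm
    rw [h1]
    generalize app f (it h n x) = y
    rw [app_app]

theorem it_ker_aux (N : ℕ) : ∀ {α : Type} [Fintype α] (h : α → List α), Fintype.card α ≤ N →
    ∀ (m : ℕ) (x y : List α), it h m x = it h m y → it h N x = it h N y := by
  induction N with
  | zero =>
    intro α _ h hc m x y _
    have h0 : IsEmpty α := Fintype.card_eq_zero_iff.1 (Nat.le_zero.1 hc)
    have hx : ∀ z : List α, z = [] := fun z => by
      rcases z with _ | ⟨a, t⟩
      · rfl
      · exact (h0.false a).elim
    rw [hx x, hx y]
  | succ N ih =>
    intro α _ h hc m x y hm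
    by_cases hh : Good h
    · have hinj : Function.Injective (it h m) := Function.Injective.iterate hh.inj m
      rw [hinj hm]
    · obtain ⟨δ, i, f, g, c1, c2, -, -⟩ := simplify h hh
      have h1 : it (fun d => app f (g d)) m (app f x) = it (fun d => app f (g d)) m (app f y) := by
        rw [it_conj c2, it_conj c2, hm]
      have h2 := ih (fun d => app f (g d)) (by omega) m _ _ h1
      rw [it_conj c2, it_conj c2] at h2
      have h3 : ∀ z : List α, it h (N + 1) z = app g (app f (it h N z)) := fun z => by
        rw [it_succ, app_app]
        congr 1
        funext a
        exact (c2 a).symm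
      rw [h3, h3, h2]

/-- Two words with the same image under some power of `h` have the same image under the power
`card α`. -/
theorem it_ker {α : Type} [Fintype α] (h : α → List α) (m : ℕ) (x y : List α)
    (hm : it h m x = it h m y) : it h (Fintype.card α) x = it h (Fintype.card α) y :=
  it_ker_aux _ h le_rfl m x y hm

end D0L
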