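import Pool.Agent.H.MP_374efc_lc.Shell

/-!
# MP_374efc_lc: it is decidable whether a finite list of words is a code (Sardinas-Patterson)

`sp_short`: if a finite family of nonempty words has two different factorizations of one word then it
has two different factorizations with few factors.  `codeL_prim`, `codeL_comp`: `CodeL` is primitive
recursive.
-/

set_option autoImplicit false

namespace D0L

section sp

variable {β : Type*} (f : ℕ → List β)

/-- the product of the words with the given indices -/
def fl (ks : List ℕ) : List β := (ks.map f).flatten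

theorem fl_nil : fl f [] = [] := rfl

theorem fl_cons (a : ℕ) (ks : List ℕ) : fl f (a :: ks) = f a ++ fl f ks := by
  unfold fl
  rw [List.map_cons, List.flatten_cons]

theorem fl_append (ks ls : List ℕ) : fl f (ks ++ ls) = fl f ks ++ fl f ls := by
  unfold fl
  rw [List.map_append, List.flatten_append]

theorem fl_take_drop (ls : List ℕ) (j : ℕ) : fl f (ls.take j) ++ fl f (ls.drop j) = fl f ls := by
  rw [← fl_append, List.take_append_drop]

theorem fl_take_mono (ls : List ℕ) {j j' : ℕ} (h : j ≤ j') :
    (fl f (ls.take j)).length ≤ (fl f (ls.take j')).length := by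
  have h1 : (ls.take j').take j = ls.take j := by
    rw [List.take_take, min_eq_left h]
  have h2 := congrArg List.length (fl_take_drop f (ls.take j') j)
  rw [h1, List.length_append] at h2
  omega

theorem fl_take_succ (ls : List ℕ) {j : ℕ} (h : j < ls.length) :
    fl f (ls.take (j + 1)) = fl f (ls.take j) ++ f (ls.getD j 0) := by
  rw [List.take_add_one, fl_append, List.getElem?_eq_getElem h, List.getD_eq_getElem _ _ h]
  simp [fl]

theorem fl_cut (ls : List ℕ) (x : ℕ) (hx : x < (fl f ls).length) :
    ∃ j, j < ls.length ∧ (fl f (ls.take j)).length ≤ x ∧ x < (fl f (ls.take (j + 1))).length := by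
  induction ls generalizing x with
  | nil => simp [fl] at hx
  | cons a ls ih =>
    by_cases h : x < (f a).length
    · exact ⟨0, by simp, by simp [fl], by simpa [fl] using h⟩
    · push Not at h
      rw [fl_cons, List.length_append] at hx
      obtain ⟨j, hj, h1, h2⟩ := ih (x - (f a).length) (by omega)
      refine ⟨j + 1, by simpa using hj, ?_, ?_⟩
      · rw [List.take_succ_cons, fl_cons, List.length_append]
        omega
      · rw [List.take_succ_cons, fl_cons, List.length_append]
        omega

theorem fl_ne_nil {p : ℕ} (hne : ∀ k < p, f k ≠ []) {ks : List ℕ} (hk : ∀ k ∈ ks, k < p)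
    (h : ks ≠ []) : fl f ks ≠ [] := by
  cases ks with
  | nil => exact absurd rfl h
  | cons a ks =>
    rw [fl_cons]
    intro h1
    exact hne a (hk a List.mem_cons_self) (List.append_eq_nil_iff.1 h1).1

/-- Two factorizations which begin differently, the first one long: there is a shorter pair. -/
theorem sp_shrink {p T : ℕ} (hT : ∀ k < p, (f k).length ≤ T) (hne : ∀ k < p, f k ≠ []) {a b : ℕ}
    {ks ls : List ℕ} (hab : a ≠ b) (hk : ∀ k ∈ a :: ks, k < p) (hl : ∀ k ∈ b :: ls, k < p)
    (he : fl f (a :: ks) = fl f (b :: ls)) (hB : p * (T + 1) < ks.length) :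
    ∃ ks' ls' : List ℕ, (∀ k ∈ ks', k < p) ∧ (∀ k ∈ ls', k < p) ∧ fl f ks' = fl f ls' ∧
      ks' ≠ ls' ∧ ks'.length + ls'.length < (a :: ks).length + (b :: ls).length := by
  classical
  set K := a :: ks with hK
  set L := b :: ls with hL
  have hKl : K.length = ks.length + 1 := by rw [hK, List.length_cons]
  have hLl : L.length = ls.length + 1 := by rw [hL, List.length_cons]
  have hx : ∀ i, i < ks.length → (fl f (K.take (i + 1))).length < (fl f L).length := by
    intro i hi
    rw [← he, ← fl_take_drop f K (i + 1), List.length_append]
    have h1 : K.drop (i + 1) ≠ [] := by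
      intro h
      have := congrArg List.length h
      rw [List.length_drop, List.length_nil] at this
      omega
    have h2 := fl_ne_nil f hne (fun k hk' => hk k (List.mem_of_mem_drop hk')) h1
    have h3 := List.length_pos_of_ne_nil h2
    omega
  have hx0 : ∀ i, 0 < (fl f (K.take (i + 1))).length := by
    intro i
    rw [hK, List.take_succ_cons, fl_cons, List.length_append]
    have := List.length_pos_of_ne_nil (hne a (hk a List.mem_cons_self))
    omega
  have hj : ∀ i, ∃ j, i < ks.length → j < L.length ∧
      (fl f (L.take j)).length ≤ (fl f (K.take (i + 1))).length ∧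
      (fl f (K.take (i + 1))).length < (fl f (L.take (j + 1))).length := by
    intro i
    by_cases hi : i < ks.length
    · obtain ⟨j, h1⟩ := fl_cut f L _ (hx i hi)
      exact ⟨j, fun _ => h1⟩
    · exact ⟨0, fun h => absurd h hi⟩
  choose j hj using hj
  have htk : ∀ i, K.take (i + 1) = a :: ks.take i := fun i => by rw [hK, List.take_succ_cons]
  by_cases hco : ∃ i, i < ks.length ∧
      (fl f (L.take (j i))).length = (fl f (K.take (i + 1))).length
  · obtain ⟨i, hi, h1⟩ := hco
    obtain ⟨h2, -, -⟩ := hj i hi
    have h3 : 0 < j i := by
      rcases Nat.eq_zero_or_pos (j i) with h | h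
      · have := hx0 i
        rw [← h1, h] at this
        simp [fl] at this
      · exact h
    refine ⟨K.take (i + 1), L.take (j i), fun k hk' => hk k (List.mem_of_mem_take hk'),
      fun k hk' => hl k (List.mem_of_mem_take hk'), ?_, ?_, ?_⟩
    · have h4 : fl f (K.take (i + 1)) ++ fl f (K.drop (i + 1)) =
          fl f (L.take (j i)) ++ fl f (L.drop (j i)) := by
        rw [fl_take_drop, fl_take_drop, he]
      exact (List.append_inj h4 h1.symm).1
    · obtain ⟨m, hm⟩ : ∃ m, j i = m + 1 := ⟨j i - 1, by omega⟩
      rw [htk, hm, hL, List.take_succ_cons]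
      intro h
      exact hab (List.cons.inj h).1
    · rw [List.length_take, List.length_take]
      omega
  · push Not at hco
    set st : ℕ → ℕ × ℕ := fun i => (L.getD (j i) 0,
      (fl f (L.take (j i + 1))).length - (fl f (K.take (i + 1))).length) with hst
    have hmem : ∀ i, i < ks.length → L.getD (j i) 0 < p := by
      intro i hi
      obtain ⟨h2, -, -⟩ := hj i hi
      rw [List.getD_eq_getElem _ _ h2]
      exact hl _ (List.getElem_mem h2)
    have hmaps : ∀ i ∈ Finset.range ks.length, st i ∈ Finset.range p ×ˢ Finset.range (T + 1) := by
      intro i hi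
      rw [Finset.mem_range] at hi
      obtain ⟨h2, h3, h4⟩ := hj i hi
      rw [Finset.mem_product, Finset.mem_range, Finset.mem_range]
      refine ⟨hmem i hi, ?_⟩
      rw [fl_take_succ f L h2, List.length_append] at h4
      have h5 := hT _ (hmem i hi)
      simp only [hst]
      rw [fl_take_succ f L h2, List.length_append]
      omega
    have hcard : (Finset.range p ×ˢ Finset.range (T + 1)).card < (Finset.range ks.length).card := by
      rw [Finset.card_product, Finset.card_range, Finset.card_range, Finset.card_range]
      exact hB
    obtain ⟨i, hi, i', hi', hne', hst'⟩ :=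
      Finset.exists_ne_map_eq_of_card_lt_of_maps_to hcard hmaps
    rw [Finset.mem_range] at hi hi'
    -- the overhang
    have hov : ∀ i, i < ks.length → fl f (K.take (i + 1)) ++ (f (st i).1).drop
        ((f (st i).1).length - (st i).2) = fl f (L.take (j i + 1)) := by
      intro i hi
      obtain ⟨h2, h3, h4⟩ := hj i hi
      set X := fl f (K.take (i + 1)) with hX
      have h5 : X ++ fl f (K.drop (i + 1)) = fl f (L.take (j i + 1)) ++ fl f (L.drop (j i + 1)) := by
        rw [hX, fl_take_drop, fl_take_drop, he]
      have h6 : X = (fl f (L.take (j i + 1))).take X.length := by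
        have h7 := congrArg (List.take X.length) h5
        rw [List.take_left, List.take_append_of_le_length (by omega)] at h7
        exact h7
      have h7 : (fl f (L.take (j i + 1))).drop X.length = (f (st i).1).drop
          ((f (st i).1).length - (st i).2) := by
        simp only [hst]
        rw [fl_take_succ f L h2, List.drop_append, List.drop_eq_nil_of_le h3, List.nil_append]
        congr 1
        rw [List.length_append]
        rw [fl_take_succ f L h2, List.length_append] at h4
        have hXl : X.length = (fl f (List.take (i + 1) K)).length := by rw [hX]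
        omega
      rw [← h7]
      nth_rewrite 1 [h6]
      exact List.take_append_drop _ _
    have key : ∀ i i', i < ks.length → i' < ks.length → i < i' → st i = st i' →
        ∃ ks' ls' : List ℕ, (∀ k ∈ ks', k < p) ∧ (∀ k ∈ ls', k < p) ∧ fl f ks' = fl f ls' ∧
          ks' ≠ ls' ∧ ks'.length + ls'.length < K.length + L.length := by
      intro i i' hi hi' hii he'
      obtain ⟨h2, h3, h4⟩ := hj i hi
      obtain ⟨h2', h3', h4'⟩ := hj i' hi'
      have hjj : j i ≤ j i' := by
        by_contra hcon
        push Not at hcon
        have h5 := fl_take_mono f L (show j i' + 1 ≤ j i by omega)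
        have h6 := fl_take_mono f K (show i + 1 ≤ i' + 1 by omega)
        omega
      have e1 := hov i hi
      have e2 := hov i' hi'
      rw [← he'] at e2
      set s := (f (st i).1).drop ((f (st i).1).length - (st i).2) with hs
      have e3 : fl f (K.take (i' + 1)) ++ fl f (K.drop (i' + 1)) =
          fl f (K.take (i' + 1)) ++ (s ++ fl f (L.drop (j i' + 1))) := by
        rw [fl_take_drop, ← List.append_assoc, e2, fl_take_drop, he]
      have e4 := List.append_cancel_left e3
      refine ⟨K.take (i + 1) ++ K.drop (i' + 1), L.take (j i + 1) ++ L.drop (j i' + 1), ?_, ?_, ?_,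
        ?_, ?_⟩
      · intro k hk'
        rcases List.mem_append.1 hk' with h | h
        · exact hk k (List.mem_of_mem_take h)
        · exact hk k (List.mem_of_mem_drop h)
      · intro k hk'
        rcases List.mem_append.1 hk' with h | h
        · exact hl k (List.mem_of_mem_take h)
        · exact hl k (List.mem_of_mem_drop h)
      · rw [fl_append, fl_append, e4, ← List.append_assoc, e1]
      · rw [htk, hL, List.take_succ_cons]
        intro h
        exact hab (List.cons.inj h).1
      · rw [List.length_append, List.length_append, List.length_take, List.length_take,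
          List.length_drop, List.length_drop]
        omega
    rcases lt_or_gt_of_ne hne' with h | h
    · exact key i i' hi hi' h hst'
    · exact key i' i hi' hi h hst'.symm

/-- Two different factorizations: there are two different factorizations with few factors. -/
theorem sp_short {p T : ℕ} (hT : ∀ k < p, (f k).length ≤ T) (hne : ∀ k < p, f k ≠ []) :
    ∀ (m : ℕ) (ks ls : List ℕ), ks.length + ls.length ≤ m → (∀ k ∈ ks, k < p) →
      (∀ k ∈ ls, k < p) → fl f ks = fl f ls → ks ≠ ls →
      ∃ ks' ls' : List ℕ, (∀ k ∈ ks', k < p) ∧ (∀ k ∈ ls', k < p) ∧ fl f ks' = fl f ls' ∧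
        ks' ≠ ls' ∧ ks'.length ≤ p * (T + 1) + 1 ∧ ls'.length ≤ p * (T + 1) + 1 := by
  intro m
  induction m with
  | zero =>
    intro ks ls h _ _ _ h4
    exfalso
    apply h4
    rw [List.length_eq_zero_iff.1 (show ks.length = 0 by omega),
      List.length_eq_zero_iff.1 (show ls.length = 0 by omega)]
  | succ m ih =>
    intro ks ls h h1 h2 h3 h4
    cases ks with
    | nil =>
      exfalso
      exact fl_ne_nil f hne h2 (Ne.symm h4) h3.symm
    | cons a ks =>
      cases ls with
      | nil =>
        exfalso
        exact fl_ne_nil f hne h1 h4 h3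
      | cons b ls =>
        by_cases hab : a = b
        · subst hab
          rw [fl_cons, fl_cons] at h3
          refine ih ks ls ?_ (fun k hk => h1 k (List.mem_cons_of_mem _ hk))
            (fun k hk => h2 k (List.mem_cons_of_mem _ hk)) (List.append_cancel_left h3)
            (fun h5 => h4 (by rw [h5]))
          rw [List.length_cons, List.length_cons] at h
          omega
        · by_cases hB : p * (T + 1) < ks.length
          · obtain ⟨ks', ls', g1, g2, g3, g4, g5⟩ := sp_shrink f hT hne hab h1 h2 h3 hB
            exact ih ks' ls' (by omega) g1 g2 g3 g4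
          · by_cases hB' : p * (T + 1) < ls.length
            · obtain ⟨ls', ks', g1, g2, g3, g4, g5⟩ := sp_shrink f hT hne (Ne.symm hab) h2 h1 h3.symm hB'
              exact ih ks' ls' (by omega) g2 g1 g3.symm (Ne.symm g4)
            · refine ⟨a :: ks, b :: ls, h1, h2, h3, h4, ?_, ?_⟩
              · rw [List.length_cons]
                omega
              · rw [List.length_cons]
                omega

end sp

/-- the words of the list are pairwise different and form a code -/
def CodeL (L : List (List ℕ)) : Prop := ∀ ks ls : List ℕ, (∀ k ∈ ks, k < L.length) →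
  (∀ k ∈ ls, k < L.length) →
  (ks.map fun k => L.getD k []).flatten = (ls.map fun k => L.getD k []).flatten → ks = ls

/-- the candidates for short factorizations -/
def candL (L : List (List ℕ)) : List (List ℕ) :=
  [] :: cand L.length (L.length * (L.flatten.length + 1))

theorem mem_candL {L : List (List ℕ)} {ks : List ℕ} : ks ∈ candL L ↔
    ks.length ≤ L.length * (L.flatten.length + 1) + 1 ∧ ∀ k ∈ ks, k < L.length := by
  unfold candL
  rw [List.mem_cons, mem_cand]
  constructor
  · rintro (rfl | ⟨-, h1, h2⟩)
    · simp
    · exact ⟨h1, h2⟩
  · rintro ⟨h1, h2⟩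
    by_cases h : ks = []
    · exact Or.inl h
    · exact Or.inr ⟨h, h1, h2⟩

theorem codeL_iff (L : List (List ℕ)) : CodeL L ↔ ∀ ks ∈ candL L, ∀ ls ∈ candL L,
    ¬ (ks.map fun k => L.getD k []).flatten = (ls.map fun k => L.getD k []).flatten ∨ ks = ls := by
  constructor
  · intro h ks hks ls hls
    rw [mem_candL] at hks hls
    by_cases h1 : (ks.map fun k => L.getD k []).flatten = (ls.map fun k => L.getD k []).flatten
    · exact Or.inr (h ks ls hks.2 hls.2 h1)
    · exact Or.inl h1
  · intro h ks ls hks hls he
    by_contra hne
    by_cases hE : ∃ k, k < L.length ∧ L.getD k [] = []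
    · obtain ⟨k, hk, hk'⟩ := hE
      rcases h [k] (mem_candL.2 ⟨by simp, by simpa using hk⟩) [] (mem_candL.2 ⟨by simp, by simp⟩)
        with h1 | h1
      · apply h1
        simp only [List.map_cons, List.map_nil, List.flatten_cons, List.flatten_nil, List.append_nil]
        exact hk'
      · simp at h1
    · push Not at hE
      have hT : ∀ k < L.length, ((fun k => L.getD k []) k).length ≤ L.flatten.length := by
        intro k hk
        simp only
        rw [List.getD_eq_getElem _ _ hk]
        exact (List.sublist_flatten_of_mem (List.getElem_mem hk)).length_le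
      obtain ⟨ks', ls', g1, g2, g3, g4, g5, g6⟩ := sp_short (fun k => L.getD k []) hT hE _ ks ls
        le_rfl hks hls he hne
      rcases h ks' (mem_candL.2 ⟨g5, g1⟩) ls' (mem_candL.2 ⟨g6, g2⟩) with h1 | h1
      · exact h1 g3
      · exact g4 h1

section prim

open Primrec

theorem prim_candL : Primrec candL := by
  refine list_cons.comp (const []) (prim_cand.comp list_length ?_)
  exact nat_mul.comp list_length (succ.comp (list_length.comp list_flatten))

theorem prim_flat : Primrec₂ (fun (L : List (List ℕ)) (ks : List ℕ) =>
    (ks.map fun k => L.getD k []).flatten) := by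
  refine (list_flatten.comp (list_map (f := fun y : List (List ℕ) × List ℕ => y.2)
    (g := fun y k => y.1.getD k []) snd ?_)).to₂
  exact (list_getD []).comp₂ (fst.comp fst).to₂ snd.to₂

theorem codeL_prim : PrimrecPred CodeL := by
  have h1 : PrimrecRel (fun (ls : List ℕ) (x : List ℕ × List (List ℕ)) =>
      ¬ (x.1.map fun k => x.2.getD k []).flatten = (ls.map fun k => x.2.getD k []).flatten ∨
        x.1 = ls) := by
    refine PrimrecPred.or ?_ ?_
    · refine PrimrecPred.not ?_
      refine Primrec.eq.comp ?_ ?_
      · exact prim_flat.comp (snd.comp snd) (fst.comp snd)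
      · exact prim_flat.comp (snd.comp snd) fst
    · exact Primrec.eq.comp (fst.comp snd) fst
  have h2 : PrimrecRel (fun (ks : List ℕ) (L : List (List ℕ)) => ∀ ls ∈ candL L,
      ¬ (ks.map fun k => L.getD k []).flatten = (ls.map fun k => L.getD k []).flatten ∨
        ks = ls) := by
    refine (h1.forall_mem_list.comp (f := fun y : List ℕ × List (List ℕ) => candL y.2)
      (g := fun y => y) (prim_candL.comp snd) .id)
  have h3 : PrimrecPred (fun L : List (List ℕ) => ∀ ks ∈ candL L, ∀ ls ∈ candL L,
      ¬ (ks.map fun k => L.getD k []).flatten = (ls.map fun k => L.getD k []).flatten ∨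
        ks = ls) :=
    h2.forall_mem_list.comp (f := candL) (g := fun L => L) prim_candL .id
  exact h3.of_eq fun L => (codeL_iff L).symm

theorem codeL_comp : ComputablePred CodeL := by
  obtain ⟨hd, h⟩ := codeL_prim
  exact ⟨hd, h.to_comp⟩

end prim

end D0L
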