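import Pool.Agent.H.MP_374efc_lc.Shell

/-!
# MP_374efc_lc: membership in a finitely generated submonoid is primitive recursive

`prim_mem`: whether the word `x.1` is a nonempty product of words of the list `x.2`.
-/

set_option autoImplicit false

namespace D0L

/-- `v` is a nonempty product of words of the list `L`. -/
def ProdOf (v : List ℕ) (L : List (List ℕ)) : Prop :=
  ∃ js : List ℕ, js ≠ [] ∧ (∀ j ∈ js, j < L.length) ∧ v = (js.map fun k => L.getD k []).flatten

theorem prodOf_iff_cand (v : List ℕ) (L : List (List ℕ)) :
    ProdOf v L ↔ ∃ js ∈ cand L.length v.length, (js.map fun k => L.getD k []).flatten = v := by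
  constructor
  · rintro ⟨js, h1, h2, h3⟩
    obtain ⟨h4, h5⟩ := drop_empty (fun k => L.getD k []) js
    have h6 : (js.map fun k => L.getD k []).flatten = v := h3.symm
    by_cases hne : js.filter (fun j => !(L.getD j []).isEmpty) = []
    · rw [hne] at h4
      simp only [List.map_nil, List.flatten_nil] at h4
      match js, h1, h2, h3, h4, hne with
      | j :: js, _, h2, h3, h4, hne =>
        refine ⟨[j], mem_cand.2 ⟨by simp, by simp, ?_⟩, ?_⟩
        · intro i hi
          rw [List.mem_singleton] at hi
          rw [hi]
          exact h2 j (by simp)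
        · rw [List.map_cons, List.flatten_cons] at h4 h6
          have h7 := List.append_eq_nil_iff.1 h4.symm
          rw [h7.1, h7.2] at h6
          simp only [List.map_cons, List.map_nil, List.flatten_cons, List.flatten_nil]
          rw [h7.1, ← h6]
    · refine ⟨_, mem_cand.2 ⟨hne, ?_, ?_⟩, h4.trans h6⟩
      · rw [h6] at h5
        omega
      · intro j hj
        exact h2 j (List.mem_filter.1 hj).1
  · rintro ⟨js, h1, h2⟩
    obtain ⟨h3, _, h5⟩ := mem_cand.1 h1
    exact ⟨js, h3, h5, h2.symm⟩

section prim

open Primrec

/-- Whether a word is a nonempty product of words of a list is primitive recursive. -/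
theorem prim_prodOf : PrimrecPred (fun x : List ℕ × List (List ℕ) => ProdOf x.1 x.2) := by
  have h1 : PrimrecRel (fun (js : List ℕ) (x : List ℕ × List (List ℕ)) =>
      (js.map fun k => x.2.getD k []).flatten = x.1) := by
    refine Primrec.eq.comp₂ ?_ ?_
    · refine (list_flatten.comp (list_map
        (f := fun y : List ℕ × (List ℕ × List (List ℕ)) => y.1)
        (g := fun y j => y.2.2.getD j []) fst ?_)).to₂
      exact (list_getD []).comp₂ ((snd.comp snd).comp fst).to₂ snd.to₂
    · exact (fst.comp snd).to₂
  have h2 := h1.exists_mem_list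
  have h3 : PrimrecPred (fun x : List ℕ × List (List ℕ) =>
      ∃ js ∈ cand x.2.length x.1.length, (js.map fun k => x.2.getD k []).flatten = x.1) := by
    refine h2.comp (f := fun x : List ℕ × List (List ℕ) => cand x.2.length x.1.length)
      (g := fun x => x) ?_ .id
    exact prim_cand.comp (list_length.comp snd) (list_length.comp fst)
  exact h3.of_eq (fun x => (prodOf_iff_cand x.1 x.2).symm)

theorem prim_mem : PrimrecPred (fun x : List ℕ × List (List ℕ) => ∃ js : List ℕ, js ≠ [] ∧
    (∀ j ∈ js, j < x.2.length) ∧ x.1 = (js.map fun k => x.2.getD k []).flatten) :=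
  prim_prodOf

end prim

end D0L
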