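import Pool.Agent.H.MP_374efc_lc.Zt.Qm
import Pool.Agent.H.MP_374efc_lc.Zt.Sp
import Pool.Agent.H.MP_374efc_lc.Zt.Sq
import Pool.Agent.H.MP_374efc_lc.Zt.Sk

/-!
# MP_374efc_lc: locally catenative over a code is decidable, assembly
-/

set_option autoImplicit false

namespace D0L

/-- The word is a nonempty product of words of the list. -/
def ProdL (x : List ℕ) (L : List (List ℕ)) : Prop :=
  ∃ js : List ℕ, js ≠ [] ∧ (∀ j ∈ js, j < L.length) ∧ x = (js.map fun k => L.getD k []).flatten

/-- The words `w_n, .., w_(n+d-1)`. -/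
def win (s : List (List ℕ) × List ℕ) (n d : ℕ) : List (List ℕ) :=
  (List.range d).map fun i => sqn s (n + i)

theorem win_length (s : List (List ℕ) × List ℕ) (n d : ℕ) : (win s n d).length = d := by
  simp [win]

theorem win_getD (s : List (List ℕ) × List ℕ) (n d : ℕ) {k : ℕ} (hk : k < d) :
    (win s n d).getD k [] = sqn s (n + k) := by
  rw [List.getD_eq_getElem _ _ (by rwa [win_length])]
  simp [win]

theorem win_prod (s : List (List ℕ) × List ℕ) (n d : ℕ) {ks : List ℕ} (hk : ∀ k ∈ ks, k < d) :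
    (ks.map fun k => (win s n d).getD k []).flatten = (ks.map fun k => it (hs s) (n + k) s.2).flatten := by
  congr 1
  apply List.map_congr_left
  intro k hk'
  exact win_getD s n d (hk k hk')

theorem code_win (s : List (List ℕ) × List ℕ) (n d : ℕ) :
    CodeL (win s n d) ↔ Cdw (hs s) s.2 n d := by
  unfold CodeL Cdw
  rw [win_length]
  constructor
  · intro h ks ls h1 h2 h3
    apply h ks ls h1 h2
    rw [win_prod s n d h1, win_prod s n d h2, h3]
  · intro h ks ls h1 h2 h3
    apply h ks ls h1 h2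
    rw [← win_prod s n d h1, ← win_prod s n d h2, h3]

theorem prod_win (s : List (List ℕ) × List ℕ) (n d : ℕ) :
    ProdL (sqn s (n + d)) (win s n d) ↔ Rdw (hs s) s.2 n d := by
  unfold ProdL Rdw
  rw [win_length]
  constructor
  · rintro ⟨js, h1, h2, h3⟩
    exact ⟨js, h1, h2, by rw [← win_prod s n d h2, ← h3]; rfl⟩
  · rintro ⟨js, h1, h2, h3⟩
    exact ⟨js, h1, h2, by rw [win_prod s n d h2, ← h3]; rfl⟩

/-! ### from the alphabet `Fin (nl s)` to the numbers -/

theorem prod_val (s : List (List ℕ) × List ℕ) (n : ℕ) (js : List ℕ) :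
    ((js.map (fun j => it (hf s) (n + j) (wf s))).flatten).map Fin.val =
      (js.map (fun j => it (hs s) (n + j) s.2)).flatten := by
  rw [List.map_flatten, List.map_map]
  congr 1
  apply List.map_congr_left
  intro j _
  exact it_val s (n + j)

theorem cdw_val (s : List (List ℕ) × List ℕ) (n d : ℕ) :
    Cdw (hf s) (wf s) n d ↔ Cdw (hs s) s.2 n d := by
  constructor
  · intro h ks ls h1 h2 h3
    apply h ks ls h1 h2
    apply List.map_injective_iff.2 Fin.val_injective
    rw [prod_val, prod_val, h3]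
  · intro h ks ls h1 h2 h3
    apply h ks ls h1 h2
    rw [← prod_val, ← prod_val, h3]

theorem rdw_val (s : List (List ℕ) × List ℕ) (n d : ℕ) :
    Rdw (hf s) (wf s) n d ↔ Rdw (hs s) s.2 n d := by
  constructor
  · rintro ⟨js, h1, h2, h3⟩
    refine ⟨js, h1, h2, ?_⟩
    rw [← prod_val, ← h3]
    exact (it_val s (n + d)).symm
  · rintro ⟨js, h1, h2, h3⟩
    refine ⟨js, h1, h2, ?_⟩
    apply List.map_injective_iff.2 Fin.val_injective
    rw [prod_val, ← h3]
    exact it_val s (n + d)

/-- The bounded form. -/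
theorem clc_iff {F : ℕ → ℕ} (hB : BdOn (fun _ _ h w => CK h w) F)
    (hker : ∀ (α : Type) [Fintype α] (h : α → List α) (m : ℕ) (x y : List α),
      it h m x = it h m y → it h (Fintype.card α) x = it h (Fintype.card α) y)
    (s : List (List ℕ) × List ℕ) :
    CLC (hs s) s.2 ↔ ∃ d < F (sz s) + 1, CodeL (win s (nl s) d) ∧
      ProdL (sqn s (nl s + d)) (win s (nl s) d) := by
  constructor
  · rintro ⟨n, d, h1, h2⟩
    have h3 : CK (hf s) (wf s) := CLC.ck ⟨n, d, (cdw_val s n d).2 h1, (rdw_val s n d).2 h2⟩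
    obtain ⟨p, hp, hp'⟩ := hB (Fin (nl s)) (hf s) (wf s) (sz s) (sz_ok s) h3 h3.lc
    obtain ⟨d', h4, n', h5⟩ := h3
    refine ⟨d', ?_, ?_, ?_⟩
    · have := CK.le_of_rel (h4 0) hp'
      omega
    · rw [code_win, ← cdw_val]
      exact h4 _
    · rw [prod_win, ← rdw_val]
      obtain ⟨js, e1, e2, e3⟩ := h5
      refine ⟨js, e1, e2, ?_⟩
      have e4 : it (hf s) n' (it (hf s) d' (wf s)) =
          it (hf s) n' (js.map fun k => it (hf s) (0 + k) (wf s)).flatten := by
        rw [it_prod, ← it_add, e3]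
        rfl
      have e5 := hker (Fin (nl s)) (hf s) n' _ _ e4
      rw [Fintype.card_fin, it_prod, ← it_add] at e5
      exact e5
  · rintro ⟨d, -, h1, h2⟩
    exact ⟨nl s, d, (code_win s _ d).1 h1, (prod_win s _ d).1 h2⟩

/-- **Locally catenative over a code is decidable.** -/
theorem clc_computable (hcode : PrimrecPred CodeL)
    (hprod : PrimrecPred (fun x : List ℕ × List (List ℕ) => ProdL x.1 x.2))
    (hker : ∀ (α : Type) [Fintype α] (h : α → List α) (m : ℕ) (x y : List α),
      it h m x = it h m y → it h (Fintype.card α) x = it h (Fintype.card α) y) :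
    ComputablePred (fun s : List (List ℕ) × List ℕ => CLC (hs s) s.2) := by
  obtain ⟨F, hF, hB⟩ := bound_ck
  have hnl : Primrec nl := by
    have h1 : Primrec (fun s : List (List ℕ) × List ℕ => s.1.flatten) :=
      Primrec.list_flatten.comp Primrec.fst
    refine Primrec.succ.comp ?_
    exact Primrec.nat_add.comp (Primrec.nat_add.comp (Primrec.list_length.comp Primrec.fst)
      (prim_sum.comp h1)) (prim_sum.comp Primrec.snd)
  have hwin : Primrec (fun x : (List (List ℕ) × List ℕ) × ℕ => win x.1 (nl x.1) x.2) := by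
    refine Primrec.list_map (Primrec.list_range.comp Primrec.snd) ?_
    refine prim_sqn.comp₂ (Primrec.fst.comp Primrec.fst).to₂ ?_
    exact (Primrec.nat_add.comp (hnl.comp (Primrec.fst.comp Primrec.fst)) Primrec.snd).to₂
  have hx : Primrec (fun x : (List (List ℕ) × List ℕ) × ℕ => sqn x.1 (nl x.1 + x.2)) :=
    prim_sqn.comp Primrec.fst (Primrec.nat_add.comp (hnl.comp Primrec.fst) Primrec.snd)
  have h1 : PrimrecRel (fun (s : List (List ℕ) × List ℕ) (d : ℕ) => CodeL (win s (nl s) d) ∧
      ProdL (sqn s (nl s + d)) (win s (nl s) d)) :=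
    (hcode.comp hwin).and (hprod.comp (hx.pair hwin))
  have h2 : PrimrecRel (fun (m : ℕ) (s : List (List ℕ) × List ℕ) => ∃ d < m,
      (CodeL (win s (nl s) d) ∧ ProdL (sqn s (nl s + d)) (win s (nl s) d))) :=
    ((PrimrecRel.exists_mem_list (R := fun (d : ℕ) (s : List (List ℕ) × List ℕ) =>
      CodeL (win s (nl s) d) ∧ ProdL (sqn s (nl s + d)) (win s (nl s) d)) h1.swap).comp
      (Primrec.list_range.comp Primrec.fst) Primrec.snd).of_eq (by simp)
  obtain ⟨hd, h3⟩ := h2
  refine ComputablePred.of_eq (p := fun s => ∃ d < F (sz s) + 1, (CodeL (win s (nl s) d) ∧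
    ProdL (sqn s (nl s + d)) (win s (nl s) d))) ?_ (fun s => (clc_iff hB hker s).symm)
  refine ⟨fun s => hd (F (sz s) + 1, s), ?_⟩
  exact h3.to_comp.comp ((Computable.succ.comp (hF.comp prim_sz.to_comp)).pair Computable.id)

/-- **Locally catenative over a code is decidable.** -/
theorem clc_comp : ComputablePred (fun s : List (List ℕ) × List ℕ => CLC (hs s) s.2) :=
  clc_computable codeL_prim prim_mem (fun _ _ h m x y hm => it_ker h m x y hm)

end D0L
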