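import Pool.Agent.H.MP_374efc_lc.Zt.CtC
import Pool.Agent.H.MP_374efc_lc.Cr.Gc

/-!
# MP_374efc_lc: loop certificates in words

`LoopN`: the loop certificate with words of one level; positive tests at level `L`, negative tests at level
`L + kap`, `kap` the constant of the level lemma (`Hlev`).  `LoopN.sound` needs the level lemma, `loopN_of_loop`
does not.
-/

set_option autoImplicit false

namespace D0L

open Bim

/-- Products of words of the system. -/
def ckf {α : Type} (H : α → List α) (b0 : List α) (js : List ℕ) : List α :=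
  (js.map fun j => it H j b0).flatten

/-- Neither word is a prefix of the other. -/
def NoPre {α : Type} (u v : List α) : Prop := ¬ u <+: v ∧ ¬ v <+: u

/-- Loop certificate in words. -/
structure LoopN {α : Type} (H : α → List α) (b0 : List α) (kap e L : ℕ) (pre cyc : List ℕ) (D : ℕ)
    (x : List α) : Prop where
  ne : cyc ≠ []
  dvd : it H L b0 ++ (ckf H b0 pre ++ it H D x) <+: it H (L + e) b0
  shift : ckf H b0 cyc ++ x <+: it H D x
  pre_inc : ∀ k < pre.length, NoPre
    (it H kap (it H L b0 ++ (ckf H b0 (pre.take k) ++ it H (pre.getD k 0 + e) b0)))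
    (it H kap (it H (L + e) b0))
  cyc_inc : ∀ k < cyc.length, NoPre
    (it H kap (ckf H b0 (cyc.take k) ++ it H (cyc.getD k 0 + e) b0)) (it H kap (it H D x))

/-- The level lemma with constant `kap`. -/
def Hlev {α : Type} (H : α → List α) (kap : ℕ) : Prop :=
  ∀ (u b A B : List α) (M i j : ℕ), Legal H u → Legal H b → b ≠ [] → i ≤ M → j + kap ≤ i →
    it H M u = A ++ (it H i b ++ B) →
      ∃ y1 y3, it H (M - j) u = y1 ++ (it H (i - j) b ++ y3) ∧ it H j y1 = A ∧ it H j y3 = B

theorem it_prefix {α : Type} (H : α → List α) (k : ℕ) {u v : List α} (h : u <+: v) :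
    it H k u <+: it H k v := by
  obtain ⟨z, rfl⟩ := h
  rw [it_append]
  exact List.prefix_append _ _

theorem it_prefix_mono {α : Type} {H : α → List α} {d k : ℕ} (hd : d ≤ k) {u v : List α}
    (h : it H d u <+: it H d v) : it H k u <+: it H k v := by
  obtain ⟨c, rfl⟩ : ∃ c, k = c + d := ⟨k - d, by omega⟩
  rw [it_add, it_add]
  exact it_prefix H c h

section

variable {α : Type} {H : α → List α} {b0 : List α} {kap : ℕ}

/-- A token inside a token is cut out at level `kap`. -/
theorem Hlev.tok [HInj H] (hlev : Hlev H kap) (hleg : Legal H b0) (hb : b0 ≠ []) {d m M : ℕ}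
    {q : List α} (hmM : m ≤ M) (h : it H d (q ++ it H m b0) <+: it H d (it H M b0)) :
    it H kap (q ++ it H m b0) <+: it H kap (it H M b0) := by
  rcases le_total d kap with hd | hd
  · exact it_prefix_mono hd h
  · obtain ⟨B, hB⟩ := h
    have h1 : it H (d + M) b0 = it H d q ++ (it H (d + m) b0 ++ B) := by
      rw [it_add, ← hB, it_append, it_add, List.append_assoc]
    obtain ⟨y1, y3, h2, h3, -⟩ := hlev b0 b0 _ _ (d + M) (d + m) (d - kap) hleg hleg hb (by omega)
      (by omega) h1
    have h4 : y1 = it H kap q := by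
      apply col_it_inj H (d - kap)
      rw [h3, ← it_add]
      congr 1
      omega
    refine ⟨y3, ?_⟩
    rw [show d + M - (d - kap) = kap + M by omega, show d + m - (d - kap) = kap + m by omega,
      it_add, it_add, h4] at h2
    rw [it_append, h2, List.append_assoc]

/-- A legal word which divides a token is a prefix at level `kap`. -/
theorem Hlev.leg [HInj H] (hlev : Hlev H kap) (hne : ∀ a, H a ≠ []) (hleg : Legal H b0)
    {d m : ℕ} {y : List α} (hy : Legal H y) (hy0 : y ≠ [])
    (h : it H d y <+: it H d (it H m b0)) : it H kap y <+: it H kap (it H m b0) := by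
  rcases le_total d kap with hd | hd
  · exact it_prefix_mono hd h
  · obtain ⟨B, hB⟩ := h
    have h1 : it H (d + m) b0 = [] ++ (it H d y ++ B) := by
      rw [it_add, ← hB, List.nil_append]
    obtain ⟨y1, y3, h2, h3, -⟩ := hlev b0 y _ _ (d + m) d (d - kap) hleg hy hy0 (by omega)
      (by omega) h1
    have h4 : y1 = [] := by
      have h5 := length_le_it hne (d - kap) y1
      rw [h3, List.length_nil] at h5
      exact List.length_eq_zero_iff.1 (Nat.le_zero.1 h5)
    refine ⟨y3, ?_⟩
    rw [show d + m - (d - kap) = kap + m by omega, show d - (d - kap) = kap by omega, it_add, h4,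
      List.nil_append] at h2
    rw [h2]

theorem legal_it' {w : List α} (hw : Legal H w) (m : ℕ) : Legal H (it H m w) := by
  obtain ⟨c, k, u, v, h⟩ := hw
  refine ⟨c, m + k, it H m u, it H m v, ?_⟩
  rw [← it_append, ← it_append, h, it_add]

theorem legal_infix' {u v : List α} (hv : Legal H v) (h : u <:+: v) : Legal H u := by
  obtain ⟨c, n, hn⟩ := hv
  exact ⟨c, n, h.trans hn⟩

end

section

variable {n : ℕ} {H : Fin n → List (Fin n)} {b0 : List (Fin n)} {lam : ℝ} {l : Fin n → ℝ}

/-- Products of tokens at one level. -/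
theorem mk_ckf [HInj H] (hw : PW H b0 lam l) (L : ℕ) (js : List ℕ) :
    (tkN hw).pr (js.map fun j : ℕ => (j : ℤ) - L) = Col.mk H L (ckf H b0 js) :=
  (mk_flat hw L js).symm

/-- **Soundness of the word form.** -/
theorem LoopN.sound [HInj H] (hw : PW H b0 lam l) (hne : ∀ a, H a ≠ []) {kap e L D : ℕ}
    (hlev : Hlev H kap) (hleg : Legal H b0) (hb : b0 ≠ []) {pre cyc : List ℕ} {x : List (Fin n)}
    (h : LoopN H b0 kap e L pre cyc D x) :
    Tk.Loop (tkN hw) e (pre.map fun j : ℕ => (j : ℤ) - L) (cyc.map fun j : ℕ => (j : ℤ) - L) D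
      (Col.mk H L (it H D x)) := by
  have hw0 : (tkN hw).w 0 = Col.mk H L (it H L b0) := by
    have := tkN_w hw L L
    rwa [sub_self] at this
  have hwe : (tkN hw).w e = Col.mk H L (it H (L + e) b0) := by
    have := tkN_w hw L (L + e)
    rwa [show (((L + e : ℕ) : ℤ) - L) = (e : ℤ) by push_cast; ring] at this
  have hwa : ∀ a : ℕ, (tkN hw).w ((a : ℤ) - L + e) = Col.mk H L (it H (a + e) b0) := by
    intro a
    have := tkN_w hw L (a + e)
    rwa [show (((a + e : ℕ) : ℤ) - L) = (a : ℤ) - L + e by push_cast; ring] at this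
  have hsx : (tkN hw).s (-(D : ℤ)) (Col.mk H L (it H D x)) = Col.mk H L x := by
    rw [tkN_s, Col.sft_neg_mk, Nat.add_comm, Col.mk_lift]
  have hlegM : ∀ m, Legal H (it H m b0) := fun m => legal_it' hleg m
  -- no token of larger index inside
  have hmM : ∀ {d m M : ℕ} {q : List (Fin n)}, it H d (q ++ it H m b0) <+: it H d (it H M b0) →
      m ≤ M := by
    rintro d m M q ⟨z, hz⟩
    have h1 := congrArg (lw l) hz
    rw [lw_append, hw.lw_it, hw.lw_it, lw_append, hw.lw_it, hw.lw_it, hw.ax, mul_one, mul_one] at h1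
    have h2 := lw_nonneg hw.pos z
    have h3 := lw_nonneg hw.pos q
    have h4 := pow_pos hw.lam_pos d
    have h5 : lam ^ m ≤ lam ^ M := by
      have h6 : lam ^ d * lam ^ m ≤ lam ^ d * lam ^ M := by nlinarith
      exact le_of_mul_le_mul_left h6 h4
    exact (pow_le_pow_iff_right₀ hw.one_lt).1 h5
  -- the tests (B)
  have hB : ∀ {p y : List (Fin n)} {m : ℕ}, Legal H y →
      ¬ it H kap (p ++ y) <+: it H kap (p ++ it H m b0) →
      ¬ Col.mk H L (p ++ y) ∣ Col.mk H L (p ++ it H m b0) := by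
    intro p y m hy h1 h2
    obtain ⟨d, hd⟩ := Col.mk_dvd.1 h2
    apply h1
    rw [it_append, it_append] at hd ⊢
    rw [List.prefix_append_right_inj] at hd ⊢
    by_cases hy0 : y = []
    · rw [hy0, it_nil]
      exact List.nil_prefix
    · exact hlev.leg hne hleg hy hy0 hd
  refine ⟨?_, ?_, ?_, ?_, ?_⟩
  · intro h1
    exact h.ne (List.map_eq_nil_iff.1 h1)
  · rw [hw0, hwe, mk_ckf, mul_assoc, Col.mk_mul_mk, Col.mk_mul_mk]
    exact Col.mk_dvd.2 ⟨0, h.dvd⟩
  · rw [hsx, mk_ckf, Col.mk_mul_mk]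
    exact Col.mk_dvd.2 ⟨0, h.shift⟩
  · intro is1 i is2 his
    obtain ⟨l1, l2, rfl, rfl, hl2⟩ := List.map_eq_append_iff.1 his
    obtain ⟨a, l3, rfl, rfl, rfl⟩ := List.map_eq_cons_iff.1 hl2
    have h1 := h.pre_inc l1.length (by simp)
    rw [List.take_left, List.getD_append_right _ _ _ _ le_rfl, Nat.sub_self,
      List.getD_cons_zero, ← List.append_assoc] at h1
    obtain ⟨y, hy⟩ : it H L b0 ++ ckf H b0 l1 <+: it H (L + e) b0 := by
      refine List.IsPrefix.trans ?_ h.dvd
      refine ⟨(it H a b0 ++ ckf H b0 l3) ++ it H D x, ?_⟩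
      simp only [ckf, List.map_append, List.map_cons, List.flatten_append, List.flatten_cons,
        List.append_assoc]
    rw [hw0, hwe, mk_ckf, hwa, Col.mk_mul_mk, Col.mk_mul_mk]
    constructor
    · intro h2
      obtain ⟨d, hd⟩ := Col.mk_dvd.1 h2
      exact h1.1 (hlev.tok hleg hb (hmM hd) hd)
    · rw [← hy]
      refine hB (legal_infix' (hlegM (L + e)) ⟨it H L b0 ++ ckf H b0 l1, [], ?_⟩) ?_
      · rw [List.append_nil, hy]
      · rw [hy]
        exact h1.2
  · intro is1 i is2 his
    obtain ⟨l1, l2, rfl, rfl, hl2⟩ := List.map_eq_append_iff.1 his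
    obtain ⟨a, l3, rfl, rfl, rfl⟩ := List.map_eq_cons_iff.1 hl2
    have h1 := h.cyc_inc l1.length (by simp)
    rw [List.take_left, List.getD_append_right _ _ _ _ le_rfl, Nat.sub_self,
      List.getD_cons_zero] at h1
    obtain ⟨y, hy⟩ : ckf H b0 l1 <+: it H D x := by
      refine List.IsPrefix.trans ?_ h.shift
      refine ⟨(it H a b0 ++ ckf H b0 l3) ++ x, ?_⟩
      simp only [ckf, List.map_append, List.map_cons, List.flatten_append, List.flatten_cons,
        List.append_assoc]
    rw [mk_ckf, hwa, Col.mk_mul_mk]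
    constructor
    · intro h2
      obtain ⟨q0, hq0⟩ : ∃ q0, q0 = it H L b0 ++ ckf H b0 pre := ⟨_, rfl⟩
      have h3 := h.dvd
      rw [← List.append_assoc, ← hq0] at h3
      obtain ⟨d, hd⟩ := Col.mk_dvd.1 h2
      have h4 : it H d ((q0 ++ ckf H b0 l1) ++ it H (a + e) b0) <+: it H d (it H (L + e) b0) := by
        refine List.IsPrefix.trans ?_ (it_prefix H d h3)
        rw [List.append_assoc, it_append, it_append H d q0 (it H D x),
          List.prefix_append_right_inj]
        exact hd
      have h5 := hlev.tok hleg hb (hmM h4) h4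
      have h6 := it_prefix H kap h3
      rw [List.append_assoc, it_append] at h5
      rw [it_append] at h6
      rcases List.prefix_or_prefix_of_prefix h5 h6 with h7 | h7
      · exact h1.1 ((List.prefix_append_right_inj _).1 h7)
      · exact h1.2 ((List.prefix_append_right_inj _).1 h7)
    · rw [← hy]
      refine hB (legal_infix' (hlegM (L + e))
        ⟨it H L b0 ++ (ckf H b0 pre ++ ckf H b0 l1), ?_⟩) ?_
      · obtain ⟨z, hz⟩ := h.dvd
        refine ⟨z, ?_⟩
        rw [← hz, ← hy]
        simp only [List.append_assoc]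
      · rw [hy]
        exact h1.2

/-- The representation of tokens at a level. -/
theorem tok_at [HInj H] (hw : PW H b0 lam l) (L : ℕ) {is : List ℤ} (his : ∀ i ∈ is, 0 ≤ L + i) :
    (tkN hw).pr is = Col.mk H L (ckf H b0 (is.map fun i : ℤ => (L + i).toNat)) := by
  rw [← mk_ckf hw, List.map_map]
  congr 1
  conv_lhs => rw [← List.map_id is]
  refine List.map_congr_left fun i hi => ?_
  have := his i hi
  simp only [id, Function.comp]
  rw [Int.toNat_of_nonneg this]
  ring

/-- **The word form exists.** -/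
theorem loopN_of_loop [HInj H] (hw : PW H b0 lam l) {e D : ℕ} {pre cyc : List ℤ} {x : Col H}
    (h : Tk.Loop (tkN hw) e pre cyc D x) (kap : ℕ) :
    ∃ (L : ℕ) (pre' cyc' : List ℕ) (x' : List (Fin n)), LoopN H b0 kap e L pre' cyc' D x' := by
  obtain ⟨K, hK⟩ := Col.rep_ge ((tkN hw).s (-(D : ℤ)) x)
  obtain ⟨L, hKL, hL1, hL2⟩ : ∃ L : ℕ, K ≤ L ∧ (∀ i ∈ pre, 0 ≤ L + i) ∧
      ∀ i ∈ cyc, 0 ≤ L + i := by
    obtain ⟨Q, hQ⟩ : ∃ Q, Q = ((pre ++ cyc).map Int.natAbs).sum := ⟨_, rfl⟩
    have h1 : ∀ i ∈ pre ++ cyc, i.natAbs ≤ Q := fun i hi => by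
      rw [hQ]
      exact List.single_le_sum (fun _ _ => Nat.zero_le _) _ (List.mem_map.2 ⟨i, hi, rfl⟩)
    refine ⟨K + Q, by omega, ?_, ?_⟩
    · intro i hi
      have := h1 i (by simp [hi])
      omega
    · intro i hi
      have := h1 i (by simp [hi])
      omega
  obtain ⟨u, hu⟩ := hK L hKL
  have hx : x = Col.mk H L (it H D u) := by
    have h1 := congrArg ((tkN hw).s (D : ℤ)) hu
    rw [Tk.s_neg'] at h1
    rw [h1, tkN_s, Col.sft_nat_mk]
  have hw0 : ∀ M : ℕ, (tkN hw).w 0 = Col.mk H M (it H M b0) := by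
    intro M
    have := tkN_w hw M M
    rwa [sub_self] at this
  have hwe : ∀ M : ℕ, (tkN hw).w e = Col.mk H M (it H (M + e) b0) := by
    intro M
    have := tkN_w hw M (M + e)
    rwa [show (((M + e : ℕ) : ℤ) - M) = (e : ℤ) by push_cast; ring] at this
  have h1 := h.dvd
  rw [hw0 L, hwe L, hx, tok_at hw L hL1, mul_assoc, Col.mk_mul_mk, Col.mk_mul_mk] at h1
  have h2 := h.shift
  rw [hu, hx, tok_at hw L hL2, Col.mk_mul_mk] at h2
  obtain ⟨d1, hd1⟩ := Col.mk_dvd.1 h1
  obtain ⟨d2, hd2⟩ := Col.mk_dvd.1 h2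
  obtain ⟨d, hd⟩ : ∃ d, d = d1 + d2 := ⟨_, rfl⟩
  have hd1' := it_prefix_mono (show d1 ≤ d by omega) hd1
  have hd2' := it_prefix_mono (show d2 ≤ d by omega) hd2
  have hckf : ∀ is : List ℤ, (∀ i ∈ is, 0 ≤ L + i) →
      it H d (ckf H b0 (is.map fun i : ℤ => (L + i).toNat)) =
        ckf H b0 (is.map fun i : ℤ => (((d + L : ℕ) : ℤ) + i).toNat) := by
    intro is his
    induction is with
    | nil => exact it_nil H d
    | cons i is ih =>
      have h3 := his i (by simp)
      have e1 : (((d + L : ℕ) : ℤ) + i).toNat = d + (L + i).toNat := by omega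
      rw [ckf, List.map_cons, List.map_cons, List.flatten_cons, it_append, ← it_add, ← ckf,
        ih fun j hj => his j (by simp [hj]), List.map_cons, ckf, ckf, List.map_cons,
        List.flatten_cons, e1]
  have hxM : x = Col.mk H (d + L) (it H D (it H d u)) := by
    rw [hx, ← Col.mk_lift L d, ← it_add, ← it_add, Nat.add_comm D d]
  have hpos1 : ∀ i ∈ pre, 0 ≤ ((d + L : ℕ) : ℤ) + i := fun i hi => by
    have := hL1 i hi
    push_cast
    omega
  have hpos2 : ∀ i ∈ cyc, 0 ≤ ((d + L : ℕ) : ℤ) + i := fun i hi => by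
    have := hL2 i hi
    push_cast
    omega
  -- incomparable elements give words without prefix relation
  have hinc : ∀ (a b : List (Fin n)), Tk.Inc (Col.mk H (d + L) a) (Col.mk H (d + L) b) →
      NoPre (it H kap a) (it H kap b) := by
    rintro a b ⟨h3, h4⟩
    exact ⟨fun h5 => h3 (Col.mk_dvd.2 ⟨kap, h5⟩), fun h5 => h4 (Col.mk_dvd.2 ⟨kap, h5⟩)⟩
  have htok : ∀ is : List ℤ, (∀ i ∈ is, 0 ≤ ((d + L : ℕ) : ℤ) + i) → (tkN hw).pr is =
      Col.mk H (d + L) (ckf H b0 (is.map fun i : ℤ => (((d + L : ℕ) : ℤ) + i).toNat)) :=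
    fun is his => tok_at hw (d + L) his
  have htoe : ∀ i : ℤ, 0 ≤ ((d + L : ℕ) : ℤ) + i → (tkN hw).w (i + e) =
      Col.mk H (d + L) (it H ((((d + L : ℕ) : ℤ) + i).toNat + e) b0) := by
    intro i hi
    rw [tkN_w' hw (L := d + L) (by omega)]
    congr 2
    omega
  have hsplit : ∀ (is : List ℤ) (k : ℕ) (hk : k < is.length),
      is = is.take k ++ is[k] :: is.drop (k + 1) := by
    intro is k hk
    rw [List.cons_getElem_drop_succ, List.take_append_drop]
  refine ⟨d + L, pre.map fun i : ℤ => (((d + L : ℕ) : ℤ) + i).toNat,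
    cyc.map fun i : ℤ => (((d + L : ℕ) : ℤ) + i).toNat, it H d u, ?_, ?_, ?_, ?_, ?_⟩
  · intro h3
    exact h.ne (List.map_eq_nil_iff.1 h3)
  · rw [it_append, it_append, hckf pre hL1, ← it_add, ← it_add, ← it_add] at hd1'
    rw [← it_add, show D + d = d + D by omega, show d + L + e = d + (L + e) by omega]
    exact hd1'
  · rw [it_append, hckf cyc hL2, ← it_add] at hd2'
    rw [← it_add, show D + d = d + D by omega]
    exact hd2'
  · intro k hk
    rw [List.length_map] at hk
    have h3 := h.pre_inc _ _ _ (hsplit pre k hk)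
    rw [hw0 (d + L), hwe (d + L), htok _ (fun i hi => hpos1 i (List.mem_of_mem_take hi)),
      htoe _ (hpos1 _ (List.getElem_mem hk)), mul_assoc, Col.mk_mul_mk, Col.mk_mul_mk] at h3
    have h4 := hinc _ _ h3
    rwa [List.getD_eq_getElem _ _ (by simpa using hk), List.getElem_map, ← List.map_take]
  · intro k hk
    rw [List.length_map] at hk
    have h3 := h.cyc_inc _ _ _ (hsplit cyc k hk)
    rw [hxM, htok _ (fun i hi => hpos2 i (List.mem_of_mem_take hi)),
      htoe _ (hpos2 _ (List.getElem_mem hk)), Col.mk_mul_mk] at h3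
    have h4 := hinc _ _ h3
    rwa [List.getD_eq_getElem _ _ (by simpa using hk), List.getElem_map, ← List.map_take]

end

end D0L
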