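import Pool.Agent.H.MP_374efc_lc.Zt.Re4
import Pool.Agent.H.MP_374efc_lc.Cr.Gc

/-!
# MP_374efc_lc, Theorem Z: the class period on codes

For good systems the first letters of the words `w_k`, `k ≥ n - e`, are the classes mod `e`, where
`0 < e ≤ n` is determined by: `w_n` and `w_(n-e)` have the same first letter.
-/

set_option autoImplicit false

namespace D0L

variable {n : ℕ} {H : Fin n → List (Fin n)} {b0 : List (Fin n)}

/-- The first letters of the words are periodic (`head_cls` without relation). -/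
theorem head_cls' (hne : ∀ a, H a ≠ []) (hb : b0 ≠ []) (hf0 : FirstS H b0) :
    ∃ j0 e : ℕ, 0 < e ∧ j0 + e = n ∧
    ∀ k k', j0 ≤ k → j0 ≤ k' → ((it H k b0).head? = (it H k' b0).head? ↔ (e : ℤ) ∣ k - k') := by
  obtain ⟨f, hf, hf'⟩ := hf0
  have hitne : ∀ k, it H k b0 ≠ [] := by
    intro k h
    have h1 := length_le_it hne k b0
    rw [h, List.length_nil] at h1
    exact hb (List.length_eq_zero_iff.1 (Nat.le_zero.1 h1))
  obtain ⟨g, hg⟩ : ∃ g : ℕ → Fin n, ∀ k, ∃ s, it H k b0 = g k :: s := by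
    choose g s hg using fun k => List.exists_cons_of_ne_nil (hitne k)
    exact ⟨g, fun k => ⟨s k, hg k⟩⟩
  have hstep : ∀ k k', g k = g k' → g (k + 1) = g (k' + 1) := by
    intro k k' h
    obtain ⟨s, hs⟩ := hg k
    obtain ⟨s', hs'⟩ := hg k'
    obtain ⟨u, hu⟩ := hg (k + 1)
    obtain ⟨u', hu'⟩ := hg (k' + 1)
    rw [it_succ, hs, app_cons] at hu
    rw [it_succ, hs', app_cons, ← h] at hu'
    obtain ⟨c, v, hv⟩ := List.exists_cons_of_ne_nil (hne (g k))
    rw [hv] at hu hu'
    rw [← (List.cons.inj hu).1, ← (List.cons.inj hu').1]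
  have hsteps : ∀ k k' m, g k = g k' → g (k + m) = g (k' + m) := by
    intro k k' m h
    induction m with
    | zero => exact h
    | succ m ih => exact hstep _ _ ih
  have hgf : ∀ i : Fin n, g i = f i := by
    intro i
    obtain ⟨s, hs⟩ := hf' i
    obtain ⟨s', hs'⟩ := hg i
    rw [hs] at hs'
    exact (List.cons.inj hs').1.symm
  obtain ⟨j0, hj0⟩ := hf.2 (g n)
  have hper : ∀ k, j0.1 ≤ k → g (k + (n - j0.1)) = g k := by
    intro k hk
    have h1 := hsteps n j0 (k - j0) (by rw [hgf, hj0])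
    have hj := j0.2
    rw [show n + (k - j0.1) = k + (n - j0.1) by omega, show j0.1 + (k - j0.1) = k by omega] at h1
    exact h1
  have hperm : ∀ k m, j0.1 ≤ k → g (k + m * (n - j0.1)) = g k := by
    intro k m hk
    induction m with
    | zero => rw [Nat.zero_mul, Nat.add_zero]
    | succ m ih =>
      rw [Nat.succ_mul, ← Nat.add_assoc, hper _ (by omega), ih]
  have hhead : ∀ k, (it H k b0).head? = some (g k) := by
    intro k
    obtain ⟨s, hs⟩ := hg k
    rw [hs]
    rfl
  have hj := j0.2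
  refine ⟨j0, n - j0, by omega, by omega, ?_⟩
  have hred : ∀ k, j0.1 ≤ k → ∃ r m, k = r + m * (n - j0.1) ∧ j0.1 ≤ r ∧ r < n := by
    intro k hk
    have h1 := Nat.mod_add_div (k - j0) (n - j0.1)
    have h2 := Nat.mod_lt (k - j0) (show 0 < n - j0.1 by omega)
    refine ⟨j0 + (k - j0) % (n - j0.1), (k - j0) / (n - j0.1), ?_, by omega, by omega⟩
    rw [Nat.mul_comm]
    omega
  intro k k' hk hk'
  rw [hhead, hhead, Option.some_inj]
  constructor
  · intro h
    obtain ⟨r, m, e1, h1, h2⟩ := hred k hk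
    obtain ⟨r', m', e2, h3, h4⟩ := hred k' hk'
    rw [e1, e2, hperm r m h1, hperm r' m' h3] at h
    have h5 : f ⟨r, h2⟩ = f ⟨r', h4⟩ := by rw [← hgf, ← hgf]; exact h
    have h6 : r = r' := congrArg Fin.val (hf.1 h5)
    subst h6
    rw [e1, e2]
    push_cast
    exact ⟨m - m', by ring⟩
  · rintro ⟨z, hz⟩
    rcases le_total 0 z with h0 | h0
    · have h1 : k = k' + z.toNat * (n - j0.1) := by
        have h2 : (z.toNat : ℤ) = z := Int.toNat_of_nonneg h0
        have h3 : ((k' + z.toNat * (n - j0.1) : ℕ) : ℤ) = k := by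
          push_cast
          rw [h2]
          linarith
        exact_mod_cast h3.symm
      rw [h1]
      exact hperm k' _ hk'
    · have h1 : k' = k + (-z).toNat * (n - j0.1) := by
        have h2 : ((-z).toNat : ℤ) = -z := Int.toNat_of_nonneg (by omega)
        have h3 : ((k + (-z).toNat * (n - j0.1) : ℕ) : ℤ) = k' := by
          push_cast
          rw [h2]
          linarith
        exact_mod_cast h3.symm
      rw [h1]
      exact (hperm k _ hk).symm

/-- The class period exists. -/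
theorem exists_cls (hne : ∀ a, H a ≠ []) (hb : b0 ≠ []) (hf0 : FirstS H b0) :
    ∃ e : ℕ, e ≤ n ∧ Cls H b0 (n - e) e ∧ (it H n b0).head? = (it H (n - e) b0).head? := by
  obtain ⟨j0, e, he, hn, hcl⟩ := head_cls' hne hb hf0
  have h1 : j0 = n - e := by omega
  subst h1
  refine ⟨e, by omega, ⟨he, hcl⟩, (hcl _ _ (by omega) le_rfl).2 ⟨1, ?_⟩⟩
  push_cast
  omega

/-- The class period is determined by the first letter of `w_n`. -/
theorem cls_of_head (hne : ∀ a, H a ≠ []) (hb : b0 ≠ []) (hf0 : FirstS H b0) {e : ℕ} (he : 0 < e)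
    (hen : e ≤ n) (hh : (it H n b0).head? = (it H (n - e) b0).head?) : Cls H b0 (n - e) e := by
  obtain ⟨j0, e', he', hn, hcl⟩ := head_cls' hne hb hf0
  have h1 : (it H n b0).head? = (it H j0 b0).head? := by
    refine (hcl n j0 (by omega) le_rfl).2 ⟨1, ?_⟩
    push_cast [← hn]
    ring
  obtain ⟨f, hf, hf'⟩ := hf0
  have h2 : ∀ k (hk : k < n), (it H k b0).head? = some (f ⟨k, hk⟩) := by
    intro k hk
    obtain ⟨s, hs⟩ := hf' ⟨k, hk⟩
    rw [hs]
    rfl
  rw [hh, h2 _ (by omega), h2 _ (by omega), Option.some_inj] at h1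
  have h3 : n - e = j0 := congrArg Fin.val (hf.1 h1)
  have h4 : e = e' := by omega
  rw [h3, h4]
  exact ⟨he', hcl⟩

/-- The class check on codes. -/
def ClsC (e : ℕ) (c : List (List ℕ) × List ℕ) : Prop :=
  0 < e ∧ e ≤ c.1.length ∧ (sqn c c.1.length).head? = (sqn c (c.1.length - e)).head?

theorem clsC_cd {e : ℕ} : ClsC e (cd H b0) ↔
    0 < e ∧ e ≤ n ∧ (it H n b0).head? = (it H (n - e) b0).head? := by
  have h1 : (cd H b0).1.length = n := by
    unfold cd
    rw [List.length_ofFn]
  have h2 : ∀ k, (sqn (cd H b0) k).head? = ((it H k b0).head?).map Fin.val := by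
    intro k
    have e1 : sqn (cd H b0) k = (it H k b0).map Fin.val := it_cd k b0
    rw [e1, List.head?_map]
  rw [ClsC, h1, h2, h2]
  refine and_congr_right fun _ => and_congr_right fun _ => ?_
  exact (Option.map_injective Fin.val_injective).eq_iff

theorem GoodS.cls {e : ℕ} (hg : GoodS H b0) (h : ClsC e (cd H b0)) : Cls H b0 (n - e) e := by
  obtain ⟨h1, h2, h3⟩ := clsC_cd.1 h
  exact cls_of_head hg.hne hg.ne hg.first h1 h2 h3

theorem GoodS.exists_clsC (hg : GoodS H b0) : ∃ e, ClsC e (cd H b0) ∧ Cls H b0 (n - e) e := by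
  obtain ⟨e, h1, h2, h3⟩ := exists_cls hg.hne hg.ne hg.first
  exact ⟨e, clsC_cd.2 ⟨h2.1, h1, h3⟩, h2⟩

section prim

open Primrec

theorem prim_clsC : PrimrecRel ClsC := by
  have c0 : Primrec (fun x : ℕ × List (List ℕ) × List ℕ => x.2) := snd
  have l0 : Primrec (fun x : ℕ × List (List ℕ) × List ℕ => x.2.1.length) := pr_len snd
  have h1 : PrimrecPred (fun x : ℕ × List (List ℕ) × List ℕ => 0 < x.1) := pr_lt (const 0) fst
  have h2 : PrimrecPred (fun x : ℕ × List (List ℕ) × List ℕ => x.1 ≤ x.2.1.length) :=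
    Primrec.nat_le.comp fst l0
  have h3 : PrimrecPred (fun x : ℕ × List (List ℕ) × List ℕ =>
      (sqn x.2 x.2.1.length).head? = (sqn x.2 (x.2.1.length - x.1)).head?) :=
    pr_eq (list_head?.comp (prim_sqn.comp c0 l0))
      (list_head?.comp (prim_sqn.comp c0 (nat_sub.comp l0 fst)))
  exact h1.and (h2.and h3)

end prim

end D0L
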