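import Pool.Agent.H.MP_374efc_lc.Zt.Ck
import Pool.Agent.H.MP_374efc_lc.Asm.Search

/-!
# MP_374efc_lc: the loop certificate on codes is primitive recursive
-/

set_option autoImplicit false

namespace D0L

/-- The data of a loop certificate: `e`, `L`, `pre`, `cyc`, `D`, `x`. -/
abbrev LD : Type := ℕ × ℕ × List ℕ × List ℕ × ℕ × List ℕ

/-- The loop certificate on codes. -/
def LpC (c : List (List ℕ) × List ℕ) (kap : ℕ) (d : LD) : Prop :=
  LoopN (hs c) c.2 kap d.1 d.2.1 d.2.2.1 d.2.2.2.1 d.2.2.2.2.1 d.2.2.2.2.2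

theorem map_pre {n : ℕ} {u v : List (Fin n)} :
    u.map Fin.val <+: v.map Fin.val ↔ u <+: v := by
  constructor
  · intro h
    have h1 := List.prefix_iff_eq_take.1 h
    rw [List.length_map, ← List.map_take] at h1
    have h2 := List.map_injective_iff.2 Fin.val_injective h1
    rw [h2]
    exact List.take_prefix _ _
  · exact fun h => h.map _

theorem ckf_cd {n : ℕ} {H : Fin n → List (Fin n)} {b0 : List (Fin n)} (js : List ℕ) :
    ckf (hs (cd H b0)) (cd H b0).2 js = (ckf H b0 js).map Fin.val := by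
  rw [ckf, ckf, List.map_flatten, List.map_map]
  congr 1
  apply List.map_congr_left
  intro j _
  exact it_cd j b0

/-- The certificate on the code of a system over `Fin n`. -/
theorem lpC_cd {n : ℕ} {H : Fin n → List (Fin n)} {b0 : List (Fin n)} {kap e L D : ℕ}
    {pre cyc : List ℕ} {x : List (Fin n)} :
    LpC (cd H b0) kap (e, L, pre, cyc, D, x.map Fin.val) ↔ LoopN H b0 kap e L pre cyc D x := by
  have e1 : ∀ k, it (hs (cd H b0)) k (cd H b0).2 = (it H k b0).map Fin.val := fun k => it_cd k b0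
  constructor
  · rintro ⟨h1, h2, h3, h4, h5⟩
    simp only [ckf_cd, it_cd, e1, ← List.map_append, map_pre, NoPre] at h2 h3 h4 h5
    exact ⟨h1, h2, h3, h4, h5⟩
  · rintro ⟨h1, h2, h3, h4, h5⟩
    refine ⟨h1, ?_, ?_, ?_, ?_⟩ <;>
      simp only [ckf_cd, it_cd, e1, ← List.map_append, map_pre, NoPre]
    · exact h2
    · exact h3
    · exact h4
    · exact h5

/-- A certificate on the code of a system over `Fin n` comes from a word over `Fin n`. -/
theorem lpC_lift {n : ℕ} {H : Fin n → List (Fin n)} {b0 : List (Fin n)} {kap e L D : ℕ}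
    {pre cyc : List ℕ} {y : List ℕ} (h : LpC (cd H b0) kap (e, L, pre, cyc, D, y)) :
    ∃ x : List (Fin n), y = x.map Fin.val := by
  have h1 : y <:+: (it H (L + e) b0).map Fin.val := by
    have e1 : (it H (L + e) b0).map Fin.val = it (hs (cd H b0)) (L + e) (cd H b0).2 :=
      (it_cd (L + e) b0).symm
    rw [e1]
    refine List.IsInfix.trans ?_ h.dvd.isInfix
    refine List.IsInfix.trans ?_ (List.suffix_append _ _).isInfix
    refine List.IsInfix.trans ?_ (List.suffix_append _ _).isInfix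
    exact List.IsInfix.trans (List.suffix_append _ _).isInfix h.shift.isInfix
  obtain ⟨s, t, hst⟩ := h1
  obtain ⟨w1, w2, e1, e2, -⟩ := List.map_eq_append_iff.1 hst.symm
  obtain ⟨w3, w4, e3, -, e4⟩ := List.map_eq_append_iff.1 e2
  exact ⟨w4, e4.symm⟩

section prim

open Primrec

theorem prim_it : Primrec (fun y : (List (List ℕ) × List ℕ) × ℕ × List ℕ =>
    it (hs y.1) y.2.1 y.2.2) := by
  refine nat_iterate (f := fun y : (List (List ℕ) × List ℕ) × ℕ × List ℕ => y.2.1)
    (g := fun y => y.2.2) (h := fun y w => app (hs y.1) w) (fst.comp snd) (snd.comp snd) ?_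
  exact prim_app.comp₂ (fst.comp fst).to₂ snd.to₂

theorem prim_ckf : Primrec (fun y : (List (List ℕ) × List ℕ) × List ℕ =>
    ckf (hs y.1) y.1.2 y.2) := by
  refine list_flatten.comp (list_map (f := fun y : (List (List ℕ) × List ℕ) × List ℕ => y.2)
    (g := fun y j => it (hs y.1) j y.1.2) snd ?_)
  exact (prim_it.comp (Primrec.pair (fst.comp fst) (Primrec.pair snd (snd.comp (fst.comp fst))))).to₂

theorem prim_prefix : PrimrecRel (fun (u v : List ℕ) => u <+: v) := by
  have h1 : PrimrecRel (fun (u v : List ℕ) => u = v.take u.length) :=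
    Primrec.eq.comp fst (list_take.comp (list_length.comp fst) snd)
  exact h1.of_eq fun u v => List.prefix_iff_eq_take.symm

theorem prim_noPre : PrimrecRel (fun (u v : List ℕ) => NoPre u v) :=
  PrimrecPred.and prim_prefix.not
    (PrimrecRel.comp prim_prefix (f := fun x : List ℕ × List ℕ => x.2)
      (g := fun x : List ℕ × List ℕ => x.1) snd fst).not

/-- The tests of the prefix. -/
def tP (k : ℕ) (x : (List (List ℕ) × List ℕ) × ℕ × LD) : Prop := NoPre
  (it (hs x.1) x.2.1 (it (hs x.1) x.2.2.2.1 x.1.2 ++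
    (ckf (hs x.1) x.1.2 (x.2.2.2.2.1.take k) ++
      it (hs x.1) (x.2.2.2.2.1.getD k 0 + x.2.2.1) x.1.2)))
  (it (hs x.1) x.2.1 (it (hs x.1) (x.2.2.2.1 + x.2.2.1) x.1.2))

/-- The tests of the cycle. -/
def tQ (k : ℕ) (x : (List (List ℕ) × List ℕ) × ℕ × LD) : Prop := NoPre
  (it (hs x.1) x.2.1 (ckf (hs x.1) x.1.2 (x.2.2.2.2.2.1.take k) ++
      it (hs x.1) (x.2.2.2.2.2.1.getD k 0 + x.2.2.1) x.1.2))
  (it (hs x.1) x.2.1 (it (hs x.1) x.2.2.2.2.2.2.1 x.2.2.2.2.2.2.2))

/-- The check of a loop certificate is primitive recursive. -/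
theorem prim_lpC : PrimrecPred (fun x : (List (List ℕ) × List ℕ) × ℕ × LD =>
    LpC x.1 x.2.1 x.2.2) := by
  have c0 : Primrec (fun x : (List (List ℕ) × List ℕ) × ℕ × LD => x.1) := fst
  have b00 : Primrec (fun x : (List (List ℕ) × List ℕ) × ℕ × LD => x.1.2) := snd.comp fst
  have k0 : Primrec (fun x : (List (List ℕ) × List ℕ) × ℕ × LD => x.2.1) := fst.comp snd
  have d0 : Primrec (fun x : (List (List ℕ) × List ℕ) × ℕ × LD => x.2.2) := snd.comp snd
  have e0 : Primrec (fun x : (List (List ℕ) × List ℕ) × ℕ × LD => x.2.2.1) := fst.comp d0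
  have L0 : Primrec (fun x : (List (List ℕ) × List ℕ) × ℕ × LD => x.2.2.2.1) :=
    fst.comp (snd.comp d0)
  have p0 : Primrec (fun x : (List (List ℕ) × List ℕ) × ℕ × LD => x.2.2.2.2.1) :=
    fst.comp (snd.comp (snd.comp d0))
  have q0 : Primrec (fun x : (List (List ℕ) × List ℕ) × ℕ × LD => x.2.2.2.2.2.1) :=
    fst.comp (snd.comp (snd.comp (snd.comp d0)))
  have D0' : Primrec (fun x : (List (List ℕ) × List ℕ) × ℕ × LD => x.2.2.2.2.2.2.1) :=
    fst.comp (snd.comp (snd.comp (snd.comp (snd.comp d0))))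
  have x0 : Primrec (fun x : (List (List ℕ) × List ℕ) × ℕ × LD => x.2.2.2.2.2.2.2) :=
    snd.comp (snd.comp (snd.comp (snd.comp (snd.comp d0))))
  have hwL : Primrec (fun x : (List (List ℕ) × List ℕ) × ℕ × LD =>
      it (hs x.1) x.2.2.2.1 x.1.2) := prim_it.comp (Primrec.pair c0 (Primrec.pair L0 b00))
  have hwLe : Primrec (fun x : (List (List ℕ) × List ℕ) × ℕ × LD =>
      it (hs x.1) (x.2.2.2.1 + x.2.2.1) x.1.2) :=
    prim_it.comp (Primrec.pair c0 (Primrec.pair (nat_add.comp L0 e0) b00))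
  have hDx : Primrec (fun x : (List (List ℕ) × List ℕ) × ℕ × LD =>
      it (hs x.1) x.2.2.2.2.2.2.1 x.2.2.2.2.2.2.2) :=
    prim_it.comp (Primrec.pair c0 (Primrec.pair D0' x0))
  have h1 : PrimrecPred (fun x : (List (List ℕ) × List ℕ) × ℕ × LD => x.2.2.2.2.2.1 ≠ []) :=
    (Primrec.eq.comp q0 (const [])).not
  have h2 : PrimrecPred (fun x : (List (List ℕ) × List ℕ) × ℕ × LD =>
      it (hs x.1) x.2.2.2.1 x.1.2 ++ (ckf (hs x.1) x.1.2 x.2.2.2.2.1 ++
        it (hs x.1) x.2.2.2.2.2.2.1 x.2.2.2.2.2.2.2) <+: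
          it (hs x.1) (x.2.2.2.1 + x.2.2.1) x.1.2) :=
    prim_prefix.comp (list_append.comp hwL (list_append.comp
      (prim_ckf.comp (Primrec.pair c0 p0)) hDx)) hwLe
  have h3 : PrimrecPred (fun x : (List (List ℕ) × List ℕ) × ℕ × LD =>
      ckf (hs x.1) x.1.2 x.2.2.2.2.2.1 ++ x.2.2.2.2.2.2.2 <+:
        it (hs x.1) x.2.2.2.2.2.2.1 x.2.2.2.2.2.2.2) :=
    prim_prefix.comp (list_append.comp (prim_ckf.comp (Primrec.pair c0 q0)) x0) hDx
  -- the words of the tests
  have ha : ∀ {f : (List (List ℕ) × List ℕ) × ℕ × LD → List ℕ}, Primrec f →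
      Primrec (fun z : ℕ × ((List (List ℕ) × List ℕ) × ℕ × LD) =>
        ckf (hs z.2.1) z.2.1.2 ((f z.2).take z.1) ++
          it (hs z.2.1) ((f z.2).getD z.1 0 + z.2.2.2.1) z.2.1.2) := by
    intro f hf
    refine list_append.comp (prim_ckf.comp (Primrec.pair (c0.comp snd)
      (list_take.comp fst (hf.comp snd)))) ?_
    exact prim_it.comp (Primrec.pair (c0.comp snd) (Primrec.pair
      (nat_add.comp ((list_getD 0).comp (hf.comp snd) fst) (e0.comp snd)) (b00.comp snd)))
  have h4 : PrimrecRel tP := by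
    refine prim_noPre.comp (prim_it.comp (Primrec.pair (c0.comp snd) (Primrec.pair (k0.comp snd)
      (list_append.comp (hwL.comp snd) (ha p0)))))
      (prim_it.comp (Primrec.pair (c0.comp snd) (Primrec.pair (k0.comp snd) (hwLe.comp snd))))
  have h5 : PrimrecRel tQ := by
    refine prim_noPre.comp (prim_it.comp (Primrec.pair (c0.comp snd) (Primrec.pair (k0.comp snd)
      (ha q0))))
      (prim_it.comp (Primrec.pair (c0.comp snd) (Primrec.pair (k0.comp snd) (hDx.comp snd))))
  have i0 : Primrec (fun x : (List (List ℕ) × List ℕ) × ℕ × LD => x) := Primrec.id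
  have h6 : PrimrecPred (fun x : (List (List ℕ) × List ℕ) × ℕ × LD =>
      ∀ k ∈ List.range x.2.2.2.2.1.length, tP k x) :=
    h4.forall_mem_list.comp (list_range.comp (list_length.comp p0)) i0
  have h7 : PrimrecPred (fun x : (List (List ℕ) × List ℕ) × ℕ × LD =>
      ∀ k ∈ List.range x.2.2.2.2.2.1.length, tQ k x) :=
    h5.forall_mem_list.comp (list_range.comp (list_length.comp q0)) i0
  refine (h1.and (h2.and (h3.and (h6.and h7)))).of_eq fun x => ?_
  simp only [List.mem_range]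
  constructor
  · rintro ⟨a1, a2, a3, a4, a5⟩
    exact ⟨a1, a2, a3, a4, a5⟩
  · rintro ⟨a1, a2, a3, a4, a5⟩
    exact ⟨a1, a2, a3, a4, a5⟩

end prim

end D0L
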