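import Pool.Agent.H.MP_374efc_lc.Zt.CtS

/-!
# MP_374efc_lc: loop certificates, completeness

If no greedy path covers `w e`, the greedy path from `w 0` is infinite; with Theorem Z (`hZ`) and the finiteness of
the windows (`hF`, `h5`) there is a loop certificate (`exists_loop`).
-/

set_option autoImplicit false

namespace D0L

namespace Tk

variable {C : Type} [CancelMonoid C] {S : Tk C} {e : ℕ}

/-- A segment of a sequence. -/
def sg (f : ℕ → ℤ) (k a : ℕ) : List ℤ := (List.range a).map fun b => f (k + b)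

theorem sg_zero (f : ℕ → ℤ) (k : ℕ) : sg f k 0 = [] := rfl

theorem sg_succ (f : ℕ → ℤ) (k a : ℕ) : sg f k (a + 1) = sg f k a ++ [f (k + a)] := by
  rw [sg, sg, List.range_succ, List.map_append]
  rfl

theorem sg_add (f : ℕ → ℤ) (k a : ℕ) : sg f 0 (k + a) = sg f 0 k ++ sg f k a := by
  induction a with
  | zero => simp [sg_zero]
  | succ a ih =>
    rw [← add_assoc, sg_succ, ih, sg_succ, List.append_assoc, zero_add]

theorem sg_split {f : ℕ → ℤ} {k a : ℕ} {is1 is2 : List ℤ} {i : ℤ}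
    (h : sg f k a = is1 ++ i :: is2) :
    is1 = sg f k is1.length ∧ i = f (k + is1.length) ∧ is1.length < a := by
  induction a generalizing is2 with
  | zero => simp [sg_zero] at h
  | succ a ih =>
    rw [sg_succ] at h
    rcases List.eq_nil_or_concat is2 with rfl | ⟨is2', z, rfl⟩
    · obtain ⟨h1, h2⟩ := List.append_inj' h rfl
      have h3 : is1.length = a := by rw [← h1, sg, List.length_map, List.length_range]
      rw [h3]
      exact ⟨h1.symm, (List.cons.inj h2).1.symm, by omega⟩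
    · have h3 : sg f k a ++ [f (k + a)] = (is1 ++ i :: is2') ++ [z] := by
        rw [h]
        simp
      obtain ⟨h1, h2⟩ := List.append_inj' h3 rfl
      obtain ⟨h4, h5, h6⟩ := ih h1
      exact ⟨h4, h5, by omega⟩

theorem P.dvd_of_len (hP : S.P e) {c : ℤ} {x y : C} (hx : x ∈ S.R e c) (hy : y ∈ S.R e c)
    (h : S.len x ≤ S.len y) : x ∣ y := by
  rcases hP.R_total hx hy with h1 | h1
  · exact h1
  · by_cases h2 : y = x
    · rw [h2]
    · have := S.dvd_len_lt h1 h2
      linarith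

/-- The greedy index is unique. -/
theorem grd_unique (hP : S.P e) (hD : S.D e) {v : C} {I J : ℤ} (h1 : v * S.w I ∈ S.R e 0)
    (h2 : v * S.w (I + e) ∉ S.R e 0) (h3 : v * S.w J ∈ S.R e 0)
    (h4 : v * S.w (J + e) ∉ S.R e 0) : I = J := by
  have h5 : ∃ l : ℤ, I = J + l * e := by
    rcases hP.R_total h1 h3 with h | h
    · exact cls_of_dvd hD (mul_dvd_iff.1 h) dvd_rfl
    · exact cls_of_dvd hD dvd_rfl (mul_dvd_iff.1 h)
  obtain ⟨l, hl⟩ := h5
  rcases lt_trichotomy l 0 with h6 | h6 | h6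
  · exfalso
    refine h2 (R_down (mul_dvd_iff.2 ?_) h3)
    have h7 := hP.le (k := J) (m := l + 1) (m' := 0) (by omega)
    rw [zero_mul, add_zero] at h7
    rwa [show I + (e : ℤ) = J + (l + 1) * e by rw [hl]; ring]
  · rw [hl, h6, zero_mul, add_zero]
  · exfalso
    refine h4 (R_down (mul_dvd_iff.2 ?_) h1)
    have h7 := hP.le (k := J) (m := 1) (m' := l) (by omega)
    rwa [one_mul, ← hl] at h7

/-- If no greedy path covers `w e`, the greedy path is infinite. -/
theorem exists_path (hP : S.P e) (he : 0 < e)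
    (hgr : ∀ q ∈ S.R e 0, q ≠ 1 → ∃ i : ℤ, q * S.w i ∈ S.R e 0 ∧ q * S.w (i + e) ∉ S.R e 0)
    (hno : ¬ ∃ (is : List ℤ) (j : ℤ) (y : C), S.Grd e is ∧ y ≠ 1 ∧ y ∈ S.R e j ∧
      S.w e = S.w 0 * S.pr is * y) :
    ∃ i : ℕ → ℤ, ∀ m, S.w 0 * S.pr (sg i 0 m) * S.w (i m) ∣ S.w e ∧
      Inc (S.w 0 * S.pr (sg i 0 m) * S.w (i m + e)) (S.w e) := by
  classical
  obtain ⟨Inv, hInv⟩ : ∃ Inv : List ℤ → Prop, Inv = fun is =>
      S.Grd e is ∧ S.w 0 * S.pr is ∣ S.w e ∧ S.w 0 * S.pr is ≠ S.w e := ⟨_, rfl⟩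
  have step : ∀ is, Inv is → ∃ i : ℤ, Inv (is ++ [i]) ∧ S.w 0 * S.pr is * S.w i ∣ S.w e ∧
      Inc (S.w 0 * S.pr is * S.w (i + e)) (S.w e) := by
    intro is h
    rw [hInv] at h
    obtain ⟨hg, hd, hne⟩ := h
    obtain ⟨v, hv⟩ : ∃ v, v = S.w 0 * S.pr is := ⟨_, rfl⟩
    rw [← hv] at hd hne ⊢
    have hv1 : v ≠ 1 := by
      intro h1
      have h2 : S.w 0 ∣ 1 := ⟨S.pr is, by rw [← hv, h1]⟩
      have h3 := S.dvd_len h2
      have h4 := S.len_pos _ (S.w_ne_one 0)
      rw [S.len_one] at h3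
      linarith
    obtain ⟨i, hi1, hi2⟩ := hgr v (R_down hd we_mem_R) hv1
    obtain ⟨y, hy⟩ := hd
    have hy1 : y ≠ 1 := by
      rintro rfl
      exact hne (by rw [hy, mul_one])
    have hnd : ∀ l : ℤ, ¬ S.w e ∣ v * S.w l := by
      intro l h1
      rw [hy] at h1
      exact hno ⟨is, l, y, hg, hy1, ⟨0, by simpa using mul_dvd_iff.1 h1⟩, by rw [← hv]; exact hy⟩
    have hdi : v * S.w i ∣ S.w e := by
      rcases hP.R_total hi1 we_mem_R with h1 | h1
      · exact h1
      · exact absurd h1 (hnd i)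
    refine ⟨i, ?_, hdi, fun h1 => hi2 (R_down h1 we_mem_R), hnd _⟩
    rw [hInv]
    have h5 : S.w 0 * S.pr (is ++ [i]) = v * S.w i := by
      rw [pr_append, pr_cons, pr_nil, mul_one, ← mul_assoc, hv]
    refine ⟨?_, by rw [h5]; exact hdi, ?_⟩
    · intro is1 j is2 h1
      rcases List.eq_nil_or_concat is2 with rfl | ⟨is2', z, rfl⟩
      · obtain ⟨h2, h3⟩ := List.append_inj' h1 rfl
        rw [← h2, ← hv, ← (List.cons.inj h3).1]
        exact hi2
      · have h3 : is ++ [i] = (is1 ++ j :: is2') ++ [z] := by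
          rw [h1]
          simp
        obtain ⟨h2, -⟩ := List.append_inj' h3 rfl
        exact hg is1 j is2' h2
    · rw [h5]
      intro h6
      exact hnd i (by rw [h6])
  have h0 : Inv [] := by
    rw [hInv]
    refine ⟨?_, ?_, ?_⟩
    · intro is1 i is2 h
      simp at h
    · rw [pr_nil, mul_one]
      exact hP
    · rw [pr_nil, mul_one]
      intro h
      have h1 := congrArg S.len h
      rw [S.len_w, S.len_w, zpow_natCast, zpow_zero, one_mul] at h1
      have h2 : 1 < S.lam ^ e := one_lt_pow₀ S.one_lt he.ne'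
      have h3 := S.len_w0
      nlinarith
  choose f hf1 hf2 hf3 using step
  -- the sequence of paths
  let T : ℕ → {is : List ℤ // Inv is} := fun m =>
    Nat.rec ⟨[], h0⟩ (fun _ t => ⟨t.1 ++ [f t.1 t.2], hf1 t.1 t.2⟩) m
  have hT : ∀ m, (T m).1 = sg (fun m => f (T m).1 (T m).2) 0 m := by
    intro m
    induction m with
    | zero => rfl
    | succ m ih =>
      rw [sg_succ, ← ih, zero_add]
  refine ⟨fun m => f (T m).1 (T m).2, fun m => ?_⟩
  rw [← hT m]
  exact ⟨hf2 _ _, hf3 _ _⟩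

/-- **Completeness**: if no greedy path covers `w e`, there is a loop certificate. -/
theorem exists_loop (hP : S.P e) (hD : S.D e) (he : 0 < e)
    (hgr : ∀ q ∈ S.R e 0, q ≠ 1 → ∃ i : ℤ, q * S.w i ∈ S.R e 0 ∧ q * S.w (i + e) ∉ S.R e 0)
    {F : Set C} (hF : ∀ K : ℝ, {x | x ∈ F ∧ S.len x ≤ K}.Finite) {c : ℝ}
    (h5 : ∀ (q : C) (i : ℤ), q * S.w i ∈ S.R e 0 → ∀ s : ℝ, 0 ≤ s → ∃ x, q * x ∈ S.R e 0 ∧
      s ≤ S.len x ∧ S.len x ≤ s + c * S.lam ^ i ∧ S.s (-i) x ∈ F)
    (hZ : ∀ (q : ℕ → C) (i : ℕ → ℤ) (u : ℝ), q 0 ≠ 1 → (∀ m, q (m + 1) = q m * S.w (i m)) →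
      (∀ m, q m * S.w (i m) ∈ S.R e 0) → (∀ m, q m * S.w (i m + e) ∉ S.R e 0) →
      (∀ m, S.len (q m) < u) → (∀ ε > 0, ∃ m, u - ε < S.len (q m)) →
      ∃ ε > 0, ∀ K : ℕ, ∃ m, K ≤ m ∧ ε * (u - S.len (q m)) ≤ S.lam ^ (i m))
    (hno : ¬ ∃ (is : List ℤ) (j : ℤ) (y : C), S.Grd e is ∧ y ≠ 1 ∧ y ∈ S.R e j ∧
      S.w e = S.w 0 * S.pr is * y) :
    ∃ (pre cyc : List ℤ) (D : ℤ) (x : C), 0 < D ∧ Loop S e pre cyc D x := by
  classical
  obtain ⟨i, hi⟩ := exists_path hP he hgr hno
  obtain ⟨q, hq⟩ : ∃ q : ℕ → C, q = fun m => S.w 0 * S.pr (sg i 0 m) := ⟨_, rfl⟩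
  have hqm : ∀ m, S.w 0 * S.pr (sg i 0 m) = q m := fun m => by rw [hq]
  have hqadd : ∀ k a, q (k + a) = q k * S.pr (sg i k a) := by
    intro k a
    rw [← hqm, sg_add, pr_append, ← mul_assoc, hqm]
  have hqs : ∀ m, q (m + 1) = q m * S.w (i m) := by
    intro m
    rw [hqadd, sg_succ, sg_zero, List.nil_append, pr_cons, pr_nil, mul_one, add_zero]
  have hdv : ∀ m, q m * S.w (i m) ∣ S.w e := fun m => by
    rw [← hqm]
    exact (hi m).1
  have hinc : ∀ m, Inc (q m * S.w (i m + e)) (S.w e) := fun m => by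
    rw [← hqm]
    exact (hi m).2
  have hqe : ∀ m, q m ∣ S.w e := fun m => dvd_trans (Dvd.intro _ rfl) (hdv m)
  have hqR : ∀ m, q m * S.w (i m) ∈ S.R e 0 := fun m => R_down (hdv m) we_mem_R
  have hqN : ∀ m, q m * S.w (i m + e) ∉ S.R e 0 := by
    intro m h1
    rcases hP.R_total h1 we_mem_R with h2 | h2
    · exact (hinc m).1 h2
    · exact (hinc m).2 h2
  have hL1 : ∀ m, S.len (q (m + 1)) = S.len (q m) + S.lam ^ i m * S.len S.w0 := by
    intro m
    rw [hqs, S.len_mul, S.len_w]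
  have hpos : ∀ m, 0 < S.lam ^ i m * S.len S.w0 := fun m =>
    mul_pos (zpow_pos S.lam_pos _) S.len_w0
  have hbdd : BddAbove (Set.range fun m => S.len (q m)) :=
    ⟨S.len (S.w e), by rintro _ ⟨m, rfl⟩; exact S.dvd_len (hqe m)⟩
  obtain ⟨u, hu⟩ : ∃ u, u = ⨆ m, S.len (q m) := ⟨_, rfl⟩
  have hle : ∀ m, S.len (q m) ≤ u := fun m => by
    rw [hu]
    exact le_ciSup hbdd m
  have hlt : ∀ m, S.len (q m) < u := fun m => by
    have h1 := hle (m + 1)
    have h2 := hL1 m
    have h3 := hpos m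
    linarith
  have hsup : ∀ ε > 0, ∃ m, u - ε < S.len (q m) := by
    intro ε hε
    have h1 : u - ε < ⨆ m, S.len (q m) := by rw [← hu]; linarith
    exact exists_lt_of_lt_ciSup h1
  have hue : u ≤ S.len (S.w e) := by
    rw [hu]
    exact ciSup_le fun m => S.dvd_len (hqe m)
  have hq0 : q 0 ≠ 1 := by
    rw [← hqm, sg_zero, pr_nil, mul_one]
    exact S.w_ne_one 0
  obtain ⟨ε, hε, hinf⟩ := hZ q i u hq0 hqs hqR hqN hlt hsup
  have hlame : 1 < S.lam ^ e := one_lt_pow₀ S.one_lt he.ne'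
  -- the windows
  have hwin : ∀ m, ∃ x, q m * x ∈ S.R e 0 ∧ S.lam ^ e * (u - S.len (q m)) ≤ S.len x ∧
      S.len x ≤ S.lam ^ e * (u - S.len (q m)) + c * S.lam ^ i m ∧ S.s (-i m) x ∈ F := by
    intro m
    refine h5 (q m) (i m) (hqR m) _ ?_
    have := hlt m
    have h2 : (0 : ℝ) < S.lam ^ e := by linarith
    exact mul_nonneg h2.le (by linarith)
  choose x hx1 hx2 hx3 hx4 using hwin
  obtain ⟨A, hA⟩ : ∃ A : Set ℕ, A = {m | ε * (u - S.len (q m)) ≤ S.lam ^ (i m)} := ⟨_, rfl⟩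
  have hAinf : A.Infinite := by
    rw [hA]
    refine Set.infinite_of_forall_exists_gt fun K => ?_
    obtain ⟨m, h1, h2⟩ := hinf (K + 1)
    exact ⟨m, h2, by omega⟩
  obtain ⟨K, hK⟩ : ∃ K : ℝ, K = S.lam ^ e / ε + c := ⟨_, rfl⟩
  have hfin : ∀ m ∈ A, S.s (-i m) (x m) ∈ {x | x ∈ F ∧ S.len x ≤ K} := by
    intro m hm
    rw [hA] at hm
    refine ⟨hx4 m, ?_⟩
    rw [S.len_s, zpow_neg, hK]
    have h1 : 0 < S.lam ^ i m := zpow_pos S.lam_pos _
    have h2 : S.lam ^ e * (u - S.len (q m)) ≤ S.lam ^ e / ε * S.lam ^ i m := by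
      rw [div_mul_eq_mul_div, le_div_iff₀ hε]
      have h3 : ε * (u - S.len (q m)) ≤ S.lam ^ i m := hm
      have h4 : (0 : ℝ) < S.lam ^ e := by linarith
      nlinarith
    rw [inv_mul_le_iff₀ h1]
    have h3 := hx3 m
    nlinarith
  -- two windows of the same type
  obtain ⟨k, k', hkk, hkA, htype⟩ : ∃ k k', k < k' ∧ k ∈ A ∧
      S.s (-i k) (x k) = S.s (-i k') (x k') := by
    have h1 : ¬ Set.InjOn (fun m => S.s (-i m) (x m)) A := by
      intro h2
      exact hAinf (Set.Finite.of_finite_image ((hF K).subset (by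
        rintro _ ⟨m, hm, rfl⟩
        exact hfin m hm)) h2)
    rw [Set.InjOn] at h1
    push Not at h1
    obtain ⟨a, ha, b, hb, h2, h3⟩ := h1
    rcases lt_or_gt_of_ne h3 with h4 | h4
    · exact ⟨a, b, h4, ha, h2⟩
    · exact ⟨b, a, h4, hb, h2.symm⟩
  obtain ⟨D, hDef⟩ : ∃ D : ℤ, D = i k - i k' := ⟨_, rfl⟩
  have hxk : x k' = S.s (-D) (x k) := by
    have h1 := congrArg (S.s (i k')) htype
    rw [S.s_neg', ← S.s_add] at h1
    rw [← h1, hDef]
    congr 2
    ring
  have hZlen : ∀ m, u < S.len (q m) + S.len (x m) := by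
    intro m
    have h1 := hx2 m
    have h2 := hlt m
    nlinarith
  -- the tests are decided in the window
  have hwd : ∀ a, S.pr (sg i k a) * S.w (i (k + a)) ∣ x k := by
    intro a
    have h1 : q k * (S.pr (sg i k a) * S.w (i (k + a))) = q (k + a) * S.w (i (k + a)) := by
      rw [hqadd, mul_assoc]
    refine (mul_dvd_iff (x := q k)).1 ?_
    refine hP.dvd_of_len (c := 0) ?_ (hx1 k) ?_
    · rw [h1]
      exact hqR _
    · rw [h1, ← hqs, S.len_mul]
      have h2 := hlt (k + a + 1)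
      have h3 := hZlen k
      linarith
  have hwi : ∀ a, Inc (S.pr (sg i k a) * S.w (i (k + a) + e)) (x k) := by
    intro a
    have h1 : q k * (S.pr (sg i k a) * S.w (i (k + a) + e)) =
        q (k + a) * S.w (i (k + a) + e) := by
      rw [hqadd, mul_assoc]
    constructor
    · intro h2
      have h3 := mul_dvd_iff (x := q k) |>.2 h2
      rw [h1] at h3
      exact hqN _ (R_down h3 (hx1 k))
    · intro h2
      have h3 := S.dvd_len (mul_dvd_iff (x := q k) |>.2 h2)
      rw [h1, S.len_mul, S.len_mul, S.len_w, zpow_add₀ S.lam_pos.ne', zpow_natCast] at h3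
      have h4 := hx2 k
      have h5 := hL1 (k + a)
      have h6 := hlt (k + a + 1)
      have h7 : S.len (q k) ≤ S.len (q (k + a)) := by
        rw [hqadd, S.len_mul]
        have := S.len_nonneg (S.pr (sg i k a))
        linarith
      have h8 := hpos (k + a)
      nlinarith
  -- the path repeats
  have hrep : ∀ a, i (k' + a) = -D + i (k + a) := by
    intro a
    induction a using Nat.strong_induction_on with
    | _ a ih =>
      have h1 : sg i k' a = (sg i k a).map (-D + ·) := by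
        rw [sg, sg, List.map_map]
        refine List.map_congr_left fun b hb => ?_
        exact ih b (List.mem_range.1 hb)
      have h2 : q (k' + a) = q k' * S.s (-D) (S.pr (sg i k a)) := by
        rw [hqadd, h1, ← s_pr]
      have h3 : q (k' + a) * S.w (-D + i (k + a)) =
          q k' * S.s (-D) (S.pr (sg i k a) * S.w (i (k + a))) := by
        rw [h2, map_mul, S.s_w, mul_assoc]
      have h4 : q (k' + a) * S.w (-D + i (k + a) + e) =
          q k' * S.s (-D) (S.pr (sg i k a) * S.w (i (k + a) + e)) := by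
        rw [h2, map_mul, S.s_w, mul_assoc, add_assoc]
      refine grd_unique hP hD (hqR _) (hqN _) ?_ ?_
      · rw [h3]
        refine R_down ?_ (hx1 k')
        rw [hxk]
        exact mul_dvd_iff.2 (S.s_dvd.2 (hwd a))
      · rw [h4]
        intro h5
        rcases hP.R_total h5 (hx1 k') with h6 | h6
        · rw [hxk] at h6
          exact (hwi a).1 (S.s_dvd.1 (mul_dvd_iff.1 h6))
        · rw [hxk] at h6
          exact (hwi a).2 (S.s_dvd.1 (mul_dvd_iff.1 h6))
  have hfix : S.len (q k') + S.lam ^ (-D) * (u - S.len (q k)) ≤ u := by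
    have hlamD : 0 < S.lam ^ (-D) := zpow_pos S.lam_pos _
    by_contra hcon
    push Not at hcon
    obtain ⟨δ, hδ⟩ : ∃ δ, δ = (S.len (q k') + S.lam ^ (-D) * (u - S.len (q k)) - u) /
        S.lam ^ (-D) := ⟨_, rfl⟩
    have hδ0 : 0 < δ := by
      rw [hδ]
      exact div_pos (by linarith) hlamD
    obtain ⟨m, hm⟩ := hsup δ hδ0
    -- pass to a cut after `q k`
    have hm2 : u - δ < S.len (q (k + m)) := by
      refine lt_of_lt_of_le hm ?_
      rw [Nat.add_comm, hqadd, S.len_mul]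
      have := S.len_nonneg (S.pr (sg i m k))
      linarith
    have h1 : sg i k' m = (sg i k m).map (-D + ·) := by
      rw [sg, sg, List.map_map]
      exact List.map_congr_left fun b _ => hrep b
    have h2 : S.len (q (k' + m)) = S.len (q k') +
        S.lam ^ (-D) * (S.len (q (k + m)) - S.len (q k)) := by
      rw [hqadd, h1, ← s_pr, S.len_mul, S.len_s, hqadd k m, S.len_mul]
      ring
    have h3 := hlt (k' + m)
    rw [h2] at h3
    have h4 : S.lam ^ (-D) * δ = S.len (q k') + S.lam ^ (-D) * (u - S.len (q k)) - u := by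
      rw [hδ]
      field_simp
    have h5 : S.lam ^ (-D) * (u - δ) < S.lam ^ (-D) * S.len (q (k + m)) :=
      mul_lt_mul_of_pos_left hm2 hlamD
    nlinarith
  have hlamD1 : S.lam ^ (-D) < 1 := by
    have hqq : S.len (q k) < S.len (q k') := by
      obtain ⟨b, rfl⟩ : ∃ b, k' = k + 1 + b := ⟨k' - (k + 1), by omega⟩
      rw [hqadd (k + 1) b, S.len_mul, hL1]
      have h1 := hpos k
      have h2 := S.len_nonneg (S.pr (sg i (k + 1) b))
      linarith
    have h2 := hlt k
    have h3 := hlt k'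
    by_contra h4
    push Not at h4
    nlinarith
  have hD0 : 0 < D := by
    by_contra h1
    push Not at h1
    have h2 := one_le_zpow₀ S.one_lt.le (show 0 ≤ -D by omega)
    linarith
  have hcontr : ∀ X : ℝ, u ≤ X → S.len (q k') + S.lam ^ (-D) * (X - S.len (q k)) ≤ X := by
    intro X hX
    nlinarith
  -- the cycle
  obtain ⟨r, hr⟩ : ∃ r, r = k' - k := ⟨_, rfl⟩
  have hkr : k' = k + r := by omega
  have hcyc : q k * S.pr (sg i k r) = q k' := by rw [hkr, hqadd]
  have hne : sg i k r ≠ [] := by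
    intro h
    have := congrArg List.length h
    rw [sg, List.length_map, List.length_range, List.length_nil] at this
    omega
  have hpre : ∀ is1 i' is2, sg i 0 k = is1 ++ i' :: is2 →
      Inc (S.w 0 * S.pr is1 * S.w (i' + e)) (S.w e) := by
    intro is1 i' is2 h
    obtain ⟨h1, h2, -⟩ := sg_split h
    rw [h1, h2, zero_add, hqm]
    exact hinc _
  obtain ⟨y, hy⟩ := hqe k
  rcases hP.R_total (hx1 k) we_mem_R with hcase | hcase
  · refine ⟨sg i 0 k, sg i k r, D, x k, hD0, ⟨hne, ?_, ?_, hpre, ?_⟩⟩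
    · rw [hqm]
      exact hcase
    · refine (mul_dvd_iff (x := q k)).1 ?_
      rw [← mul_assoc, hcyc, ← hxk]
      refine hP.dvd_of_len (hx1 k') (hx1 k) ?_
      rw [S.len_mul, S.len_mul, hxk, S.len_s]
      have h1 := hcontr (S.len (q k) + S.len (x k)) (hZlen k).le
      rwa [add_sub_cancel_left] at h1
    · intro is1 i' is2 h
      obtain ⟨h1, h2, -⟩ := sg_split h
      rw [h1, h2]
      exact hwi _
  · have hyx : y ∣ x k := by
      rw [hy] at hcase
      exact mul_dvd_iff.1 hcase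
    refine ⟨sg i 0 k, sg i k r, D, y, hD0, ⟨hne, ?_, ?_, hpre, ?_⟩⟩
    · rw [hqm, ← hy]
    · refine (mul_dvd_iff (x := q k)).1 ?_
      rw [← mul_assoc, hcyc, ← hy]
      refine hP.dvd_of_len (c := 0) ?_ we_mem_R ?_
      · refine R_down ?_ (hx1 k')
        rw [hxk]
        exact mul_dvd_iff.2 (S.s_dvd.2 hyx)
      · rw [S.len_mul, S.len_s]
        have h1 := hcontr (S.len (S.w e)) hue
        have h2 : S.len y = S.len (S.w e) - S.len (q k) := by
          rw [hy, S.len_mul]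
          ring
        rwa [h2]
    · intro is1 i' is2 h
      obtain ⟨h1, h2, -⟩ := sg_split h
      rw [h1, h2]
      have h3 := hinc (k + is1.length)
      rw [hqadd, mul_assoc] at h3
      constructor
      · intro h4
        refine h3.1 ?_
        have h5 := (mul_dvd_iff (x := q k)).2 h4
        rwa [← hy] at h5
      · intro h4
        refine h3.2 ?_
        have h5 := (mul_dvd_iff (x := q k)).2 h4
        rwa [← hy] at h5

end Tk

end D0L
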