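import Pool.Agent.H.MP_374efc_lc.Zt.Gp

/-!
# MP_374efc_lc: loop certificates, soundness

A loop certificate for the greedy path on `R_0` which starts with `w 0`: a prefix `pre`, a cycle `cyc`, a shift `D` and
a window `x`.  It shows that the greedy path never covers `w e` (`Loop.sound`).
-/

set_option autoImplicit false

namespace D0L

namespace Tk

variable {C : Type} [CancelMonoid C]

/-- Incomparable elements. -/
def Inc (a b : C) : Prop := ¬ a ∣ b ∧ ¬ b ∣ a

/-- **Loop certificate.** -/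
structure Loop (S : Tk C) (e : ℕ) (pre cyc : List ℤ) (D : ℤ) (x : C) : Prop where
  ne : cyc ≠ []
  dvd : S.w 0 * S.pr pre * x ∣ S.w e
  shift : S.pr cyc * S.s (-D) x ∣ x
  pre_inc : ∀ is1 i is2, pre = is1 ++ i :: is2 → Inc (S.w 0 * S.pr is1 * S.w (i + e)) (S.w e)
  cyc_inc : ∀ is1 i is2, cyc = is1 ++ i :: is2 → Inc (S.pr is1 * S.w (i + e)) x

variable {S : Tk C} {e : ℕ}

theorem we_mem_R : S.w e ∈ S.R e 0 := by
  have h1 := w_mem_R (S := S) (e := e) (e : ℤ)
  have h2 := R_add (S := S) (e := e) 0 1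
  rw [zero_add, one_mul] at h2
  rwa [h2] at h1

/-- Two tokens which divide a common element are of the same class. -/
theorem cls_of_dvd (hD : S.D e) {i j : ℤ} {z : C} (h1 : S.w i ∣ z) (h2 : S.w j ∣ z) :
    ∃ l : ℤ, i = j + l * e := by
  have h3 : (e : ℤ) ∣ i - j := by
    rcases S.total _ _ _ h1 h2 with h | h
    · exact hD i j _ (S.w_ne_one i) dvd_rfl h
    · exact hD i j _ (S.w_ne_one j) h dvd_rfl
  obtain ⟨l, hl⟩ := h3
  exact ⟨l, by linarith [mul_comm (e : ℤ) l]⟩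

/-- A greedy path which has a proper rest on a ray uses the expected token. -/
theorem greedy_step (hP : S.P e) (hD : S.D e) {v : C} {I : ℤ} (h1 : v * S.w I ∣ S.w e)
    (h2 : v * S.w (I + e) ∉ S.R e 0) (h3 : ¬ S.w e ∣ v * S.w (I + e)) {is : List ℤ} {j : ℤ} {y : C}
    (hg : ∀ is1 i is2, is = is1 ++ i :: is2 → v * S.pr is1 * S.w (i + e) ∉ S.R e 0)
    (hy : y ∈ S.R e j) (hw : S.w e = v * S.pr is * y) : ∃ is', is = I :: is' := by
  rcases is with _ | ⟨i, is⟩
  · exfalso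
    rw [pr_nil, mul_one] at hw
    have h4 : S.w I ∣ y := by
      rw [hw] at h1
      exact mul_dvd_iff.1 h1
    obtain ⟨m, hm⟩ := hy
    obtain ⟨l, hl⟩ := cls_of_dvd hD (h4.trans hm) (dvd_refl (S.w (j + m * e)))
    have hyI : y ∈ S.R e I := ⟨-l, by
      rw [show I + -l * (e : ℤ) = j + m * e by rw [hl]; ring]
      exact hm⟩
    have hIe : S.w (I + e) ∈ S.R e I := ⟨1, by rw [one_mul]⟩
    rcases hP.R_total hyI hIe with h5 | h5
    · exact h3 (by rw [hw]; exact mul_dvd_iff.2 h5)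
    · exact h2 (R_down (by rw [hw]; exact mul_dvd_iff.2 h5) we_mem_R)
  · rw [pr_cons] at hw
    have h4 : S.w i ∣ S.w i * S.pr is * y := by rw [mul_assoc]; exact Dvd.intro _ rfl
    have h5 : S.w I ∣ S.w i * S.pr is * y := by
      rw [hw, mul_assoc v] at h1
      exact mul_dvd_iff.1 h1
    obtain ⟨l, hl⟩ := cls_of_dvd hD h4 h5
    rcases lt_trichotomy l 0 with h6 | h6 | h6
    · exfalso
      refine hg [] i is rfl (R_down ?_ we_mem_R)
      refine dvd_trans ?_ h1
      rw [pr_nil, mul_one]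
      refine mul_dvd_iff.2 ?_
      have h7 := hP.le (k := I) (m := l + 1) (m' := 0) (by omega)
      rw [zero_mul, add_zero] at h7
      rwa [show i + (e : ℤ) = I + (l + 1) * e by rw [hl]; ring]
    · refine ⟨is, ?_⟩
      rw [hl, h6, zero_mul, add_zero]
    · exfalso
      refine h2 (R_down (y := S.w e) ?_ we_mem_R)
      have h7 := hP.le (k := I) (m := 1) (m' := l) (by omega)
      rw [one_mul, ← hl] at h7
      rw [hw, mul_assoc v]
      exact mul_dvd_iff.2 (h7.trans h4)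

theorem Loop.facts (hP : S.P e) {pre cyc : List ℤ} {D : ℤ} {x : C}
    (hL : Loop S e pre cyc D x) {v Q : C} {k : ℤ} {c1 : List ℤ} {i0 : ℤ} {c2 : List ℤ}
    (hc : cyc = c1 ++ i0 :: c2) (hv : v = Q * S.s k (S.pr c1)) (hx : Q * S.s k x ∣ S.w e) :
    v * S.w (k + i0) ∣ S.w e ∧ v * S.w (k + i0 + e) ∉ S.R e 0 ∧
      ¬ S.w e ∣ v * S.w (k + i0 + e) := by
  have h1 : v * S.w (k + i0) = Q * S.s k (S.pr c1 * S.w i0) := by
    rw [hv, map_mul, S.s_w, mul_assoc]
  have h2 : v * S.w (k + i0 + e) = Q * S.s k (S.pr c1 * S.w (i0 + e)) := by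
    rw [hv, map_mul, S.s_w, mul_assoc, add_assoc]
  have h3 : S.pr c1 * S.w i0 ∣ x := by
    refine dvd_trans ?_ hL.shift
    refine ⟨S.pr c2 * S.s (-D) x, ?_⟩
    rw [hc, pr_append, pr_cons]
    simp only [mul_assoc]
  obtain ⟨h4, h5⟩ := hL.cyc_inc c1 i0 c2 hc
  refine ⟨?_, ?_, ?_⟩
  · rw [h1]
    exact (mul_dvd_iff.2 (S.s_dvd.2 h3)).trans hx
  · intro h6
    rw [h2] at h6
    rcases hP.R_total h6 (R_down hx we_mem_R) with h7 | h7
    · exact h4 (S.s_dvd.1 (mul_dvd_iff.1 h7))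
    · exact h5 (S.s_dvd.1 (mul_dvd_iff.1 h7))
  · intro h6
    rw [h2] at h6
    exact h5 (S.s_dvd.1 (mul_dvd_iff.1 (hx.trans h6)))

/-- The cycle never ends. -/
theorem Loop.cycle (hP : S.P e) (hD : S.D e) {pre cyc : List ℤ} {D : ℤ} {x : C}
    (hL : Loop S e pre cyc D x) {j : ℤ} {y : C} (hy : y ∈ S.R e j) (is : List ℤ) :
    ∀ (v Q : C) (k : ℤ) (c1 : List ℤ) (i0 : ℤ) (c2 : List ℤ), cyc = c1 ++ i0 :: c2 →
      v = Q * S.s k (S.pr c1) → Q * S.s k x ∣ S.w e →
      (∀ is1 i is2, is = is1 ++ i :: is2 → v * S.pr is1 * S.w (i + e) ∉ S.R e 0) →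
      S.w e = v * S.pr is * y → False := by
  induction is with
  | nil =>
    intro v Q k c1 i0 c2 hc hv hx hg hw
    obtain ⟨h1, h2, h3⟩ := hL.facts hP hc hv hx
    obtain ⟨is', h4⟩ := greedy_step hP hD h1 h2 h3 hg hy hw
    exact absurd h4 (by simp)
  | cons i is ih =>
    intro v Q k c1 i0 c2 hc hv hx hg hw
    obtain ⟨h1, h2, h3⟩ := hL.facts hP hc hv hx
    obtain ⟨is', h4⟩ := greedy_step hP hD h1 h2 h3 hg hy hw
    have hi : i = k + i0 := (List.cons.inj h4).1
    have hg' : ∀ is1 i' is2, is = is1 ++ i' :: is2 →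
        v * S.w i * S.pr is1 * S.w (i' + e) ∉ S.R e 0 := by
      intro is1 i' is2 h5
      have h6 := hg (i :: is1) i' is2 (by rw [h5]; rfl)
      rwa [pr_cons, ← mul_assoc] at h6
    have hw' : S.w e = v * S.w i * S.pr is * y := by
      rw [hw, pr_cons]
      simp only [mul_assoc]
    have hv' : v * S.w i = Q * S.s k (S.pr (c1 ++ [i0])) := by
      rw [hi, pr_append, pr_cons, pr_nil, mul_one, map_mul, S.s_w, hv, mul_assoc]
    rcases c2 with _ | ⟨i1, c2⟩
    · obtain ⟨i1, c2, hc'⟩ := List.exists_cons_of_ne_nil hL.ne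
      refine ih (v * S.w i) (v * S.w i) (k + -D) [] i1 c2 hc' ?_ ?_ hg' hw'
      · rw [pr_nil, map_one, mul_one]
      · rw [hv', ← hc, S.s_add, mul_assoc, ← map_mul]
        exact (mul_dvd_iff.2 (S.s_dvd.2 hL.shift)).trans hx
    · refine ih (v * S.w i) Q k (c1 ++ [i0]) i1 c2 ?_ hv' hx hg' hw'
      rw [hc]
      simp

/-- **Soundness**: with a loop certificate no greedy path covers `w e`. -/
theorem Loop.sound (hP : S.P e) (hD : S.D e) {pre cyc : List ℤ} {D : ℤ} {x : C}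
    (hL : Loop S e pre cyc D x) {is : List ℤ} {j : ℤ} {y : C} (hg : S.Grd e is)
    (hy : y ∈ S.R e j) (hw : S.w e = S.w 0 * S.pr is * y) : False := by
  -- the prefix
  have key : ∀ (p2 p1 : List ℤ) (is : List ℤ), pre = p1 ++ p2 →
      (∀ is1 i is2, is = is1 ++ i :: is2 →
        S.w 0 * S.pr p1 * S.pr is1 * S.w (i + e) ∉ S.R e 0) →
      S.w e = S.w 0 * S.pr p1 * S.pr is * y → False := by
    intro p2
    induction p2 with
    | nil =>
      intro p1 is hp hg hw
      rw [List.append_nil] at hp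
      obtain ⟨i1, c2, hc'⟩ := List.exists_cons_of_ne_nil hL.ne
      refine hL.cycle hP hD hy is (S.w 0 * S.pr p1) (S.w 0 * S.pr p1) 0 [] i1 c2 hc' ?_ ?_ hg hw
      · rw [pr_nil, map_one, mul_one]
      · rw [S.s_zero, ← hp]
        exact hL.dvd
    | cons i0 p2 ih =>
      intro p1 is hp hg hw
      obtain ⟨h4, h5⟩ := hL.pre_inc p1 i0 p2 hp
      have h1 : S.w 0 * S.pr p1 * S.w i0 ∣ S.w e := by
        refine dvd_trans ?_ hL.dvd
        refine ⟨S.pr p2 * x, ?_⟩
        rw [hp, pr_append, pr_cons]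
        simp only [mul_assoc]
      have h2 : S.w 0 * S.pr p1 * S.w (i0 + e) ∉ S.R e 0 := by
        intro h6
        rcases hP.R_total h6 we_mem_R with h7 | h7
        · exact h4 h7
        · exact h5 h7
      obtain ⟨is', rfl⟩ := greedy_step hP hD h1 h2 h5 hg hy hw
      refine ih (p1 ++ [i0]) is' (by rw [hp]; simp) ?_ ?_
      · intro is1 i' is2 h6
        have h7 := hg (i0 :: is1) i' is2 (by rw [h6]; rfl)
        rw [pr_append, pr_cons, pr_nil, mul_one]
        rw [pr_cons] at h7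
        simpa only [mul_assoc] using h7
      · rw [hw, pr_append, pr_cons, pr_cons, pr_nil, mul_one]
        simp only [mul_assoc]
  refine key pre [] is rfl ?_ ?_
  · intro is1 i is2 h1
    rw [pr_nil, mul_one]
    exact hg is1 i is2 h1
  · rw [pr_nil, mul_one]
    exact hw

end Tk

end D0L
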