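import Pool.Agent.H.MP_374efc_lc.Asm.Al8

/-!
# MP_374efc_lc: certificates for determinant zero and for reducibility

`det_iff`: the determinant is not zero if and only if words whose images have the same numbers of letters have the same
numbers of letters.  `irr_iff`: irreducibility in terms of closed lists of letters.
-/

set_option autoImplicit false

namespace D0L

/-- Words with prescribed numbers of letters. -/
theorem dt_word {n : ℕ} (c : Fin n → ℕ) : ∃ x : List (Fin n), ∀ j, x.count j = c j := by
  classical
  refine ⟨(∑ j, Multiset.replicate (c j) j).toList, fun a => ?_⟩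
  rw [← Multiset.coe_count, Multiset.coe_toList, Multiset.count_sum']
  simp only [Multiset.count_replicate]
  rw [Finset.sum_eq_single a]
  · simp
  · intro b _ hb
    rw [if_neg hb]
  · intro h
    exact absurd (Finset.mem_univ a) h

/-- The number of letters of an image. -/
theorem dt_count {n : ℕ} {H : Fin n → List (Fin n)} (j : Fin n) (x : List (Fin n)) :
    (app H x).count j = ∑ d, (H d).count j * x.count d := by
  have h1 := al8_count (H := H) j x
  exact_mod_cast h1

/-- **Determinant zero in words.** -/
theorem det_iff {n : ℕ} (H : Fin n → List (Fin n)) :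
    (Matrix.of fun (j i : Fin n) => ((H i).count j : ℚ)).det ≠ 0 ↔
      ∀ x y : List (Fin n), (∀ j, (app H x).count j = (app H y).count j) →
        ∀ j, x.count j = y.count j := by
  classical
  obtain ⟨M, hM⟩ : ∃ M : Matrix (Fin n) (Fin n) ℤ,
      M = Matrix.of fun (j i : Fin n) => ((H i).count j : ℤ) := ⟨_, rfl⟩
  have hMq : (Matrix.of fun (j i : Fin n) => ((H i).count j : ℚ)) =
      M.map (Int.castRingHom ℚ) := by
    ext j i
    simp [hM]
  have hdet : (Matrix.of fun (j i : Fin n) => ((H i).count j : ℚ)).det ≠ 0 ↔ M.det ≠ 0 := by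
    rw [hMq, ← RingHom.mapMatrix_apply, ← RingHom.map_det]
    simp
  have hmv : ∀ (x : List (Fin n)) (j : Fin n),
      ((app H x).count j : ℤ) = (M.mulVec fun d => (x.count d : ℤ)) j := by
    intro x j
    rw [dt_count, hM, Matrix.mulVec, dotProduct]
    push_cast
    rfl
  rw [hdet]
  constructor
  · intro hd x y hxy j
    have h1 : M.mulVec (fun d => (x.count d : ℤ) - (y.count d : ℤ)) = 0 := by
      ext j
      have h2 : (fun d => (x.count d : ℤ) - (y.count d : ℤ)) =
          (fun d => (x.count d : ℤ)) - fun d => (y.count d : ℤ) := rfl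
      rw [h2, Matrix.mulVec_sub, Pi.sub_apply, ← hmv, ← hmv, hxy j, sub_self]
      rfl
    have h2 := Matrix.eq_zero_of_mulVec_eq_zero hd h1
    have h3 := congrFun h2 j
    simp only [Pi.zero_apply] at h3
    omega
  · intro hw hd
    obtain ⟨v, hv, hv0⟩ := Matrix.exists_mulVec_eq_zero_iff.2 hd
    obtain ⟨x, hx⟩ := dt_word fun d => (v d).toNat
    obtain ⟨y, hy⟩ := dt_word fun d => (-v d).toNat
    have h1 : ∀ j, (app H x).count j = (app H y).count j := by
      intro j
      have h2 : ((app H x).count j : ℤ) - ((app H y).count j : ℤ) = M.mulVec v j := by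
        rw [hmv, hmv, ← Pi.sub_apply, ← Matrix.mulVec_sub]
        congr 1
        ext d
        rw [Pi.sub_apply, hx, hy]
        omega
      rw [hv0] at h2
      have h3 : (0 : Fin n → ℤ) j = 0 := rfl
      omega
    apply hv
    ext j
    have h2 := hw x y h1 j
    rw [hx, hy] at h2
    have h3 : (0 : Fin n → ℤ) j = 0 := rfl
    rw [h3]
    omega

/-- **Irreducibility in terms of closed lists.** -/
theorem irr_iff {n : ℕ} {H : Fin n → List (Fin n)} (hne : ∀ a, H a ≠ []) :
    (∀ i j, ∃ q, 0 < q ∧ j ∈ it H q [i]) ↔
      ∀ A : List (Fin n), A ≠ [] → (∀ a ∈ A, ∀ b ∈ H a, b ∈ A) → ∀ c, c ∈ A := by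
  classical
  constructor
  · intro h A hA hcl c
    obtain ⟨a, ha⟩ := List.exists_mem_of_ne_nil _ hA
    obtain ⟨q, -, hq⟩ := h a c
    have key : ∀ q, ∀ b ∈ it H q [a], b ∈ A := by
      intro q
      induction q with
      | zero =>
        intro b hb
        rw [it_zero, List.mem_singleton] at hb
        rw [hb]
        exact ha
      | succ q ih =>
        intro b hb
        rw [it_succ, mem_app] at hb
        obtain ⟨d, hd, hb⟩ := hb
        exact hcl d (ih d hd) b hb
    exact key q c hq
  · intro h i j
    have h1 := h ((Finset.univ.filter fun a => ∃ q, 0 < q ∧ a ∈ it H q [i]).toList) ?_ ?_ j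
    · rw [Finset.mem_toList, Finset.mem_filter] at h1
      exact h1.2
    · obtain ⟨b, hb⟩ := List.exists_mem_of_ne_nil _ (hne i)
      apply List.ne_nil_of_mem (a := b)
      rw [Finset.mem_toList, Finset.mem_filter]
      exact ⟨Finset.mem_univ _, 1, one_pos, by rw [it_one, app_singleton]; exact hb⟩
    · intro a ha b hb
      rw [Finset.mem_toList, Finset.mem_filter] at ha ⊢
      obtain ⟨-, q, hq, haq⟩ := ha
      exact ⟨Finset.mem_univ _, q + 1, Nat.succ_pos q, by
        rw [it_succ, mem_app]
        exact ⟨a, haq, hb⟩⟩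

end D0L
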