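import Pool.Agent.H.MP_374efc_lc.Zt.Lv

/-!
# MP_374efc_lc: one class on both sides

If `w 0` is a left and a right divisor of `w 1` and no token is a proper power, then every cut of the ray which is a
right divisor of a token is a product of tokens.  Hence a covering path gives a relation (`E11.rel`).
Paper: helper42 (T2E11), here with a shorter descent.
-/

set_option autoImplicit false

namespace D0L

namespace Tk

variable {C : Type} [CancelMonoid C]

/-- Right divisors of tokens. -/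
def Rt (S : Tk C) : Set C := {x | ∃ (k : ℤ) (z : C), S.w k = z * x}

/-- One class on both sides. -/
structure E11 (S : Tk C) : Prop where
  P : S.P 1
  Q : ∃ a, S.w 1 = a * S.w 0
  /-- right divisors are comparable -/
  tot : ∀ u v x y : C, u * x = v * y → (∃ d, x = d * y) ∨ ∃ d, y = d * x
  /-- no token is a proper power -/
  prim : ∀ (k : ℤ) (c d : C), c * d = S.w k → d * c = S.w k → c = 1 ∨ d = 1
  germ : ∀ x ∈ S.R 1 0, ∃ i, x * S.w i ∈ S.R 1 0
  fin : ∀ (i : ℤ) (K : ℝ), {x | x * S.w i ∈ S.R 1 0 ∧ S.len x ≤ K}.Finite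

namespace E11

variable {S : Tk C} (E : E11 S)

theorem w_mem (S : Tk C) (k : ℤ) : S.w k ∈ S.R 1 0 := ⟨k, by simp⟩

theorem s_mem {k : ℤ} {x : C} (hx : x ∈ S.R 1 0) : S.s k x ∈ S.R 1 0 := by
  obtain ⟨m, hm⟩ := hx
  refine ⟨k + m, ?_⟩
  have h1 := (S.s_dvd (k := k)).2 hm
  rw [S.s_w] at h1
  simpa using h1

theorem rt_w (k : ℤ) : S.w k ∈ S.Rt := ⟨k, 1, by rw [one_mul]⟩

theorem rt_down {x y : C} (h : x * y ∈ S.Rt) : y ∈ S.Rt := by
  obtain ⟨k, z, hz⟩ := h
  exact ⟨k, z * x, by rw [hz, mul_assoc]⟩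

include E in
theorem rt_succ (k : ℤ) : ∃ a, S.w (k + 1) = a * S.w k := by
  obtain ⟨a, ha⟩ := E.Q
  refine ⟨S.s k a, ?_⟩
  have h1 := congrArg (S.s k) ha
  rwa [map_mul, S.s_w, S.s_w, add_zero] at h1

include E in
theorem rt_add (k : ℤ) (m : ℕ) : ∃ a, S.w (k + m) = a * S.w k := by
  induction m with
  | zero => exact ⟨1, by simp⟩
  | succ m ih =>
    obtain ⟨a, ha⟩ := ih
    obtain ⟨b, hb⟩ := E.rt_succ (k + m)
    refine ⟨b * a, ?_⟩
    rw [show k + ((m + 1 : ℕ) : ℤ) = k + m + 1 by push_cast; ring, hb, ha, mul_assoc]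

include E in
/-- The right divisors of tokens are comparable. -/
theorem rt_total {x y : C} (hx : x ∈ S.Rt) (hy : y ∈ S.Rt) : (∃ d, x = d * y) ∨ ∃ d, y = d * x := by
  obtain ⟨k, z, hz⟩ := hx
  obtain ⟨k', z', hz'⟩ := hy
  rcases le_total k k' with h | h
  · obtain ⟨m, rfl⟩ : ∃ m : ℕ, k' = k + m := ⟨(k' - k).toNat, by omega⟩
    obtain ⟨a, ha⟩ := E.rt_add k m
    refine E.tot (a * z) z' x y ?_
    rw [mul_assoc, ← hz, ← ha, hz']
  · obtain ⟨m, rfl⟩ : ∃ m : ℕ, k = k' + m := ⟨(k - k').toNat, by omega⟩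
    obtain ⟨a, ha⟩ := E.rt_add k' m
    refine E.tot z (a * z') x y ?_
    rw [mul_assoc, ← hz', ← ha, hz]

include E in
/-- Right divisors of tokens of the same length are equal. -/
theorem rt_eq {x y : C} (hx : x ∈ S.Rt) (hy : y ∈ S.Rt) (h : S.len x = S.len y) : x = y := by
  rcases E.rt_total hx hy with ⟨d, hd⟩ | ⟨d, hd⟩
  · by_cases h1 : d = 1
    · rw [hd, h1, one_mul]
    · have h2 := S.len_pos d h1
      rw [hd, S.len_mul] at h
      linarith
  · by_cases h1 : d = 1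
    · rw [hd, h1, one_mul]
    · have h2 := S.len_pos d h1
      rw [hd, S.len_mul] at h
      linarith

/-- Cuts of the ray which are right divisors of tokens. -/
def G (S : Tk C) : Set C := {x | x ∈ S.R 1 0 ∧ x ∈ S.Rt ∧ x ≠ 1}

include E in
/-- If the product of two elements is one, they commute. -/
theorem comm {b c : C} (hb : b ∈ G S) (hc : c ∈ G S) (hbc : b * c ∈ G S) : b * c = c * b := by
  have h1 : c ∣ b * c := by
    refine E.P.R_le hc.1 hbc.1 ?_
    rw [S.len_mul]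
    have := S.len_nonneg b
    linarith
  obtain ⟨d, hd⟩ := h1
  have h2 : d = b := by
    refine E.rt_eq (rt_down (hd ▸ hbc.2.1)) hb.2.1 ?_
    have h3 := congrArg S.len hd
    rw [S.len_mul, S.len_mul] at h3
    linarith
  rw [hd, h2]

include E in
/-- Two elements which do not commute do not see each other. -/
theorem cor {b c s : C} (hb : b ∈ G S) (hc : c ∈ G S) (hs : s ≠ 1) (hbs : b = c * s)
    (hn : c * s ≠ s * c) : s ∉ S.R 1 0 := by
  intro h1
  exact hn (E.comm hc ⟨h1, rt_down (hbs ▸ hb.2.1), hs⟩ (hbs ▸ hb))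

include E in
/-- The last vertex of the path in front of `g` and the next step. -/
theorem walk {g z y : C} (hg : g ∈ S.R 1 0) (hz : z ∈ S.R 1 0) (hgz : S.len g < S.len z)
    (is : List ℤ) : ∀ v : C, v * S.pr is * y = z → v ∣ g →
    ∃ (a : List ℤ) (b : C), v * S.pr a ∣ g ∧ v * S.pr a * b ∈ S.R 1 0 ∧
      S.len g < S.len (v * S.pr a * b) ∧ ((∃ k, b = S.w k) ∨ (b = y ∧ v * S.pr a * b = z)) := by
  induction is with
  | nil =>
    intro v hv hvg
    rw [pr_nil, mul_one] at hv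
    refine ⟨[], y, by rwa [pr_nil, mul_one], ?_, ?_, Or.inr ⟨rfl, ?_⟩⟩ <;> rw [pr_nil, mul_one, hv]
    · exact hz
    · exact hgz
  | cons k is ih =>
    intro v hv hvg
    have hvk : v * S.w k ∈ S.R 1 0 := by
      refine R_down ?_ hz
      rw [← hv, pr_cons]
      exact ⟨S.pr is * y, by simp only [mul_assoc]⟩
    rcases lt_or_ge (S.len g) (S.len (v * S.w k)) with h1 | h1
    · exact ⟨[], S.w k, by rwa [pr_nil, mul_one], by rwa [pr_nil, mul_one], by rwa [pr_nil, mul_one],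
        Or.inl ⟨k, rfl⟩⟩
    · obtain ⟨a, b, h2, h3, h4, h5⟩ := ih (v * S.w k) (by rw [← hv, pr_cons]; simp only [mul_assoc])
        (E.P.R_le hvk hg h1)
      refine ⟨k :: a, b, ?_, ?_, ?_, ?_⟩ <;> rw [pr_cons, ← mul_assoc]
      · exact h2
      · exact h3
      · exact h4
      · exact h5

include E in
/-- **Descent**. -/
theorem step {is : List ℤ} {y : C} (hy : y ∈ S.R 1 0) (hcov : S.w 1 = S.w 0 * S.pr is * y) {g : C}
    (hg : g ∈ G S) (hn : ∀ js, g ≠ S.pr js) :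
    ∃ c ∈ G S, (∀ js, c ≠ S.pr js) ∧ S.len c < S.len g ∧
      ∀ j, g * S.w j ∈ S.R 1 0 → c * S.w j ∈ S.R 1 0 := by
  -- the scale of `g`
  obtain ⟨m, hm1, hm2⟩ : ∃ m : ℤ, S.len (S.w m) ≤ S.len g ∧ S.len g < S.len (S.w (m + 1)) := by
    have h0 := S.len_w0
    obtain ⟨m, h1, h2⟩ := exists_mem_Ico_zpow (div_pos (S.len_pos g hg.2.2) h0) S.one_lt
    refine ⟨m, ?_, ?_⟩
    · rw [S.len_w]
      exact (le_div_iff₀ h0).1 h1
    · rw [S.len_w]
      exact (div_lt_iff₀ h0).1 h2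
  have hv : S.w m * S.pr (is.map (m + ·)) * S.s m y = S.w (m + 1) := by
    have h1 := congrArg (S.s m) hcov
    rw [map_mul, map_mul, S.s_w, S.s_w, add_zero, s_pr] at h1
    exact h1.symm
  obtain ⟨a, b, h1, h2, h3, h4⟩ := E.walk hg.1 (w_mem S (m + 1)) hm2 _ _ hv
    (E.P.R_le (w_mem S m) hg.1 hm1)
  obtain ⟨v, hvd⟩ : ∃ v, v = S.w m * S.pr a := ⟨_, rfl⟩
  rw [← hvd] at h1 h2 h3 h4
  obtain ⟨c, rfl⟩ := h1
  have hvne : v ≠ 1 := by
    intro h
    have h5 := S.len_pos _ (S.w_ne_one m)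
    have h6 := congrArg S.len hvd
    rw [h, S.len_one, S.len_mul] at h6
    have := S.len_nonneg (S.pr a)
    linarith
  have hcn : ∀ js, c ≠ S.pr js := by
    intro js h
    refine hn (m :: a ++ js) ?_
    rw [pr_append, pr_cons, h, hvd]
  have hc1 : c ≠ 1 := fun h => hcn [] h
  obtain ⟨s, rfl⟩ : c ∣ b := mul_dvd_iff.1 (E.P.R_le hg.1 h2 h3.le)
  have hs1 : s ≠ 1 := by
    rintro rfl
    rw [mul_one] at h3
    exact lt_irrefl _ h3
  have hbG : c * s ∈ G S := by
    refine ⟨?_, ?_, ?_⟩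
    · rcases h4 with ⟨k, hk⟩ | ⟨hk, -⟩
      · rw [hk]
        exact w_mem S k
      · rw [hk]
        exact s_mem hy
    · rcases h4 with ⟨k, hk⟩ | ⟨-, hk⟩
      · rw [hk]
        exact rt_w k
      · refine rt_down (x := v) ?_
        rw [hk]
        exact rt_w _
    · intro h
      have h5 := congrArg S.len h
      rw [S.len_mul, S.len_one] at h5
      have h6 := S.len_pos c hc1
      have h7 := S.len_nonneg s
      linarith
  have hcG : c ∈ G S := ⟨R_down (Dvd.intro _ rfl) hbG.1, rt_down hg.2.1, hc1⟩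
  have hncomm : c * s ≠ s * c := by
    intro hcs
    rcases h4 with ⟨k, hk⟩ | ⟨-, hk⟩
    · rcases E.prim k c s hk (hcs ▸ hk) with h | h
      · exact hc1 h
      · exact hs1 h
    · have hsG : s ∈ G S := ⟨R_down (Dvd.intro _ rfl) (hcs ▸ hbG.1), rt_down hbG.2.1, hs1⟩
      have h5 : v * c * s = S.w (m + 1) := by rw [mul_assoc, hk]
      have h6 := E.comm hg hsG (by
        rw [h5]
        exact ⟨w_mem S _, rt_w _, S.w_ne_one _⟩)
      rcases E.prim (m + 1) (v * c) s h5 (h6 ▸ h5) with h | h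
      · exact hg.2.2 h
      · exact hs1 h
  have hsR : s ∉ S.R 1 0 := E.cor hbG hcG hs1 rfl hncomm
  refine ⟨c, hcG, hcn, ?_, ?_⟩
  · rw [S.len_mul]
    have := S.len_pos v hvne
    linarith
  · intro j hj
    have h5 : S.w j ∣ s := by
      rcases E.P.R_total hj h2 with h6 | h6
      · rw [← mul_assoc] at h6
        exact mul_dvd_iff.1 h6
      · rw [← mul_assoc] at h6
        exact absurd (R_down (mul_dvd_iff.1 h6) (w_mem S j)) hsR
    exact R_down (mul_dvd_mul_left c h5) hbG.1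

include E in
/-- **Every cut which is a right divisor of a token is a product of tokens.** -/
theorem tok {is : List ℤ} {y : C} (hy : y ∈ S.R 1 0) (hcov : S.w 1 = S.w 0 * S.pr is * y) {g : C}
    (hg : g ∈ G S) : ∃ js, g = S.pr js := by
  classical
  by_contra hcon
  push Not at hcon
  obtain ⟨j, hj⟩ := E.germ g hg.1
  have hfin : {x | (x ∈ G S ∧ (∀ js, x ≠ S.pr js)) ∧ x * S.w j ∈ S.R 1 0 ∧
      S.len x ≤ S.len g}.Finite := (E.fin j (S.len g)).subset fun x hx => hx.2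
  obtain ⟨x, ⟨⟨h1, h2⟩, h3, h4⟩, hmin⟩ := hfin.exists_minimalFor S.len _
    ⟨g, ⟨hg, hcon⟩, hj, le_rfl⟩
  obtain ⟨c, h5, h6, h7, h8⟩ := E.step hy hcov h1 h2
  have h9 := hmin ⟨⟨h5, h6⟩, h8 j h3, h7.le.trans h4⟩ h7.le
  linarith

include E in
/-- **A covering path gives a relation.** -/
theorem rel {is : List ℤ} {y : C} (hy : y ∈ S.R 1 0) (hcov : S.w 1 = S.w 0 * S.pr is * y)
    (hy1 : y ≠ 1) : ∃ js, S.w 1 = S.w 0 * S.pr js := by
  obtain ⟨js, hjs⟩ := E.tok hy hcov (g := y) ⟨hy, ⟨1, _, hcov⟩, hy1⟩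
  refine ⟨is ++ js, ?_⟩
  rw [hcov, hjs, pr_append, mul_assoc]

end E11

end Tk

end D0L
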