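import Pool.Agent.H.MP_374efc_lc.Asm.Al7

/-!
# MP_374efc_lc, Theorem Z: the certificate of a periodic image

`eper_iff`: some letter has periodic images along a progression iff `h^p(z^s) = z^s'` for some `p > 0`, `s > 0` and
some nonempty word `z`.
-/

set_option autoImplicit false

namespace D0L

variable {α : Type}

/-- The power of a word. -/
def epw (m : ℕ) (z : List α) : List α := (List.replicate m z).flatten

theorem epw_zero (z : List α) : epw 0 z = [] := rfl

theorem epw_one (z : List α) : epw 1 z = z := by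
  simp [epw]

theorem epw_succ (m : ℕ) (z : List α) : epw (m + 1) z = z ++ epw m z := by
  simp [epw, List.replicate_succ]

theorem epw_add (a b : ℕ) (z : List α) : epw (a + b) z = epw a z ++ epw b z := by
  induction a with
  | zero => rw [Nat.zero_add, epw_zero, List.nil_append]
  | succ a ih => rw [Nat.succ_add, epw_succ, ih, epw_succ, List.append_assoc]

theorem epw_mul (a b : ℕ) (z : List α) : epw (a * b) z = epw a (epw b z) := by
  induction a with
  | zero => rw [Nat.zero_mul, epw_zero, epw_zero]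
  | succ a ih => rw [Nat.succ_mul, Nat.add_comm, epw_add, ih, epw_succ]

theorem epw_len (m : ℕ) (z : List α) : (epw m z).length = m * z.length := by
  induction m with
  | zero => rw [epw_zero, Nat.zero_mul, List.length_nil]
  | succ m ih => rw [epw_succ, List.length_append, ih, Nat.succ_mul, Nat.add_comm]

theorem it_rp (h : α → List α) (k m : ℕ) (z : List α) : it h k (epw m z) = epw m (it h k z) := by
  induction m with
  | zero => rw [epw_zero, epw_zero, it_nil]
  | succ m ih => rw [epw_succ, it_append, ih, epw_succ]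

theorem epw_sg {U : ℕ → α} {q : ℕ} (hU : ∀ x, U (x + q) = U x) (x m : ℕ) :
    epw m (Per1_sg U x q) = Per1_sg U x (m * q) := by
  induction m with
  | zero =>
    rw [epw_zero, Nat.zero_mul]
    rfl
  | succ m ih =>
    rw [epw_succ, ih, Nat.succ_mul, Nat.add_comm, Per1_app]
    congr 1
    apply Per1_congr
    intro i
    rw [show x + q + i = x + i + q by omega, hU]

/-- Powers of a nonempty word are segments of a periodic sequence. -/
theorem epw_per {z : List α} (hz : z ≠ []) : ∃ U : ℕ → α, (∀ x, U (x + z.length) = U x) ∧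
    ∀ m, epw m z = Per1_sg U 0 (m * z.length) := by
  have hq : 0 < z.length := List.length_pos_of_ne_nil hz
  obtain ⟨U, hU⟩ : ∃ U : ℕ → α, ∀ x, U x = z[x % z.length]'(Nat.mod_lt _ hq) := ⟨_, fun _ => rfl⟩
  have h1 : ∀ x, U (x + z.length) = U x := by
    intro x
    rw [hU, hU]
    congr 1
    rw [Nat.add_mod_right]
  refine ⟨U, h1, fun m => ?_⟩
  rw [← epw_sg h1 0 m]
  congr 1
  apply List.ext_getElem
  · rw [Per1_len]
  · intro i hi _
    simp only [Per1_sg, List.getElem_map, List.getElem_range, Nat.zero_add]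
    rw [hU]
    congr 1
    rw [Nat.mod_eq_of_lt hi]

theorem ep_infix {h : α → List α} (m : ℕ) {x y : List α} (hxy : x <:+: y) :
    it h m x <:+: it h m y := by
  obtain ⟨s, t, rfl⟩ := hxy
  rw [it_append, it_append]
  exact ⟨_, _, rfl⟩

/-- Soundness. -/
theorem eper_of_epw {h : α → List α} {p s s' : ℕ} {z : List α} (hp : 0 < p) (hs : 0 < s)
    (hz : z ≠ []) (h1 : it h p (epw s z) = epw s' z) : EPer h := by
  obtain ⟨U, hU, hU'⟩ := epw_per hz
  obtain ⟨a, ha⟩ := List.exists_mem_of_ne_nil _ hz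
  refine ⟨a, p, U, z.length, hp, List.length_pos_of_ne_nil hz, hU, ?_⟩
  have key : ∀ k, ∃ m m', 0 < m ∧ it h (p * k) (epw m z) = epw m' z := by
    intro k
    induction k with
    | zero => exact ⟨1, 1, one_pos, rfl⟩
    | succ k ih =>
      obtain ⟨m, m', hm, h2⟩ := ih
      refine ⟨s * m, m' * s', Nat.mul_pos hs hm, ?_⟩
      rw [show p * (k + 1) = p + p * k by rw [Nat.mul_succ, Nat.add_comm], it_add, epw_mul, it_rp,
        h2, ← epw_mul, Nat.mul_comm s m', epw_mul, it_rp, h1, ← epw_mul]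
  intro k
  obtain ⟨m, m', hm, h2⟩ := key k
  have h3 : [a] <:+: epw m z := by
    obtain ⟨m0, rfl⟩ := Nat.exists_eq_succ_of_ne_zero hm.ne'
    rw [Nat.succ_eq_add_one, epw_succ]
    obtain ⟨x, y, rfl⟩ := List.append_of_mem ha
    exact ⟨x, y ++ epw m0 (x ++ a :: y), by simp⟩
  have h4 : it h (p * k) [a] <:+: Per1_sg U 0 (m' * z.length) := by
    rw [← hU', ← h2]
    exact ep_infix (p * k) h3
  obtain ⟨y, hy⟩ := Per1_fac h4
  exact ⟨y, _, hy⟩

/-- A sequence in a finite type takes some value twice. -/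
theorem ep_pig {β : Type} [Finite β] (f : ℕ → β) : ∃ k k', k < k' ∧ f k = f k' := by
  obtain ⟨k, k', h1, h2⟩ := Finite.exists_ne_map_eq_of_infinite f
  rcases lt_or_gt_of_ne h1 with h | h
  · exact ⟨k, k', h, h2⟩
  · exact ⟨k', k, h, h2.symm⟩

/-- Completeness, bounded images. -/
theorem epw_of_bdd [Fintype α] {h : α → List α} (hne : ∀ a, h a ≠ []) {a : α} {p B : ℕ} (hp : 0 < p)
    (hB : ∀ k, (it h (p * k) [a]).length ≤ B) :
    ∃ (p : ℕ) (z : List α), 0 < p ∧ z ≠ [] ∧ it h p z = z := by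
  have hfin : Finite {z : List α // z.length ≤ B} := (List.finite_length_le α B).to_subtype
  obtain ⟨k, k', hk, h1⟩ := ep_pig (fun k => (⟨it h (p * k) [a], hB k⟩ : {z : List α // z.length ≤ B}))
  have h2 : it h (p * k) [a] = it h (p * k') [a] := congrArg Subtype.val h1
  refine ⟨p * (k' - k), it h (p * k) [a], Nat.mul_pos hp (by omega), ?_, ?_⟩
  · intro h3
    have h4 := length_le_it hne (p * k) [a]
    rw [h3] at h4
    simp at h4
  · rw [← it_add, ← Nat.mul_add, Nat.sub_add_cancel hk.le, ← h2]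

/-- A word all powers of which are segments of `U` has as length a period of `U`. -/
theorem per_of_pows {U : ℕ → α} {q : ℕ} (hq : 0 < q) (hU : ∀ x, U (x + q) = U x) {v : List α}
    (hv : v ≠ []) (h : ∀ j, ∃ y, epw j v = Per1_sg U y (j * v.length)) :
    ∃ y < q, (∀ x, U (x + v.length) = U x) ∧ v = Per1_sg U y v.length := by
  have h1 : ∀ j, ∃ y < q, epw j v = Per1_sg U y (j * v.length) := by
    intro j
    obtain ⟨y, hy⟩ := h j
    exact ⟨y % q, Nat.mod_lt _ hq, hy.trans (Per1_congr (fun i => (Per1_mod hU y i).symm) _)⟩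
  have h2 : ∃ y < q, ∀ j, epw j v = Per1_sg U y (j * v.length) := by
    by_contra hc
    push Not at hc
    have hc' : ∀ y : ℕ, ∃ j, y < q → epw j v ≠ Per1_sg U y (j * v.length) := by
      intro y
      by_cases hy : y < q
      · obtain ⟨j, hj⟩ := hc y hy
        exact ⟨j, fun _ => hj⟩
      · exact ⟨0, fun h => absurd h hy⟩
    choose J hJ using hc'
    obtain ⟨y, hy, hy'⟩ := h1 ((Finset.range q).sup J)
    apply hJ y hy
    obtain ⟨d, hd⟩ : ∃ d, (Finset.range q).sup J = J y + d :=
      Nat.exists_eq_add_of_le (Finset.le_sup (f := J) (Finset.mem_range.2 hy))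
    rw [hd, epw_add] at hy'
    have h3 := (Per1_pre hy').1
    rwa [epw_len] at h3
  obtain ⟨y, hy, h3⟩ := h2
  have hL : 0 < v.length := List.length_pos_of_ne_nil hv
  have h4 : ∀ i, U (y + v.length + i) = U (y + i) := by
    intro i
    have h5 := h3 (i + 1 + 1)
    rw [epw_succ] at h5
    have h6 := (Per1_pre h5).2
    rw [epw_len, h3 (i + 1)] at h6
    refine (Per1_get h6 i ?_).symm
    nlinarith
  refine ⟨y, hy, ?_, ?_⟩
  · intro x
    have h5 := h4 (x + y * q - y)
    have h6 : y ≤ x + y * q := by nlinarith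
    rw [show y + v.length + (x + y * q - y) = x + v.length + y * q by omega,
      show y + (x + y * q - y) = x + y * q by omega, Per1_mul hU, Per1_mul hU] at h5
    exact h5
  · have h5 := h3 1
    rwa [epw_one, Nat.one_mul] at h5

/-- Completeness. -/
theorem epw_of_eper [Fintype α] {h : α → List α} (hne : ∀ a, h a ≠ []) (hE : EPer h) :
    ∃ (p : ℕ) (z : List α) (s s' : ℕ), 0 < p ∧ 0 < s ∧ z ≠ [] ∧ it h p (epw s z) = epw s' z := by
  classical
  obtain ⟨a, p, U, q0, hp, hq0, hU0, hseg⟩ := hE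
  by_cases hB : ∃ B, ∀ k, (it h (p * k) [a]).length ≤ B
  · obtain ⟨B, hB⟩ := hB
    obtain ⟨p', z, h1, h2, h3⟩ := epw_of_bdd hne hp hB
    exact ⟨p', z, 1, 1, h1, one_pos, h2, by rw [epw_one, h3]⟩
  push Not at hB
  -- the least period
  have hex : ∃ q, 0 < q ∧ ∀ x, U (x + q) = U x := ⟨q0, hq0, hU0⟩
  obtain ⟨q, hq, hU, hmin⟩ : ∃ q, 0 < q ∧ (∀ x, U (x + q) = U x) ∧
      ∀ r, 0 < r → (∀ x, U (x + r) = U x) → q ≤ r :=
    ⟨Nat.find hex, (Nat.find_spec hex).1, (Nat.find_spec hex).2,
      fun r h1 h2 => Nat.find_min' hex ⟨h1, h2⟩⟩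
  obtain ⟨u, hu⟩ : ∃ u, u = Per1_sg U 0 q := ⟨_, rfl⟩
  have hune : u ≠ [] := by
    intro h1
    have h2 := Per1_len U 0 q
    rw [← hu, h1, List.length_nil] at h2
    omega
  -- powers of `u` are factors of the images of `a`
  have hpow : ∀ j, ∃ k, epw j u <:+: it h (p * k) [a] := by
    intro j
    obtain ⟨k, hk⟩ := hB ((j + 1) * q)
    refine ⟨k, ?_⟩
    obtain ⟨x, L, hx⟩ := hseg k
    have hL : (j + 1) * q < L := by
      rw [hx, Per1_len] at hk
      exact hk
    obtain ⟨d, hd⟩ : ∃ d, x + d = (x / q + 1) * q ∧ d ≤ q := by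
      have h1 := Nat.mod_add_div x q
      have h2 := Nat.mod_lt x hq
      refine ⟨q - x % q, ?_, Nat.sub_le _ _⟩
      rw [Nat.add_mul, Nat.one_mul, Nat.mul_comm]
      omega
    obtain ⟨r, hr⟩ : ∃ r, L = d + (j * q + r) := by
      refine ⟨L - (d + j * q), ?_⟩
      rw [Nat.add_mul] at hL
      omega
    have h1 : epw j u = Per1_sg U ((x / q + 1) * q) (j * q) := by
      rw [hu, epw_sg hU]
      apply Per1_congr
      intro i
      rw [Nat.zero_add, Nat.add_comm ((x / q + 1) * q) i, Per1_mul hU]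
    rw [hx, hr, Per1_app, Per1_app, hd.1, h1, ← List.append_assoc]
    exact ⟨_, _, rfl⟩
  -- the images of `u`
  have hv : ∀ m, ∃ y : Fin q, ∃ c, 0 < c ∧ it h (p * m) u = epw c (Per1_sg U y q) := by
    intro m
    have hvne : it h (p * m) u ≠ [] := by
      intro h3
      have h4 := length_le_it hne (p * m) u
      rw [h3, List.length_nil] at h4
      exact hune (List.length_eq_zero_iff.1 (Nat.le_zero.1 h4))
    obtain ⟨y, hy, h1, h2⟩ := per_of_pows hq hU hvne (by
      intro j
      obtain ⟨k, hk⟩ := hpow j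
      have h1 := ep_infix (h := h) (p * m) hk
      rw [it_rp, ← it_add, ← Nat.mul_add] at h1
      obtain ⟨x, L, hx⟩ := hseg (m + k)
      rw [hx] at h1
      obtain ⟨y, hy⟩ := Per1_fac h1
      rw [epw_len] at hy
      exact ⟨y, hy⟩)
    obtain ⟨L, hL⟩ : ∃ L, L = (it h (p * m) u).length := ⟨_, rfl⟩
    rw [← hL] at h1 h2
    have hLpos : 0 < L := by
      rw [hL]
      exact List.length_pos_of_ne_nil hvne
    have hdiv : q ∣ L := by
      by_contra hc
      have h3 : 0 < L % q := Nat.pos_of_ne_zero fun h4 => hc (Nat.dvd_of_mod_eq_zero h4)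
      have h4 := hmin (L % q) h3 (by
        intro x
        have h5 := Nat.mod_add_div L q
        have h6 := h1 x
        rw [← h5, ← Nat.add_assoc, Nat.mul_comm q, Per1_mul hU] at h6
        exact h6)
      have h5 := Nat.mod_lt L hq
      omega
    obtain ⟨c, rfl⟩ := hdiv
    refine ⟨⟨y, hy⟩, c, Nat.pos_of_mul_pos_left hLpos, ?_⟩
    rw [h2, epw_sg hU, Nat.mul_comm]
  choose y c hc hyc using hv
  obtain ⟨m, m', hm, h1⟩ := ep_pig y
  refine ⟨p * (m' - m), Per1_sg U (y m) q, c m, c m', Nat.mul_pos hp (by omega), hc m, ?_, ?_⟩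
  · intro h2
    have h3 := Per1_len U (y m) q
    rw [h2, List.length_nil] at h3
    omega
  · rw [← hyc, ← it_add, ← Nat.mul_add, Nat.sub_add_cancel hm.le, hyc, h1]

/-- **The certificate of a periodic image.** -/
theorem eper_iff [Fintype α] {h : α → List α} (hne : ∀ a, h a ≠ []) :
    EPer h ↔ ∃ (p : ℕ) (z : List α) (s s' : ℕ), 0 < p ∧ 0 < s ∧ z ≠ [] ∧
      it h p (List.replicate s z).flatten = (List.replicate s' z).flatten :=
  ⟨epw_of_eper hne, fun ⟨_, _, _, _, h1, h2, h3, h4⟩ => eper_of_epw h1 h2 h3 h4⟩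

end D0L
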