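import Pool.Agent.H.MP_374efc_lc.Cr.Tok

/-!
# MP_374efc_lc: greedy paths

`Lg A x`: the cut `x` has a largest token on the ray `A`; `G A x` is its index, `gp A x k` the `k`-th cut of the
greedy path from `x`.
-/

set_option autoImplicit false

namespace D0L

namespace Tk

variable {C : Type} [CancelMonoid C] {S : Tk C} {e : ℕ}

theorem P.R_le (hP : S.P e) {c : ℤ} {x y : C} (hx : x ∈ S.R e c) (hy : y ∈ S.R e c)
    (h : S.len x ≤ S.len y) : x ∣ y := by
  rcases hP.R_total hx hy with h1 | h1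
  · exact h1
  · by_cases h2 : y = x
    · rw [h2]
    · have := S.dvd_len_lt h1 h2
      linarith

theorem P.R_eq (hP : S.P e) {c : ℤ} {x y : C} (hx : x ∈ S.R e c) (hy : y ∈ S.R e c)
    (h : S.len x = S.len y) : x = y :=
  S.dvd_antisymm (hP.R_le hx hy h.le) (hP.R_le hy hx h.ge)

theorem w_ne_one (S : Tk C) (k : ℤ) : S.w k ≠ 1 := by
  intro h
  have h1 := S.len_w k
  rw [h, S.len_one] at h1
  have h2 := mul_pos (zpow_pos S.lam_pos k) S.len_w0
  linarith

/-- The largest token is determined. -/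
theorem P.max_tok (hP : S.P e) (hD : S.D e) {c i j : ℤ} {x : C}
    (h1 : x * S.w i ∈ S.R e c) (h2 : x * S.w (i + e) ∉ S.R e c) (h3 : x * S.w j ∈ S.R e c) :
    j ≤ i ∧ (e : ℤ) ∣ i - j := by
  have hd : (e : ℤ) ∣ i - j := by
    rcases hP.R_total h1 h3 with h4 | h4
    · exact hD i j (S.w i) (S.w_ne_one i) dvd_rfl (mul_dvd_iff.1 h4)
    · exact hD i j (S.w j) (S.w_ne_one j) (mul_dvd_iff.1 h4) dvd_rfl
  refine ⟨?_, hd⟩
  by_contra hcon
  push Not at hcon
  obtain ⟨m, hm⟩ := hd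
  have hm0 : m < 0 := by
    by_contra h
    push Not at h
    have : 0 ≤ (e : ℤ) * m := mul_nonneg (by omega) h
    omega
  have h4 : S.w (i + e) ∣ S.w j := by
    have h5 := hP.le (k := i) (m := 1) (m' := -m) (by omega)
    rwa [one_mul, show i + -m * e = j by linarith] at h5
  exact h2 (R_down (mul_dvd_mul_left x h4) h3)

/-! ### the greedy path -/

/-- The cut `x` has a largest token on `A`. -/
def Lg (S : Tk C) (e : ℕ) (A : Set C) (x : C) : Prop :=
  ∃ i : ℤ, x * S.w i ∈ A ∧ x * S.w (i + e) ∉ A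

open Classical in
/-- The index of the largest token. -/
noncomputable def G (S : Tk C) (e : ℕ) (A : Set C) (x : C) : ℤ :=
  if h : S.Lg e A x then h.choose else 0

/-- The greedy path from `x`. -/
noncomputable def gp (S : Tk C) (e : ℕ) (A : Set C) (x : C) : ℕ → C
  | 0 => x
  | k + 1 => gp S e A x k * S.w (S.G e A (gp S e A x k))

theorem G_spec {A : Set C} {x : C} (h : S.Lg e A x) :
    x * S.w (S.G e A x) ∈ A ∧ x * S.w (S.G e A x + e) ∉ A := by
  unfold G
  rw [dif_pos h]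
  exact h.choose_spec

theorem gp_zero {A : Set C} {x : C} : S.gp e A x 0 = x := rfl

theorem gp_succ {A : Set C} {x : C} (k : ℕ) :
    S.gp e A x (k + 1) = S.gp e A x k * S.w (S.G e A (S.gp e A x k)) := rfl

theorem gp_add {A : Set C} {x : C} (k m : ℕ) :
    S.gp e A (S.gp e A x k) m = S.gp e A x (k + m) := by
  induction m with
  | zero => rfl
  | succ m ih => rw [gp_succ, ih, ← Nat.add_assoc, gp_succ]

theorem P.G_eq (hP : S.P e) (hD : S.D e) {c i : ℤ} {x : C} (h1 : x * S.w i ∈ S.R e c)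
    (h2 : x * S.w (i + e) ∉ S.R e c) : S.G e (S.R e c) x = i := by
  have h3 := G_spec (S := S) (e := e) ⟨i, h1, h2⟩
  have h4 := (hP.max_tok hD h1 h2 h3.1).1
  have h5 := (hP.max_tok hD h3.1 h3.2 h1).1
  omega

theorem P.le_G (hP : S.P e) (hD : S.D e) {c j : ℤ} {x : C} (h : S.Lg e (S.R e c) x)
    (h1 : x * S.w j ∈ S.R e c) : j ≤ S.G e (S.R e c) x ∧ (e : ℤ) ∣ S.G e (S.R e c) x - j :=
  hP.max_tok hD (G_spec h).1 (G_spec h).2 h1

/-! ### scaling -/

theorem R_s_mul {c k i : ℤ} {x : C} :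
    S.s k x * S.w i ∈ S.R e (c + k) ↔ x * S.w (i - k) ∈ S.R e c := by
  have h1 : S.s k (x * S.w (i - k)) = S.s k x * S.w i := by
    rw [map_mul, S.s_w, add_sub_cancel]
  rw [← h1, R_s]

theorem Lg_s {c k : ℤ} {x : C} : S.Lg e (S.R e (c + k)) (S.s k x) ↔ S.Lg e (S.R e c) x := by
  constructor
  · rintro ⟨i, h1, h2⟩
    refine ⟨i - k, R_s_mul.1 h1, fun h => h2 (R_s_mul.2 ?_)⟩
    rwa [show i - k + e = i + e - k by ring] at h
  · rintro ⟨i, h1, h2⟩
    refine ⟨i + k, R_s_mul.2 (by rwa [add_sub_cancel_right]), fun h => h2 ?_⟩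
    have h3 := R_s_mul.1 h
    rwa [show i + k + (e : ℤ) - k = i + e by ring] at h3

theorem P.G_s (hP : S.P e) (hD : S.D e) {c k : ℤ} {x : C} (h : S.Lg e (S.R e c) x) :
    S.G e (S.R e (c + k)) (S.s k x) = k + S.G e (S.R e c) x := by
  obtain ⟨h1, h2⟩ := G_spec h
  refine hP.G_eq hD (R_s_mul.2 ?_) (fun h3 => h2 ?_)
  · rwa [add_sub_cancel_left]
  · have h4 := R_s_mul.1 h3
    rwa [show k + S.G e (S.R e c) x + (e : ℤ) - k = S.G e (S.R e c) x + e by ring] at h4

theorem P.gp_s (hP : S.P e) (hD : S.D e) {c k : ℤ} {x : C} (m : ℕ)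
    (h : ∀ m' < m, S.Lg e (S.R e c) (S.gp e (S.R e c) x m')) :
    S.gp e (S.R e (c + k)) (S.s k x) m = S.s k (S.gp e (S.R e c) x m) := by
  induction m with
  | zero => rfl
  | succ m ih =>
    rw [gp_succ, ih fun m' hm' => h m' (by omega), hP.G_s hD (h m (by omega)), gp_succ, map_mul,
      S.s_w]

/-! ### lengths -/

theorem len_gp_succ {A : Set C} {x : C} (k : ℕ) : S.len (S.gp e A x (k + 1)) =
    S.len (S.gp e A x k) + S.lam ^ (S.G e A (S.gp e A x k)) * S.len S.w0 := by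
  rw [gp_succ, S.len_mul, S.len_w]

theorem len_gp_lt {A : Set C} {x : C} (k : ℕ) :
    S.len (S.gp e A x k) < S.len (S.gp e A x (k + 1)) := by
  rw [len_gp_succ]
  have := mul_pos (zpow_pos S.lam_pos (S.G e A (S.gp e A x k))) S.len_w0
  linarith

theorem len_gp_mono {A : Set C} {x : C} {k m : ℕ} (h : k ≤ m) :
    S.len (S.gp e A x k) ≤ S.len (S.gp e A x m) :=
  (strictMono_nat_of_lt_succ fun k => len_gp_lt (S := S) (e := e) (A := A) (x := x) k).monotone h

theorem len_gp_strict {A : Set C} {x : C} {k m : ℕ} (h : k < m) :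
    S.len (S.gp e A x k) < S.len (S.gp e A x m) :=
  (strictMono_nat_of_lt_succ fun k => len_gp_lt (S := S) (e := e) (A := A) (x := x) k) h

/-! ### local comparison -/

/-- Decisions inside a window `z * w n` are decisions on the ray of class `n`. -/
theorem P.loc (hP : S.P e) {c n i : ℤ} {z y : C} (hw : z * S.w n ∈ S.R e c)
    (h1 : z * y * S.w i ∈ S.R e c) (h2 : z * y * S.w (i + e) ∉ S.R e c)
    (h3 : S.len (y * S.w (i + e)) ≤ S.len (S.w n)) :
    y * S.w i ∈ S.R e n ∧ y * S.w (i + e) ∉ S.R e n := by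
  constructor
  · have h4 : S.len (S.w i) ≤ S.len (S.w (i + e)) := S.dvd_len (hP.w i)
    rw [S.len_mul] at h3
    have h5 : z * y * S.w i ∣ z * S.w n := by
      refine hP.R_le h1 hw ?_
      rw [S.len_mul, S.len_mul, S.len_mul]
      linarith
    rw [mul_assoc] at h5
    exact R_down (mul_dvd_iff.1 h5) (w_mem_R n)
  · intro h4
    have h5 := hP.R_le h4 (w_mem_R n) h3
    refine h2 (R_down ?_ hw)
    rw [mul_assoc]
    exact mul_dvd_mul_left z h5

end Tk

end D0L
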