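import Pool.Agent.H.MP_374efc_lc.Zt.Re4
import Pool.Agent.H.MP_374efc_lc.Cr.Inst
import Pool.Agent.H.MP_374efc_lc.Asm.Elem

/-!
# MP_374efc_lc, Theorem Z: hypotheses for good systems (job Z7, first part)

`GoodS.hinj`: the system is injective. `GoodS.gr`: all letters grow. `GoodS.perron`: Perron weights.
`GoodS.legal_pre`: `it H K b0` is legal if it is a prefix of `it H (K + e) b0`.
-/

set_option autoImplicit false

namespace D0L

open Bim

variable {n : ℕ} {H : Fin n → List (Fin n)} {b0 : List (Fin n)}

/-! ### injectivity -/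

theorem inj_of_det {n : ℕ} {H : Fin n → List (Fin n)}
    (det : (Matrix.of fun (j i : Fin n) => ((H i).count j : ℚ)).det ≠ 0) :
    Function.Injective (app H) := (elem_of_det det).inj

theorem GoodS.hinj (hg : GoodS H b0) : HInj H := ⟨inj_of_det hg.det⟩

theorem GoodS.elem_pw (hg : GoodS H b0) (p : ℕ) : Elem (pw H p) := al8_elem hg.det p

theorem GoodS.pos (hg : GoodS H b0) : 0 < n := by
  obtain ⟨a, s, hs⟩ := List.exists_cons_of_ne_nil hg.ne
  exact Fin.pos a

/-! ### growth -/

/-- Some image has at least two letters. -/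
theorem GoodS.long (hg : GoodS H b0) : ∃ c, 2 ≤ (H c).length := by
  by_contra hc
  push Not at hc
  have h1 : ∀ c, ∃ d, H c = [d] := by
    intro c
    have h2 := List.length_pos_of_ne_nil (hg.hne c)
    have h3 := hc c
    exact List.length_eq_one_iff.1 (by omega)
  choose σ hσ using h1
  have hinj : Function.Injective σ := by
    intro a b hab
    have h2 : app H [a] = app H [b] := by rw [app_singleton, app_singleton, hσ, hσ, hab]
    exact List.singleton_injective (inj_of_det hg.det h2)
  obtain ⟨q, hq, hq2⟩ : (⟨0, hg.pos⟩ : Fin n) ∈ Function.periodicPts σ := hinj.mem_periodicPts _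
  apply hg.eper
  refine ⟨⟨0, hg.pos⟩, 1, fun x => σ^[x] ⟨0, hg.pos⟩, q, Nat.one_pos, hq, ?_, ?_⟩
  · intro x
    show σ^[x + q] _ = σ^[x] _
    rw [Function.iterate_add_apply]
    exact congrArg _ hq2
  · intro k
    refine ⟨k, 1, ?_⟩
    have h2 : ∀ k : ℕ, it H k [(⟨0, hg.pos⟩ : Fin n)] = [σ^[k] ⟨0, hg.pos⟩] := by
      intro k
      induction k with
      | zero => rfl
      | succ k ih => rw [it_succ, ih, app_singleton, hσ, Function.iterate_succ_apply']
    rw [one_mul, h2]
    rfl

/-- All letters grow. -/
theorem GoodS.gr (hg : GoodS H b0) (a : Fin n) : Gr H a := by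
  obtain ⟨c, hc⟩ := hg.long
  have key : ∀ (B : ℕ) (u : List (Fin n)), u ≠ [] → ∃ k, B ≤ (it H k u).length := by
    intro B
    induction B with
    | zero => exact fun u _ => ⟨0, Nat.zero_le _⟩
    | succ B ih =>
      intro u hu
      obtain ⟨k, hk⟩ := ih u hu
      have h1 : it H k u ≠ [] := by
        intro h2
        have h3 := length_le_it hg.hne k u
        rw [h2, List.length_nil] at h3
        exact hu (List.length_eq_zero_iff.1 (Nat.le_zero.1 h3))
      obtain ⟨d, v, hv⟩ := List.exists_cons_of_ne_nil h1
      obtain ⟨q, -, hq⟩ := hg.irr d c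
      have h2 : c ∈ it H q (it H k u) := by
        rw [hv]
        have h3 : it H q (d :: v) = it H q [d] ++ it H q v := by
          rw [← it_append]
          rfl
        rw [h3]
        exact List.mem_append_left _ hq
      obtain ⟨x, y, hxy⟩ := List.append_of_mem h2
      refine ⟨1 + (q + k), ?_⟩
      rw [it_add, it_add]
      have h4 : it H 1 (it H q (it H k u)) = app H (it H q (it H k u)) := rfl
      have h5 := length_le_it hg.hne q (it H k u)
      rw [h4, hxy, app_append, app_cons, List.length_append, List.length_append]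
      rw [hxy, List.length_append, List.length_cons] at h5
      have h6 : x.length ≤ (app H x).length := length_le_it hg.hne 1 x
      have h7 : y.length ≤ (app H y).length := length_le_it hg.hne 1 y
      omega
  exact fun B => key B [a] (List.cons_ne_nil _ _)

/-! ### Perron weights -/

/-- Perron weights exist for irreducible growing systems. -/
theorem pw_of_irr (hn : 0 < n) (hb0 : b0 ≠ [])
    (irr : ∀ i j, ∃ q, 0 < q ∧ j ∈ it H q [i]) (gr : ∀ a, Gr H a) :
    ∃ (lam : ℝ) (l : Fin n → ℝ), PW H b0 lam l := by
  classical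
  haveI : Nonempty (Fin n) := ⟨⟨0, hn⟩⟩
  set A : Matrix (Fin n) (Fin n) ℝ := Matrix.of fun a b => ((H a).count b : ℝ) with hA
  have hAnn : ∀ a b, 0 ≤ A a b := fun a b => by
    rw [hA, Matrix.of_apply]
    exact Nat.cast_nonneg _
  -- entries of powers
  have hpw : ∀ (k : ℕ) a b, (A ^ k) a b = ((it H k [a]).count b : ℝ) := by
    intro k
    induction k with
    | zero =>
      intro a b
      rw [pow_zero, it_zero, Matrix.one_apply, List.count_singleton]
      by_cases hab : a = b
      · subst hab; simp
      · simp [hab]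
    | succ k ih =>
      intro a b
      rw [pow_succ', Matrix.mul_apply]
      have h1 : it H (k + 1) [a] = it H k (H a) := by rw [it_succ', app_singleton]
      have h2 : ∀ u : List (Fin n), ((it H k u).count b : ℝ) =
          ∑ c, (u.count c : ℝ) * ((it H k [c]).count b : ℝ) := by
        intro u
        induction u with
        | nil => simp [it_nil]
        | cons c u ihu =>
          have h3 : it H k (c :: u) = it H k [c] ++ it H k u := by
            rw [← it_append]
            rfl
          rw [h3, List.count_append, Nat.cast_add, ihu]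
          have h4 : ∀ d, ((c :: u).count d : ℝ) * ((it H k [d]).count b : ℝ) =
              (u.count d : ℝ) * ((it H k [d]).count b : ℝ) +
                if d = c then ((it H k [c]).count b : ℝ) else 0 := by
            intro d
            rw [List.count_cons]
            by_cases hdc : d = c
            · subst hdc
              simp
              ring
            · have : ¬ c = d := fun h => hdc h.symm
              simp [hdc, this]
          rw [Finset.sum_congr rfl fun d _ => h4 d, Finset.sum_add_distrib,
            Finset.sum_ite_eq' Finset.univ c, if_pos (Finset.mem_univ c), add_comm]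
      rw [h1, h2]
      refine Finset.sum_congr rfl fun c _ => ?_
      rw [ih, hA, Matrix.of_apply]
  have hpnn : ∀ (k : ℕ) a b, 0 ≤ (A ^ k) a b := fun k a b => by
    rw [hpw]
    exact Nat.cast_nonneg _
  -- a power of `1 + A` is positive
  choose q hq0 hq using irr
  set K : ℕ := 1 + ∑ a, ∑ b, q a b with hK
  have hqK : ∀ a b, q a b ≤ K := by
    intro a b
    have h1 : q a b ≤ ∑ b, q a b :=
      Finset.single_le_sum (f := fun b => q a b) (fun _ _ => Nat.zero_le _) (Finset.mem_univ b)
    have h2 : ∑ b, q a b ≤ ∑ a, ∑ b, q a b :=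
      Finset.single_le_sum (f := fun a => ∑ b, q a b) (fun _ _ => Nat.zero_le _)
        (Finset.mem_univ a)
    omega
  have hpos : ∀ a b, 0 < ((1 + A) ^ K) a b := by
    intro a b
    have h1 : (1 + A) ^ K = ∑ m ∈ Finset.range (K + 1), A ^ m * ((K.choose m : ℕ) : Matrix (Fin n) (Fin n) ℝ) := by
      rw [add_comm, (Commute.one_right A).add_pow]
      refine Finset.sum_congr rfl fun m _ => ?_
      rw [one_pow, mul_one]
    rw [h1, Matrix.sum_apply]
    have h2 : ∀ m, (A ^ m * ((K.choose m : ℕ) : Matrix (Fin n) (Fin n) ℝ)) a b =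
        (A ^ m) a b * (K.choose m : ℝ) := by
      intro m
      rw [← nsmul_eq_mul', Matrix.smul_apply, nsmul_eq_mul, mul_comm]
    refine Finset.sum_pos' (fun m _ => ?_) ⟨q a b, ?_, ?_⟩
    · rw [h2]
      exact mul_nonneg (hpnn m a b) (Nat.cast_nonneg _)
    · rw [Finset.mem_range]
      have := hqK a b
      omega
    · rw [h2, hpw]
      refine mul_pos ?_ ?_
      · exact_mod_cast List.count_pos_iff.2 (hq a b)
      · exact_mod_cast Nat.choose_pos (hqK a b)
  obtain ⟨mu, hmu, u, hu, hue⟩ := Pool.Agent.H.MP_345fd7_an.pf_eigen (1 + A) (fun a b => by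
    rw [Matrix.add_apply]
    refine add_nonneg ?_ (hAnn a b)
    rw [Matrix.one_apply]
    split_ifs <;> norm_num) ⟨K, by omega, hpos⟩
  have heig : ∀ a, ∑ b, A a b * u b = (mu - 1) * u a := by
    intro a
    have h1 := hue a
    simp only [Matrix.add_apply, add_mul, Finset.sum_add_distrib] at h1
    have h2 : ∑ b, (1 : Matrix (Fin n) (Fin n) ℝ) a b * u b = u a := by
      simp [Matrix.one_apply]
    rw [h2] at h1
    linarith
  have hlwe : ∀ a, lw u (H a) = (mu - 1) * u a := by
    intro a
    rw [lw_count, ← heig a]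
    rfl
  have hlit : ∀ k (v : List (Fin n)), lw u (it H k v) = (mu - 1) ^ k * lw u v := by
    have happ : ∀ v, lw u (app H v) = (mu - 1) * lw u v := by
      intro v
      induction v with
      | nil => rw [app_nil, lw_nil, mul_zero]
      | cons a v ih => rw [app_cons, lw_append, ih, hlwe, lw_cons, mul_add]
    intro k v
    induction k with
    | zero => rw [it_zero, pow_zero, one_mul]
    | succ k ih => rw [it_succ, happ, ih, pow_succ]; ring
  have hmu1 : 1 < mu - 1 := by
    -- minimal weight
    obtain ⟨a0, -, ha0⟩ := Finset.exists_min_image Finset.univ u Finset.univ_nonempty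
    have hm := hu a0
    have hlen : ∀ v : List (Fin n), (v.length : ℝ) * u a0 ≤ lw u v := by
      intro v
      induction v with
      | nil => simp [lw_nil]
      | cons a v ih =>
        rw [lw_cons, List.length_cons, Nat.cast_add, Nat.cast_one, add_mul, one_mul]
        have := ha0 a (Finset.mem_univ a)
        linarith
    have hgr := gr a0
    obtain ⟨k, hk⟩ := hgr 2
    have h1 := hlen (it H k [a0])
    rw [hlit, lw_cons, lw_nil, add_zero] at h1
    have h2 : (2 : ℝ) ≤ ((it H k [a0]).length : ℝ) := by exact_mod_cast hk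
    have h3 : 2 * u a0 ≤ (mu - 1) ^ k * u a0 :=
      (mul_le_mul_of_nonneg_right h2 hm.le).trans h1
    have h4 : (2 : ℝ) ≤ (mu - 1) ^ k := le_of_mul_le_mul_right h3 hm
    have hmpos : 0 ≤ mu - 1 := by
      have h5 := hlwe a0
      have h6 := lw_nonneg hu (H a0)
      rw [h5] at h6
      by_contra h7
      push Not at h7
      nlinarith
    by_contra h5
    push Not at h5
    have h6 := pow_le_one₀ (n := k) hmpos h5
    linarith
  have hb : 0 < lw u b0 := lw_pos hu hb0
  refine ⟨mu - 1, fun a => u a / lw u b0, hmu1, fun a => div_pos (hu a) hb, ?_, ?_⟩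
  · intro a
    rw [lw_div, hlwe]
    ring
  · rw [lw_div, div_self hb.ne']

/-- Injectivity and Perron weights of good systems. -/
theorem good_pw (hg : GoodS H b0) : HInj H ∧ ∃ (lam : ℝ) (l : Fin n → ℝ), PW H b0 lam l :=
  ⟨hg.hinj, pw_of_irr hg.pos hg.ne hg.irr hg.gr⟩

/-! ### legal words -/

/-- If `w_K` is a prefix of `w_(K+e)`, `0 < e`, then `w_K` is legal. -/
theorem GoodS.legal_pre (hg : GoodS H b0) {K e : ℕ} (he : 0 < e)
    (hP : it H K b0 <+: it H (K + e) b0) : Legal H (it H K b0) := by
  have h1 : ∀ m, it H K b0 <+: it H (m * e) (it H K b0) := by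
    intro m
    induction m with
    | zero => rw [Nat.zero_mul]; exact List.prefix_rfl
    | succ m ih =>
      refine ih.trans ?_
      obtain ⟨s, hs⟩ := hP
      refine ⟨it H (m * e) s, ?_⟩
      rw [← it_append, hs, Nat.add_comm K e, it_add, ← it_add, Nat.succ_mul]
  have hne : it H K b0 ≠ [] := by
    intro h2
    have h3 := length_le_it hg.hne K b0
    rw [h2, List.length_nil] at h3
    exact hg.ne (List.length_eq_zero_iff.1 (Nat.le_zero.1 h3))
  obtain ⟨c, v, hv⟩ := List.exists_cons_of_ne_nil hne
  obtain ⟨k, hk⟩ := hg.gr c (it H K b0).length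
  have h2 : (it H K b0).length ≤ (it H (k * e) [c]).length := by
    refine hk.trans ?_
    obtain ⟨d, hd⟩ := Nat.exists_eq_add_of_le (Nat.le_mul_of_pos_right k he)
    rw [hd, Nat.add_comm, it_add]
    exact length_le_it hg.hne _ _
  have h3 : it H (k * e) [c] <+: it H (k * e) (it H K b0) := by
    rw [hv]
    refine ⟨it H (k * e) v, ?_⟩
    rw [← it_append]
    rfl
  exact ⟨c, k * e, (List.prefix_of_prefix_length_le (h1 k) h3 h2).isInfix⟩

/-- All later words of the chain are legal. -/
theorem GoodS.legal_it (hg : GoodS H b0) {K e i : ℕ} (he : 0 < e)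
    (hP : it H K b0 <+: it H (K + e) b0) (hi : K ≤ i) : Legal H (it H i b0) := by
  obtain ⟨d, rfl⟩ := Nat.exists_eq_add_of_le hi
  rw [Nat.add_comm, it_add]
  exact al_legal_it (hg.legal_pre he hP) d

end D0L
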