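import Pool.Agent.H.MP_374efc_lc.Zt.Re3
import Pool.Agent.H.MP_374efc_lc.Zt.Ep
import Pool.Agent.H.MP_374efc_lc.Zt.Dt

/-!
# MP_374efc_lc, Theorem Z: good systems

`good_iff`: the system over `Fin n` has the properties `GoodS` iff its code has no certificate `Bad`.
-/

set_option autoImplicit false

namespace D0L

variable {n : ℕ} {H : Fin n → List (Fin n)} {b0 : List (Fin n)}

/-- Irreducible systems with nonzero determinant and without periodic images, all letters are first letters and last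
letters of the first words. -/
structure GoodS (H : Fin n → List (Fin n)) (b0 : List (Fin n)) : Prop where
  hne : ∀ a, H a ≠ []
  ne : b0 ≠ []
  irr : ∀ i j, ∃ q, 0 < q ∧ j ∈ it H q [i]
  det : (Matrix.of fun (j i : Fin n) => ((H i).count j : ℚ)).det ≠ 0
  eper : ¬ EPer H
  first : FirstS H b0
  last : LastS H b0

/-- Normal forms which are codes of core systems are good. -/
theorem CNF.good {N : ℕ} (hc : CNF H b0 N) : GoodS H b0 := by
  obtain ⟨hnf, α, iα, h, w, t, he, hp, hper, hl, hw, hlc, hgr, hcod⟩ := hc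
  have ht : ∀ i, t i ≠ [] := by
    intro i hi
    have h1 : app t [i] = app t [] := by rw [app_singleton, hi, app_nil]
    exact absurd (hcod.inj h1) (List.cons_ne_nil _ _)
  exact ⟨fun a => ne_of_inj hnf.inj a, hnf.ne, hnf.irr, hcod.det,
    al8_eper (fun a => he.good.ne a) hp hper ht hcod.comm, hnf.first, hnf.last⟩

/-- The certificates are exactly those of the systems which are not good. -/
theorem good_iff : GoodS H b0 ↔ ∀ d, ¬ Bad (cd H b0) d := by
  constructor
  · intro hg d hd
    rcases hd with h | h | h | h | h | h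
    · exact h (wfC_cd hg.hne hg.ne)
    · obtain ⟨x, h1, h2, j, hj⟩ := badA_cd.1 ⟨_, h⟩
      exact hj ((irr_iff hg.hne).1 hg.irr x h1 h2 j)
    · obtain ⟨x, y, h1, j, hj⟩ := badD_cd.1 ⟨_, _, h⟩
      exact hj ((det_iff H).1 hg.det x y h1 j)
    · obtain ⟨p, z, s, s', h1, h2, h3, h4⟩ := badP_cd.1 ⟨_, _, _, _, h⟩
      exact hg.eper (eper_of_epw h1 h2 h3 h4)
    · exact (badF_cd hg.hne hg.ne).1 h hg.first
    · exact (badL_cd hg.hne hg.ne).1 h hg.last
  · intro hb
    have hw : WfC (cd H b0) := by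
      by_contra h
      exact hb ([], [], 0, 0, 0) (Or.inl h)
    have hne : ∀ a, H a ≠ [] := by
      intro a ha
      apply hw.2.2.1
      unfold cd
      rw [List.mem_ofFn]
      exact ⟨a, by rw [ha, List.map_nil]⟩
    have hb0 : b0 ≠ [] := by
      rintro rfl
      exact hw.2.2.2 rfl
    refine ⟨hne, hb0, ?_, ?_, ?_, ?_, ?_⟩
    · refine (irr_iff hne).2 ?_
      intro A h1 h2 c
      by_contra hc
      obtain ⟨x, hx⟩ := (badA_cd (b0 := b0)).2 ⟨A, h1, h2, c, hc⟩
      exact hb (x, [], 0, 0, 0) (Or.inr (Or.inl hx))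
    · refine (det_iff H).2 ?_
      intro x y h1 j
      by_contra hc
      obtain ⟨x, y, hx⟩ := (badD_cd (b0 := b0)).2 ⟨x, y, h1, j, hc⟩
      exact hb (x, y, 0, 0, 0) (Or.inr (Or.inr (Or.inl hx)))
    · intro hE
      obtain ⟨x, p, s, s', hx⟩ := (badP_cd (b0 := b0)).2 (epw_of_eper hne hE)
      exact hb (x, [], p, s, s') (Or.inr (Or.inr (Or.inr (Or.inl hx))))
    · by_contra hc
      exact hb ([], [], 0, 0, 0) (Or.inr (Or.inr (Or.inr (Or.inr (Or.inl
        ((badF_cd hne hb0).2 hc))))))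
    · by_contra hc
      exact hb ([], [], 0, 0, 0) (Or.inr (Or.inr (Or.inr (Or.inr (Or.inr
        ((badL_cd hne hb0).2 hc))))))

/-- Codes without certificate come from good systems. -/
theorem exists_good {c : List (List ℕ) × List ℕ} (hc : ∀ d, ¬ Bad c d) :
    ∃ (n : ℕ) (H : Fin n → List (Fin n)) (b0 : List (Fin n)), c = cd H b0 ∧ GoodS H b0 := by
  have hw : WfC c := by
    by_contra h
    exact hc ([], [], 0, 0, 0) (Or.inl h)
  obtain ⟨n, H, b0, rfl, -, -⟩ := exists_cd hw
  exact ⟨n, H, b0, rfl, good_iff.2 hc⟩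

/-- **A computable bound from certificates of the good systems.** -/
theorem bound_of_good {β : Type} [Primcodable β] {T : List (List ℕ) × List ℕ → β → Prop}
    (hT : PrimrecPred (fun x : (List (List ℕ) × List ℕ) × β => T x.1 x.2))
    (hcomp : ∀ (n : ℕ) (H : Fin n → List (Fin n)) (b0 : List (Fin n)), GoodS H b0 → ¬ LC H b0 →
      ∃ b, T (cd H b0) b)
    (hsound : ∀ (n N : ℕ) (H : Fin n → List (Fin n)) (b0 : List (Fin n)), CNF H b0 N →
      GoodS H b0 → ∀ b, ¬ T (cd H b0) b) :
    ∃ F', Computable F' ∧ Bound F' := by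
  refine bound_of_cert (β := (List ℕ × List ℕ × ℕ × ℕ × ℕ) × Option β)
    (T := fun c x => Bad c x.1 ∨ ∃ b, x.2 = some b ∧ T c b) ?_ ?_ ?_
  · refine PrimrecPred.or (prim_bad.comp (Primrec.fst.pair (Primrec.fst.comp Primrec.snd))) ?_
    obtain ⟨hd, h2⟩ := hT
    have h4 : Primrec (fun x : (List (List ℕ) × List ℕ) × (List ℕ × List ℕ × ℕ × ℕ × ℕ) ×
        Option β => (Option.casesOn x.2.2 false
          (fun b => @decide (T x.1 b) (hd (x.1, b))) : Bool)) := by
      refine Primrec.option_casesOn (Primrec.snd.comp Primrec.snd) (Primrec.const false) ?_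
      exact (h2.comp (Primrec.pair (Primrec.fst.comp Primrec.fst) Primrec.snd)).to₂
    refine (pr_eq h4 (Primrec.const true)).of_eq ?_
    intro x
    cases hx : x.2.2 with
    | none => simp
    | some b => simp
  · intro c hfp
    by_cases hb : ∃ d, Bad c d
    · obtain ⟨d, hd⟩ := hb
      exact ⟨(d, none), Or.inl hd⟩
    · push Not at hb
      obtain ⟨n, H, b0, rfl, hg⟩ := exists_good hb
      obtain ⟨b, hb'⟩ := hcomp n H b0 hg (by
        rintro ⟨p, hp⟩
        exact hfp ((fp_iff _).2 ⟨p, (rel_cd p).2 hp⟩))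
      exact ⟨(([], [], 0, 0, 0), some b), Or.inr ⟨b, rfl, hb'⟩⟩
  · intro n N H b0 hnf x hx
    rcases hx with h | ⟨b, -, h⟩
    · exact good_iff.1 hnf.good _ h
    · exact hsound n N H b0 hnf hnf.good b h

end D0L
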