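import Pool.Agent.H.MP_374efc_lc.Zt.Ck
import Pool.Agent.H.MP_374efc_lc.Zt.Re4

/-!
# MP_374efc_lc, Theorem Z: the level lemma and the prefix property of good systems

`GoodS.lev`: good systems have the level lemma with a computable constant.  `P_of_pre`: if `w_0` divides
`w_e` at level `K` then `P`.
-/

set_option autoImplicit false

namespace D0L

open Bim

/-- The level lemma of irreducible morphisms, with a computable constant. -/
theorem lev_irr {n s : ℕ} {H : Fin n → List (Fin n)} (h1 : n ≤ s)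
    (h2 : ∀ a, (H a).length ≤ s) (hne : ∀ a, H a ≠ [])
    (irr : ∀ i j, ∃ q, 0 < q ∧ j ∈ it H q [i])
    (det : (Matrix.of fun (j i : Fin n) => ((H i).count j : ℚ)).det ≠ 0) (hE : ¬ EPer H) :
    Hlev H (cLc s) := by
  intro u b A B M i j hu hb hb0 hMi hi e1
  obtain ⟨p, hp, hpb, hper⟩ := al6_period H
  obtain ⟨hself, hcl⟩ := al6_class hp hper irr
  obtain ⟨a, ha⟩ := List.exists_mem_of_ne_nil _ hb0
  have h1' : Fintype.card (Fin n) ≤ s := by rw [Fintype.card_fin]; exact h1
  have hs1 : 1 ≤ s := by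
    have := h2 a
    have := List.length_pos_of_ne_nil (hne a)
    omega
  have hpc : p ≤ cPb s := by
    refine hpb.trans ?_
    unfold cPb
    refine Nat.pow_le_pow_left (Nat.add_le_add_right ?_ 1) 2
    exact Nat.pow_le_pow_right (by norm_num) (Nat.mul_le_mul h1' h1')
  have hm : s ^ p ≤ s ^ cPb s := Nat.pow_le_pow_right hs1 hpc
  have hm1 : 1 ≤ s ^ p := Nat.one_le_pow _ _ hs1
  refine level_irr (m0 := s ^ p) hp hne hper irr ?_ hu hb hb0 hMi ?_ e1
  · intro a0 iF g hg
    exact al7_std hp hne h2 (al8_elem det p) hper hself hcl hE hg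
  · refine le_trans (Nat.add_le_add_left ?_ j) hi
    have f1 := al5_alS_mono (r := 1) (r' := 1) h1' hm le_rfl hm1
    have f2 := al5_alQ_mono (r := 1) (r' := 1) h1' hm le_rfl hm1
    unfold cLc
    exact Nat.mul_le_mul hpc (by omega)

/-- A larger constant. -/
theorem Hlev.mono {α : Type} {H : α → List α} {kap kap' : ℕ} (h : Hlev H kap) (hk : kap ≤ kap') :
    Hlev H kap' := by
  intro u b A B M i j hu hb hb0 hMi hi e1
  exact h u b A B M i j hu hb hb0 hMi (by omega) e1

variable {n : ℕ} {H : Fin n → List (Fin n)} {b0 : List (Fin n)}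

/-- **The level lemma of good systems.** -/
theorem GoodS.lev {s : ℕ} (hg : GoodS H b0) (hs : Sz s H b0) : Hlev H (cLc s) := by
  refine lev_irr ?_ hs.2.1 hg.hne hg.irr hg.det hg.eper
  have h := hs.1
  rwa [Fintype.card_fin] at h

end D0L
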