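import Pool.Agent.H.MP_374efc_lc.Zt.Inst
import Pool.Agent.H.MP_374efc_lc.Zt.Ck
import Pool.Agent.H.MP_374efc_lc.Zt.Re4

/-!
# MP_374efc_lc: levels for good systems

`HLev` from the level lemma `Hlev` of all legal words, and the structure `Lv` for the colimit of a good system in
which `it H K b0` is legal and `it H K b0 <+: it H (K + e) b0`.
-/

set_option autoImplicit false

namespace D0L

open Bim

variable {n : ℕ} {H : Fin n → List (Fin n)} {b0 : List (Fin n)} {lam : ℝ} {l : Fin n → ℝ}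

theorem hyp3_it_ne (hne : ∀ a, H a ≠ []) (hb : b0 ≠ []) (k : ℕ) : it H k b0 ≠ [] := by
  intro h
  have h1 := length_le_it hne k b0
  rw [h, List.length_nil] at h1
  exact hb (List.length_eq_zero_iff.1 (Nat.le_zero.1 h1))

/-- The level lemma for the words `it H i b0`. -/
theorem HLev_of_Hlev {kap K : ℕ} (hlev : Hlev H kap) (hne : ∀ a, H a ≠ []) (hb : b0 ≠ [])
    (hleg : Legal H (it H K b0)) : HLev H b0 (K + kap) := by
  intro A B M i j hiM hji h1
  have e1 : it H M b0 = it H (M - K) (it H K b0) := by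
    rw [← it_add]
    congr 1
    omega
  have e2 : it H i b0 = it H (i - K) (it H K b0) := by
    rw [← it_add]
    congr 1
    omega
  rw [e1, e2] at h1
  obtain ⟨y1, y3, f1, f2, f3⟩ := hlev _ _ A B (M - K) (i - K) j hleg hleg
    (hyp3_it_ne hne hb K) (by omega) (by omega) h1
  refine ⟨y1, y3, ?_, f2, f3⟩
  rw [← it_add, ← it_add, show M - K - j + K = M - j by omega,
    show i - K - j + K = i - j by omega] at f1
  exact f1

theorem HLev.mono {K K' : ℕ} (h : HLev H b0 K) (hK : K ≤ K') : HLev H b0 K' :=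
  fun A B M i j h1 h2 h3 => h A B M i j h1 (by omega) h3

/-- The levels for a good system. -/
theorem GoodS.lv [HInj H] (hw : PW H b0 lam l) (hg : GoodS H b0) {kap K e : ℕ} (he : 0 < e)
    (hlev : Hlev H kap) (hleg : Legal H (it H K b0))
    (hP0 : it H K b0 <+: it H (K + e) b0) : Nonempty ((tkN hw).Lv e) := by
  have hP1 : it H (K + kap) b0 <+: it H (K + kap + e) b0 :=
    lvi_pre hP0 (M := K + kap) (M' := K + kap + e) (by omega) (by omega)
      ⟨1, by push_cast; ring⟩
  refine ⟨lvN hw he hP1 (HLev_of_Hlev hlev hg.hne hg.ne hleg) ?_ hg.irr⟩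
  obtain ⟨f, hf, hf'⟩ := hg.first
  intro a
  obtain ⟨i, hi⟩ := hf.2 a
  obtain ⟨s, hs⟩ := hf' i
  exact ⟨i, s, by rw [hs, hi]⟩

end D0L
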