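import Pool.Agent.H.MP_374efc_lc.Zt.Inst

/-!
# MP_374efc_lc: legality

If `it H K b0 <+: it H (K + e) b0` then `it H K b0` is legal.
-/

set_option autoImplicit false

namespace D0L

open Bim

variable {n : ℕ} {H : Fin n → List (Fin n)} {b0 : List (Fin n)} {lam : ℝ} {l : Fin n → ℝ}

/-- `it H K b0` is an initial part of an iterate of its first letter. -/
theorem hyp4_pre (hw : PW H b0 lam l) {K e : ℕ} (he : 0 < e)
    (hP0 : it H K b0 <+: it H (K + e) b0) :
    ∃ (a : Fin n) (r : List (Fin n)) (m : ℕ), it H K b0 = a :: r ∧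
      it H K b0 <+: it H (m * e) [a] := by
  have hb1 : it H K b0 ≠ [] := by
    intro h
    have h1 := hw.lw_w K
    rw [h, lw_nil] at h1
    have := pow_pos hw.lam_pos K
    linarith
  obtain ⟨a1, r1, hr1⟩ := List.exists_cons_of_ne_nil hb1
  obtain ⟨m0, hN0⟩ := pow_unbounded_of_one_lt (lw l (it H K b0) / l a1) hw.one_lt
  have hm0N : m0 ≤ m0 * e := Nat.le_mul_of_pos_right _ he
  have hbig : lw l (it H K b0) < lw l (it H (m0 * e) [a1]) := by
    have h1 : lw l (it H (m0 * e) [a1]) = lam ^ (m0 * e) * l a1 := by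
      rw [hw.lw_it, lw_cons, lw_nil, add_zero]
    rw [h1]
    rw [div_lt_iff₀ (hw.pos a1)] at hN0
    refine hN0.trans_le ?_
    exact mul_le_mul_of_nonneg_right (pow_le_pow_right₀ hw.one_lt.le hm0N) (hw.pos a1).le
  refine ⟨a1, r1, m0, hr1, ?_⟩
  have h1 : it H K b0 <+: it H (K + m0 * e) b0 :=
    lvi_pre hP0 le_rfl (by omega) ⟨m0, by push_cast; ring⟩
  rw [Nat.add_comm, it_add] at h1
  have h2 : it H (m0 * e) [a1] <+: it H (m0 * e) (it H K b0) :=
    ⟨it H (m0 * e) r1, by rw [← it_append, List.singleton_append, hr1]⟩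
  rcases List.prefix_or_prefix_of_prefix h1 h2 with h3 | h3
  · exact h3
  · have := lvi_prefix_lw (l := l) hw.pos h3
    linarith

/-- `it H K b0` is legal. -/
theorem legal_of_pre (hw : PW H b0 lam l) {K e : ℕ} (he : 0 < e)
    (hP0 : it H K b0 <+: it H (K + e) b0) : Legal H (it H K b0) := by
  obtain ⟨a, r, m, -, h⟩ := hyp4_pre hw he hP0
  exact ⟨a, m * e, h.isInfix⟩

end D0L
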