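import Pool.Agent.H.MP_374efc_lc.Zt.Lv
import Pool.Agent.H.MP_374efc_lc.Cr.Inst

/-!
# MP_374efc_lc: the levels of the colimit, first part

The level lemma `HLev` for the words `it H i b0`, the property `P` (`tkN_P`), the cuts `lvV` of high level.
-/

set_option autoImplicit false

namespace D0L

open Bim

variable {n : ℕ} {H : Fin n → List (Fin n)} {b0 : List (Fin n)} {lam : ℝ} {l : Fin n → ℝ}

/-- The level lemma for the words `it H i b0` (hypothesis of `align_of_level`). -/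
def HLev (H : Fin n → List (Fin n)) (b0 : List (Fin n)) (K : ℕ) : Prop :=
  ∀ (A B : List (Fin n)) (M i j : ℕ), i ≤ M → j + K ≤ i →
    it H M b0 = A ++ (it H i b0 ++ B) →
    ∃ y1 y3, it H (M - j) b0 = y1 ++ (it H (i - j) b0 ++ y3) ∧ it H j y1 = A ∧ it H j y3 = B

theorem lvi_pre {K e : ℕ} (hP0 : it H K b0 <+: it H (K + e) b0) {M M' : ℕ} (hM : K ≤ M)
    (hMM : M ≤ M') (hd : (e : ℤ) ∣ (M' : ℤ) - M) : it H M b0 <+: it H M' b0 := by
  have hstep : ∀ M, K ≤ M → it H M b0 <+: it H (M + e) b0 := by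
    intro M hM
    obtain ⟨z, hz⟩ := hP0
    refine ⟨it H (M - K) z, ?_⟩
    have h1 : it H M b0 = it H (M - K) (it H K b0) := by
      rw [← it_add]
      congr 1
      omega
    have h2 : it H (M + e) b0 = it H (M - K) (it H (K + e) b0) := by
      rw [← it_add]
      congr 1
      omega
    rw [h1, h2, ← it_append, hz]
  have hk : ∀ k, it H M b0 <+: it H (M + k * e) b0 := by
    intro k
    induction k with
    | zero => simp
    | succ k ih =>
      rw [show M + (k + 1) * e = M + k * e + e by ring]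
      exact ih.trans (hstep _ (by omega))
  obtain ⟨z, hz⟩ := hd
  rcases Nat.eq_zero_or_pos e with he | he
  · subst he
    have h1 : M' = M := by
      have h2 : (M' : ℤ) - M = 0 := by rw [hz]; simp
      omega
    rw [h1]
  · have hz0 : 0 ≤ z := by
      by_contra hcon
      push Not at hcon
      have : (e : ℤ) * z < 0 := mul_neg_of_pos_of_neg (by omega) hcon
      omega
    have h1 : M' = M + z.toNat * e := by
      have h2 : (z.toNat : ℤ) = z := Int.toNat_of_nonneg hz0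
      have h3 : ((M + z.toNat * e : ℕ) : ℤ) = M' := by
        push_cast
        rw [h2]
        linarith
      exact_mod_cast h3.symm
    rw [h1]
    exact hk _

/-- Two members of one class have comparable words. -/
theorem lvi_cmp {K e : ℕ} (hP0 : it H K b0 <+: it H (K + e) b0) {M M' : ℕ} (hM : K ≤ M)
    (hM' : K ≤ M') (hd : (e : ℤ) ∣ (M' : ℤ) - M) {p p' : List (Fin n)} (hp : p <+: it H M b0)
    (hp' : p' <+: it H M' b0) : p <+: p' ∨ p' <+: p := by
  rcases le_total M M' with h | h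
  · exact List.prefix_or_prefix_of_prefix (hp.trans (lvi_pre hP0 hM h hd)) hp'
  · have hd' : (e : ℤ) ∣ (M : ℤ) - M' := by
      have := (dvd_neg (a := (e : ℤ))).2 hd
      rwa [neg_sub] at this
    exact List.prefix_or_prefix_of_prefix hp (hp'.trans (lvi_pre hP0 hM' h hd'))

theorem lvi_cls {e : ℕ} (he : 0 < e) (z : ℤ) (B : ℕ) :
    ∃ M : ℕ, B ≤ M ∧ (e : ℤ) ∣ (M : ℤ) - z := by
  have h0 := Int.emod_nonneg (z - B) (show (e : ℤ) ≠ 0 by omega)
  refine ⟨B + ((z - B) % e).toNat, by omega, -((z - B) / e), ?_⟩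
  have h1 := Int.emod_add_mul_ediv (z - B) e
  push_cast
  rw [Int.toNat_of_nonneg h0]
  linarith

/-- A short initial part with a given length. -/
theorem lvi_exists_pre (hpos : ∀ a, 0 < l a) {s : ℝ} (hs : 0 ≤ s) :
    ∀ W : List (Fin n), s ≤ lw l W →
      ∃ p, p <+: W ∧ s ≤ lw l p ∧ lw l p ≤ s + ∑ a, l a := by
  have hsum : ∀ a, l a ≤ ∑ a, l a := fun a =>
    Finset.single_le_sum (f := l) (fun b _ => (hpos b).le) (Finset.mem_univ a)
  intro W
  induction W using List.reverseRecOn with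
  | nil =>
    intro h
    refine ⟨[], List.prefix_rfl, h, ?_⟩
    rw [lw_nil]
    exact add_nonneg hs (Finset.sum_nonneg fun a _ => (hpos a).le)
  | append_singleton W a ih =>
    intro h
    by_cases h1 : s ≤ lw l W
    · obtain ⟨p, hp, h2, h3⟩ := ih h1
      exact ⟨p, hp.trans (List.prefix_append _ _), h2, h3⟩
    · push Not at h1
      refine ⟨W ++ [a], List.prefix_rfl, h, ?_⟩
      rw [lw_append, lw_cons, lw_nil]
      have := hsum a
      linarith

theorem lvi_prefix_lw (hpos : ∀ a, 0 < l a) {u v : List (Fin n)} (h : u <+: v) :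
    lw l u ≤ lw l v := by
  obtain ⟨z, rfl⟩ := h
  rw [lw_append]
  have := lw_nonneg hpos z
  linarith

variable [HInj H] (hw : PW H b0 lam l)

include hw in
theorem lvi_s_mk (a L : ℕ) {k : ℤ} (hk : k = (a : ℤ) - L) (y : List (Fin n)) :
    (tkN hw).s k (Col.mk H 0 y) = Col.mk H L (it H a y) := by
  rw [tkN_s, hk, sub_eq_add_neg, Col.sft_add, Col.sft_neg_mk, Nat.zero_add, Col.sft_nat_mk]

include hw in
theorem lvi_w {L m : ℕ} {i : ℤ} (h : (m : ℤ) = L + i) :
    (tkN hw).w i = Col.mk H L (it H m b0) := by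
  have h1 : i = (m : ℤ) - L := by omega
  rw [h1, tkN_w]

theorem lvi_len_mk (L : ℕ) (u : List (Fin n)) :
    (tkN hw).len (Col.mk H L u) = lw l u / lam ^ L := rfl

theorem lvi_len_s (k : ℤ) (u : List (Fin n)) :
    (tkN hw).len ((tkN hw).s k (Col.mk H 0 u)) = lam ^ k * lw l u := by
  rw [(tkN hw).len_s, lvi_len_mk, pow_zero, div_one]
  rfl

/-- The property `P`. -/
theorem tkN_P {K e : ℕ} (hP0 : it H K b0 <+: it H (K + e) b0) : (tkN hw).P e := by
  unfold Tk.P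
  rw [lvi_w hw (L := K) (m := K) (i := 0) (by omega),
    lvi_w hw (L := K) (m := K + e) (i := e) (by push_cast; ring)]
  exact Col.mk_dvd.2 ⟨0, hP0⟩

/-- Elements of a ray divide large tokens. -/
theorem lvi_R {K e : ℕ} (he : 0 < e) (hP0 : it H K b0 <+: it H (K + e) b0) {c : ℤ} {x : Col H}
    (hx : x ∈ (tkN hw).R e c) (B : ℤ) :
    ∃ m : ℤ, B ≤ c + m * e ∧ x ∣ (tkN hw).w (c + m * e) := by
  obtain ⟨m, hm⟩ := hx
  refine ⟨max m ((B - c).natAbs : ℤ), ?_, hm.trans ((tkN_P hw hP0).le (le_max_left _ _))⟩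
  have h1 : ((B - c).natAbs : ℤ) ≤ max m ((B - c).natAbs : ℤ) := le_max_right _ _
  have h3 : max m ((B - c).natAbs : ℤ) * 1 ≤ max m ((B - c).natAbs : ℤ) * e :=
    mul_le_mul_of_nonneg_left (by omega) (by omega)
  omega

/-- The cuts of level at least `m` of the ray `c`. -/
def lvV (K e : ℕ) (c m : ℤ) : Set (Col H) :=
  {x | ∃ (p : List (Fin n)) (M : ℕ), K ≤ M ∧ (e : ℤ) ∣ (M : ℤ) - (c - m) ∧
    p <+: it H M b0 ∧ x = (tkN hw).s m (Col.mk H 0 p)}

theorem lvV_one {K e : ℕ} (he : 0 < e) (c m : ℤ) : (1 : Col H) ∈ lvV hw K e c m := by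
  obtain ⟨M, h1, h2⟩ := lvi_cls he (c - m) K
  refine ⟨[], M, h1, h2, List.nil_prefix, ?_⟩
  rw [Col.mk_nil, map_one]

theorem lvV_sub {K e : ℕ} (c m : ℤ) : lvV hw K e c m ⊆ (tkN hw).R e c := by
  rintro x ⟨p, M, h1, ⟨z, hz⟩, h3, rfl⟩
  refine ⟨z, ?_⟩
  have h4 : (tkN hw).w (c + z * e) = (tkN hw).s m (Col.mk H 0 (it H M b0)) := by
    rw [show c + z * e = m + (M : ℤ) by linarith, ← (tkN hw).s_w]
    rw [lvi_w hw (L := 0) (m := M) (i := M) (by simp)]
  rw [h4, (tkN hw).s_dvd]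
  exact Col.mk_dvd.2 ⟨0, h3⟩

theorem lvV_mono {K e : ℕ} (c : ℤ) {m m' : ℤ} (h : m ≤ m') :
    lvV hw K e c m' ⊆ lvV hw K e c m := by
  rintro x ⟨p, M, h1, ⟨z, hz⟩, h3, rfl⟩
  obtain ⟨d, rfl⟩ : ∃ d : ℕ, m' = m + d := ⟨(m' - m).toNat, by omega⟩
  refine ⟨it H d p, d + M, by omega, ⟨z, ?_⟩, ?_, ?_⟩
  · push_cast
    linarith
  · rw [it_add]
    obtain ⟨r, hr⟩ := h3
    exact ⟨it H d r, by rw [← it_append, hr]⟩
  · rw [(tkN hw).s_add, lvi_s_mk hw d 0 (by simp)]

theorem lvV_diff {K e : ℕ} (hP0 : it H K b0 <+: it H (K + e) b0) (c m : ℤ) (x d : Col H)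
    (hx : x ∈ lvV hw K e c m) (hxd : x * d ∈ lvV hw K e c m) :
    (tkN hw).s (-m) d ∈ Set.range (Col.mk H 0) := by
  obtain ⟨p, M, h1, h2, h3, rfl⟩ := hx
  obtain ⟨p', M', h1', h2', h3', h4⟩ := hxd
  have hd : (e : ℤ) ∣ (M' : ℤ) - M := by
    have := dvd_sub h2' h2
    rwa [show (M' : ℤ) - (c - m) - (M - (c - m)) = M' - M by ring] at this
  have h5 : p <+: p' := by
    rcases lvi_cmp hP0 h1 h1' hd h3 h3' with h | h
    · exact h
    · have h6 : Col.mk H 0 p ∣ Col.mk H 0 p' := by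
        rw [← (tkN hw).s_dvd (k := m), ← h4]
        exact Dvd.intro _ rfl
      have h7 : Col.mk H 0 p' ∣ Col.mk H 0 p := Col.mk_dvd.2 ⟨0, h⟩
      rw [Col.mk_inj (Col.dvd_antisymm' h6 h7)]
  obtain ⟨r, rfl⟩ := h5
  refine ⟨r, ?_⟩
  rw [← Col.mk_mul_mk, map_mul] at h4
  rw [mul_left_cancel h4, (tkN hw).s_neg]

theorem lvF_fin (B : ℝ) :
    {x | x ∈ Set.range (Col.mk H 0) ∧ (tkN hw).len x ≤ B}.Finite := by
  have hn : ∀ p : List (Fin n), p ≠ [] → 0 < ∑ a, l a := by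
    intro p hp
    obtain ⟨a, -⟩ := List.exists_mem_of_ne_nil _ hp
    exact lt_of_lt_of_le (hw.pos a) (Finset.single_le_sum (f := l)
      (fun b _ => (hw.pos b).le) (Finset.mem_univ a))
  obtain ⟨δ, hδ, hδl⟩ : ∃ δ : ℝ, 0 < δ ∧ ∀ a, δ ≤ l a := by
    by_cases h0 : (Finset.univ : Finset (Fin n)).Nonempty
    · obtain ⟨a, -, ha⟩ := Finset.exists_min_image Finset.univ l h0
      exact ⟨l a, hw.pos a, fun b => ha b (Finset.mem_univ b)⟩
    · refine ⟨1, one_pos, fun a => ?_⟩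
      exact absurd ⟨a, Finset.mem_univ a⟩ h0
  have hlen : ∀ p : List (Fin n), δ * p.length ≤ lw l p := by
    intro p
    induction p with
    | nil => simp [lw_nil]
    | cons a p ih =>
      rw [lw_cons, List.length_cons]
      push_cast
      have := hδl a
      linarith
  obtain ⟨N, hN⟩ := exists_nat_gt (B / δ)
  refine ((List.finite_length_le (Fin n) N).image (Col.mk H 0)).subset ?_
  rintro x ⟨⟨p, rfl⟩, hp⟩
  refine ⟨p, ?_, rfl⟩
  rw [lvi_len_mk, pow_zero, div_one] at hp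
  have h1 := hlen p
  rw [div_lt_iff₀ hδ] at hN
  have h2 : (p.length : ℝ) < N := by
    by_contra h
    push Not at h
    have : (N : ℝ) * δ ≤ δ * p.length := by
      rw [mul_comm]
      exact mul_le_mul_of_nonneg_left h hδ.le
    linarith
  have h3 : p.length < N := by exact_mod_cast h2
  exact h3.le

theorem lvV_tok {K e : ℕ} (he : 0 < e) (hP0 : it H K b0 <+: it H (K + e) b0)
    (hlev : HLev H b0 K) (c i : ℤ) (q : Col H) (hq : q * (tkN hw).w i ∈ (tkN hw).R e c) :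
    q ∈ lvV hw K e c (i - K) ∧ q * (tkN hw).w i ∈ lvV hw K e c (i - K) := by
  obtain ⟨m, hm, hdv⟩ := lvi_R hw he hP0 hq (max i 0 + K)
  obtain ⟨K0, hK0⟩ := Col.rep_ge q
  obtain ⟨L, hL⟩ : ∃ L : ℕ, K0 ≤ L ∧ (K : ℤ) ≤ L + i ∧ 0 ≤ L + (c + m * e) := by
    exact ⟨K0 + K + i.natAbs, by omega, by omega, by omega⟩
  obtain ⟨hL1, hL2, hL3⟩ := hL
  obtain ⟨q0, rfl⟩ := hK0 L hL1
  obtain ⟨a, ha⟩ : ∃ a : ℕ, (a : ℤ) = L + i := ⟨(L + i).toNat, Int.toNat_of_nonneg (by omega)⟩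
  obtain ⟨b, hb⟩ : ∃ b : ℕ, (b : ℤ) = L + (c + m * e) := ⟨(L + (c + m * e)).toNat,
    Int.toNat_of_nonneg (by omega)⟩
  rw [lvi_w hw ha, lvi_w hw hb, Col.mk_mul_mk] at hdv
  obtain ⟨d, B, hB⟩ := Col.mk_dvd.1 hdv
  rw [it_append, ← it_add, ← it_add, List.append_assoc] at hB
  obtain ⟨y1, y3, f1, f2, -⟩ := hlev (it H d q0) B (d + b) (d + a) (d + a - K) (by omega)
    (by omega) hB.symm
  have e1 : d + b - (d + a - K) = b - a + K := by omega
  have e2 : d + a - (d + a - K) = K := by omega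
  rw [e1, e2] at f1
  have hcls : (e : ℤ) ∣ ((b - a + K : ℕ) : ℤ) - (c - (i - K)) := by
    refine ⟨m, ?_⟩
    rw [Nat.cast_add, Nat.cast_sub (by omega), ha, hb]
    ring
  have g1 : Col.mk H L q0 = (tkN hw).s (i - K) (Col.mk H 0 y1) := by
    rw [lvi_s_mk hw (d + a - K) (d + L) (by rw [Nat.cast_sub (by omega)]; push_cast; omega), f2,
      Col.mk_lift]
  have g2 : Col.mk H L q0 * (tkN hw).w i =
      (tkN hw).s (i - K) (Col.mk H 0 (y1 ++ it H K b0)) := by
    rw [← Col.mk_mul_mk, map_mul, ← g1]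
    congr 1
    rw [lvi_s_mk hw (d + a - K) (d + L) (by rw [Nat.cast_sub (by omega)]; push_cast; omega),
      ← it_add, lvi_w hw (L := d + L) (m := d + a - K + K) (i := i) (by push_cast; omega)]
  refine ⟨⟨y1, b - a + K, by omega, hcls, ?_, g1⟩, ⟨y1 ++ it H K b0, b - a + K, by omega, hcls,
    ?_, g2⟩⟩
  · rw [f1]
    exact List.prefix_append _ _
  · rw [f1, ← List.append_assoc]
    exact List.prefix_append _ _

end D0L
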