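import Pool.Agent.H.MP_374efc_lc.Zt.In1
import Pool.Agent.H.MP_374efc_lc.Asm.Al6

/-!
# MP_374efc_lc: the levels of the colimit

`lvN`: the structure `Lv` for the colimit of `(H, b0)` from the level lemma `HLev` for the words `it H i b0`, the
condition `it H K b0 <+: it H (K + e) b0`, first letters and irreducibility; `tkN_P`: the property `P`.
-/

set_option autoImplicit false

namespace D0L

open Bim

variable {n : ℕ} {H : Fin n → List (Fin n)} {b0 : List (Fin n)} {lam : ℝ} {l : Fin n → ℝ}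

variable [HInj H] (hw : PW H b0 lam l)

/-- Cuts of high level are dense. -/
theorem lvV_dense {K e : ℕ} (he : 0 < e) (c m : ℤ) (s : ℝ) (hs : 0 ≤ s) :
    ∃ x ∈ lvV hw K e c m, s ≤ (tkN hw).len x ∧
      (tkN hw).len x ≤ s + (∑ a, l a) * (tkN hw).lam ^ m := by
  have hl : (tkN hw).lam = lam := rfl
  have h0 : 0 < lam ^ m := zpow_pos hw.lam_pos m
  obtain ⟨B, hB⟩ := pow_unbounded_of_one_lt (s / lam ^ m) hw.one_lt
  obtain ⟨M, h1, h2⟩ := lvi_cls he (c - m) (K + B)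
  have h3 : s / lam ^ m ≤ lw l (it H M b0) := by
    rw [hw.lw_w]
    exact hB.le.trans (pow_le_pow_right₀ hw.one_lt.le (by omega))
  obtain ⟨p, hp, h4, h5⟩ := lvi_exists_pre hw.pos (div_nonneg hs h0.le) _ h3
  refine ⟨_, ⟨p, M, by omega, h2, hp, rfl⟩, ?_, ?_⟩
  · rw [lvi_len_s]
    rw [div_le_iff₀ h0] at h4
    linarith
  · rw [lvi_len_s, hl]
    have h6 : lam ^ m * lw l p ≤ lam ^ m * (s / lam ^ m + ∑ a, l a) :=
      mul_le_mul_of_nonneg_left h5 h0.le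
    have h7 : lam ^ m * (s / lam ^ m + ∑ a, l a) = s + (∑ a, l a) * lam ^ m := by
      field_simp
    linarith

/-- Every cut is the start of a token. -/
theorem lvV_germ {K e : ℕ} (he : 0 < e) (hP0 : it H K b0 <+: it H (K + e) b0)
    (hfirst : ∀ a, ∃ i s, it H i b0 = a :: s) (c : ℤ) (x : Col H)
    (hx : x ∈ (tkN hw).R e c) : ∃ i, x * (tkN hw).w i ∈ (tkN hw).R e c := by
  have hP := tkN_P hw hP0
  obtain ⟨B, hB⟩ := pow_unbounded_of_one_lt ((tkN hw).len x) hw.one_lt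
  obtain ⟨m, hm, hdv⟩ := lvi_R hw he hP0 hx B
  have hlenw : (tkN hw).len x < (tkN hw).len ((tkN hw).w (c + m * e)) := by
    have h1 : (tkN hw).len (tkN hw).w0 = 1 := by
      change lw l b0 / lam ^ 0 = 1
      rw [hw.ax, pow_zero, div_one]
    rw [(tkN hw).len_w, h1, mul_one]
    refine hB.trans_le ?_
    rw [← zpow_natCast]
    exact zpow_le_zpow_right₀ hw.one_lt.le hm
  obtain ⟨K0, hK0⟩ := Col.rep_ge x
  obtain ⟨L, hL1, hL2⟩ : ∃ L : ℕ, K0 ≤ L ∧ 0 ≤ L + (c + m * e) := ⟨K0, le_rfl, by omega⟩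
  obtain ⟨u, rfl⟩ := hK0 L hL1
  obtain ⟨b, hb⟩ : ∃ b : ℕ, (b : ℤ) = L + (c + m * e) := ⟨(L + (c + m * e)).toNat,
    Int.toNat_of_nonneg (by omega)⟩
  have hdv' := hdv
  rw [lvi_w hw hb] at hdv'
  obtain ⟨d, B', hB'⟩ := Col.mk_dvd.1 hdv'
  rw [← it_add] at hB'
  have hB0 : B' ≠ [] := by
    rintro rfl
    rw [List.append_nil] at hB'
    have h1 : Col.mk H L u = (tkN hw).w (c + m * e) := by
      rw [← Col.mk_lift L d u, hB', lvi_w hw (L := d + L) (m := d + b) (by push_cast; omega)]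
    rw [h1] at hlenw
    exact lt_irrefl _ hlenw
  obtain ⟨a, r, rfl⟩ := List.exists_cons_of_ne_nil hB0
  obtain ⟨i0, s, hs⟩ := hfirst a
  obtain ⟨L', hL'⟩ : ∃ L', L' = d + L := ⟨_, rfl⟩
  have hδ : 0 < (tkN hw).len (Col.mk H L' [a]) := by
    rw [lvi_len_mk]
    exact div_pos (lw_pos hw.pos (List.cons_ne_nil _ _)) (pow_pos hw.lam_pos _)
  have hdvA : Col.mk H L' [a] ∣ (tkN hw).w ((i0 : ℤ) - L') := by
    rw [lvi_w hw (L := L') (m := i0) (by ring)]
    exact Col.mk_dvd.2 ⟨0, by rw [it_zero, it_zero, hs]; exact ⟨s, rfl⟩⟩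
  obtain ⟨N, hN⟩ := pow_unbounded_of_one_lt (1 / (tkN hw).len (Col.mk H L' [a])) hw.one_lt
  obtain ⟨j, hj⟩ : ∃ j : ℕ, j = i0 + N := ⟨_, rfl⟩
  have hidx : (i0 : ℤ) - L' + (-j) * e ≤ -N := by
    have h1 : (j : ℤ) * 1 ≤ j * e := mul_le_mul_of_nonneg_left (by omega) (by omega)
    have h2 : (-j : ℤ) * e = -(j * e) := by ring
    omega
  have hsmall : (tkN hw).len ((tkN hw).w ((i0 : ℤ) - L' + (-j) * e)) <
      (tkN hw).len (Col.mk H L' [a]) := by
    have h1 : (tkN hw).len (tkN hw).w0 = 1 := by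
      change lw l b0 / lam ^ 0 = 1
      rw [hw.ax, pow_zero, div_one]
    rw [(tkN hw).len_w, h1, mul_one]
    have h2 : (tkN hw).lam ^ ((i0 : ℤ) - L' + (-j) * e) ≤ lam ^ (-(N : ℤ)) :=
      zpow_le_zpow_right₀ hw.one_lt.le hidx
    refine h2.trans_lt ?_
    rw [zpow_neg, zpow_natCast]
    rw [div_lt_iff₀ hδ] at hN
    rw [inv_lt_iff_one_lt_mul₀ (pow_pos hw.lam_pos _)]
    linarith
  have hdvB : (tkN hw).w ((i0 : ℤ) - L' + (-j) * e) ∣ (tkN hw).w ((i0 : ℤ) - L') := by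
    have h1 := hP.le (k := (i0 : ℤ) - L') (m := -j) (m' := 0) (by omega)
    rwa [zero_mul, add_zero] at h1
  have hdvC : (tkN hw).w ((i0 : ℤ) - L' + (-j) * e) ∣ Col.mk H L' [a] := by
    rcases (tkN hw).total _ _ _ hdvB hdvA with h | h
    · exact h
    · have := (tkN hw).dvd_len h
      linarith
  refine ⟨(i0 : ℤ) - L' + (-j) * e, m, (mul_dvd_mul_left _ hdvC).trans ?_⟩
  rw [← Col.mk_lift L d u, ← hL', Col.mk_mul_mk,
    lvi_w hw (L := L') (m := d + b) (i := c + m * e) (by rw [hL']; push_cast; omega)]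
  refine Col.mk_dvd.2 ⟨0, ?_⟩
  rw [it_zero, it_zero, ← hB']
  exact ⟨r, by simp⟩

omit [HInj H] in
include hw in
/-- `it H K b0` lies in the images of the letters of one level: preparation. -/
theorem lvi_occ {K e : ℕ} (he : 0 < e) (hP0 : it H K b0 <+: it H (K + e) b0)
    (irr : ∀ i j : Fin n, ∃ q, 0 < q ∧ j ∈ it H q [i]) :
    ∃ T : ℕ, e ∣ T ∧ ∀ (M : ℕ) (a : Fin n), K ≤ M → (e : ℤ) ∣ (M : ℤ) - K → a ∈ it H M b0 →
      ∃ X Y, it H T [a] = X ++ (it H K b0 ++ Y) := by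
  obtain ⟨p, hp, -, hper⟩ := al6_period H
  obtain ⟨hself, hcl⟩ := al6_class hp hper irr
  have hb1 : it H K b0 ≠ [] := by
    intro h
    have h1 := hw.lw_w K
    rw [h, lw_nil] at h1
    have := pow_pos hw.lam_pos K
    linarith
  obtain ⟨a1, r1, hr1⟩ := List.exists_cons_of_ne_nil hb1
  -- `it H K b0` is an initial part of a power of its first letter
  obtain ⟨N0, hN0⟩ := pow_unbounded_of_one_lt (lw l (it H K b0) / l a1) hw.one_lt
  obtain ⟨m0, hm0⟩ : ∃ m0, m0 = p * (N0 + 1) := ⟨_, rfl⟩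
  have hm0N : N0 ≤ m0 * e := by
    rw [hm0]
    have h1 : 1 * (N0 + 1) * 1 ≤ p * (N0 + 1) * e :=
      Nat.mul_le_mul (Nat.mul_le_mul hp le_rfl) he
    omega
  have hbig : lw l (it H K b0) < lw l (it H (m0 * e) [a1]) := by
    have h1 : lw l (it H (m0 * e) [a1]) = lam ^ (m0 * e) * l a1 := by
      rw [hw.lw_it, lw_cons, lw_nil, add_zero]
    rw [h1]
    rw [div_lt_iff₀ (hw.pos a1)] at hN0
    refine hN0.trans_le ?_
    exact mul_le_mul_of_nonneg_right (pow_le_pow_right₀ hw.one_lt.le hm0N) (hw.pos a1).le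
  have hpre1 : it H K b0 <+: it H (m0 * e) [a1] := by
    have h1 : it H K b0 <+: it H (K + m0 * e) b0 :=
      lvi_pre hP0 le_rfl (by omega) ⟨m0, by push_cast; ring⟩
    rw [Nat.add_comm, it_add] at h1
    have h2 : it H (m0 * e) [a1] <+: it H (m0 * e) (it H K b0) :=
      ⟨it H (m0 * e) r1, by rw [← it_append, List.singleton_append, hr1]⟩
    rcases List.prefix_or_prefix_of_prefix h1 h2 with h3 | h3
    · exact h3
    · have := lvi_prefix_lw (l := l) hw.pos h3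
      linarith
  refine ⟨m0 * e + p * e, ⟨m0 + p, by ring⟩, ?_⟩
  intro M a hM hMd ha
  -- `a` lies in the class of `a1`
  have ha2 : a ∈ it H p [a1] := by
    obtain ⟨M', hM', hM1, hM2⟩ : ∃ M', M ≤ M' ∧ (e : ℤ) ∣ (M' : ℤ) - M ∧
        ∃ k, M' = K + k * (p * e) := by
      obtain ⟨z, hz⟩ := hMd
      have hz0 : 0 ≤ z := by
        by_contra hcon
        push Not at hcon
        have : (e : ℤ) * z < 0 := mul_neg_of_pos_of_neg (by omega) hcon
        omega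
      obtain ⟨z', rfl⟩ : ∃ z' : ℕ, z = z' := ⟨z.toNat, (Int.toNat_of_nonneg hz0).symm⟩
      have hMz : M = K + e * z' := by
        have : (M : ℤ) = ((K + e * z' : ℕ) : ℤ) := by push_cast; linarith
        exact_mod_cast this
      refine ⟨K + z' * (p * e), ?_, ⟨z' * p - z', ?_⟩, z', rfl⟩
      · rw [hMz]
        have h1 : z' * (1 * e) ≤ z' * (p * e) :=
          Nat.mul_le_mul le_rfl (Nat.mul_le_mul hp le_rfl)
        have h2 : z' * (1 * e) = e * z' := by ring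
        omega
      · rw [hMz]
        push_cast
        ring
    obtain ⟨k, hk⟩ := hM2
    have ha3 : a ∈ it H M' b0 := (lvi_pre hP0 hM hM' hM1).subset ha
    rw [hk, Nat.add_comm, it_add] at ha3
    obtain ⟨b, hb, hab⟩ := al6_mem_it.1 ha3
    have hb2 : b ∈ it H (m0 * e) [a1] := hpre1.subset hb
    have h3 := al6_trans hb2 hab
    have h4 : ∃ k', 0 < k' ∧ m0 * e + k * (p * e) = p * k' := by
      refine ⟨(N0 + 1) * e + k * e, ?_, ?_⟩
      · have : 0 < (N0 + 1) * e := Nat.mul_pos (by omega) he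
        omega
      · rw [hm0]
        ring
    obtain ⟨k', hk', hk''⟩ := h4
    have h5 : k * (p * e) + m0 * e = p * k' := by omega
    rw [h5] at h3
    exact (hper k' hk' a1 a).1 h3
  have ha3 : a1 ∈ it H p [a] := (hcl a1 a ha2 a1).2 (hself a1)
  have ha4 : a1 ∈ it H (p * e) [a] := (hper e he a a1).2 ha3
  obtain ⟨X, Y, hXY⟩ := List.append_of_mem ha4
  obtain ⟨Z, hZ⟩ := hpre1
  refine ⟨it H (m0 * e) X, Z ++ it H (m0 * e) Y, ?_⟩
  rw [it_add, hXY, it_append, ← List.singleton_append, it_append, ← hZ]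
  simp

/-- Occurrences of `w 0` on `R 0` with bounded gaps. -/
theorem lvV_syn {K e : ℕ} (he : 0 < e) (hP0 : it H K b0 <+: it H (K + e) b0)
    (irr : ∀ i j : Fin n, ∃ q, 0 < q ∧ j ∈ it H q [i]) :
    ∃ A : ℝ, ∀ s : ℝ, 0 ≤ s → ∃ q, q * (tkN hw).w 0 ∈ (tkN hw).R e 0 ∧
      s ≤ (tkN hw).len q ∧ (tkN hw).len q ≤ s + A := by
  obtain ⟨T, ⟨T', hT'⟩, hT⟩ := lvi_occ hw he hP0 irr
  obtain ⟨j0, hj0⟩ : ∃ j0 : ℤ, j0 = (T : ℤ) - K := ⟨_, rfl⟩
  have h0 : 0 < lam ^ j0 := zpow_pos hw.lam_pos j0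
  have hsum : ∀ a, l a ≤ ∑ a, l a := fun a =>
    Finset.single_le_sum (f := l) (fun b _ => (hw.pos b).le) (Finset.mem_univ a)
  refine ⟨2 * (lam ^ j0 * ∑ a, l a), ?_⟩
  intro s hs
  obtain ⟨B, hB⟩ := pow_unbounded_of_one_lt (s / lam ^ j0 + ∑ a, l a) hw.one_lt
  obtain ⟨M, h1, h2⟩ := lvi_cls he (K : ℤ) (K + B)
  have h3 : s / lam ^ j0 + ∑ a, l a < lw l (it H M b0) := by
    rw [hw.lw_w]
    exact hB.trans_le (pow_le_pow_right₀ hw.one_lt.le (by omega))
  have hS0 : 0 ≤ ∑ a, l a := Finset.sum_nonneg fun a _ => (hw.pos a).le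
  obtain ⟨p, hp, h4, h5⟩ := lvi_exists_pre hw.pos (div_nonneg hs h0.le) (it H M b0) (by linarith)
  obtain ⟨r, hr⟩ := hp
  have hr0 : r ≠ [] := by
    rintro rfl
    rw [List.append_nil] at hr
    rw [hr] at h5
    linarith
  obtain ⟨a, r', rfl⟩ := List.exists_cons_of_ne_nil hr0
  obtain ⟨X, Y, hXY⟩ := hT M a (by omega) h2 (by rw [← hr]; simp)
  -- the letter `a` at level `j0`
  have hsa : (tkN hw).s j0 (Col.mk H 0 [a]) = Col.mk H K X * ((tkN hw).w 0 * Col.mk H K Y) := by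
    rw [lvi_s_mk hw T K hj0, hXY, ← Col.mk_mul_mk, ← Col.mk_mul_mk,
      lvi_w hw (L := K) (m := K) (i := 0) (by omega)]
  refine ⟨(tkN hw).s j0 (Col.mk H 0 p) * Col.mk H K X, ?_, ?_, ?_⟩
  · obtain ⟨z, hz⟩ := h2
    refine ⟨T' + z, ?_⟩
    have hw1 : (tkN hw).w (0 + (T' + z) * e) = (tkN hw).s j0 (Col.mk H 0 (it H M b0)) := by
      have hidx : 0 + ((T' : ℤ) + z) * e = j0 + M := by
        rw [hj0, hT']
        push_cast
        linarith
      rw [hidx, ← (tkN hw).s_w, lvi_w hw (L := 0) (m := M) (i := M) (by simp)]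
    rw [hw1, ← hr, ← Col.mk_mul_mk, map_mul, mul_assoc]
    refine mul_dvd_mul_left _ ?_
    rw [← List.singleton_append, ← Col.mk_mul_mk, map_mul, hsa]
    exact ⟨Col.mk H K Y * (tkN hw).s j0 (Col.mk H 0 r'), by simp only [mul_assoc]⟩
  · rw [(tkN hw).len_mul, lvi_len_s]
    have := (tkN hw).len_nonneg (Col.mk H K X)
    rw [div_le_iff₀ h0] at h4
    linarith
  · have h6 : (tkN hw).len (Col.mk H K X) ≤ lam ^ j0 * ∑ a, l a := by
      have h7 := congrArg (tkN hw).len hsa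
      rw [lvi_len_s, (tkN hw).len_mul, lw_cons, lw_nil, add_zero] at h7
      have h8 := (tkN hw).len_nonneg ((tkN hw).w 0 * Col.mk H K Y)
      have h9 := mul_le_mul_of_nonneg_left (hsum a) h0.le
      linarith
    rw [(tkN hw).len_mul, lvi_len_s]
    have h7 : lam ^ j0 * lw l p ≤ lam ^ j0 * (s / lam ^ j0 + ∑ a, l a) :=
      mul_le_mul_of_nonneg_left h5 h0.le
    have h8 : lam ^ j0 * (s / lam ^ j0 + ∑ a, l a) = s + lam ^ j0 * ∑ a, l a := by
      field_simp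
    linarith

/-- **The levels of the colimit.** -/
noncomputable def lvN {K e : ℕ} (he : 0 < e) (hP0 : it H K b0 <+: it H (K + e) b0)
    (hlev : HLev H b0 K) (hfirst : ∀ a, ∃ i s, it H i b0 = a :: s)
    (irr : ∀ i j : Fin n, ∃ q, 0 < q ∧ j ∈ it H q [i]) : (tkN hw).Lv e where
  F := Set.range (Col.mk H 0)
  V := lvV hw K e
  kap := K
  one_mem := lvV_one hw he
  sub := lvV_sub hw
  mono c _ _ h := lvV_mono hw c h
  diff := lvV_diff hw hP0
  fin := lvF_fin hw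
  tok := lvV_tok hw he hP0 hlev
  dense := ⟨∑ a, l a, fun c m s hs => lvV_dense hw he c m s hs⟩
  germ := lvV_germ hw he hP0 hfirst
  syn := lvV_syn hw he hP0 irr

end D0L
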