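import Pool.Agent.H.MP_374efc_lc.Red.Main
import Pool.Agent.H.MP_374efc_lc.Zt.Ep

/-!
# MP_374efc_lc: relations which begin and end with the preceding word

`RB h w p`: `w_(p+1)` is a product of words `w_j`, `j ≤ p`, which begins with `w_p`, and also a product which ends with
`w_p`.  `NP h w`: no word is a proper power of a product of earlier words.  `Tr c` : transfer of relations.
`BdB Q F`: a bound for the systems in the class `Q`.
-/

set_option autoImplicit false

namespace D0L

section

variable {α β γ : Type}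

/-- The word `w_p` is the product of the words `w_j`, `j ∈ js`. -/
def Eqn (h : α → List α) (w : List α) (p : ℕ) (js : List ℕ) : Prop :=
  it h p w = (js.map fun j => it h j w).flatten

/-- A relation which begins with the preceding word. -/
def Rfi (h : α → List α) (w : List α) (p : ℕ) : Prop :=
  ∃ js, (∀ j ∈ js, j ≤ p) ∧ Eqn h w (p + 1) (p :: js)

/-- A relation which ends with the preceding word. -/
def Rla (h : α → List α) (w : List α) (p : ℕ) : Prop :=
  ∃ js, (∀ j ∈ js, j ≤ p) ∧ Eqn h w (p + 1) (js ++ [p])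

/-- Relations of both kinds. -/
def RB (h : α → List α) (w : List α) (p : ℕ) : Prop := Rfi h w p ∧ Rla h w p

/-- No word is a proper power of a product of earlier words. -/
def NP (h : α → List α) (w : List α) : Prop :=
  ∀ (p : ℕ) (js : List ℕ) (m : ℕ), 2 ≤ m → js ≠ [] → (∀ j ∈ js, j < p) →
    ¬ Eqn h w p (List.replicate m js).flatten

/-- Transfer of relations from `(h, w)` to `(g, u)` and back (with the shift `c`). -/
structure Tr (c : ℕ) (h : α → List α) (w : List α) (g : β → List β) (u : List β) : Prop where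
  down : ∀ p js, Eqn h w p js → Eqn g u p js
  up : ∀ p js, Eqn g u p js → Eqn h w (p + c) (js.map (· + c))

variable {h : α → List α} {w : List α} {g : β → List β} {u : List β} {f : γ → List γ} {v : List γ}

theorem Eqn.shift {p : ℕ} {js : List ℕ} (hp : Eqn h w p js) (m : ℕ) :
    Eqn h w (p + m) (js.map (· + m)) := by
  unfold Eqn
  rw [rel_shift hp m, List.map_map]
  rfl

theorem Rfi.shift {p : ℕ} (hp : Rfi h w p) (m : ℕ) : Rfi h w (p + m) := by
  obtain ⟨js, h1, h2⟩ := hp
  refine ⟨js.map (· + m), ?_, ?_⟩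
  · intro j hj
    obtain ⟨i, hi, rfl⟩ := List.mem_map.1 hj
    have := h1 i hi
    omega
  · have h3 := h2.shift m
    rwa [List.map_cons, show p + 1 + m = p + m + 1 by omega] at h3

theorem Rla.shift {p : ℕ} (hp : Rla h w p) (m : ℕ) : Rla h w (p + m) := by
  obtain ⟨js, h1, h2⟩ := hp
  refine ⟨js.map (· + m), ?_, ?_⟩
  · intro j hj
    obtain ⟨i, hi, rfl⟩ := List.mem_map.1 hj
    have := h1 i hi
    omega
  · have h3 := h2.shift m
    rwa [List.map_append, List.map_singleton, show p + 1 + m = p + m + 1 by omega] at h3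

theorem RB.shift {p : ℕ} (hp : RB h w p) (m : ℕ) : RB h w (p + m) := ⟨hp.1.shift m, hp.2.shift m⟩

theorem RB.mono {p q : ℕ} (hp : RB h w p) (hpq : p ≤ q) : RB h w q := by
  obtain ⟨m, rfl⟩ := Nat.exists_eq_add_of_le hpq
  exact hp.shift m

theorem Rfi.rel {p : ℕ} (hp : Rfi h w p) : Rel h w (p + 1) := by
  obtain ⟨js, h1, h2⟩ := hp
  refine ⟨p :: js, List.cons_ne_nil _ _, ?_, h2⟩
  intro j hj
  rcases List.mem_cons.1 hj with rfl | hj
  · omega
  · have := h1 j hj
    omega

theorem RB.lc {p : ℕ} (hp : RB h w p) : LC h w := ⟨_, hp.1.rel⟩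

/-- No word is empty. -/
theorem NP.ne (hn : NP h w) (p : ℕ) : it h p w ≠ [] := by
  intro h1
  have h2 : it h (p + 1) w = [] := by rw [it_succ, h1, app_nil]
  refine hn (p + 1) [p] 2 le_rfl (by simp) (by simp) ?_
  unfold Eqn
  rw [h2]
  simp [h1]

theorem NP.ax (hn : NP h w) : w ≠ [] := hn.ne 0

/-- A relation with one factor. -/
theorem rb_of_rel_one (hp : Rel h w 1) : RB h w 0 := by
  obtain ⟨js, h1, h2, h3⟩ := hp
  obtain ⟨m, rfl⟩ : ∃ m, js = List.replicate (m + 1) 0 := by
    refine ⟨js.length - 1, ?_⟩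
    have h4 := List.length_pos_of_ne_nil h1
    rw [Nat.sub_add_cancel h4]
    refine List.eq_replicate_iff.2 ⟨rfl, ?_⟩
    intro j hj
    have := h2 j hj
    omega
  constructor
  · refine ⟨List.replicate m 0, ?_, ?_⟩
    · intro j hj
      rw [List.eq_of_mem_replicate hj]
    · exact h3
  · refine ⟨List.replicate m 0, ?_, ?_⟩
    · intro j hj
      rw [List.eq_of_mem_replicate hj]
    · rw [← List.replicate_succ']
      exact h3

theorem Tr.rb {c : ℕ} (ht : Tr c h w g u) {p : ℕ} (hp : RB h w p) : RB g u p := by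
  obtain ⟨⟨js, h1, h2⟩, ⟨ks, h3, h4⟩⟩ := hp
  exact ⟨⟨js, h1, ht.down _ _ h2⟩, ⟨ks, h3, ht.down _ _ h4⟩⟩

theorem Tr.rb_up {c : ℕ} (ht : Tr c h w g u) {p : ℕ} (hp : RB g u p) : RB h w (p + c) := by
  obtain ⟨⟨js, h1, h2⟩, ⟨ks, h3, h4⟩⟩ := hp
  constructor
  · refine ⟨js.map (· + c), ?_, ?_⟩
    · intro j hj
      obtain ⟨i, hi, rfl⟩ := List.mem_map.1 hj
      have := h1 i hi
      omega
    · have h5 := ht.up _ _ h2
      rwa [List.map_cons, show p + 1 + c = p + c + 1 by omega] at h5
  · refine ⟨ks.map (· + c), ?_, ?_⟩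
    · intro j hj
      obtain ⟨i, hi, rfl⟩ := List.mem_map.1 hj
      have := h3 i hi
      omega
    · have h5 := ht.up _ _ h4
      rwa [List.map_append, List.map_singleton, show p + 1 + c = p + c + 1 by omega] at h5

theorem Tr.np {c : ℕ} (ht : Tr c h w g u) (hn : NP h w) : NP g u := by
  intro p js m hm hjs hlt h1
  refine hn (p + c) (js.map (· + c)) m hm (by simpa using hjs) ?_ ?_
  · intro j hj
    obtain ⟨i, hi, rfl⟩ := List.mem_map.1 hj
    have := hlt i hi
    omega
  · have h2 := ht.up _ _ h1
    rwa [List.map_flatten, List.map_replicate] at h2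

theorem Tr.trans {c d : ℕ} (ht : Tr c h w g u) (ht' : Tr d g u f v) : Tr (d + c) h w f v where
  down := fun p js hp => ht'.down _ _ (ht.down _ _ hp)
  up := fun p js hp => by
    have h1 := ht.up _ _ (ht'.up _ _ hp)
    rw [List.map_map, Nat.add_assoc] at h1
    convert h1 using 2
    funext j
    simp only [Function.comp]
    omega

/-- Codes. -/
theorem tr_code {c : β → List α} (hc : Function.Injective (app c))
    (hk : ∀ b, app h (c b) = app c (g b)) {m : ℕ} (hw : it h m w = app c u) : Tr m h w g u := by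
  have key : ∀ p, app c (it g p u) = it h (p + m) w := by
    intro p
    rw [it_code hk, ← hw, it_add]
  have key2 : ∀ js : List ℕ, app c (js.map fun j => it g j u).flatten =
      ((js.map (· + m)).map fun j => it h j w).flatten := by
    intro js
    rw [app_flatten, List.map_map, List.map_map]
    congr 1
    apply List.map_congr_left
    intro j _
    exact key j
  constructor
  · intro p js hp
    apply hc
    rw [key, key2]
    exact hp.shift m
  · intro p js hp
    unfold Eqn
    rw [← key, ← key2]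
    exact congrArg _ hp

end

/-- A bound for the systems in the class `Q`. -/
def BdB (Q : ∀ (α : Type) [Fintype α], (α → List α) → List α → Prop) (F : ℕ → ℕ) : Prop :=
  ∀ (α : Type) [Fintype α] (h : α → List α) (w : List α) (s : ℕ), Sz s h w → Q α h w →
    NP h w → (∃ p, RB h w p) → ∃ p ≤ F s, RB h w p

end D0L
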