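import Pool.Agent.H.MP_374efc_lc.Zt.Lw
import Pool.Agent.H.MP_374efc_lc.Cr.Inst
import Pool.Agent.H.MP_374efc_lc.Asm.Search

/-!
# MP_374efc_lc: the finite ending of the landing walk gives a relation

`rel_of_eq`: if `w e` is the product of `w 0` and tokens, the system has a relation.  `relOfCov`: the form for a
cover whose rest is a product of tokens.  `lw_or_rel`: a relation or a landing certificate.
-/

set_option autoImplicit false

namespace D0L

open Bim

variable {n : ℕ} {H : Fin n → List (Fin n)} {b0 : List (Fin n)} {lam : ℝ} {l : Fin n → ℝ}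
  [HInj H] (hw : PW H b0 lam l)

theorem rc_pr (L : ℕ) : ∀ is : List ℤ, (∀ i ∈ is, 0 ≤ (L : ℤ) + i) →
    (tkN hw).pr is = Col.mk H L (is.map fun i => it H ((L : ℤ) + i).toNat b0).flatten := by
  intro is
  induction is with
  | nil =>
    intro _
    rw [Tk.pr_nil, List.map_nil, List.flatten_nil, Col.mk_nil]
  | cons i is ih =>
    intro h
    rw [Tk.pr_cons, ih fun j hj => h j (List.mem_cons_of_mem _ hj),
      tkN_w' hw (h i List.mem_cons_self), Col.mk_mul_mk, List.map_cons, List.flatten_cons]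

theorem rc_level (is : List ℤ) : ∃ L : ℕ, ∀ i ∈ is, 0 ≤ (L : ℤ) + i := by
  induction is with
  | nil => exact ⟨0, fun i hi => by simp at hi⟩
  | cons i is ih =>
    obtain ⟨L, hL⟩ := ih
    refine ⟨L + i.natAbs, ?_⟩
    intro j hj
    rcases List.mem_cons.1 hj with rfl | hj
    · omega
    · have := hL j hj
      omega

/-- A product of tokens which contains a token is at least as long. -/
theorem rc_len_mem {C : Type} [CancelMonoid C] {S : Tk C} {i : ℤ} :
    ∀ is : List ℤ, i ∈ is → S.len (S.w i) ≤ S.len (S.pr is) := by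
  intro is
  induction is with
  | nil =>
    intro h
    simp at h
  | cons k is ih =>
    intro h
    rw [Tk.pr_cons, S.len_mul]
    rcases List.mem_cons.1 h with rfl | h
    · have := S.len_nonneg (S.pr is)
      linarith
    · have := ih h
      have := S.len_nonneg (S.w k)
      linarith

/-- The token `w e` is the product of `w 0` and tokens: relation. -/
theorem rel_of_eq {e : ℕ} (he : 0 < e) {is : List ℤ}
    (h : (tkN hw).w e = (tkN hw).w 0 * (tkN hw).pr is) : ∃ N, 0 < N ∧ Rel H b0 N := by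
  obtain ⟨L, hL⟩ := rc_level is
  have hlt : ∀ i ∈ is, i < e := by
    intro i hi
    have h1 := rc_len_mem (S := tkN hw) is hi
    have h2 := congrArg (tkN hw).len h
    rw [(tkN hw).len_mul] at h2
    have h3 := (tkN hw).len_pos _ ((tkN hw).w_ne_one 0)
    have h4 : (tkN hw).len ((tkN hw).w i) < (tkN hw).len ((tkN hw).w e) := by linarith
    rw [(tkN hw).len_w, (tkN hw).len_w] at h4
    have h5 := lt_of_mul_lt_mul_right h4 (tkN hw).len_w0.le
    exact (zpow_lt_zpow_iff_right₀ (tkN hw).one_lt).1 h5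
  have h1 : it H (L + e) b0 =
      it H L b0 ++ (is.map fun i => it H ((L : ℤ) + i).toNat b0).flatten := by
    apply Col.mk_inj (H := H) (k := L)
    rw [← Col.mk_mul_mk, ← rc_pr hw L is hL]
    have h2 := tkN_w hw L (L + e)
    have h3 := tkN_w hw L L
    rw [← h2, ← h3, sub_self, ← h]
    congr 1
    push_cast
    ring
  refine ⟨L + e, by omega, L :: is.map fun i => ((L : ℤ) + i).toNat, List.cons_ne_nil _ _, ?_, ?_⟩
  · intro j hj
    rcases List.mem_cons.1 hj with rfl | hj
    · omega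
    · obtain ⟨i, hi, rfl⟩ := List.mem_map.1 hj
      have := hL i hi
      have := hlt i hi
      omega
  · rw [h1, List.map_cons, List.flatten_cons, List.map_map]
    rfl

/-- **The finite ending gives a relation.** -/
theorem relOfCov {e : ℕ} (he : 0 < e) {is g : List ℤ} {j : ℤ} {y : Col H}
    (hc : Tk.Cov (tkN hw) e is j y) (hy : y = (tkN hw).pr g) : ∃ N, 0 < N ∧ Rel H b0 N := by
  refine rel_of_eq hw he (is := is ++ g) ?_
  rw [Tk.pr_append, ← mul_assoc, ← hy]
  exact hc.eq

theorem fp_of_rel {n : ℕ} {H : Fin n → List (Fin n)} {b0 : List (Fin n)}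
    (h : ∃ N, 0 < N ∧ Rel H b0 N) : FP (cd H b0) := by
  obtain ⟨N, -, hN⟩ := h
  exact (fp_iff _).2 ⟨N, (rel_cd N).2 hN⟩

/-- **The finite ending gives a relation**, for the code. -/
theorem fp_of_cov {e : ℕ} (he : 0 < e) {is g : List ℤ} {j : ℤ} {y : Col H}
    (hc : Tk.Cov (tkN hw) e is j y) (hy : y = (tkN hw).pr g) : FP (cd H b0) :=
  fp_of_rel (relOfCov hw he hc hy)

/-- A relation, or a landing certificate. -/
theorem lw_or_rel {e : ℕ} (L : Tk.Lv (tkN hw) e) (hP : (tkN hw).P e) (hD : (tkN hw).D e)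
    (he : 0 < e) (hcov : ∃ (is : List ℤ) (j : ℤ) (y : Col H), (tkN hw).Grd e is ∧ y ≠ 1 ∧
      y ∈ (tkN hw).R e j ∧ (tkN hw).w e = (tkN hw).w 0 * (tkN hw).pr is * y) :
    (∃ N, 0 < N ∧ Rel H b0 N) ∨ ∃ (is : List ℤ) (j : ℤ) (y : Col H) (g1 g2 : List ℤ) (d : ℤ)
      (x : Col H), Tk.Cov (tkN hw) e is j y ∧ Tk.Lw (tkN hw) e y g1 g2 d x := by
  obtain ⟨is, j, y, hc, h⟩ := Tk.lw_of_lv L hP hD he hcov
  rcases h with ⟨g, hg, -⟩ | ⟨g1, g2, d, x, h⟩
  · exact Or.inl (relOfCov hw he hc hg)
  · exact Or.inr ⟨is, j, y, g1, g2, d, x, hc, h⟩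

end D0L
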