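import Pool.Agent.H.MP_374efc_lc.Zt.Mir2

/-!
# MP_374efc_lc: word forms of properties of the tokens

`NoPow`: no word `it H m b0` is a proper power; then no token is a proper power (`tkN_prim`).  `cls_one`: if one word
is an initial part of the next one, the class period is one.  `tkN_pre`, `tkN_suf`: an initial (final) part of a word
gives a left (right) divisor of a token.
-/

set_option autoImplicit false

namespace D0L

open Bim

/-- No word of the system is a proper power. -/
def NoPow {α : Type} (h : α → List α) (w : List α) : Prop :=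
  ∀ (m k : ℕ) (u : List α), 2 ≤ k → it h m w ≠ (List.replicate k u).flatten

section pow

variable {α : Type} {h : α → List α} {w : List α}

theorem wf_it_pow (m k : ℕ) (u : List α) :
    it h m (List.replicate k u).flatten = (List.replicate k (it h m u)).flatten := by
  rw [it_flatten, List.map_replicate]

/-- It is enough that infinitely many words are not proper powers. -/
theorem noPow_of_inf (hi : ∀ M, ∃ m, M ≤ m ∧ ∀ (k : ℕ) (u : List α), 2 ≤ k →
    it h m w ≠ (List.replicate k u).flatten) : NoPow h w := by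
  intro m k u hk he
  obtain ⟨m', hm, hm'⟩ := hi m
  refine hm' k (it h (m' - m) u) hk ?_
  rw [← wf_it_pow, ← he, ← it_add, Nat.sub_add_cancel hm]

theorem wf_rep_rev {β : Type} (k : ℕ) (u : List β) :
    (List.replicate k u).flatten.reverse = (List.replicate k u.reverse).flatten := by
  rw [List.reverse_flatten, List.map_replicate, List.reverse_replicate]

theorem wf_it_rev (m : ℕ) (u : List α) : it (rev h) m u.reverse = (it h m u).reverse := by
  induction m with
  | zero => rfl
  | succ m ih => rw [it_succ, ih, app_rev, it_succ]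

theorem NoPow.reverse (hp : NoPow h w) : NoPow (rev h) w.reverse := by
  intro m k u hk he
  refine hp m k u.reverse hk ?_
  rw [wf_it_rev] at he
  rw [← wf_rep_rev, ← he, List.reverse_reverse]

end pow

variable {n : ℕ} {H : Fin n → List (Fin n)} {b0 : List (Fin n)} {lam : ℝ} {l : Fin n → ℝ}

theorem wf_pre_add {m e : ℕ} (h : it H m b0 <+: it H (m + e) b0) (d : ℕ) :
    it H (m + d) b0 <+: it H (m + d + e) b0 := by
  obtain ⟨z, hz⟩ := h
  refine ⟨it H d z, ?_⟩
  rw [show m + d = d + m by omega, show d + m + e = d + (m + e) by omega, it_add, it_add,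
    ← it_append, hz]

/-- If a word is an initial part of the next one, the class period is one. -/
theorem cls_one (hne : ∀ a, H a ≠ []) (hb0 : b0 ≠ []) {j0 e m : ℕ} (hc : Cls H b0 j0 e)
    (h : it H m b0 <+: it H (m + 1) b0) : e = 1 := by
  have h1 := wf_pre_add h j0
  have h2 : (it H (m + j0) b0).head? = (it H (m + j0 + 1) b0).head? := by
    obtain ⟨a, s, hs⟩ := List.exists_cons_of_ne_nil (it_ne hne hb0 (m + j0))
    obtain ⟨z, hz⟩ := h1
    rw [← hz, hs]
    rfl
  have h3 := (hc.2 (m + j0) (m + j0 + 1) (by omega) (by omega)).1 h2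
  have h4 : (e : ℤ) ∣ 1 := by
    have h5 := (dvd_neg (a := (e : ℤ))).2 h3
    have h6 : -(((m + j0 : ℕ) : ℤ) - ((m + j0 + 1 : ℕ) : ℤ)) = 1 := by
      push_cast
      ring
    rwa [h6] at h5
  have h5 : e ∣ 1 := by exact_mod_cast h4
  exact Nat.dvd_one.1 h5

/-- If a word is a final part of the next one, the class period of the mirror image is one. -/
theorem cls_rev_one (hne : ∀ a, H a ≠ []) (hb0 : b0 ≠ []) {j0 e m : ℕ}
    (hc : Cls (rev H) b0.reverse j0 e) (h : it H m b0 <:+ it H (m + 1) b0) : e = 1 := by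
  refine cls_one (H := rev H) (fun a => ne_rev (hne a)) (by simpa using hb0) (m := m) hc ?_
  rw [wf_it_rev, wf_it_rev]
  exact List.reverse_prefix.2 h

variable [HInj H] (hw : PW H b0 lam l)

theorem wf_mk_pow (L k : ℕ) (u : List (Fin n)) :
    (Col.mk H L u) ^ k = Col.mk H L (List.replicate k u).flatten := by
  induction k with
  | zero => rw [pow_zero, List.replicate_zero, List.flatten_nil, Col.mk_nil]
  | succ k ih =>
    rw [pow_succ', ih, Col.mk_mul_mk, List.replicate_succ, List.flatten_cons]

/-- **No token is a proper power.** -/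
theorem tkN_prim (hp : NoPow H b0) (i : ℤ) {k : ℕ} (hk : 2 ≤ k) (x : Col H) :
    (tkN hw).w i ≠ x ^ k := by
  intro h
  obtain ⟨K, hK⟩ := Col.rep_ge x
  obtain ⟨u, rfl⟩ := hK (K + i.natAbs) (by omega)
  rw [tkN_w' hw (i := i) (L := K + i.natAbs) (by omega), wf_mk_pow] at h
  exact hp _ k u hk (Col.mk_inj h)

/-- An initial part of a word gives a left divisor of a token. -/
theorem tkN_pre {m e : ℕ} (h : it H m b0 <+: it H (m + e) b0) :
    (tkN hw).w 0 ∣ (tkN hw).w e := by
  obtain ⟨z, hz⟩ := h
  refine ⟨Col.mk H m z, ?_⟩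
  have h1 := tkN_w hw m m
  have h2 := tkN_w hw m (m + e)
  rw [sub_self] at h1
  rw [h1, Col.mk_mul_mk, hz, ← h2]
  congr 1
  push_cast
  ring

/-- A final part of a word gives a right divisor of a token. -/
theorem tkN_suf {m e : ℕ} (h : it H m b0 <:+ it H (m + e) b0) :
    ∃ z : Col H, (tkN hw).w e = z * (tkN hw).w 0 := by
  obtain ⟨z, hz⟩ := h
  refine ⟨Col.mk H m z, ?_⟩
  have h1 := tkN_w hw m m
  have h2 := tkN_w hw m (m + e)
  rw [sub_self] at h1
  rw [h1, Col.mk_mul_mk, hz, ← h2]
  congr 1
  push_cast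
  ring

omit hw in
/-- Right divisors of one element are comparable. -/
theorem Col.rdvd_total {a b u v : Col H} (h : a * u = b * v) :
    (∃ z, u = z * v) ∨ ∃ z, v = z * u := by
  obtain ⟨k, a, u, rfl, rfl⟩ := Col.rep2 a u
  obtain ⟨m, b, v, rfl, rfl⟩ := Col.rep2 b v
  obtain ⟨N, hN⟩ : ∃ N, N = m + k := ⟨_, rfl⟩
  have hN' : N = k + m := by omega
  have e1 : ∀ x, Col.mk H k x = Col.mk H N (it H m x) := fun x => by rw [hN, Col.mk_lift]
  have e2 : ∀ x, Col.mk H m x = Col.mk H N (it H k x) := fun x => by rw [hN', Col.mk_lift]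
  rw [e1 u, e2 v]
  rw [e1 a, e1 u, e2 b, e2 v, Col.mk_mul_mk, Col.mk_mul_mk] at h
  have h3 := Col.mk_inj h
  rcases List.append_eq_append_iff.1 h3 with ⟨w, -, hw⟩ | ⟨w, -, hw⟩
  · left
    exact ⟨Col.mk H N w, by rw [Col.mk_mul_mk, hw]⟩
  · right
    exact ⟨Col.mk H N w, by rw [Col.mk_mul_mk, hw]⟩

end D0L
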