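import Pool.Agent.H.MP_374efc_lc.Zt.E11
import Pool.Agent.H.MP_374efc_lc.Zt.Kd
import Pool.Agent.H.MP_374efc_lc.Zt.Wf
import Pool.Agent.H.MP_374efc_lc.Zt.Rc
import Pool.Agent.H.MP_374efc_lc.Tr.Circ

/-!
# MP_374efc_lc: good systems whose words are no proper powers, class period one on both sides

`ke_e11`: the structure `E11` for the colimit.  `ke_total`: such a system has a certificate `TA` on one side, or
relations `RB`.  `ke_sound`, `ke_noPow`, `ke_clsC`: the converse statements for normal forms.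
-/

set_option autoImplicit false

namespace D0L

open Bim

section one

variable {n : ℕ} {H : Fin n → List (Fin n)} {b0 : List (Fin n)} {lam : ℝ} {l : Fin n → ℝ}
  [HInj H] (hw : PW H b0 lam l)

/-- A token is not the product of two commuting elements different from one. -/
theorem ke_prim (hp : NoPow H b0) (k : ℤ) (c d : Col H) (h1 : c * d = (tkN hw).w k)
    (h2 : d * c = (tkN hw).w k) : c = 1 ∨ d = 1 := by
  obtain ⟨K1, hK1⟩ := Col.rep_ge c
  obtain ⟨K2, hK2⟩ := Col.rep_ge d
  obtain ⟨L, hL⟩ : ∃ L : ℕ, L = K1 + K2 + k.natAbs := ⟨_, rfl⟩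
  obtain ⟨u, rfl⟩ := hK1 L (by omega)
  obtain ⟨v, rfl⟩ := hK2 L (by omega)
  rw [tkN_w' hw (i := k) (L := L) (by omega), Col.mk_mul_mk] at h1 h2
  have e1 := Col.mk_inj h1
  have e2 := Col.mk_inj h2
  obtain ⟨z, a, b, h3, h4⟩ := Tr.comm_pow (e1.trans e2.symm)
  rcases Nat.eq_zero_or_pos a with h5 | h5
  · left
    rw [h3, h5, Tr.wpow_zero, Col.mk_nil]
  rcases Nat.eq_zero_or_pos b with h6 | h6
  · right
    rw [h4, h6, Tr.wpow_zero, Col.mk_nil]
  exfalso
  refine hp ((L : ℤ) + k).toNat (a + b) z (by omega) ?_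
  rw [← e1, h3, h4, ← Tr.wpow_add]

/-- Finitely many starts of a token. -/
theorem ke_fin {C : Type} [CancelMonoid C] {S : Tk C} {e : ℕ} (L : S.Lv e) (c i : ℤ) (K : ℝ) :
    {x | x * S.w i ∈ S.R e c ∧ S.len x ≤ K}.Finite := by
  have h1 := (L.fin (S.lam ^ (L.kap - i) * K)).preimage
    (f := fun x => S.s (L.kap - i) x) (fun a _ b _ h => S.s_inj h)
  refine h1.subset ?_
  rintro x ⟨hx1, hx2⟩
  refine ⟨L.start hx1, ?_⟩
  show S.len (S.s (L.kap - i) x) ≤ _
  rw [S.len_s]
  exact mul_le_mul_of_nonneg_left hx2 (zpow_pos S.lam_pos _).le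

/-- **The structure `E11` for the colimit.** -/
theorem ke_e11 (hg : GoodS H b0) {K K' : ℕ} (hP0 : it H K b0 <+: it H (K + 1) b0)
    (hQ0 : it H K' b0 <:+ it H (K' + 1) b0) (hp : NoPow H b0) : (tkN hw).E11 := by
  obtain ⟨L⟩ := hg.lv hw Nat.one_pos (hg.lev sz_cd) (legal_of_pre hw Nat.one_pos hP0) hP0
  exact
    { P := tkN_P hw hP0
      Q := by
        obtain ⟨z, hz⟩ := tkN_suf hw hQ0
        exact ⟨z, by simpa using hz⟩
      tot := fun u v x y h => Col.rdvd_total h
      prim := ke_prim hw hp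
      germ := fun x hx => L.germ 0 x hx
      fin := fun i K => ke_fin L 0 i K }

/-- If `w 1` is the product of `w 0` and tokens, there is a relation of the first kind. -/
theorem rfi_of_eq {is : List ℤ} (h : (tkN hw).w 1 = (tkN hw).w 0 * (tkN hw).pr is) :
    ∃ p, Rfi H b0 p := by
  obtain ⟨L, hL⟩ := rc_level is
  have hlt : ∀ i ∈ is, i < 1 := by
    intro i hi
    have h1 := rc_len_mem (S := tkN hw) is hi
    have h2 := congrArg (tkN hw).len h
    rw [(tkN hw).len_mul] at h2
    have h3 := (tkN hw).len_pos _ ((tkN hw).w_ne_one 0)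
    have h4 : (tkN hw).len ((tkN hw).w i) < (tkN hw).len ((tkN hw).w 1) := by linarith
    rw [(tkN hw).len_w, (tkN hw).len_w] at h4
    have h5 := lt_of_mul_lt_mul_right h4 (tkN hw).len_w0.le
    exact (zpow_lt_zpow_iff_right₀ (tkN hw).one_lt).1 h5
  refine ⟨L, is.map fun i => ((L : ℤ) + i).toNat, ?_, ?_⟩
  · intro j hj
    obtain ⟨i, hi, rfl⟩ := List.mem_map.1 hj
    have := hL i hi
    have := hlt i hi
    omega
  · unfold Eqn
    apply Col.mk_inj (H := H) (k := L)
    have h1 : (tkN hw).w 1 = Col.mk H L (it H (L + 1) b0) := lvi_w hw (by push_cast; ring)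
    have h2 : (tkN hw).w 0 = Col.mk H L (it H L b0) := lvi_w hw (by ring)
    rw [← h1, h, rc_pr hw L is hL, h2, Col.mk_mul_mk, List.map_cons, List.flatten_cons,
      List.map_map]
    rfl

/-- **A cover gives a relation of the first kind.** -/
theorem ke_rfi (hg : GoodS H b0) {K K' : ℕ} (hP0 : it H K b0 <+: it H (K + 1) b0)
    (hQ0 : it H K' b0 <:+ it H (K' + 1) b0) (hp : NoPow H b0) {is : List ℤ} {j : ℤ} {y : Col H}
    (hy1 : y ≠ 1) (hy : y ∈ (tkN hw).R 1 j)
    (hcov : (tkN hw).w ((1 : ℕ) : ℤ) = (tkN hw).w 0 * (tkN hw).pr is * y) :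
    ∃ p, Rfi H b0 p := by
  have hy0 : y ∈ (tkN hw).R 1 0 := by
    have h1 := Tk.R_add (S := tkN hw) (e := 1) 0 j
    rw [zero_add, Nat.cast_one, mul_one] at h1
    rwa [h1] at hy
  rw [Nat.cast_one] at hcov
  obtain ⟨js, hjs⟩ := (ke_e11 hw hg hP0 hQ0 hp).rel hy0 hcov hy1
  exact rfi_of_eq hw hjs

end one

/-! ### mirror images -/

section mir

variable {α : Type} {h : α → List α} {w : List α}

theorem ke_flat_rev (js : List ℕ) :
    (js.reverse.map fun j => it (rev h) j w.reverse).flatten =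
      (js.map fun j => it h j w).flatten.reverse := by
  have h1 : (fun j => it (rev h) j w.reverse) = fun j => (it h j w).reverse := by
    funext j
    exact wf_it_rev j w
  rw [h1, List.map_reverse, List.reverse_flatten, List.map_map]
  rfl

theorem eqn_rev {p : ℕ} {js : List ℕ} :
    Eqn (rev h) w.reverse p js.reverse ↔ Eqn h w p js := by
  unfold Eqn
  rw [ke_flat_rev, wf_it_rev]
  exact List.reverse_inj

theorem rla_of_rev {p : ℕ} (h1 : Rfi (rev h) w.reverse p) : Rla h w p := by
  obtain ⟨js, h2, h3⟩ := h1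
  refine ⟨js.reverse, ?_, ?_⟩
  · intro j hj
    exact h2 j (List.mem_reverse.1 hj)
  · rw [← eqn_rev]
    simpa using h3

end mir

/-! ### certificates -/

section tot

variable {n : ℕ} {H : Fin n → List (Fin n)} {b0 : List (Fin n)}

/-- A prefix test, a loop certificate or a relation of the first kind. -/
theorem ke_half (hg : GoodS H b0) (hce : ClsC 1 (cd H b0)) (hp : NoPow H b0) {K' : ℕ}
    (hQ0 : it H K' b0 <:+ it H (K' + 1) b0) : (∃ d, TA (cd H b0) d) ∨ ∃ p, Rfi H b0 p := by
  obtain ⟨hi, lam, l, hw⟩ := good_pw hg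
  have hc := hg.cls hce
  by_cases hP0 : it H (kC (cd H b0)) b0 <+: it H (kC (cd H b0) + 1) b0
  · have hleg := legal_of_pre hw Nat.one_pos hP0
    obtain ⟨L⟩ := hg.lv hw Nat.one_pos hg.lev_kC hleg hP0
    have hP := tkN_P hw hP0
    have hD := cls_D hw hg.hne hc
    by_cases hcov : ∃ (is : List ℤ) (j : ℤ) (y : Col H), (tkN hw).Grd 1 is ∧ y ≠ 1 ∧
        y ∈ (tkN hw).R 1 j ∧ (tkN hw).w (1 : ℕ) = (tkN hw).w 0 * (tkN hw).pr is * y
    · right
      obtain ⟨is, j, y, -, h1, h2, h3⟩ := hcov
      exact ke_rfi hw hg hP0 hQ0 hp h1 h2 h3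
    · left
      obtain ⟨pre, cyc, D, x, hD0, hl⟩ := Tk.loop_of_lv L hP hD Nat.one_pos hcov
      obtain ⟨D', rfl⟩ : ∃ D' : ℕ, D = D' := ⟨D.toNat, by omega⟩
      obtain ⟨M, pre', cyc', x', h1⟩ := loopN_of_loop hw hl (kC (cd H b0))
      exact ⟨(1, M, pre', cyc', D', x'.map Fin.val), hce, Or.inr (lpC_cd.2 h1)⟩
  · left
    exact ⟨(1, 0, [], [], 0, []), hce, Or.inl (pfC_cd.2 hP0)⟩

theorem ke_suf_of {K : ℕ} (h : it (rev H) K b0.reverse <+: it (rev H) (K + 1) b0.reverse) :
    it H K b0 <:+ it H (K + 1) b0 := by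
  rw [wf_it_rev, wf_it_rev] at h
  exact List.reverse_prefix.1 h

theorem ke_suf_rev {K : ℕ} (h : it H K b0 <+: it H (K + 1) b0) :
    it (rev H) K b0.reverse <:+ it (rev H) (K + 1) b0.reverse := by
  rw [wf_it_rev, wf_it_rev]
  exact List.reverse_suffix.2 h

/-- **Totality**: a certificate on one side, or relations of both kinds. -/
theorem ke_total (hg : GoodS H b0) (hce : ClsC 1 (cd H b0))
    (hce' : ClsC 1 (cd (rev H) b0.reverse)) (hp : NoPow H b0) :
    (∃ d, TA (cd H b0) d) ∨ (∃ d, TA (rvC (cd H b0)) d) ∨ ∃ p, RB H b0 p := by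
  by_cases hP0 : it H (kC (cd H b0)) b0 <+: it H (kC (cd H b0) + 1) b0
  · by_cases hQ0 : it (rev H) (kC (cd (rev H) b0.reverse)) b0.reverse <+:
        it (rev H) (kC (cd (rev H) b0.reverse) + 1) b0.reverse
    · rcases ke_half hg hce hp (ke_suf_of hQ0) with h | ⟨p, h⟩
      · exact Or.inl h
      · rcases ke_half hg.reverse hce' hp.reverse (ke_suf_rev hP0) with h' | ⟨q, h'⟩
        · refine Or.inr (Or.inl ?_)
          rw [rvC_cd]
          exact h'
        · refine Or.inr (Or.inr ⟨p + q, h.shift q, ?_⟩)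
          rw [Nat.add_comm]
          exact (rla_of_rev h').shift p
    · refine Or.inr (Or.inl ?_)
      rw [rvC_cd]
      exact ⟨(1, 0, [], [], 0, []), hce', Or.inl (pfC_cd.2 hQ0)⟩
  · left
    exact ⟨(1, 0, [], [], 0, []), hce, Or.inl (pfC_cd.2 hP0)⟩

end tot

/-! ### normal forms -/

section nf

variable {n N : ℕ} {H : Fin n → List (Fin n)} {b0 : List (Fin n)}

/-- In a normal form with class period one there is a relation of the first kind. -/
theorem ke_rfi_nf (hnf : NF H b0 N) (hg : GoodS H b0) (hce : ClsC 1 (cd H b0)) :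
    ∃ p, Rfi H b0 p := by
  obtain ⟨hi, lam, l, hw⟩ := good_pw hg
  obtain ⟨ρ, hρ⟩ := cls_P hw hnf (hg.cls hce)
  obtain ⟨js, rfl⟩ := all_tok hw hnf ρ
  rw [Nat.cast_one] at hρ
  exact rfi_of_eq hw hρ

/-- In a normal form with class period one on both sides there are relations of both kinds. -/
theorem ke_sound (hnf : NF H b0 N) (hg : GoodS H b0) (hce : ClsC 1 (cd H b0))
    (hce' : ClsC 1 (cd (rev H) b0.reverse)) : ∃ p, RB H b0 p := by
  obtain ⟨p, h⟩ := ke_rfi_nf hnf hg hce
  obtain ⟨q, h'⟩ := ke_rfi_nf hnf.reverse hg.reverse hce'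
  refine ⟨p + q, h.shift q, ?_⟩
  rw [Nat.add_comm]
  exact (rla_of_rev h').shift p

theorem rfi_pre {α : Type} {h : α → List α} {w : List α} {p : ℕ} (hp : Rfi h w p) :
    it h p w <+: it h (p + 1) w := by
  obtain ⟨js, -, h2⟩ := hp
  unfold Eqn at h2
  rw [h2, List.map_cons, List.flatten_cons]
  exact List.prefix_append _ _

theorem rla_suf {α : Type} {h : α → List α} {w : List α} {p : ℕ} (hp : Rla h w p) :
    it h p w <:+ it h (p + 1) w := by
  obtain ⟨js, -, h2⟩ := hp
  unfold Eqn at h2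
  rw [h2, List.map_append, List.flatten_append, List.map_singleton, List.flatten_singleton]
  exact List.suffix_append _ _

/-- Relations of both kinds: the class periods are one. -/
theorem ke_clsC (hg : GoodS H b0) {p : ℕ} (hp : RB H b0 p) {e : ℕ} :
    (ClsC e (cd H b0) → e = 1) ∧ (ClsC e (cd (rev H) b0.reverse) → e = 1) := by
  constructor
  · intro h
    exact cls_one hg.hne hg.ne (hg.cls h) (rfi_pre hp.1)
  · intro h
    exact cls_rev_one hg.hne hg.ne (hg.reverse.cls h) (rla_suf hp.2)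

/-- In a normal form in which no word is a proper power of a product of earlier words, no word is a proper power. -/
theorem ke_noPow (hnf : NF H b0 N) (hg : GoodS H b0) (hn : NP H b0) : NoPow H b0 := by
  obtain ⟨hi, lam, l, hw⟩ := good_pw hg
  intro m k u hk he
  obtain ⟨is, his⟩ := all_tok hw hnf (Col.mk H 0 u)
  obtain ⟨L, hL⟩ := rc_level is
  rw [rc_pr hw L is hL, ← Col.mk_lift 0 L u, Nat.add_zero] at his
  have h1 := Col.mk_inj his
  obtain ⟨js, hjs⟩ : ∃ js, js = is.map fun i => ((L : ℤ) + i).toNat := ⟨_, rfl⟩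
  have h2 : it H L u = (js.map fun j => it H j b0).flatten := by
    rw [h1, hjs, List.map_map]
    rfl
  have h3 : it H (L + m) b0 = (List.replicate k (it H L u)).flatten := by
    rw [it_add, he, wf_it_pow]
  have hlw : ∀ (q : ℕ) (z : List (Fin n)), lw l (List.replicate q z).flatten = q * lw l z := by
    intro q z
    induction q with
    | zero => simp [lw_nil]
    | succ q ih =>
      rw [List.replicate_succ, List.flatten_cons, lw_append, ih]
      push_cast
      ring
  have hjs1 : js ≠ [] := by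
    intro h4
    rw [h4, List.map_nil, List.flatten_nil] at h2
    rw [h2] at h3
    refine hn.ne (L + m) ?_
    rw [h3]
    simp
  refine hn (L + m) js k hk hjs1 ?_ ?_
  · intro j hj
    by_contra hcon
    push Not at hcon
    have h4 : lw l (it H j b0) ≤ lw l (it H L u) := by
      rw [h2]
      obtain ⟨a, b, hab⟩ := List.append_of_mem hj
      rw [hab, List.map_append, List.map_cons, List.flatten_append, List.flatten_cons, lw_append,
        lw_append]
      have h5 := lw_nonneg hw.pos (a.map fun j => it H j b0).flatten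
      have h6 := lw_nonneg hw.pos (b.map fun j => it H j b0).flatten
      linarith
    have h5 := congrArg (lw l) h3
    rw [hlw, hw.lw_w] at h5
    rw [hw.lw_w] at h4
    have h6 : lam ^ (L + m) ≤ lam ^ j := pow_le_pow_right₀ hw.one_lt.le hcon
    have h7 : (2 : ℝ) ≤ k := by exact_mod_cast hk
    have h8 : 0 < lam ^ (L + m) := pow_pos hw.lam_pos _
    nlinarith
  · unfold Eqn
    rw [h3, h2]
    clear h1 h2 h3
    induction k with
    | zero => simp
    | succ k ih =>
      rw [List.replicate_succ, List.flatten_cons, List.replicate_succ, List.flatten_cons,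
        List.map_append, List.flatten_append]
      congr 1
      clear hk he ih
      induction k with
      | zero => simp
      | succ k ih =>
        rw [List.replicate_succ, List.flatten_cons, List.replicate_succ, List.flatten_cons,
          List.map_append, List.flatten_append, ih]

end nf

end D0L
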