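import Pool.Agent.H.MP_374efc_lc.Zt.Kd

/-!
# MP_374efc_lc: the orbit step for relations which begin with the preceding word

If some `w_(p+1)` is a product which begins with `w_p`, the alphabets of the words `w_n` increase, so the restriction to the
periodic alphabet needs no power of `h`.
-/

set_option autoImplicit false

namespace D0L

section

variable {α β : Type}

theorem ko_map {ι : β → α} (x : List β) : app (fun b => [ι b]) x = x.map ι := by
  induction x with
  | nil => rfl
  | cons a x ih => rw [app_cons, ih]; rfl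

theorem ko_map_inj {ι : β → α} (hι : Function.Injective ι) :
    Function.Injective (app (fun b => [ι b])) := by
  intro x y hxy
  rw [ko_map, ko_map] at hxy
  exact (List.map_injective_iff.2 hι) hxy

/-- Restriction to an alphabet. -/
theorem ko_tr {h : α → List α} {w : List α} {g : β → List β} {u : List β} {ι : β → α}
    (hι : Function.Injective ι) (hg : ∀ b, (g b).map ι = h (ι b)) {m : ℕ}
    (hu : u.map ι = it h m w) : Tr m h w g u := by
  refine tr_code (c := fun b => [ι b]) (ko_map_inj hι) ?_ ?_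
  · intro b
    rw [ko_map, hg, app_singleton]
  · rw [ko_map, hu]

/-- The alphabets increase. -/
theorem ko_mono {h : α → List α} {w : List α} {p : ℕ} (hp : Rfi h w p) (n : ℕ) (hn : p ≤ n) :
    Orbit_set (it h n w) ⊆ Orbit_set (it h (n + 1) w) := by
  obtain ⟨m, rfl⟩ := Nat.exists_eq_add_of_le hn
  obtain ⟨js, -, h2⟩ := hp.shift m
  intro b hb
  rw [Orbit_mem_set] at hb ⊢
  rw [h2, List.map_cons, List.flatten_cons]
  exact List.mem_append_left _ hb

theorem ko_step [Fintype α] {h : α → List α} {w : List α} {s : ℕ} (hs : Sz s h w) {p : ℕ}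
    (hp : Rfi h w p) :
    ∃ (β : Type) (_ : Fintype β) (g : β → List β) (u : List β) (ι : β → α) (m : ℕ),
      Function.Injective ι ∧ m ≤ 2 ^ (s + 1) ∧
      (∀ b, (g b).map ι = h (ι b)) ∧ u.map ι = it h m w ∧
      (∀ n b, b ∈ it g n u) ∧
      (∀ a, Gr g a → ∀ i, 2 ^ Fintype.card β ≤ i → ∀ b, b ∈ it g i [a]) ∧
      Tr m h w g u := by
  classical
  obtain ⟨m, t, hn0, ht, -, hper, -⟩ := Orbit_period h w
  have hcs : 2 ^ Fintype.card α ≤ 2 ^ s := Nat.pow_le_pow_right (by norm_num) hs.1
  -- the alphabet of `it h m w` is a fixed point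
  have hfix : (Orbit_Phi h)^[1] (Orbit_set (it h m w)) = Orbit_set (it h m w) := by
    refine Orbit_chain (Orbit_mono h) ht ?_ ?_
    · have h1 : p ≤ t * p + m := by
        have := Nat.le_mul_of_pos_left p ht
        omega
      have h2 := ko_mono hp _ h1
      rw [it_add, Orbit_set_it, hper, Nat.add_comm, it_add, Orbit_set_it h 1, it_add,
        Orbit_set_it h (t * p), hper] at h2
      exact h2
    · exact hper 1
  have hinv : ∀ k, Orbit_set (it h (k + m) w) = Orbit_set (it h m w) := by
    intro k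
    rw [it_add, Orbit_set_it]
    exact Function.iterate_fixed (by simpa using hfix) k
  have hclosed : ∀ a ∈ it h m w, ∀ c ∈ h a, c ∈ it h m w := by
    intro a ha c hc
    rw [← Orbit_mem_set, ← hinv 1, Orbit_mem_set, it_add, it_one, mem_app]
    exact ⟨a, ha, hc⟩
  let β : Type := {a : α // a ∈ it h m w}
  let ι : β → α := Subtype.val
  let g : β → List β := fun b => (h b.1).attachWith (fun a => a ∈ it h m w)
    (fun c hc => hclosed b.1 b.2 c hc)
  let u : List β := (it h m w).attach
  have hinj : Function.Injective ι := Subtype.val_injective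
  have hg : ∀ b, (g b).map ι = h (ι b) := by
    intro b
    simp only [g, ι]
    exact List.attachWith_map_subtype_val _
  have hu : u.map ι = it h m w := by
    simp only [u, ι]
    exact List.attach_map_subtype_val _
  have hg1 : ∀ b, (g b).map ι = it h 1 [ι b] := by
    intro b
    rw [hg, it_one, app_singleton]
  have hall : ∀ n b, b ∈ it g n u := by
    intro n b
    have h1 : ι b ∈ (it g n u).map ι := by
      rw [Orbit_map_it hg1, hu, ← it_add, Nat.one_mul, ← Orbit_mem_set, hinv, Orbit_mem_set]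
      exact b.2
    rw [List.mem_map] at h1
    obtain ⟨b', hb', he⟩ := h1
    rw [← hinj he]
    exact hb'
  have htr : Tr m h w g u := ko_tr hinj hg hu
  have hLC : LC g u := by
    obtain ⟨js, h1, h2⟩ := hp
    exact ⟨_, Rfi.rel (p := p) ⟨js, h1, htr.down _ _ h2⟩⟩
  refine ⟨β, inferInstance, g, u, ι, m, hinj, ?_, hg, hu, hall, ?_, htr⟩
  · rw [pow_succ]
    omega
  · intro a ha i hi b
    exact Orbit_grow hLC hall a ha i hi b

end

/-- Step D: all letters grow. -/
theorem bdB_grow (F : ℕ → ℕ) (hb : BdB (fun _ _ h _ => Prim h) F) :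
    BdB (fun _ _ h w => (∀ a, h a ≠ []) ∧ (∀ a, Gr h a) ∧ w ≠ [])
      (fun s => 2 ^ s * F (tO s) + 2 ^ (s + 1)) := by
  intro α _ h w s hs hq hnp hrb
  change ∃ p ≤ 2 ^ s * F (tO s) + 2 ^ (s + 1), RB h w p
  obtain ⟨hne, hgr, hw⟩ := hq
  obtain ⟨p0, hp0⟩ := hrb
  obtain ⟨β, _, g, u, ι, m, hι, hm, hg, hu, hfull, hmix, htr⟩ := ko_step hs hp0.1
  have hg1 : ∀ b, (g b).map ι = it h 1 [ι b] := by
    intro b
    rw [hg, it_one, app_singleton]
  have hs' := sz_orbit hs hι Nat.one_le_two_pow hm hg1 hu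
  have hp : Prim g := by
    refine ⟨2 ^ Fintype.card β, by positivity, ?_⟩
    intro a b
    exact hmix a (gr_of_map hne one_pos hg1 (hgr _)) _ le_rfl b
  obtain ⟨p, h1, h2⟩ := hb β g u (tO s) hs' hp (htr.np hnp) ⟨p0, htr.rb hp0⟩
  refine ⟨p + m, ?_, htr.rb_up h2⟩
  have h3 : F (tO s) ≤ 2 ^ s * F (tO s) := Nat.le_mul_of_pos_left _ (by positivity)
  omega

/-- Constant lengths. -/
theorem ko_bw {α : Type} {h : α → List α} {w : List α} (inj : Function.Injective (app h)) {p : ℕ}
    (hp : Rfi h w p) {B : ℕ} (hB : ∀ n, (it h n w).length ≤ B) : it h 1 w = w := by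
  by_contra hne
  have hstep : ∀ n, p ≤ n → (it h n w).length + 1 ≤ (it h (n + 1) w).length := by
    intro n hn
    obtain ⟨m, rfl⟩ := Nat.exists_eq_add_of_le hn
    obtain ⟨js, -, h2⟩ := hp.shift m
    have h3 : it h (p + m + 1) w =
        it h (p + m) w ++ (js.map fun j => it h j w).flatten := by
      rw [h2, List.map_cons, List.flatten_cons]
    rw [h3, List.length_append]
    have h4 : (js.map fun j => it h j w).flatten ≠ [] := by
      intro h5
      rw [h5, List.append_nil, it_add h (p + m) 1] at h3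
      exact hne ((inj.iterate (p + m)) h3)
    have := List.length_pos_of_ne_nil h4
    omega
  have hlen : ∀ k, k ≤ (it h (p + k) w).length := by
    intro k
    induction k with
    | zero => exact Nat.zero_le _
    | succ k ih =>
      have h1 := hstep (p + k) (Nat.le_add_right _ _)
      rw [Nat.add_assoc] at h1
      omega
  have h1 := hlen (B + 1)
  have h2 := hB (p + (B + 1))
  omega

theorem rb_of_const {α : Type} {h : α → List α} {w : List α} (h1 : it h 1 w = w) : RB h w 0 := by
  have h2 : Eqn h w 1 [0] := by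
    unfold Eqn
    rw [h1]
    simp [it_zero]
  exact ⟨⟨[], by simp, h2⟩, ⟨[], by simp, h2⟩⟩

/-- Step B: injective systems. -/
theorem bdB_inj (F : ℕ → ℕ) (hb : BdB (fun _ _ h w => Mix h w) F) :
    BdB (fun _ _ h _ => Function.Injective (app h))
      (fun s => 2 ^ s * F (tO s) + 2 ^ (s + 1) + (s + 1) ^ (s + 1)) := by
  intro α _ h w s hs inj hnp hrb
  change ∃ p ≤ 2 ^ s * F (tO s) + 2 ^ (s + 1) + (s + 1) ^ (s + 1), RB h w p
  have hne := ne_of_inj inj
  obtain ⟨p0, hp0⟩ := hrb
  by_cases hbw : Bw h w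
  · exact ⟨0, Nat.zero_le _,
      rb_of_const (ko_bw inj hp0.1 (B := w.length) fun n => (bw_it inj hbw n).2.le)⟩
  obtain ⟨β, _, g, u, ι, m, hι, hm, hg, hu, hfull, hmix, htr⟩ := ko_step hs hp0.1
  have hg1 : ∀ b, (g b).map ι = it h 1 [ι b] := by
    intro b
    rw [hg, it_one, app_singleton]
  have hs' := sz_orbit hs hι Nat.one_le_two_pow hm hg1 hu
  have hM : Mix g u := by
    refine ⟨inj_of_map inj hι hg1, hfull, hmix, ?_, (htr.rb hp0).lc⟩
    simp only [Bw, not_forall, not_not] at hbw
    obtain ⟨a, ha, ha'⟩ := hbw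
    obtain ⟨b, hb1, hb2⟩ := (gr_iff hne a m).1 ha'
    have h1 : b ∈ u.map ι := by
      rw [hu, it_eq_app, mem_app]
      exact ⟨a, ha, hb1⟩
    rw [List.mem_map] at h1
    obtain ⟨c, -, rfl⟩ := h1
    exact ⟨c, gr_of_map hne one_pos hg1 hb2⟩
  obtain ⟨p, h1, h2⟩ := hb β g u (tO s) hs' hM (htr.np hnp) ⟨p0, htr.rb hp0⟩
  refine ⟨p + m, ?_, htr.rb_up h2⟩
  have h3 : F (tO s) ≤ 2 ^ s * F (tO s) := Nat.le_mul_of_pos_left _ (by positivity)
  omega

end D0L
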