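import Pool.Agent.H.MP_374efc_lc.Zt.Kp
import Pool.Agent.H.MP_374efc_lc.Asm.Elem

/-!
# MP_374efc_lc: relations of both kinds, elementary primitive systems

`CoreBB F`: a bound in the core case (elementary, primitive, not periodic, legal, growing).
`bdB_elem`: the bound for all elementary primitive systems.
-/

set_option autoImplicit false

namespace D0L

/-- A bound in the core case. -/
def CoreBB (F : ℕ → ℕ) : Prop :=
  ∀ (α : Type) [Fintype α] (h : α → List α) (w : List α) (s : ℕ), Sz s h w → Elem h → Prim h →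
    ¬ Per h → Legal h w → w ≠ [] → (∀ a, Gr h a) → NP h w → (∃ p, RB h w p) →
    ∃ p ≤ F s, RB h w p

/-- Elementary primitive systems. -/
theorem bdB_elem (F : ℕ → ℕ) (hc : CoreBB F) :
    BdB (fun _ _ h _ => Elem h ∧ Prim h) F := by
  intro α _ h w s hs hq hn hrb
  change ∃ p ≤ F s, RB h w p
  obtain ⟨he, hp⟩ := hq
  have hg := he.good
  have hw : w ≠ [] := hn.ax
  have hlc : LC h w := by
    obtain ⟨p, hp'⟩ := hrb
    exact hp'.lc
  by_cases hgr : ∀ a, Gr h a
  · have hl := legal hg.ne hg.inj hw hlc hgr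
    by_cases hper : Per h
    · exfalso
      obtain ⟨σ, hσ⟩ := per1 hg hp hgr hper
      obtain ⟨p, hp'⟩ := hrb
      exact kper hσ hgr hl hn hp'.1
    · exact hc α h w s hs he hp hper hl hw hgr hn hrb
  · push Not at hgr
    obtain ⟨a, ha⟩ := hgr
    exact ⟨0, Nat.zero_le _, rb_of_rel_one (rel_of_prim_bdd hg.ne hp ha w)⟩

end D0L
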