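import Pool.Agent.H.MP_374efc_lc.Zt.Kd
import Pool.Agent.H.MP_374efc_lc.Asm.Elem

/-!
# MP_374efc_lc: relations of both kinds, simplification

Transfer of relations through a factorisation `h = g ∘ f`, and the simplification steps A and E for
`BdB`.
-/

set_option autoImplicit false

namespace D0L

/-- Transfer through a factorisation. -/
theorem tr_gf {α δ : Type} {h : α → List α} {f : α → List δ} {g : δ → List α} {w : List α}
    (h1 : ∀ a, app g (f a) = h a) : Tr 1 h w (fun d => app f (g d)) (app f w) := by
  have e1 : ∀ x, app g (app f x) = app h x := by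
    intro x
    rw [app_app]
    congr 1
    funext a
    exact h1 a
  have e2 : ∀ n, it (fun d => app f (g d)) n (app f w) = app f (it h n w) := by
    intro n
    induction n with
    | zero => rfl
    | succ n ih =>
      rw [it_succ, ih, ← app_app, e1, it_succ]
  have e3 : ∀ n, app g (it (fun d => app f (g d)) n (app f w)) = it h (n + 1) w := by
    intro n
    rw [e2, e1, it_succ]
  constructor
  · intro p js hp
    unfold Eqn at hp ⊢
    rw [e2, hp, app_flatten, List.map_map]
    congr 1
    apply List.map_congr_left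
    intro j _
    simp only [Function.comp]
    rw [e2]
  · intro p js hp
    unfold Eqn at hp ⊢
    rw [← e3, hp, app_flatten, List.map_map, List.map_map]
    congr 1
    apply List.map_congr_left
    intro j _
    simp only [Function.comp]
    rw [e3]

/-- Steps A and E: simplification inside a class, elementary morphisms. -/
theorem bdB_simpE (Q : ∀ (α : Type) [Fintype α], (α → List α) → List α → Prop)
    (hQ : ∀ (α δ : Type) [Fintype α] [Fintype δ] (h : α → List α) (f : α → List δ)
      (g : δ → List α) (w : List α), (∀ a, app g (f a) = h a) → (∀ d, g d ≠ []) →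
      (∀ d, ∃ a, d ∈ f a) → Q α h w → Q δ (fun d => app f (g d)) (app f w))
    (F : ℕ → ℕ) (hF : Monotone F)
    (hb : BdB (fun α _ h w => Elem h ∧ Q α h w) F) :
    BdB Q (fun s => F (s ^ 2 ^ s) + s) := by
  have key : ∀ n : ℕ, ∀ (α : Type) [Fintype α] (h : α → List α) (w : List α) (s : ℕ),
      Fintype.card α ≤ n → Sz s h w → Q α h w → NP h w → (∃ p, RB h w p) →
        ∃ p ≤ F (s ^ 2 ^ n) + n, RB h w p := by
    intro n
    induction n with
    | zero =>
      intro α _ h w s hn hs hq hnp hlc
      by_cases hg : Elem h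
      · obtain ⟨p, h1, h2⟩ := hb α h w s hs ⟨hg, hq⟩ hnp hlc
        exact ⟨p, by simpa using h1, h2⟩
      · exfalso
        apply hg
        rintro ⟨δ, _, f, g, h1, -⟩
        omega
    | succ n ih =>
      intro α _ h w s hn hs hq hnp hlc
      have hpow : ∀ i : ℕ, s ≤ s ^ 2 ^ i := by
        intro i
        exact Nat.le_self_pow (by positivity) s
      by_cases hg : Elem h
      · obtain ⟨p, h1, h2⟩ := hb α h w s hs ⟨hg, hq⟩ hnp hlc
        have := hF (hpow (n + 1))
        exact ⟨p, by omega, h2⟩
      · rw [Elem, not_not] at hg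
        obtain ⟨δ, hδ, f, g, h1, h2, h3, h4⟩ := hg
        have h5 := simp_sizes h1 h2 h3 h4 hs
        have h6 := hQ α δ h f g w h2 h3 h4 hq
        have ht : Tr 1 h w (fun d => app f (g d)) (app f w) := tr_gf h2
        obtain ⟨p0, hp0⟩ := hlc
        obtain ⟨p, h8, h9⟩ := ih δ _ _ (s * s) (by omega) h5 h6 (ht.np hnp) ⟨p0, ht.rb hp0⟩
        refine ⟨p + 1, ?_, ht.rb_up h9⟩
        have h10 : (s * s) ^ 2 ^ n = s ^ 2 ^ (n + 1) := by
          rw [← pow_two, ← pow_mul, pow_succ']
        rw [h10] at h8
        omega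
  intro α _ h w s hs hq hnp hlc
  exact key s α h w s hs.1 hs hq hnp hlc

/-- Steps A and E: simplification inside a class, good morphisms. -/
theorem bdB_simp (Q : ∀ (α : Type) [Fintype α], (α → List α) → List α → Prop)
    (hQ : ∀ (α δ : Type) [Fintype α] [Fintype δ] (h : α → List α) (f : α → List δ)
      (g : δ → List α) (w : List α), (∀ a, app g (f a) = h a) → (∀ d, g d ≠ []) →
      (∀ d, ∃ a, d ∈ f a) → Q α h w → Q δ (fun d => app f (g d)) (app f w))
    (F : ℕ → ℕ) (hF : Monotone F)
    (hb : BdB (fun α _ h w => Good h ∧ Q α h w) F) :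
    BdB Q (fun s => F (s ^ 2 ^ s) + s) :=
  bdB_simpE Q hQ F hF fun α _ h w s hs hq hnp hlc => hb α h w s hs ⟨hq.1.good, hq.2⟩ hnp hlc

end D0L
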