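import Pool.Agent.H.MP_374efc_lc.Red.Z4

/-!
# MP_374efc_lc: removal of the bounded letters, with the code
-/

set_option autoImplicit false

namespace D0L

/-- Normalised systems: first and last growing letters in `PL`, `PR`. -/
theorem zrec_core2 {α : Type} [Fintype α] {h : α → List α} {w : List α} {s rho sg : ℕ}
    (hm : Mix h w) (hs : Sz s h w)
    (hl : ∃ p d y, w = p ++ d :: y ∧ Bw h p ∧ p.length = rho ∧ PL h d)
    (hr : ∃ y d t, w = y ++ d :: t ∧ Bw h t ∧ t.length = sg ∧ PR h d) :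
    ∃ (β : Type) (_ : Fintype β) (k : β → List β) (v : List β),
      Sz ((s + 1) ^ LZ s + (s + 1) * LZ s) k v ∧ LC k v ∧ (∀ b, k b ≠ []) ∧ (∀ b, Gr k b) ∧
      v ≠ [] ∧ (∀ p, Rel k v p → Rel h w p) ∧ ∃ c : β → List α, Function.Injective (app c) ∧
        (∀ b, app h (c b) = app c (k b)) ∧ w = app c v := by
  classical
  have inj := hm.inj
  have hne : ∀ a, h a ≠ [] := fun a => ne_of_inj inj a
  have hw0 : w ≠ [] := by
    obtain ⟨p, d, y, h1, -⟩ := hl
    rw [h1]
    simp
  have hGw : GG h rho sg w := Or.inr ⟨hl, hr⟩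
  set V0 := {u : List α // Irr (GG h rho sg) u} with hV0
  set c0 : V0 → List α := fun u => u.1 with hc0
  have hspan : ∀ x, GG h rho sg x → ∃ v : List V0, x = app c0 v :=
    irr_span (GG h rho sg) (Or.inl rfl)
  have hcode : Function.Injective (app c0) :=
    irr_code (GG h rho sg) (Or.inl rfl) (fun x y => gg_mul)
      (fun x z t hx _ htz hxt => gg_stable x z t hx htz hxt)
  have hk0 : ∀ u : V0, ∃ v : List V0, app h (c0 u) = app c0 v := by
    intro u
    have := gg_it inj u.2.1 1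
    rw [it_one] at this
    exact hspan _ this
  choose k0 hk0 using hk0
  obtain ⟨v0, hv0⟩ := hspan w hGw
  have hcl : ∀ n, ∀ u ∈ it k0 n v0, ∀ u' ∈ k0 u, u' ∈ it k0 (n + 1) v0 := by
    intro n u hu u' hu'
    rw [it_succ, mem_app]
    exact ⟨u, hu, hu'⟩
  set β := {u : V0 // ∃ n, u ∈ it k0 n v0} with hβ
  let k : β → List β := fun b => (k0 b.1).attachWith (fun u => ∃ n, u ∈ it k0 n v0)
    (fun u' hu' => by
      obtain ⟨n, hn⟩ := b.2
      exact ⟨n + 1, hcl n _ hn u' hu'⟩)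
  let v : List β := v0.attachWith (fun u => ∃ n, u ∈ it k0 n v0) (fun u hu => ⟨0, hu⟩)
  let c : β → List α := fun b => c0 b.1
  have hcmap : ∀ x : List β, app c x = app c0 (x.map Subtype.val) := by
    intro x
    induction x with
    | nil => rfl
    | cons a x ih => rw [app_cons, ih, List.map_cons, app_cons]
  have hkmap : ∀ b, (k b).map Subtype.val = k0 b.1 := by
    intro b
    exact List.attachWith_map_subtype_val _
  have hvmap : v.map Subtype.val = v0 := List.attachWith_map_subtype_val _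
  have hcinj : Function.Injective (app c) := by
    intro x y hxy
    rw [hcmap, hcmap] at hxy
    exact (List.map_injective_iff.2 Subtype.val_injective) (hcode hxy)
  have hkc : ∀ b, app h (c b) = app c (k b) := by
    intro b
    rw [hcmap, hkmap]
    exact hk0 b.1
  have hwv : w = app c v := by
    rw [hcmap, hvmap]
    exact hv0
  have hlenc : ∀ b, (c b).length ≤ LZ s := by
    intro b
    obtain ⟨n, hn⟩ := b.2
    refine irr_length hm hs hl hr b.1.2 (n := n) ?_
    rw [hv0, ← it_code hk0]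
    obtain ⟨l1, l2, h1⟩ := List.append_of_mem hn
    rw [h1, app_append, app_cons]
    refine ⟨app c0 l1, app c0 l2, ?_⟩
    change app c0 l1 ++ c0 b.1 ++ app c0 l2 = _
    rw [List.append_assoc]
  have hcinj' : Function.Injective c := by
    intro b b' hbb
    exact Subtype.ext (Subtype.ext hbb)
  obtain ⟨iF, hcard⟩ := lists_card (LZ s) c hcinj' hlenc
  have hcne : ∀ b, c b ≠ [] := fun b => b.1.2.2.1
  have hrel : ∀ p, Rel h w p ↔ Rel k v p := fun p => rel_code hcinj hkc hwv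
  refine ⟨β, iF, k, v, ⟨?_, ?_, ?_⟩, ?_, ?_, ?_, ?_, fun p => (hrel p).2, c, hcinj, hkc, hwv⟩
  · have h1 : (Fintype.card α + 1) ^ LZ s ≤ (s + 1) ^ LZ s :=
      Nat.pow_le_pow_left (Nat.succ_le_succ hs.1) _
    omega
  · intro b
    have h1 := length_le_app hcne (k b)
    rw [← hkc] at h1
    have h2 := length_app_le hs.2.1 (c b)
    have h3 : s * (c b).length ≤ s * LZ s := Nat.mul_le_mul_left _ (hlenc b)
    have h4 : (s + 1) * LZ s = s * LZ s + LZ s := by ring
    omega
  · have h1 := length_le_app hcne v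
    rw [← hwv] at h1
    have h2 := hs.2.2
    have h3 : 1 ≤ LZ s := by rw [LZ]; omega
    have h4 : (s + 1) * 1 ≤ (s + 1) * LZ s := Nat.mul_le_mul_left _ h3
    omega
  · obtain ⟨p, hp⟩ := hm.lc
    exact ⟨p, (hrel p).1 hp⟩
  · intro b hb
    have h1 := hkc b
    rw [hb, app_nil] at h1
    have h2 := length_le_app hne (c b)
    rw [h1] at h2
    exact hcne b (List.length_eq_zero_iff.1 (by simpa using h2))
  · intro b B
    have hb : GG h rho sg (c b) := b.1.2.1
    rcases hb with h0 | ⟨⟨p, d, y, h1, h2, h3, h4⟩, -⟩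
    · exact absurd h0 (hcne b)
    obtain ⟨n, hn⟩ := Z3_pl_gr h4 (LZ s * B)
    refine ⟨n, ?_⟩
    have h5 : (it h n [d]).length ≤ (it h n (c b)).length :=
      (Z3_infix_it n (by rw [h1]; simp)).length_le
    have h6 : app c (it k n [b]) = it h n (c b) := by
      rw [it_code hkc, app_singleton]
    have h7 := length_app_le hlenc (it k n [b])
    rw [h6] at h7
    have h8 : LZ s * B ≤ LZ s * (it k n [b]).length := by omega
    exact Nat.le_of_mul_le_mul_left h8 (by rw [LZ]; omega)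
  · intro hv
    rw [hv] at hwv
    exact hw0 hwv

theorem zrec2 : ∃ tz : ℕ → ℕ, CM tz ∧ ∀ (α : Type) [Fintype α] (h : α → List α) (w : List α)
    (s : ℕ), Sz s h w → Mix h w → ∃ (β : Type) (_ : Fintype β) (k : β → List β) (v : List β),
      Sz (tz s) k v ∧ LC k v ∧ (∀ b, k b ≠ []) ∧ (∀ b, Gr k b) ∧ v ≠ [] ∧
      (∀ p, Rel k v p → Rel h w (p + s)) ∧ ∃ c : β → List α, Function.Injective (app c) ∧
        (∀ b, app h (c b) = app c (k b)) ∧ it h s w = app c v := by
  have two : CM (fun s => 2 ^ s) := CM.pow (CM.const 1) CM.id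
  have one := CM.add CM.id (CM.const 1)
  have cL : CM LZ := by
    refine CM.add (CM.add (CM.mul (CM.pow CM.id (CM.add (CM.add two CM.id) (CM.const 1)))
      (CM.add CM.id (CM.const 2))) (CM.add CM.id (CM.mul (CM.const 2) (CM.pow CM.id CM.id))))
      (CM.const 1)
  have c1 : CM (fun s => (s + 1) ^ LZ s + (s + 1) * LZ s) :=
    CM.add (CM.pow CM.id cL) (CM.mul one cL)
  have c2 : CM (fun s => (s + 1) ^ (s + 1)) := CM.pow CM.id one
  refine ⟨_, CM.comp' c1 c2, ?_⟩
  intro α _ h w s hs hm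
  have inj := hm.inj
  have hne : ∀ a, h a ≠ [] := fun a => ne_of_inj inj a
  have hnb : ¬ Bw h w := by
    obtain ⟨a, ha⟩ := hm.gr
    exact fun hb => hb a (hm.full 0 a) ha
  have hlen : ∀ a, (h a).length ≤ s + 1 := fun a => (hs.2.1 a).trans (by omega)
  have hs' : Sz ((s + 1) ^ (s + 1)) h (it h s w) := by
    have h0 : s + 1 ≤ (s + 1) ^ (s + 1) := Nat.le_self_pow (by omega) _
    refine ⟨hs.1.trans (by omega), fun a => (hlen a).trans h0, ?_⟩
    refine (length_it_le hlen s w).trans ?_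
    rw [pow_succ]
    exact Nat.mul_le_mul_left _ (hs.2.2.trans (by omega))
  have hm' : Mix h (it h s w) := by
    refine ⟨inj, ?_, hm.mix, hm.gr, hm.lc.shift s⟩
    intro n a
    rw [← it_add]
    exact hm.full _ a
  have hl : ∃ p d y, it h s w = p ++ d :: y ∧ Bw h p ∧ PL h d := by
    obtain ⟨p0, a, y0, h1, h2, h3⟩ := bl_exists hnb
    obtain ⟨p1, d, y1, h4, h5, h6⟩ := bl_exists (Z3_notbw_it hne h3 s)
    refine ⟨it h s p0 ++ p1, d, y1 ++ it h s y0, ?_, ?_, first_pl hm h3 hs.1 h4 h5 h6⟩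
    · rw [h1, it_append, Z1_it_cons, h4]
      simp
    · exact Z3_bw_append (bw_it inj h2 s).1 h5
  have hr : ∃ y d t, it h s w = y ++ d :: t ∧ Bw h t ∧ PR h d := by
    obtain ⟨y0, a, t0, h1, h2, h3⟩ := br_exists hnb
    obtain ⟨y1, d, t1, h4, h5, h6⟩ := br_exists (Z3_notbw_it hne h3 s)
    refine ⟨it h s y0 ++ y1, d, t1 ++ it h s t0, ?_, ?_, last_pr hm h3 hs.1 h4 h5 h6⟩
    · rw [h1, it_append, Z1_it_cons, h4]
      simp
    · exact Z3_bw_append h5 (bw_it inj h2 s).1
  obtain ⟨p, d, y, a1, a2, a3⟩ := hl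
  obtain ⟨y', d', t', b1, b2, b3⟩ := hr
  obtain ⟨β, iF, k, v, c1, c2, c3, c4, c5, c6, c7⟩ := zrec_core2 (rho := p.length) (sg := t'.length)
    hm' hs' ⟨p, d, y, a1, a2, rfl, a3⟩ ⟨y', d', t', b1, b2, rfl, b3⟩
  exact ⟨β, iF, k, v, c1, c2, c3, c4, c5, fun q hq => (c6 q hq).unshift, c7⟩

end D0L
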