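import Pool.Agent.H.MP_374efc_lc.Zt.Kt
import Pool.Agent.H.MP_374efc_lc.Zt.Kq
import Pool.Agent.H.MP_374efc_lc.Zt.Ks
import Pool.Agent.H.MP_374efc_lc.Zt.Ko
import Pool.Agent.H.MP_374efc_lc.Zt.Qz

/-!
# MP_374efc_lc: a computable bound for the relations of both kinds

`bdB_all`: there is a computable bound for the least `p` with `RB h w p`, for all systems with `NP h w`.
-/

set_option autoImplicit false

namespace D0L

/-- The core case. -/
theorem kn_core : ∃ G, Computable G ∧ CoreBB G := by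
  obtain ⟨G, hG, hb⟩ := kt_bound
  refine ⟨fun s => G (freeF s + (s + 1) ^ (freeF s + 2)), ?_, ?_⟩
  · have h2 : Computable (fun s => (s + 1) ^ (freeF s + 2)) :=
      Cm_pow.to_comp.comp (Computable.succ.comp Computable.id)
        (Primrec.nat_add.to_comp.comp freeF_computable (Computable.const 2))
    have h3 : Computable (fun s => freeF s + (s + 1) ^ (freeF s + 2)) :=
      Primrec.nat_add.to_comp.comp freeF_computable h2
    exact hG.comp h3
  · intro α iα h w s hs he hp hper hl hw hgr hn hrb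
    change ∃ p ≤ G (freeF s + (s + 1) ^ (freeF s + 2)), RB h w p
    obtain ⟨q, hq⟩ := hrb
    have hlc : LC h w := hq.lc
    obtain ⟨n, t, H, b0, N, hcod, hnf, hrel⟩ := exists_nf he.inj hgr hw hlc
    have h1 : n ≤ freeF s := freeBound α h w s hs he hp hper hl hw n t H b0 hcod
    have ht : Tr 0 h w H b0 := tr_code hcod.inj hcod.comm (m := 0) hcod.ax.symm
    obtain ⟨p, h3, h4⟩ := hb n N _ H b0 (nf_size hs hcod hnf h1)
      ⟨hnf, α, iα, h, w, t, he, hp, hper, hl, hw, hlc, hgr, hcod⟩ (ht.np hn) ⟨q, ht.rb hq⟩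
    exact ⟨p, h3, ht.rb_up h4⟩

/-- Step C: removal of the bounded letters. -/
theorem kn_mix (tz : ℕ → ℕ) (htz : ∀ (α : Type) [Fintype α] (h : α → List α) (w : List α)
    (s : ℕ), Sz s h w → Mix h w → ∃ (β : Type) (_ : Fintype β) (k : β → List β) (v : List β),
      Sz (tz s) k v ∧ LC k v ∧ (∀ b, k b ≠ []) ∧ (∀ b, Gr k b) ∧ v ≠ [] ∧
      (∀ p, Rel k v p → Rel h w (p + s)) ∧ ∃ c : β → List α, Function.Injective (app c) ∧
        (∀ b, app h (c b) = app c (k b)) ∧ it h s w = app c v) (F : ℕ → ℕ)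
    (hb : BdB (fun _ _ h w => (∀ a, h a ≠ []) ∧ (∀ a, Gr h a) ∧ w ≠ []) F) :
    BdB (fun _ _ h w => Mix h w) (fun s => F (tz s) + s) := by
  intro α _ h w s hs hq hn hrb
  change ∃ p ≤ F (tz s) + s, RB h w p
  obtain ⟨q, hq1⟩ := hrb
  obtain ⟨β, _, k, v, h1, h2, h3, h4, h5, -, c, hc1, hc2, hc3⟩ := htz α h w s hs hq
  have ht : Tr s h w k v := tr_code hc1 hc2 hc3
  obtain ⟨p, h7, h8⟩ := hb β k v (tz s) h1 ⟨h3, h4, h5⟩ (ht.np hn) ⟨q, ht.rb hq1⟩
  exact ⟨p + s, by omega, ht.rb_up h8⟩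

/-- **A computable bound** for the relations of both kinds, all systems. -/
theorem bdB_all : ∃ F', Computable F' ∧ BdB (fun _ _ _ _ => True) F' := by
  obtain ⟨F, hF, hc⟩ := kn_core
  obtain ⟨G, hG, hFG⟩ := CM.hull hF
  have hcG : CoreBB G := by
    intro α _ h w s h1 h2 h3 h4 h5 h6 h7 h8 h9
    obtain ⟨p, h10, h11⟩ := hc α h w s h1 h2 h3 h4 h5 h6 h7 h8 h9
    exact ⟨p, h10.trans (hFG s), h11⟩
  obtain ⟨tz, htz, hz⟩ := zrec2
  have two : CM (fun s => 2 ^ s) := CM.pow (CM.const 1) CM.id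
  have two' : CM (fun s => 2 ^ (s + 1)) := CM.pow (CM.const 1) (CM.add CM.id (CM.const 1))
  have ctO : CM tO := CM.pow CM.id (CM.add two' (CM.const 1))
  have selfpow : CM (fun s => (s + 1) ^ 2 ^ s) := CM.pow CM.id two
  -- F
  have b1 : BdB (fun _ _ h _ => Elem h ∧ Prim h) G := bdB_elem G hcG
  -- E
  set F2 : ℕ → ℕ := fun s => G ((s + 1) ^ 2 ^ s) + s with hF2
  have c2 : CM F2 := CM.add (CM.comp' hG selfpow) CM.id
  have b2 : BdB (fun _ _ h _ => Prim h) F2 := by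
    intro α _ h w s hs hq hn hrb
    obtain ⟨p, h1, h2⟩ := bdB_simpE (fun _ _ h _ => Prim h)
      (fun α δ _ _ h f g w h1 h2 h3 h4 => prim_gf h1 h2 h3 h4) G hG.mono b1 α h w s hs hq hn hrb
    refine ⟨p, h1.trans ?_, h2⟩
    have := hG.mono (Nat.pow_le_pow_left (Nat.le_succ s) (2 ^ s))
    simp only [hF2]
    exact Nat.add_le_add_right this s
  -- D
  set F3 : ℕ → ℕ := fun s => 2 ^ s * F2 (tO s) + 2 ^ (s + 1) with hF3
  have c3 : CM F3 := CM.add (CM.mul two (CM.comp' c2 ctO)) two'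
  have b3 := bdB_grow F2 b2
  -- C
  set F4 : ℕ → ℕ := fun s => F3 (tz s) + s with hF4
  have c4 : CM F4 := CM.add (CM.comp' c3 htz) CM.id
  have b4 : BdB (fun _ _ h w => Mix h w) F4 := kn_mix tz hz F3 b3
  -- B
  set F5 : ℕ → ℕ := fun s => 2 ^ s * F4 (tO s) + 2 ^ (s + 1) + (s + 1) ^ (s + 1) with hF5
  have c5 : CM F5 := CM.add (CM.add (CM.mul two (CM.comp' c4 ctO)) two')
    (CM.pow CM.id (CM.add CM.id (CM.const 1)))
  have b5 : BdB (fun _ _ h _ => Function.Injective (app h)) F5 := bdB_inj F4 b4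
  -- A
  refine ⟨fun s => F5 ((s + 1) ^ 2 ^ s) + s,
    (CM.add (CM.comp' c5 selfpow) CM.id).comp, ?_⟩
  intro α _ h w s hs hq hn hrb
  obtain ⟨p, h1, h2⟩ := bdB_simpE (fun _ _ _ _ => True)
    (fun α δ _ _ h f g w h1 h2 h3 h4 => trivial) F5 c5.mono
    (fun α _ h w s hs hq hn hrb => b5 α h w s hs hq.1.inj hn hrb) α h w s hs trivial hn hrb
  refine ⟨p, h1.trans ?_, h2⟩
  have := c5.mono (Nat.pow_le_pow_left (Nat.le_succ s) (2 ^ s))
  exact Nat.add_le_add_right this s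

end D0L
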