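import Pool.Agent.H.MP_374efc_lc.Zt.Kd

/-!
# MP_374efc_lc: the periodic case has proper powers

In the periodic case (`Cyc`) a relation which begins with the preceding word gives a word which is a proper power of the
preceding word.
-/

set_option autoImplicit false

namespace D0L

variable {α : Type} [Fintype α] {h : α → List α} {σ : α → α} {w : List α}

omit [Fintype α] in
theorem kp_ch_mul (s : α) {l : ℕ} (hl : σ^[l] s = s) (r : ℕ) :
    Per2_ch σ s (r * l) = (List.replicate r (Per2_ch σ s l)).flatten := by
  induction r with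
  | zero => simp [Per2_ch]
  | succ r ih =>
    rw [Nat.succ_mul, Nat.add_comm, Per2_ch_add, hl, ih, List.replicate_succ, List.flatten_cons]

/-- **No periodic case.** -/
theorem kper (hc : Cyc h σ) (hgr : ∀ a, Gr h a) (hl : Legal h w) (hn : NP h w) {p : ℕ}
    (hp : Rfi h w p) : False := by
  obtain ⟨js, h1, h2⟩ := hp
  obtain ⟨s, t, hst⟩ := List.exists_cons_of_ne_nil hn.ax
  obtain ⟨n0, hn0⟩ : ∃ n0, w = Per2_ch σ s n0 := ⟨_, Per2_legal_ch hc hl hst⟩
  haveI : Nonempty α := ⟨s⟩
  -- all words are chains
  have hch : ∀ j, it h j w = Per2_ch σ ((Per2_H hc)^[j] s) (it h j w).length := by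
    intro j
    rw [hn0]
    exact (Per2_it_ch hc j s n0).1
  have hpos : ∀ j, 0 < (it h j w).length := fun j => List.length_pos_of_ne_nil (hn.ne j)
  have hhead : ∀ j, (it h j w).head? = some ((Per2_H hc)^[j] s) := by
    intro j
    rw [hch j]
    obtain ⟨m, hm⟩ : ∃ m, (it h j w).length = m + 1 := ⟨_, (Nat.succ_pred_eq_of_pos (hpos j)).symm⟩
    rw [hm]
    rfl
  have hE : it h (p + 1) w = it h p w ++ (js.map fun j => it h j w).flatten := by
    have h3 := h2
    unfold Eqn at h3
    rwa [List.map_cons, List.flatten_cons] at h3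
  -- the first letter is constant
  have hs1 : Per2_H hc s = s := by
    have h3 := hhead (p + 1)
    rw [hE] at h3
    obtain ⟨a, x, hax⟩ := List.exists_cons_of_ne_nil (hn.ne p)
    have h4 := hhead p
    rw [hax] at h3 h4
    have h5 : (Per2_H hc)^[p + 1] s = (Per2_H hc)^[p] s := by
      have e3 : some a = some ((Per2_H hc)^[p + 1] s) := h3
      have e4 : some a = some ((Per2_H hc)^[p] s) := h4
      exact Option.some.inj (e3.symm.trans e4)
    rw [Function.iterate_succ_apply] at h5
    exact ((Per2_H_inj hc).iterate p) h5
  have hs : ∀ j, (Per2_H hc)^[j] s = s := fun j => Function.iterate_fixed hs1 j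
  have hch' : ∀ j, it h j w = Per2_ch σ s (it h j w).length := by
    intro j
    have h3 := hch j
    rwa [hs j] at h3
  have hhead' : ∀ j, (it h j w).head? = some s := by
    intro j
    rw [hhead j, hs j]
  -- the relation has a second factor
  have hne : ∀ a, h a ≠ [] := hc.ne
  have hjs : js ≠ [] := by
    rintro rfl
    rw [List.map_nil, List.flatten_nil, List.append_nil] at hE
    have h3 : ∀ m, it h (p + m) w = it h p w := by
      intro m
      induction m with
      | zero => rfl
      | succ m ih => rw [← Nat.add_assoc, it_succ, ih, ← it_succ, hE]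
    obtain ⟨m, hm⟩ := hgr s ((it h p w).length + 1)
    have h4 : (it h m [s]).length ≤ (it h m w).length := by
      refine (Z3_infix_it m ?_).length_le
      rw [hst]
      exact List.mem_cons_self
    have h5 := length_it_mono hne w (show m ≤ p + m by omega)
    rw [h3] at h5
    omega
  obtain ⟨j2, js', rfl⟩ := List.exists_cons_of_ne_nil hjs
  obtain ⟨l, hlen⟩ : ∃ l, l = (it h p w).length := ⟨_, rfl⟩
  -- the period divides the length of `w_p`
  have hfix : σ^[l] s = s := by
    obtain ⟨x, hx⟩ : ∃ x, it h j2 w = s :: x := by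
      obtain ⟨a, x, hax⟩ := List.exists_cons_of_ne_nil (hn.ne j2)
      have h3 := hhead' j2
      rw [hax] at h3
      have h4 : some a = some s := h3
      rw [Option.some.inj h4] at hax
      exact ⟨x, hax⟩
    have h3 := hch' (p + 1)
    rw [hE, List.length_append, Per2_ch_add, ← hlen] at h3
    have h4 := hch' p
    rw [← hlen] at h4
    rw [h4] at h3
    have h5 := List.append_cancel_left h3
    rw [List.map_cons, List.flatten_cons, hx] at h5
    have h6 : Per2_ch σ (σ^[l] s)
        (s :: x ++ (List.map (fun j => it h j w) js').flatten).length =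
        σ^[l] s :: Per2_ch σ (σ (σ^[l] s)) (x ++ (List.map (fun j => it h j w) js').flatten).length := rfl
    rw [h6] at h5
    exact (List.cons.inj h5).1.symm
  have hdvd : Fintype.card α ∣ l := (Per2_fix hc s l).1 hfix
  obtain ⟨r, hr, hrl⟩ := Per2_r hc hgr
  have hw1 : it h (p + 1) w = (List.replicate r (it h p w)).flatten := by
    have h3 := hch' (p + 1)
    have h4 := hch' p
    rw [← hlen] at h4
    have h5 : (it h (p + 1) w).length = r * l := by
      rw [it_succ, h4]
      exact hrl s l hdvd
    rw [h5, kp_ch_mul s hfix, ← h4] at h3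
    exact h3
  refine hn (p + 1) [p] r hr (by simp) (by simp) ?_
  unfold Eqn
  rw [hw1]
  congr 1
  have h6 : ∀ m : ℕ, (List.replicate m [p]).flatten = List.replicate m p := by
    intro m
    induction m with
    | zero => rfl
    | succ m ih => rw [List.replicate_succ, List.flatten_cons, ih, List.replicate_succ]; rfl
  rw [h6, List.map_replicate]

end D0L
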