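import Pool.Agent.H.MP_374efc_lc.Zt.Ke

/-!
# MP_374efc_lc: the search for relations which begin and end with the preceding word

`TK`: the certificates against relations of both kinds (not good; a class period is not one; a proper power; a certificate
`TA` on one side).  `tK_total`: every code has a relation `RK` or a certificate; `not_tK`: normal forms with `NP` and `RB`
have none.  `kt_bound`: a computable bound for the relations of normal forms.
-/

set_option autoImplicit false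

namespace D0L

open Bim

section

variable {n : ℕ} {H : Fin n → List (Fin n)} {b0 : List (Fin n)}

/-! ### certificates -/

/-- The certificates: not good; a class period is not one; a power; a certificate `TA` on one side. -/
abbrev KBt : Type := (List ℕ × List ℕ × ℕ × ℕ × ℕ) × ℕ × (ℕ × ℕ × List ℕ) × LD

/-- The certificates against relations of both kinds. -/
def TK (c : List (List ℕ) × List ℕ) (x : KBt) : Prop :=
  Bad c x.1 ∨ (ClsC x.2.1 c ∧ x.2.1 ≠ 1) ∨ (ClsC x.2.1 (rvC c) ∧ x.2.1 ≠ 1) ∨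
    (2 ≤ x.2.2.1.2.1 ∧ sqn c x.2.2.1.1 = (List.replicate x.2.2.1.2.1 x.2.2.1.2.2).flatten) ∨
    TA c x.2.2.2 ∨ TA (rvC c) x.2.2.2

/-- Relations of both kinds on codes. -/
def RK (c : List (List ℕ) × List ℕ) (y : ℕ × List ℕ × List ℕ) : Prop :=
  ((∀ j ∈ y.2.1, j ≤ y.1) ∧ sqn c (y.1 + 1) = ((y.1 :: y.2.1).map fun j => sqn c j).flatten) ∧
    (∀ j ∈ y.2.2, j ≤ y.1) ∧ sqn c (y.1 + 1) = ((y.2.2 ++ [y.1]).map fun j => sqn c j).flatten

theorem rK_iff (c : List (List ℕ) × List ℕ) (p : ℕ) :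
    RB (hs c) c.2 p ↔ ∃ js ks, RK c (p, js, ks) := by
  constructor
  · rintro ⟨⟨js, h1, h2⟩, ks, h3, h4⟩
    exact ⟨js, ks, ⟨h1, h2⟩, h3, h4⟩
  · rintro ⟨js, ks, ⟨h1, h2⟩, h3, h4⟩
    exact ⟨⟨js, h1, h2⟩, ks, h3, h4⟩

theorem eqn_cd (p : ℕ) (js : List ℕ) : Eqn (hs (cd H b0)) (cd H b0).2 p js ↔ Eqn H b0 p js := by
  have h1 : ∀ k, it (hs (cd H b0)) k (cd H b0).2 = (it H k b0).map Fin.val := fun k => it_cd k b0
  have h2 : (js.map fun j => it (hs (cd H b0)) j (cd H b0).2).flatten =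
      ((js.map fun j => it H j b0).flatten).map Fin.val := by
    rw [List.map_flatten, List.map_map]
    congr 1
    exact List.map_congr_left fun j _ => h1 j
  unfold Eqn
  rw [h1, h2]
  exact (List.map_injective_iff.2 Fin.val_injective).eq_iff

theorem rb_cd (p : ℕ) : RB (hs (cd H b0)) (cd H b0).2 p ↔ RB H b0 p := by
  simp only [RB, Rfi, Rla, eqn_cd]

/-- **Soundness.** -/
theorem not_tK {N p : ℕ} (hc : CNF H b0 N) (hn : NP H b0) (hp : RB H b0 p) (x : KBt) :
    ¬ TK (cd H b0) x := by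
  have hg := hc.good
  obtain ⟨hi, lam, l, hw⟩ := good_pw hg
  have hnf := hc.1
  have hg' := hg.reverse
  have hnf' := hnf.reverse
  rintro (h | ⟨h1, h2⟩ | ⟨h1, h2⟩ | ⟨h1, h2⟩ | h | h)
  · exact good_iff.1 hg _ h
  · exact h2 ((ke_clsC hg hp).1 h1)
  · rw [rvC_cd] at h1
    exact h2 ((ke_clsC hg hp).2 h1)
  · have h3 : sqn (cd H b0) x.2.2.1.1 = (it H x.2.2.1.1 b0).map Fin.val := it_cd _ b0
    rw [h3] at h2
    obtain ⟨⟨m, r, z⟩, hx⟩ : ∃ y, y = x.2.2.1 := ⟨_, rfl⟩
    rw [← hx] at h1 h2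
    simp only at h1 h2
    have hz : ∃ z' : List (Fin n), z = z'.map Fin.val := by
      have h4 : ∀ a ∈ z, ∃ i : Fin n, i.val = a := by
        intro a ha
        have h5 : a ∈ (it H m b0).map Fin.val := by
          rw [h2]
          refine List.mem_flatten.2 ⟨z, ?_, ha⟩
          rw [List.mem_replicate]
          exact ⟨by omega, rfl⟩
        obtain ⟨i, -, hi⟩ := List.mem_map.1 h5
        exact ⟨i, hi⟩
      clear h2 hx
      induction z with
      | nil => exact ⟨[], rfl⟩
      | cons a z ih =>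
        obtain ⟨i, rfl⟩ := h4 a (by simp)
        obtain ⟨z', rfl⟩ := ih fun b hb => h4 b (List.mem_cons_of_mem _ hb)
        exact ⟨i :: z', rfl⟩
    obtain ⟨z', rfl⟩ := hz
    rw [← List.map_replicate, ← List.map_flatten] at h2
    exact ke_noPow hnf hg hn m r z' h1 ((List.map_injective_iff.2 Fin.val_injective) h2)
  · exact not_tA hw hnf hg _ h
  · rw [rvC_cd] at h
    exact not_tA hw.reverse hnf' hg' _ h

/-- **Totality.** -/
theorem tK_total (c : List (List ℕ) × List ℕ) : (∃ y, RK c y) ∨ ∃ x, TK c x := by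
  by_cases hb : ∃ d, Bad c d
  · obtain ⟨d, hd⟩ := hb
    exact Or.inr ⟨(d, default), Or.inl hd⟩
  push Not at hb
  obtain ⟨n, H, b0, rfl, hg⟩ := exists_good hb
  obtain ⟨e, he, -⟩ := hg.exists_clsC
  obtain ⟨e', he', -⟩ := hg.reverse.exists_clsC
  by_cases h1 : e = 1
  swap
  · exact Or.inr ⟨(default, e, default), Or.inr (Or.inl ⟨he, h1⟩)⟩
  by_cases h2 : e' = 1
  swap
  · refine Or.inr ⟨(default, e', default), Or.inr (Or.inr (Or.inl ⟨?_, h2⟩))⟩
    rw [rvC_cd]
    exact he'
  subst h1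
  subst h2
  by_cases hp : NoPow H b0
  · rcases ke_total hg he he' hp with ⟨d, hd⟩ | ⟨d, hd⟩ | ⟨p, hq⟩
    · exact Or.inr ⟨(default, default, default, d),
        Or.inr (Or.inr (Or.inr (Or.inr (Or.inl hd))))⟩
    · exact Or.inr ⟨(default, default, default, d),
        Or.inr (Or.inr (Or.inr (Or.inr (Or.inr hd))))⟩
    · left
      obtain ⟨js, ks, h⟩ := (rK_iff _ p).1 ((rb_cd p).2 hq)
      exact ⟨_, h⟩
  · unfold NoPow at hp
    push Not at hp
    obtain ⟨m, r, z, h1, h2⟩ := hp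
    refine Or.inr ⟨(default, default, (m, r, z.map Fin.val), default),
      Or.inr (Or.inr (Or.inr (Or.inl ⟨h1, ?_⟩)))⟩
    have h3 : sqn (cd H b0) m = (it H m b0).map Fin.val := it_cd m b0
    rw [h3, h2, List.map_flatten, List.map_replicate]

end

section prim

open Primrec

theorem prim_tK : PrimrecPred (fun x : (List (List ℕ) × List ℕ) × KBt => TK x.1 x.2) := by
  have c0 : Primrec (fun x : (List (List ℕ) × List ℕ) × KBt => x.1) := fst
  have e0 : Primrec (fun x : (List (List ℕ) × List ℕ) × KBt => x.2.2.1) := fst.comp (snd.comp snd)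
  have m0 : Primrec (fun x : (List (List ℕ) × List ℕ) × KBt => x.2.2.2.1) :=
    fst.comp (snd.comp (snd.comp snd))
  have d0 : Primrec (fun x : (List (List ℕ) × List ℕ) × KBt => x.2.2.2.2) :=
    snd.comp (snd.comp (snd.comp snd))
  have r0 : Primrec (fun x : (List (List ℕ) × List ℕ) × KBt => rvC x.1) := prim_rvC.comp c0
  refine PrimrecPred.or (prim_bad.comp (c0.pair (fst.comp snd))) ?_
  refine PrimrecPred.or ((prim_clsC.comp e0 c0).and (pr_ne e0 (.const 1))) ?_
  refine PrimrecPred.or ((prim_clsC.comp e0 r0).and (pr_ne e0 (.const 1))) ?_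
  refine PrimrecPred.or (PrimrecPred.and (Primrec.nat_le.comp (.const 2) (fst.comp (snd.comp m0)))
    (pr_eq (prim_sqn.comp c0 (fst.comp m0)) (pr_rep (fst.comp (snd.comp m0))
      (snd.comp (snd.comp m0))))) ?_
  exact PrimrecPred.or (prim_tA.comp (c0.pair d0)) (prim_tA.comp (r0.pair d0))

theorem prim_rK : PrimrecPred (fun x : (List (List ℕ) × List ℕ) × ℕ × List ℕ × List ℕ =>
    RK x.1 x.2) := by
  have c0 : Primrec (fun x : (List (List ℕ) × List ℕ) × ℕ × List ℕ × List ℕ => x.1) := fst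
  have p0 : Primrec (fun x : (List (List ℕ) × List ℕ) × ℕ × List ℕ × List ℕ => x.2.1) :=
    fst.comp snd
  have j0 : Primrec (fun x : (List (List ℕ) × List ℕ) × ℕ × List ℕ × List ℕ => x.2.2.1) :=
    fst.comp (snd.comp snd)
  have k0 : Primrec (fun x : (List (List ℕ) × List ℕ) × ℕ × List ℕ × List ℕ => x.2.2.2) :=
    snd.comp (snd.comp snd)
  have s0 : Primrec (fun x : (List (List ℕ) × List ℕ) × ℕ × List ℕ × List ℕ =>
      sqn x.1 (x.2.1 + 1)) := prim_sqn.comp c0 (succ.comp p0)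
  have hle : PrimrecRel (fun (j : ℕ) (x : (List (List ℕ) × List ℕ) × ℕ × List ℕ × List ℕ) =>
      j ≤ x.2.1) := Primrec.nat_le.comp₂ fst.to₂ (p0.comp snd).to₂
  refine PrimrecPred.and (PrimrecPred.and (pr_all j0 hle) (pr_eq s0 ?_))
    (PrimrecPred.and (pr_all k0 hle) (pr_eq s0 ?_))
  · exact pr_ckf c0 (list_cons.comp p0 j0)
  · exact pr_ckf c0 (list_append.comp k0 (list_cons.comp p0 (.const [])))

end prim

/-- **Total search.** -/
theorem search_total {γ : Type} [Primcodable γ] {W : List (List ℕ) × List ℕ → γ → Prop}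
    {f : γ → ℕ} (hf : Primrec f)
    (hW : PrimrecPred (fun x : (List (List ℕ) × List ℕ) × γ => W x.1 x.2))
    (htot : ∀ c, ∃ g, W c g) :
    ∃ F : List (List ℕ) × List ℕ → ℕ, Computable F ∧ ∀ c, ∃ g, f g = F c ∧ W c g := by
  obtain ⟨hd, h2⟩ := hW
  obtain ⟨b, hb⟩ : ∃ b : (List (List ℕ) × List ℕ) → ℕ → Bool, ∀ c m, b c m =
      (Option.casesOn (Encodable.decode (α := γ) m) false
        (fun g => @decide (W c g) (hd (c, g))) : Bool) := ⟨_, fun _ _ => rfl⟩
  have hp : Primrec₂ b := by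
    have h3 : Primrec (fun x : (List (List ℕ) × List ℕ) × ℕ =>
        (Option.casesOn (Encodable.decode (α := γ) x.2) false
          (fun g => @decide (W x.1 g) (hd (x.1, g))) : Bool)) := by
      refine Primrec.option_casesOn (Primrec.decode.comp Primrec.snd) (Primrec.const false) ?_
      exact (h2.comp (Primrec.pair (Primrec.fst.comp Primrec.fst) Primrec.snd)).to₂
    exact (h3.of_eq fun x => (hb x.1 x.2).symm).to₂
  have h3 : Partrec (fun c : List (List ℕ) × List ℕ =>
      Nat.rfind (fun m => (Part.some (b c m) : Part Bool))) := by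
    refine Partrec.rfind (p := fun c m => (Part.some (b c m) : Part Bool)) ?_
    exact (Computable.partrec hp.to_comp).to₂
  have hdom : ∀ c, (Nat.rfind (fun m => (Part.some (b c m) : Part Bool))).Dom := by
    intro c
    rw [Nat.rfind_dom]
    obtain ⟨g, hg⟩ := htot c
    refine ⟨Encodable.encode g, ?_, fun {m} _ => trivial⟩
    have h4 : b c (Encodable.encode g) = true := by
      rw [hb, Encodable.encodek]
      simpa using hg
    simp [h4]
  obtain ⟨F, hF⟩ : ∃ F : (List (List ℕ) × List ℕ) → ℕ, ∀ c,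
      F c = (Nat.rfind (fun m => (Part.some (b c m) : Part Bool))).get (hdom c) :=
    ⟨_, fun _ => rfl⟩
  have hFc : Computable F := by
    have h4 : F = fun c => (Nat.rfind (fun m => (Part.some (b c m) : Part Bool))).get (hdom c) :=
      funext hF
    rw [h4]
    exact h3.of_eq fun c => (Part.some_get (hdom c)).symm
  have hFb : ∀ c, b c (F c) = true := by
    intro c
    have h5 := Nat.rfind_spec (Part.get_mem (hdom c))
    rw [hF]
    simpa using h5
  refine ⟨fun c => (Option.casesOn (Encodable.decode (α := γ) (F c)) 0 f : ℕ), ?_, ?_⟩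
  · have h5 : Primrec (fun m : ℕ => (Option.casesOn (Encodable.decode (α := γ) m) 0 f : ℕ)) :=
      Primrec.option_casesOn Primrec.decode (Primrec.const 0) (hf.comp Primrec.snd).to₂
    exact h5.to_comp.comp hFc
  · intro c
    have h6 := hFb c
    rw [hb] at h6
    rcases hg : Encodable.decode (α := γ) (F c) with _ | g
    · rw [hg] at h6
      simp at h6
    · rw [hg] at h6
      refine ⟨g, ?_, by simpa using h6⟩
      show f g = (Option.casesOn (Encodable.decode (α := γ) (F c)) 0 f : ℕ)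
      rw [hg]

/-- **A computable bound** for the relations of normal forms. -/
theorem kt_bound : ∃ G : ℕ → ℕ, Computable G ∧ ∀ (n N s : ℕ) (H : Fin n → List (Fin n))
    (b0 : List (Fin n)), Sz s H b0 → CNF H b0 N → NP H b0 → (∃ p, RB H b0 p) →
    ∃ p ≤ G s, RB H b0 p := by
  have h0 : PrimrecPred (fun x : (List (List ℕ) × List ℕ) × (ℕ × List ℕ × List ℕ) × KBt =>
      RK x.1 x.2.1 ∨ TK x.1 x.2.2) :=
    PrimrecPred.or (prim_rK.comp (Primrec.fst.pair (Primrec.fst.comp Primrec.snd)))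
      (prim_tK.comp (Primrec.fst.pair (Primrec.snd.comp Primrec.snd)))
  obtain ⟨F, hF, h1⟩ := search_total (γ := (ℕ × List ℕ × List ℕ) × KBt)
    (W := fun c x => RK c x.1 ∨ TK c x.2) (f := fun x => x.1.1)
    (Primrec.fst.comp Primrec.fst) h0 (by
      intro c
      rcases tK_total c with ⟨y, hy⟩ | ⟨x, hx⟩
      · exact ⟨(y, default), Or.inl hy⟩
      · exact ⟨(default, x), Or.inr hx⟩)
  refine ⟨Gmax F, comp_Gmax hF, ?_⟩
  rintro n N s H b0 hs hc hn ⟨q, hq⟩
  obtain ⟨⟨⟨p, js, ks⟩, x⟩, h2, h3⟩ := h1 (cd H b0)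
  rcases h3 with h3 | h3
  · refine ⟨p, ?_, (rb_cd p).1 ((rK_iff _ p).2 ⟨js, ks, h3⟩)⟩
    have h4 : p = F (cd H b0) := h2
    rw [h4]
    exact le_Gmax (cd_mem_cdl hs)
  · exact absurd h3 (not_tK hc hn hq x)

end D0L
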