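import Pool.Agent.H.MP_374efc_lc.Zt.Kd
import Pool.Agent.H.MP_374efc_lc.Zt.Qz

/-!
# MP_374efc_lc: removal of the bounded letters, with the transfer of relations
-/

set_option autoImplicit false

namespace D0L

/-- Removal of the bounded letters, with the transfer of relations. -/
theorem zrec_tr : ∃ tz : ℕ → ℕ, CM tz ∧ ∀ (α : Type) [Fintype α] (h : α → List α) (w : List α)
    (s : ℕ), Sz s h w → Mix h w → ∃ (β : Type) (_ : Fintype β) (k : β → List β) (v : List β),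
      Sz (tz s) k v ∧ LC k v ∧ (∀ b, k b ≠ []) ∧ (∀ b, Gr k b) ∧ v ≠ [] ∧ Tr s h w k v := by
  obtain ⟨tz, h1, h2⟩ := zrec2
  refine ⟨tz, h1, ?_⟩
  intro α _ h w s hs hm
  obtain ⟨β, iF, k, v, c1, c2, c3, c4, c5, -, c, hc, hk, hw⟩ := h2 α h w s hs hm
  exact ⟨β, iF, k, v, c1, c2, c3, c4, c5, tr_code hc hk hw⟩

/-- Step C: removal of the bounded letters. -/
theorem bdB_mix : ∃ tz : ℕ → ℕ, CM tz ∧ ∀ F : ℕ → ℕ,
    BdB (fun _ _ h w => (∀ a, h a ≠ []) ∧ (∀ a, Gr h a) ∧ w ≠ []) F →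
      BdB (fun _ _ h w => Mix h w) (fun s => F (tz s) + s) := by
  obtain ⟨tz, h1, h2⟩ := zrec_tr
  refine ⟨tz, h1, ?_⟩
  intro F hb α _ h w s hs hq hnp hrb
  change ∃ p ≤ F (tz s) + s, RB h w p
  obtain ⟨β, _, k, v, c1, -, c3, c4, c5, ht⟩ := h2 α h w s hs hq
  obtain ⟨p0, hp0⟩ := hrb
  obtain ⟨p, h7, h8⟩ := hb β k v (tz s) c1 ⟨c3, c4, c5⟩ (ht.np hnp) ⟨p0, ht.rb hp0⟩
  exact ⟨p + s, by omega, ht.rb_up h8⟩

end D0L
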