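import Pool.Agent.H.MP_374efc_lc.Zt.Gp

/-!
# MP_374efc_lc: levels on the rays, abstract form

`Lv S e`: the axioms on levels which are used in Theorem Z and for the certificates.  `F` is the set of words
(level `0`), `V c m` the set of cuts of level at least `m` of the ray `R c`.
-/

set_option autoImplicit false

namespace D0L

namespace Tk

variable {C : Type} [CancelMonoid C]

/-- Levels. -/
structure Lv (S : Tk C) (e : ℕ) where
  /-- words -/
  F : Set C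
  /-- cuts of level at least `m` of the ray `c` -/
  V : ℤ → ℤ → Set C
  /-- the level constant -/
  kap : ℤ
  one_mem : ∀ c m, (1 : C) ∈ V c m
  sub : ∀ c m, V c m ⊆ S.R e c
  mono : ∀ (c : ℤ) {m m' : ℤ}, m ≤ m' → V c m' ⊆ V c m
  diff : ∀ (c m : ℤ) (x d : C), x ∈ V c m → x * d ∈ V c m → S.s (-m) d ∈ F
  fin : ∀ K : ℝ, {x | x ∈ F ∧ S.len x ≤ K}.Finite
  tok : ∀ (c i : ℤ) (q : C), q * S.w i ∈ S.R e c → q ∈ V c (i - kap) ∧ q * S.w i ∈ V c (i - kap)
  dense : ∃ A : ℝ, ∀ (c m : ℤ) (s : ℝ), 0 ≤ s →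
    ∃ x ∈ V c m, s ≤ S.len x ∧ S.len x ≤ s + A * S.lam ^ m
  germ : ∀ (c : ℤ) (x : C), x ∈ S.R e c → ∃ i, x * S.w i ∈ S.R e c
  syn : ∃ A : ℝ, ∀ s : ℝ, 0 ≤ s → ∃ q, q * S.w 0 ∈ S.R e 0 ∧ s ≤ S.len q ∧ S.len q ≤ s + A

/-- The greedy path from `x` on `R c` goes to infinity and its tokens are small compared with the distance. -/
def Live (S : Tk C) (e : ℕ) (c : ℤ) (x : C) : Prop :=
  (∀ m, S.Lg e (S.R e c) (S.gp e (S.R e c) x m)) ∧
  (∀ B : ℝ, ∃ m, B < S.len (S.gp e (S.R e c) x m)) ∧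
  ∀ η : ℝ, 0 < η → ∀ᶠ m in Filter.atTop,
    S.lam ^ (S.G e (S.R e c) (S.gp e (S.R e c) x m)) ≤ η * S.len (S.gp e (S.R e c) x m)

/-- The tokens of the greedy path from `x` on `R 0` are small compared with the distance to the limit `u`. -/
def Thin (S : Tk C) (e : ℕ) (x : C) (u : ℝ) : Prop :=
  (∀ k, S.Lg e (S.R e 0) (S.gp e (S.R e 0) x k)) ∧
  Filter.Tendsto (fun k => S.len (S.gp e (S.R e 0) x k)) Filter.atTop (nhds u) ∧
  ∀ ε : ℝ, 0 < ε → ∀ᶠ k in Filter.atTop,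
    S.lam ^ (S.G e (S.R e 0) (S.gp e (S.R e 0) x k)) ≤ ε * (u - S.len (S.gp e (S.R e 0) x k))

namespace Lv

variable {S : Tk C} {e : ℕ} (L : Lv S e)

/-- Nontrivial words have a least length. -/
theorem delta : ∃ δ : ℝ, 0 < δ ∧ ∀ x ∈ L.F, x ≠ 1 → δ ≤ S.len x := by
  obtain ⟨T, hT⟩ : ∃ T : Finset C, ∀ x, x ∈ T ↔ (x ∈ L.F ∧ S.len x ≤ 1) ∧ x ≠ 1 := by
    have h1 : {x | (x ∈ L.F ∧ S.len x ≤ 1) ∧ x ≠ 1}.Finite := (L.fin 1).subset fun x hx => hx.1
    exact ⟨h1.toFinset, fun x => by simp⟩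
  by_cases hne : T.Nonempty
  · obtain ⟨x0, hx0, hmin⟩ := T.exists_min_image S.len hne
    have h0 := ((hT x0).1 hx0)
    refine ⟨S.len x0, S.len_pos x0 h0.2, ?_⟩
    intro x hx hx1
    by_cases h2 : S.len x ≤ 1
    · exact hmin x ((hT x).2 ⟨⟨hx, h2⟩, hx1⟩)
    · push Not at h2
      exact h0.1.2.trans h2.le
  · refine ⟨1, one_pos, ?_⟩
    intro x hx hx1
    by_contra h2
    push Not at h2
    exact hne ⟨x, (hT x).2 ⟨⟨hx, h2.le⟩, hx1⟩⟩

/-- The start of a token. -/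
theorem start {c i : ℤ} {q : C} (h : q * S.w i ∈ S.R e c) : S.s (L.kap - i) q ∈ L.F := by
  have h1 := L.diff c (i - L.kap) 1 q (L.one_mem _ _) (by rw [one_mul]; exact (L.tok c i q h).1)
  rwa [neg_sub] at h1

/-- The rest of a token after a cut of high level. -/
theorem ins {c i n : ℤ} {q x y : C} (hin : i ≤ n) (hq : q * S.w i ∈ S.R e c)
    (hx : x * S.w n ∈ S.R e c) (hy : x * y = q * S.w i) : S.s (L.kap - i) y ∈ L.F := by
  have h1 := L.mono c (show i - L.kap ≤ n - L.kap by omega) (L.tok c n x hx).1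
  have h2 := (L.tok c i q hq).2
  rw [← hy] at h2
  have h3 := L.diff c (i - L.kap) x y h1 h2
  rwa [neg_sub] at h3

include L in
/-- Tokens at a cut different from the origin are bounded. -/
theorem bdd {c : ℤ} {x : C} (hx : x ≠ 1) : ∃ B : ℤ, ∀ i, x * S.w i ∈ S.R e c → i ≤ B := by
  obtain ⟨δ, hδ, hmin⟩ := L.delta
  obtain ⟨m, hm⟩ := pow_unbounded_of_one_lt (S.len x * S.lam ^ L.kap / δ) S.one_lt
  refine ⟨m, ?_⟩
  intro i hi
  by_contra hcon
  push Not at hcon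
  have h1 := L.start hi
  have h2 : S.s (L.kap - i) x ≠ 1 := fun h => hx (S.s_inj (h.trans (map_one _).symm))
  have h3 := hmin _ h1 h2
  rw [S.len_s, zpow_sub₀ S.lam_pos.ne'] at h3
  have h4 : (S.lam : ℝ) ^ (m : ℤ) ≤ S.lam ^ i := zpow_le_zpow_right₀ S.one_lt.le hcon.le
  rw [zpow_natCast] at h4
  have h5 : 0 < S.lam ^ i := zpow_pos S.lam_pos i
  rw [div_mul_eq_mul_div, le_div_iff₀ h5] at h3
  rw [div_lt_iff₀ hδ] at hm
  have h6 : S.lam ^ m * δ ≤ S.lam ^ i * δ := mul_le_mul_of_nonneg_right h4 hδ.le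
  nlinarith

include L in
/-- Every cut different from the origin has a largest token. -/
theorem lg (he : 0 < e) {c : ℤ} {x : C} (hx : x ∈ S.R e c)
    (hx1 : x ≠ 1) : S.Lg e (S.R e c) x := by
  obtain ⟨B, hB⟩ := L.bdd (c := c) hx1
  obtain ⟨i, hi⟩ := L.germ c x hx
  by_contra hcon
  have h1 : ∀ m : ℕ, x * S.w (i + m * e) ∈ S.R e c := by
    intro m
    induction m with
    | zero => simpa using hi
    | succ m ih =>
      by_contra h2
      exact hcon ⟨_, ih, by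
        rwa [show i + (m : ℤ) * e + e = i + ((m + 1 : ℕ) : ℤ) * e by push_cast; ring]⟩
  have h2 := hB _ (h1 (B - i + 1).toNat)
  have h3 : B - i + 1 ≤ ((B - i + 1).toNat : ℤ) := Int.self_le_toNat _
  have h4 : ((B - i + 1).toNat : ℤ) * 1 ≤ ((B - i + 1).toNat : ℤ) * e :=
    mul_le_mul_of_nonneg_left (by omega) (by omega)
  omega

end Lv

end Tk

end D0L
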