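import Pool.Agent.H.MP_374efc_lc.Zt.Z4

/-!
# MP_374efc_lc: the landing walk and its certificate

`Cov S e is j y`: the first cover of `w e` by the greedy path.  `Cg S e g x`: the tokens `g` in front of the rest `x`
are the largest tokens which divide the rest.  `lw_of_lv`: the landing walk from the first cover ends, or is periodic
up to scaling.
-/

set_option autoImplicit false

namespace D0L

namespace Tk

variable {C : Type} [CancelMonoid C]

/-- The word `g` before the rest `x` takes at every cut the largest token which divides the rest. -/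
def Cg (S : Tk C) (e : ℕ) (g : List ℤ) (x : C) : Prop :=
  ∀ a i b, g = a ++ i :: b → ¬ S.w (i + e) ∣ S.w i * S.pr b * x

/-- **First cover** of `w e` by the greedy path from `w 0`. -/
structure Cov (S : Tk C) (e : ℕ) (is : List ℤ) (j : ℤ) (y : C) : Prop where
  ne : y ≠ 1
  mem : y ∈ S.R e j
  eq : S.w e = S.w 0 * S.pr is * y
  inc : ∀ a i b, is = a ++ i :: b → Inc (S.w 0 * S.pr a * S.w (i + e)) (S.w e)

/-- **Landing certificate**: the landing walk is periodic. -/
structure Lw (S : Tk C) (e : ℕ) (y : C) (g1 g2 : List ℤ) (d : ℤ) (x : C) : Prop where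
  pos : 0 < d
  ne : g2 ≠ []
  eq : y = S.pr g1 * x
  cyc : x = S.pr g2 * S.s (-d) x
  gr1 : S.Cg e g1 x
  gr2 : S.Cg e g2 (S.s (-d) x)

variable {S : Tk C} {e : ℕ}

theorem Cg.nil {x : C} : S.Cg e [] x := by
  intro a i b h
  simp at h

theorem Cg.cons {i : ℤ} {g : List ℤ} {x : C} (h : ¬ S.w (i + e) ∣ S.w i * S.pr g * x)
    (hg : S.Cg e g x) : S.Cg e (i :: g) x := by
  intro a k b hab
  rcases a with _ | ⟨a0, a⟩
  · obtain ⟨rfl, rfl⟩ := List.cons.inj hab
    exact h
  · exact hg a k b (List.cons.inj hab).2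

theorem Cg.append {g g' : List ℤ} {x : C} (h : S.Cg e g (S.pr g' * x)) (h' : S.Cg e g' x) :
    S.Cg e (g ++ g') x := by
  induction g with
  | nil => exact h'
  | cons i g ih =>
    rw [List.cons_append]
    refine Cg.cons ?_ (ih fun a k b hab => h (i :: a) k b (by rw [hab]; rfl))
    have h1 := h [] i g rfl
    rwa [← mul_assoc, mul_assoc (S.w i), ← pr_append] at h1

theorem len_pr_pos {i : ℤ} {g : List ℤ} : 0 < S.len (S.pr (i :: g)) := by
  rw [pr_cons, S.len_mul]
  have h1 := S.len_pos _ (S.w_ne_one i)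
  have h2 := S.len_nonneg (S.pr g)
  linarith

/-- The first cover. -/
theorem exists_cov (hcov : ∃ (is : List ℤ) (j : ℤ) (y : C), S.Grd e is ∧ y ≠ 1 ∧
    y ∈ S.R e j ∧ S.w e = S.w 0 * S.pr is * y) : ∃ is j y, Cov S e is j y := by
  classical
  have hex : ∃ n, ∃ (is : List ℤ) (j : ℤ) (y : C), is.length = n ∧ S.Grd e is ∧ y ≠ 1 ∧
      y ∈ S.R e j ∧ S.w e = S.w 0 * S.pr is * y := by
    obtain ⟨is, j, y, h⟩ := hcov
    exact ⟨is.length, is, j, y, rfl, h⟩
  obtain ⟨is, j, y, hn, h1, h2, h3, h4⟩ := Nat.find_spec hex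
  refine ⟨is, j, y, h2, h3, h4, ?_⟩
  intro a i b hab
  refine ⟨fun h5 => h1 a i b hab (R_down h5 we_mem_R), fun h5 => ?_⟩
  have h6 : S.w e = S.w 0 * S.pr a * (S.pr (i :: b) * y) := by
    rw [h4, hab, pr_append]
    simp only [mul_assoc]
  rw [h6] at h5
  have h7 := mul_dvd_iff.1 h5
  have h8 : a.length < Nat.find hex := by
    rw [← hn, hab, List.length_append, List.length_cons]
    omega
  refine Nat.find_min hex h8 ⟨a, i + e, _, rfl, ?_, ?_, R_down h7 (w_mem_R _), h6⟩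
  · intro a1 i1 a2 h9
    exact h1 a1 i1 (a2 ++ i :: b) (by rw [hab, h9]; simp)
  · intro h9
    have h10 := len_pr_pos (S := S) (i := i) (g := b)
    have h11 := congrArg S.len h9
    rw [S.len_mul, S.len_one] at h11
    have := S.len_nonneg y
    linarith

/-- The largest token which divides an element. -/
theorem exists_top (he : 0 < e) {x : C} (h : ∃ i, S.w i ∣ x) :
    ∃ i, S.w i ∣ x ∧ ¬ S.w (i + e) ∣ x := by
  obtain ⟨i, hi⟩ := h
  by_contra hcon
  have h1 : ∀ m : ℕ, S.w (i + m * e) ∣ x := by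
    intro m
    induction m with
    | zero => simpa using hi
    | succ m ih =>
      by_contra h2
      exact hcon ⟨_, ih, by
        rwa [show i + (m : ℤ) * e + e = i + ((m + 1 : ℕ) : ℤ) * e by push_cast; ring]⟩
  have h0 : 0 < S.lam ^ i * S.len S.w0 := mul_pos (zpow_pos S.lam_pos i) S.len_w0
  obtain ⟨m, hm⟩ := pow_unbounded_of_one_lt (S.len x / (S.lam ^ i * S.len S.w0)) S.one_lt
  have h2 := S.dvd_len (h1 m)
  rw [div_lt_iff₀ h0] at hm
  have h3 : (S.lam : ℝ) ^ m ≤ S.lam ^ (m * e) :=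
    pow_le_pow_right₀ S.one_lt.le (Nat.le_mul_of_pos_right m he)
  have h4 : S.lam ^ (i + (m : ℤ) * e) = S.lam ^ i * S.lam ^ (m * e) := by
    rw [zpow_add₀ S.lam_pos.ne', ← zpow_natCast]
    push_cast
    rfl
  rw [S.len_w, h4] at h2
  have h5 := mul_le_mul_of_nonneg_right h3 h0.le
  linarith

/-- From a cut on the canonical path of a token to the next cut which covers the cap. -/
theorem Cov.walk {is : List ℤ} {j : ℤ} {y : C} (hc : Cov S e is j y) {i : ℤ} (b : List ℤ) :
    ∀ (a : List ℤ) (x : C), is = a ++ b → S.w i * S.s i (S.pr a) * x ∣ S.w (i + e) →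
      ∃ (g : List ℤ) (x' : C) (c' : ℤ), x = S.pr g * x' ∧ x' ∈ S.R e c' ∧ S.Cg e g x' := by
  induction b with
  | nil =>
    intro a x ha hx
    have h1 : S.w (i + e) = S.w i * S.s i (S.pr a) * S.s i y := by
      rw [← S.s_w, hc.eq, ha, List.append_nil, map_mul, map_mul, S.s_w, add_zero]
    rw [h1] at hx
    refine ⟨[], x, j + i, by rw [pr_nil, one_mul], ?_, Cg.nil⟩
    exact R_down (mul_dvd_iff.1 hx) (R_s.2 hc.mem)
  | cons k b ih =>
    intro a x ha hx
    have h1 : S.w (i + e) = S.w i * S.s i (S.pr a) * (S.w (i + k) * S.s i (S.pr b * y)) := by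
      rw [← S.s_w, hc.eq, ha, pr_append, pr_cons]
      simp only [map_mul, S.s_w, add_zero, mul_assoc]
    have hx' := hx
    rw [h1] at hx'
    have h2 := mul_dvd_iff.1 hx'
    rcases S.total x (S.w (i + k)) _ h2 (Dvd.intro _ rfl) with h3 | h3
    · exact ⟨[], x, i + k, by rw [pr_nil, one_mul], R_down h3 (w_mem_R _), Cg.nil⟩
    · obtain ⟨z, rfl⟩ := h3
      obtain ⟨g, x', c', h4, h5, h6⟩ := ih (a ++ [k]) z (by rw [ha]; simp) (by
        rw [pr_append, pr_cons, pr_nil, mul_one, map_mul, S.s_w]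
        rw [← mul_assoc] at hx
        simpa only [mul_assoc] using hx)
      refine ⟨(i + k) :: g, x', c', by rw [pr_cons, h4, mul_assoc], h5, Cg.cons ?_ h6⟩
      intro h7
      rw [mul_assoc, ← h4] at h7
      apply (hc.inc a k b ha).1
      have h8 : S.w i * S.s i (S.pr a) * S.w (i + k + e) ∣ S.w (i + e) :=
        (mul_dvd_iff.2 h7).trans hx
      have h9 : S.w i * S.s i (S.pr a) * S.w (i + k + e) =
          S.s i (S.w 0 * S.pr a * S.w (k + e)) := by
        rw [map_mul, map_mul, S.s_w, S.s_w, add_zero, add_assoc]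
      rw [h9, show S.w (i + e) = S.s i (S.w e) from (S.s_w i e).symm] at h8
      exact S.s_dvd.1 h8

/-- **One round of the landing walk**. -/
theorem Cov.round (hP : S.P e) (hD : S.D e) (he : 0 < e) {is : List ℤ} {j : ℤ} {y : C}
    (hc : Cov S e is j y) {c : ℤ} {x : C} (hx : x ∈ S.R e c) (hi : ∃ i, S.w i ∣ x) :
    ∃ (i : ℤ) (g : List ℤ) (x' : C) (c' : ℤ), x = S.pr (i :: g) * x' ∧ x' ∈ S.R e c' ∧
      S.Cg e (i :: g) x' ∧ S.w i ∣ x ∧ S.len x ≤ S.len (S.w (i + e)) := by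
  obtain ⟨i, h1, h2⟩ := exists_top he hi
  have h3 : x ∣ S.w (i + e) := by
    obtain ⟨m, hm⟩ := hx
    obtain ⟨l, hl⟩ := cls_of_dvd hD (h1.trans hm) (dvd_refl (S.w (c + m * e)))
    have h4 : x ∈ S.R e i := ⟨-l, by
      rw [show i + -l * (e : ℤ) = c + m * e by rw [hl]; ring]
      exact hm⟩
    have h5 : S.w (i + e) ∈ S.R e i := ⟨1, by rw [one_mul]⟩
    rcases hP.R_total h4 h5 with h6 | h6
    · exact h6
    · exact absurd h6 h2
  obtain ⟨z, rfl⟩ := h1
  obtain ⟨g, x', c', h4, h5, h6⟩ := hc.walk (i := i) is [] z rfl (by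
    rw [pr_nil, map_one, mul_one]
    exact h3)
  refine ⟨i, g, x', c', by rw [pr_cons, h4, mul_assoc], h5, Cg.cons ?_ h6, Dvd.intro _ rfl,
    S.dvd_len h3⟩
  rw [mul_assoc, ← h4]
  exact h2

/-- The state of the walk after the tokens `p.1`, the rest is `p.2`. -/
def Lst (S : Tk C) (e : ℕ) (y : C) (p : List ℤ × C) : Prop :=
  y = S.pr p.1 * p.2 ∧ S.Cg e p.1 p.2 ∧ (∃ c, p.2 ∈ S.R e c) ∧ p.2 ≠ 1

/-- One round from the state `p` to the state `q`. -/
def Lrd (S : Tk C) (e : ℕ) (p q : List ℤ × C) (i : ℤ) (g : List ℤ) : Prop :=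
  q.1 = p.1 ++ i :: g ∧ p.2 = S.pr (i :: g) * q.2 ∧ S.w i ∣ p.2 ∧
    S.len p.2 ≤ S.len (S.w (i + e))

/-- **The landing walk**: it ends or is periodic up to scaling. -/
theorem lw_of_lv (L : Lv S e) (hP : S.P e) (hD : S.D e) (he : 0 < e)
    (hcov : ∃ (is : List ℤ) (j : ℤ) (y : C), S.Grd e is ∧ y ≠ 1 ∧
      y ∈ S.R e j ∧ S.w e = S.w 0 * S.pr is * y) :
    ∃ (is : List ℤ) (j : ℤ) (y : C), Cov S e is j y ∧
      ((∃ g, y = S.pr g ∧ S.Cg e g 1) ∨ ∃ g1 g2 d x, Lw S e y g1 g2 d x) := by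
  classical
  obtain ⟨is, j, y, hc⟩ := exists_cov hcov
  refine ⟨is, j, y, hc, ?_⟩
  by_cases hend : ∃ g, y = S.pr g ∧ S.Cg e g 1
  · exact Or.inl hend
  right
  -- tokens divide every rest
  have hgerm : ∀ p : List ℤ × C, Lst S e y p → ∃ i, S.w i ∣ p.2 := by
    intro p hp
    obtain ⟨h1, -, -, h4⟩ := hp
    have h5 : S.w e = S.w 0 * S.pr is * S.pr p.1 * p.2 := by
      rw [hc.eq, h1]
      simp only [mul_assoc]
    have h6 : S.w 0 * S.pr is * S.pr p.1 ∈ S.R e 0 := by
      refine R_down ?_ we_mem_R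
      rw [h5]
      exact Dvd.intro _ rfl
    obtain ⟨i, hi⟩ := L.germ 0 _ h6
    have hlen := S.len_pos _ h4
    have h0 : 0 < S.lam ^ i * S.len S.w0 := mul_pos (zpow_pos S.lam_pos i) S.len_w0
    obtain ⟨m, hm⟩ := pow_unbounded_of_one_lt (S.lam ^ i * S.len S.w0 / S.len p.2) S.one_lt
    have h7 : S.len (S.w (i - m * e)) ≤ S.len p.2 := by
      rw [div_lt_iff₀ hlen] at hm
      have h3 : (S.lam : ℝ) ^ m ≤ S.lam ^ (m * e) :=
        pow_le_pow_right₀ S.one_lt.le (Nat.le_mul_of_pos_right m he)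
      have h8 : S.lam ^ (i - (m : ℤ) * e) * S.lam ^ (m * e) = S.lam ^ i := by
        rw [← zpow_natCast, ← zpow_add₀ S.lam_pos.ne']
        congr 1
        push_cast
        ring
      have h9 : 0 < S.lam ^ (m * e) := pow_pos S.lam_pos _
      rw [S.len_w]
      have h10 : S.lam ^ (m * e) * (S.lam ^ (i - (m : ℤ) * e) * S.len S.w0) ≤
          S.lam ^ (m * e) * S.len p.2 := by
        have h11 : S.lam ^ (m * e) * (S.lam ^ (i - (m : ℤ) * e) * S.len S.w0) =
            S.lam ^ i * S.len S.w0 := by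
          rw [← h8]
          ring
        rw [h11]
        have h12 := mul_le_mul_of_nonneg_right h3 hlen.le
        linarith
      exact le_of_mul_le_mul_left h10 h9
    have h8 : S.w 0 * S.pr is * S.pr p.1 * S.w (i - m * e) ∈ S.R e 0 := by
      refine R_down (mul_dvd_mul_left _ ?_) hi
      have h9 := hP.mul (i - m * e) m
      rwa [sub_add_cancel] at h9
    have h9 : S.w 0 * S.pr is * S.pr p.1 * S.w (i - m * e) ∣ S.w e := by
      refine hP.R_le h8 we_mem_R ?_
      rw [h5, S.len_mul, S.len_mul _ p.2]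
      linarith
    rw [h5] at h9
    exact ⟨_, mul_dvd_iff.1 h9⟩
  -- one round
  have hstep : ∀ p : List ℤ × C, Lst S e y p → ∃ (q : List ℤ × C) (i : ℤ) (g : List ℤ),
      Lst S e y q ∧ Lrd S e p q i g ∧ S.Cg e (i :: g) q.2 := by
    intro p hp
    obtain ⟨i, g, x', c', h1, h2, h3, h4, h5⟩ := hc.round hP hD he hp.2.2.1.choose_spec
      (hgerm p hp)
    have h6 : S.Cg e (p.1 ++ i :: g) x' := Cg.append (by rw [← h1]; exact hp.2.1) h3
    have h7 : y = S.pr (p.1 ++ i :: g) * x' := by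
      rw [pr_append, mul_assoc, ← h1]
      exact hp.1
    refine ⟨(p.1 ++ i :: g, x'), i, g, ⟨h7, h6, ⟨c', h2⟩, ?_⟩, ⟨rfl, h1, h4, h5⟩, h3⟩
    rintro h8
    simp only at h8
    rw [h8] at h6 h7
    exact hend ⟨_, by rw [h7, mul_one], h6⟩
  choose! nx ix gx hnx hrd hcg using hstep
  obtain ⟨st, hst0, hsts⟩ : ∃ st : ℕ → List ℤ × C, st 0 = ([], y) ∧
      ∀ m, st (m + 1) = nx (st m) :=
    ⟨fun m => Nat.rec ([], y) (fun _ p => nx p) m, rfl, fun _ => rfl⟩
  have hst : ∀ m, Lst S e y (st m) := by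
    intro m
    induction m with
    | zero =>
      rw [hst0]
      exact ⟨by rw [pr_nil, one_mul], Cg.nil, ⟨j, hc.mem⟩, hc.ne⟩
    | succ m ih =>
      rw [hsts]
      exact hnx _ ih
  have hrdm : ∀ m, Lrd S e (st m) (st (m + 1)) (ix (st m)) (gx (st m)) := fun m => by
    rw [hsts]
    exact hrd _ (hst m)
  -- segments of the walk
  have hseg : ∀ m d, ∃ g, (st m).2 = S.pr g * (st (m + (d + 1))).2 ∧ g ≠ [] ∧
      S.Cg e g (st (m + (d + 1))).2 := by
    intro m d
    induction d with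
    | zero =>
      refine ⟨ix (st m) :: gx (st m), (hrdm m).2.1, List.cons_ne_nil _ _, ?_⟩
      rw [zero_add, hsts]
      exact hcg _ (hst m)
    | succ d ih =>
      obtain ⟨g, h1, h2, h3⟩ := ih
      have h4 := (hrdm (m + (d + 1))).2.1
      have h5 : S.Cg e (ix (st (m + (d + 1))) :: gx (st (m + (d + 1))))
          (st (m + (d + 1) + 1)).2 := by
        rw [hsts]
        exact hcg _ (hst _)
      refine ⟨g ++ ix (st (m + (d + 1))) :: gx (st (m + (d + 1))), ?_, by simp, ?_⟩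
      · rw [pr_append, mul_assoc, h1, h4]
        rfl
      · refine Cg.append ?_ h5
        rw [h4] at h3
        exact h3
  -- finitely many types
  obtain ⟨T, hT⟩ : ∃ T : Set C, T = {z | S.s L.kap z ∈ L.F ∧ S.len z ≤ S.len (S.w e)} :=
    ⟨_, rfl⟩
  have hTf : T.Finite := by
    rw [hT]
    have h1 := L.fin (S.lam ^ L.kap * S.len (S.w e))
    have h2 := h1.preimage (f := fun z => S.s L.kap z) (fun a _ b _ h => S.s_inj h)
    refine h2.subset ?_
    rintro z ⟨h3, h4⟩
    refine ⟨h3, ?_⟩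
    change S.len (S.s L.kap z) ≤ _
    rw [S.len_s]
    exact mul_le_mul_of_nonneg_left h4 (zpow_pos S.lam_pos _).le
  have hty : ∀ m, S.s (-ix (st m)) (st m).2 ∈ T := by
    intro m
    obtain ⟨-, -, h3, h4⟩ := hrdm m
    obtain ⟨h1, -, -, -⟩ := hst m
    rw [hT]
    have h5 : S.w e = S.w 0 * S.pr is * S.pr (st m).1 * (st m).2 := by
      rw [hc.eq, h1]
      simp only [mul_assoc]
    constructor
    · have h6 : S.w 0 * S.pr is * S.pr (st m).1 * S.w (ix (st m)) ∈ S.R e 0 := by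
        refine R_down ?_ we_mem_R
        rw [h5]
        exact mul_dvd_mul_left _ h3
      have h7 := (L.tok _ _ _ h6).1
      have h8 := (L.tok 0 e 1 (by rw [one_mul]; exact we_mem_R)).2
      rw [one_mul] at h8
      have h9 : ix (st m) ≤ e := by
        have h10 := S.dvd_len h3
        have h11 : S.len (st m).2 ≤ S.len (S.w e) := by
          rw [h5, S.len_mul]
          have := S.len_nonneg (S.w 0 * S.pr is * S.pr (st m).1)
          linarith
        rw [S.len_w] at h10 h11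
        have h12 : S.lam ^ ix (st m) * S.len S.w0 ≤ S.lam ^ (e : ℤ) * S.len S.w0 :=
          h10.trans h11
        have h13 := le_of_mul_le_mul_right h12 S.len_w0
        exact (zpow_le_zpow_iff_right₀ S.one_lt).1 h13
      have h10 := L.mono 0 (show ix (st m) - L.kap ≤ e - L.kap by omega) h8
      rw [h5] at h10
      have h11 := L.diff _ _ _ _ h7 h10
      change S.s L.kap (S.s (-ix (st m)) (st m).2) ∈ L.F
      rw [← S.s_add, show L.kap + -ix (st m) = -(ix (st m) - L.kap) by ring]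
      exact h11
    · rw [S.len_s]
      rw [S.len_w, zpow_add₀ S.lam_pos.ne'] at h4
      have h6 : 0 < S.lam ^ (ix (st m)) := zpow_pos S.lam_pos _
      rw [zpow_neg, inv_mul_le_iff₀ h6, S.len_w]
      linarith
  -- two states of the same type
  obtain ⟨m, m', hmm, heq⟩ : ∃ m m' : ℕ, m < m' ∧
      S.s (-ix (st m)) (st m).2 = S.s (-ix (st m')) (st m').2 := by
    have := hTf.to_subtype
    obtain ⟨a, b, hab, h⟩ := Finite.exists_ne_map_eq_of_infinite
      (fun m : ℕ => (⟨S.s (-ix (st m)) (st m).2, hty m⟩ : T))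
    have h' := congrArg Subtype.val h
    simp only at h'
    rcases lt_or_gt_of_ne hab with h1 | h1
    · exact ⟨a, b, h1, h'⟩
    · exact ⟨b, a, h1, h'.symm⟩
  obtain ⟨d, rfl⟩ : ∃ d, m' = m + (d + 1) := ⟨m' - m - 1, by omega⟩
  obtain ⟨g, h1, h2, h3⟩ := hseg m d
  obtain ⟨dd, hdd⟩ : ∃ dd : ℤ, dd = ix (st m) - ix (st (m + (d + 1))) := ⟨_, rfl⟩
  have hx' : (st (m + (d + 1))).2 = S.s (-dd) (st m).2 := by
    have h4 := congrArg (S.s (ix (st (m + (d + 1))))) heq
    rw [S.s_neg', ← S.s_add] at h4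
    rw [← h4, hdd]
    congr 2
    ring
  have hlt : S.len (st (m + (d + 1))).2 < S.len (st m).2 := by
    obtain ⟨i0, g0, rfl⟩ := List.exists_cons_of_ne_nil h2
    have h4 := len_pr_pos (S := S) (i := i0) (g := g0)
    rw [h1, S.len_mul]
    linarith
  have hpos : 0 < dd := by
    rw [hx', S.len_s] at hlt
    by_contra hcon
    push Not at hcon
    have h4 : (1 : ℝ) ≤ S.lam ^ (-dd) := one_le_zpow₀ S.one_lt.le (by omega)
    have h5 := mul_le_mul_of_nonneg_right h4 (S.len_nonneg (st m).2)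
    linarith
  exact ⟨(st m).1, g, dd, (st m).2, hpos, h2, (hst m).1, by rw [← hx']; exact h1,
    (hst m).2.1, by rw [← hx']; exact h3⟩

end Tk

end D0L
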