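import Pool.Agent.H.MP_374efc_lc.Zt.Ck
import Pool.Agent.H.MP_374efc_lc.Zt.Lw

/-!
# MP_374efc_lc: landing certificates in words

`LwN`: the first cover (`Tk.Cov`) and the landing certificate (`Tk.Lw`) with words of one level; positive tests at
level `L`, negative tests at level `L + kap`, `kap` the constant of the level lemma (`Hlev`).  `LwN.sound` needs the
level lemma, `lwN_of_lw` does not.
-/

set_option autoImplicit false

namespace D0L

open Bim

/-- The tests of the tokens `g` before the rest `x`. -/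
def CgN {α : Type} (H : α → List α) (b0 : List α) (kap e : ℕ) (g : List ℕ) (x : List α) : Prop :=
  ∀ k < g.length, ¬ it H kap (it H (g.getD k 0 + e) b0) <+:
    it H kap (it H (g.getD k 0) b0 ++ (ckf H b0 (g.drop (k + 1)) ++ x))

/-- Landing certificate in words. -/
structure LwN {α : Type} (H : α → List α) (b0 : List α) (kap e L : ℕ) (is : List ℕ) (j : ℕ)
    (y : List α) (g1 g2 : List ℕ) (D : ℕ) (x : List α) : Prop where
  yne : y ≠ []
  mem : y <+: it H j b0
  eq : it H L b0 ++ (ckf H b0 is ++ y) = it H (L + e) b0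
  inc : ∀ k < is.length, NoPre
    (it H kap (it H L b0 ++ (ckf H b0 (is.take k) ++ it H (is.getD k 0 + e) b0)))
    (it H kap (it H (L + e) b0))
  pos : 0 < D
  ne : g2 ≠ []
  yeq : y = ckf H b0 g1 ++ it H D x
  cyc : it H D x = ckf H b0 g2 ++ x
  gr1 : CgN H b0 kap e g1 (it H D x)
  gr2 : CgN H b0 kap e g2 x

theorem ckf_append {α : Type} (H : α → List α) (b0 : List α) (u v : List ℕ) :
    ckf H b0 (u ++ v) = ckf H b0 u ++ ckf H b0 v := by
  rw [ckf, List.map_append, List.flatten_append, ckf, ckf]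

theorem ckf_cons {α : Type} (H : α → List α) (b0 : List α) (a : ℕ) (v : List ℕ) :
    ckf H b0 (a :: v) = it H a b0 ++ ckf H b0 v := by
  rw [ckf, List.map_cons, List.flatten_cons, ckf]

section

variable {n : ℕ} {H : Fin n → List (Fin n)} {b0 : List (Fin n)} {lam : ℝ} {l : Fin n → ℝ}

theorem tkN_w0 [HInj H] (hw : PW H b0 lam l) (L : ℕ) :
    (tkN hw).w 0 = Col.mk H L (it H L b0) := by
  have := tkN_w hw L L
  rwa [sub_self] at this

theorem tkN_we [HInj H] (hw : PW H b0 lam l) (L e : ℕ) :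
    (tkN hw).w e = Col.mk H L (it H (L + e) b0) := by
  have := tkN_w hw L (L + e)
  rwa [show (((L + e : ℕ) : ℤ) - L) = (e : ℤ) by push_cast; ring] at this

theorem tkN_wa [HInj H] (hw : PW H b0 lam l) (L e a : ℕ) :
    (tkN hw).w ((a : ℤ) - L + e) = Col.mk H L (it H (a + e) b0) := by
  have := tkN_w hw L (a + e)
  rwa [show (((a + e : ℕ) : ℤ) - L) = (a : ℤ) - L + e by push_cast; ring] at this

/-- A token inside a token has a smaller index. -/
theorem tok_le (hw : PW H b0 lam l) {d m M : ℕ} {q : List (Fin n)}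
    (h : it H d (q ++ it H m b0) <+: it H d (it H M b0)) : m ≤ M := by
  obtain ⟨z, hz⟩ := h
  have h1 := congrArg (lw l) hz
  rw [lw_append, hw.lw_it, hw.lw_it, lw_append, hw.lw_it, hw.lw_it, hw.ax, mul_one, mul_one] at h1
  have h2 := lw_nonneg hw.pos z
  have h3 := lw_nonneg hw.pos q
  have h4 := pow_pos hw.lam_pos d
  have h5 : lam ^ m ≤ lam ^ M := by
    have h6 : lam ^ d * lam ^ m ≤ lam ^ d * lam ^ M := by nlinarith
    exact le_of_mul_le_mul_left h6 h4
  exact (pow_le_pow_iff_right₀ hw.one_lt).1 h5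

/-- A legal word which divides a token in the colimit divides it at level `kap`. -/
theorem leg_dvd [HInj H] (hne : ∀ a, H a ≠ []) {kap : ℕ} (hlev : Hlev H kap)
    (hleg : Legal H b0) {L m : ℕ} {p y : List (Fin n)} (hy : Legal H y)
    (h1 : ¬ it H kap (p ++ y) <+: it H kap (p ++ it H m b0)) :
    ¬ Col.mk H L (p ++ y) ∣ Col.mk H L (p ++ it H m b0) := by
  intro h2
  obtain ⟨d, hd⟩ := Col.mk_dvd.1 h2
  apply h1
  rw [it_append, it_append] at hd ⊢
  rw [List.prefix_append_right_inj] at hd ⊢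
  by_cases hy0 : y = []
  · rw [hy0, it_nil]
    exact List.nil_prefix
  · exact hlev.leg hne hleg hy hy0 hd

/-- The tests of the greedy tokens are sound. -/
theorem CgN.sound [HInj H] (hw : PW H b0 lam l) {kap e L M : ℕ}
    (hlev : Hlev H kap) (hleg : Legal H b0) (hb : b0 ≠ []) {g : List ℕ} {q x : List (Fin n)}
    (hq : q ++ (ckf H b0 g ++ x) = it H M b0) (h : CgN H b0 kap e g x) :
    (tkN hw).Cg e (g.map fun j : ℕ => (j : ℤ) - L) (Col.mk H L x) := by
  intro is1 i is2 his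
  obtain ⟨l1, l2, rfl, rfl, hl2⟩ := List.map_eq_append_iff.1 his
  obtain ⟨a, l3, rfl, rfl, rfl⟩ := List.map_eq_cons_iff.1 hl2
  have h0 : (l1 ++ a :: l3).drop (l1.length + 1) = l3 := by
    rw [← List.drop_drop, List.drop_left, List.drop_one, List.tail_cons]
  have h1 := h l1.length (by simp)
  rw [List.getD_append_right _ _ _ _ le_rfl, Nat.sub_self, List.getD_cons_zero, h0] at h1
  rw [mk_ckf, tkN_wa, tkN_w hw L a, mul_assoc, Col.mk_mul_mk, Col.mk_mul_mk]
  intro h2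
  obtain ⟨d, hd⟩ := Col.mk_dvd.1 h2
  apply h1
  have hq' : (q ++ ckf H b0 l1) ++ (it H a b0 ++ (ckf H b0 l3 ++ x)) = it H M b0 := by
    rw [← hq, ckf_append, ckf_cons]
    simp only [List.append_assoc]
  have h3 : it H d ((q ++ ckf H b0 l1) ++ it H (a + e) b0) <+: it H d (it H M b0) := by
    rw [← hq', it_append, it_append H d (q ++ ckf H b0 l1), List.prefix_append_right_inj]
    exact hd
  have h4 := hlev.tok hleg hb (tok_le hw h3) h3
  rwa [← hq', it_append, it_append H kap (q ++ ckf H b0 l1), List.prefix_append_right_inj] at h4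

/-- **Soundness of the word form.** -/
theorem LwN.sound [HInj H] (hw : PW H b0 lam l) (hne : ∀ a, H a ≠ []) {kap e L D j : ℕ}
    (hlev : Hlev H kap) (hleg : Legal H b0) (hb : b0 ≠ []) {is g1 g2 : List ℕ}
    {y x : List (Fin n)} (h : LwN H b0 kap e L is j y g1 g2 D x) :
    (tkN hw).Cov e (is.map fun j : ℕ => (j : ℤ) - L) ((j : ℤ) - L) (Col.mk H L y) ∧
      (tkN hw).Lw e (Col.mk H L y) (g1.map fun j : ℕ => (j : ℤ) - L)
        (g2.map fun j : ℕ => (j : ℤ) - L) D (Col.mk H L (it H D x)) := by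
  have hsx : (tkN hw).s (-(D : ℤ)) (Col.mk H L (it H D x)) = Col.mk H L x := by
    rw [tkN_s, Col.sft_neg_mk, Nat.add_comm, Col.mk_lift]
  have hlegM : ∀ m, Legal H (it H m b0) := fun m => legal_it' hleg m
  have heq1 : (it H L b0 ++ ckf H b0 is) ++ (ckf H b0 g1 ++ it H D x) = it H (L + e) b0 := by
    rw [← h.eq, h.yeq, List.append_assoc]
  have heq2 : (it H L b0 ++ (ckf H b0 is ++ ckf H b0 g1)) ++ (ckf H b0 g2 ++ x) =
      it H (L + e) b0 := by
    rw [← h.eq, h.yeq, h.cyc]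
    simp only [List.append_assoc]
  refine ⟨⟨?_, ?_, ?_, ?_⟩, ⟨?_, ?_, ?_, ?_, ?_, ?_⟩⟩
  · intro h1
    exact h.yne (Col.mk_eq_one.1 h1)
  · refine ⟨0, ?_⟩
    rw [zero_mul, add_zero, tkN_w hw L j]
    exact Col.mk_dvd.2 ⟨0, h.mem⟩
  · rw [tkN_w0 hw L, tkN_we hw L e, mk_ckf, Col.mk_mul_mk, Col.mk_mul_mk, ← h.eq,
      List.append_assoc]
  · intro is1 i is2 his
    obtain ⟨l1, l2, rfl, rfl, hl2⟩ := List.map_eq_append_iff.1 his
    obtain ⟨a, l3, rfl, rfl, rfl⟩ := List.map_eq_cons_iff.1 hl2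
    have h1 := h.inc l1.length (by simp)
    rw [List.take_left, List.getD_append_right _ _ _ _ le_rfl, Nat.sub_self,
      List.getD_cons_zero, ← List.append_assoc] at h1
    obtain ⟨z, hz⟩ : it H L b0 ++ ckf H b0 l1 <+: it H (L + e) b0 := by
      refine ⟨(it H a b0 ++ ckf H b0 l3) ++ y, ?_⟩
      rw [← h.eq, ckf_append, ckf_cons]
      simp only [List.append_assoc]
    rw [tkN_w0 hw L, tkN_we hw L e, mk_ckf, tkN_wa, Col.mk_mul_mk, Col.mk_mul_mk]
    constructor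
    · intro h2
      obtain ⟨d, hd⟩ := Col.mk_dvd.1 h2
      exact h1.1 (hlev.tok hleg hb (tok_le hw hd) hd)
    · rw [← hz]
      refine leg_dvd hne hlev hleg
        (legal_infix' (hlegM (L + e)) ⟨it H L b0 ++ ckf H b0 l1, [], ?_⟩) ?_
      · rw [List.append_nil, hz]
      · rw [hz]
        exact h1.2
  · exact_mod_cast h.pos
  · intro h1
    exact h.ne (List.map_eq_nil_iff.1 h1)
  · rw [mk_ckf, Col.mk_mul_mk, ← h.yeq]
  · rw [hsx, mk_ckf, Col.mk_mul_mk, ← h.cyc]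
  · exact CgN.sound hw hlev hleg hb heq1 h.gr1
  · rw [hsx]
    exact CgN.sound hw hlev hleg hb heq2 h.gr2

/-- Large levels for integer indices. -/
theorem exists_level (K : ℕ) (js : List ℤ) : ∃ L : ℕ, K ≤ L ∧ ∀ i ∈ js, 0 ≤ L + i := by
  obtain ⟨Q, hQ⟩ : ∃ Q, Q = (js.map Int.natAbs).sum := ⟨_, rfl⟩
  refine ⟨K + Q, by omega, fun i hi => ?_⟩
  have h1 : i.natAbs ≤ Q := by
    rw [hQ]
    exact List.single_le_sum (fun _ _ => Nat.zero_le _) _ (List.mem_map.2 ⟨i, hi, rfl⟩)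
  omega

/-- The tests of the greedy tokens in words. -/
theorem cgN_of_cg [HInj H] (hw : PW H b0 lam l) {e L : ℕ} {g : List ℤ} {x : List (Fin n)}
    (hg : ∀ i ∈ g, 0 ≤ (L : ℤ) + i) (h : (tkN hw).Cg e g (Col.mk H L x)) (kap : ℕ) :
    CgN H b0 kap e (g.map fun i : ℤ => ((L : ℤ) + i).toNat) x := by
  intro k hk
  rw [List.length_map] at hk
  have h1 := h _ _ _ (show g = g.take k ++ g[k] :: g.drop (k + 1) by
    rw [List.cons_getElem_drop_succ, List.take_append_drop])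
  have h2 := hg _ (List.getElem_mem hk)
  have h3 : (tkN hw).w (g[k] + e) = Col.mk H L (it H (((L : ℤ) + g[k]).toNat + e) b0) := by
    rw [tkN_w' hw (L := L) (by omega)]
    congr 2
    omega
  rw [h3, tkN_w' hw h2, tok_at hw L (fun i hi => hg i (List.mem_of_mem_drop hi)), mul_assoc,
    Col.mk_mul_mk, Col.mk_mul_mk] at h1
  rw [List.getD_eq_getElem _ _ (by simpa using hk), List.getElem_map, ← List.map_drop]
  exact fun h4 => h1 (Col.mk_dvd.2 ⟨kap, h4⟩)

/-- **The word form exists.** -/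
theorem lwN_of_lw [HInj H] (hw : PW H b0 lam l) {e : ℕ} {is g1 g2 : List ℤ} {j d : ℤ} {x y : Col H}
    (hc : (tkN hw).Cov e is j y) (hl : (tkN hw).Lw e y g1 g2 d x) (kap : ℕ) :
    ∃ (L : ℕ) (is' : List ℕ) (j' : ℕ) (y' : List (Fin n)) (g1' g2' : List ℕ) (D : ℕ)
      (x' : List (Fin n)), LwN H b0 kap e L is' j' y' g1' g2' D x' := by
  obtain ⟨D, rfl⟩ : ∃ D : ℕ, d = D := ⟨d.toNat, (Int.toNat_of_nonneg hl.pos.le).symm⟩
  obtain ⟨K, hK⟩ := Col.rep_ge ((tkN hw).s (-(D : ℤ)) x)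
  obtain ⟨m, hm⟩ := hc.mem
  obtain ⟨L0, hKL, hL0⟩ := exists_level K ((j + m * e) :: (is ++ (g1 ++ g2)))
  -- the word of `y` at the level `L`
  have key : ∀ L, L0 ≤ L → ∃ u, (tkN hw).s (-(D : ℤ)) x = Col.mk H L u ∧
      x = Col.mk H L (it H D u) ∧
      y = Col.mk H L (ckf H b0 (g1.map fun i : ℤ => ((L : ℤ) + i).toNat) ++ it H D u) := by
    intro L hL
    obtain ⟨u, hu⟩ := hK L (by omega)
    have hx : x = Col.mk H L (it H D u) := by
      have h1 := congrArg ((tkN hw).s (D : ℤ)) hu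
      rw [Tk.s_neg'] at h1
      rw [h1, tkN_s, Col.sft_nat_mk]
    refine ⟨u, hu, hx, ?_⟩
    rw [hl.eq, tok_at hw L (fun i hi => by have := hL0 i (by simp [hi]); omega)]
    conv_lhs => rw [hx]
    rw [Col.mk_mul_mk]
  obtain ⟨u0, -, -, hy0⟩ := key L0 le_rfl
  have hj0 := hL0 (j + m * e) (by simp)
  have h1 := hm
  rw [hy0, tkN_w' hw hj0] at h1
  obtain ⟨d1, hd1⟩ := Col.mk_dvd.1 h1
  obtain ⟨u, hu, hx, hy⟩ := key (d1 + L0) (by omega)
  obtain ⟨L, hL⟩ : ∃ L, L = d1 + L0 := ⟨_, rfl⟩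
  rw [← hL] at hu hx hy
  have hpos : ∀ i ∈ (j + m * e) :: (is ++ (g1 ++ g2)), 0 ≤ (L : ℤ) + i := fun i hi => by
    have := hL0 i hi
    omega
  obtain ⟨y', hy'⟩ : ∃ y', y' =
    ckf H b0 (g1.map fun i : ℤ => ((L : ℤ) + i).toNat) ++ it H D u := ⟨_, rfl⟩
  rw [← hy'] at hy
  have hyy : y' = it H d1
      (ckf H b0 (g1.map fun i : ℤ => ((L0 : ℤ) + i).toNat) ++ it H D u0) := by
    apply Col.mk_inj (H := H) (k := L)
    rw [← hy, hL, Col.mk_lift, ← hy0]
  have hps : ∀ i ∈ is, 0 ≤ (L : ℤ) + i := fun i hi => hpos i (by simp [hi])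
  have hp1 : ∀ i ∈ g1, 0 ≤ (L : ℤ) + i := fun i hi => hpos i (by simp [hi])
  have hp2 : ∀ i ∈ g2, 0 ≤ (L : ℤ) + i := fun i hi => hpos i (by simp [hi])
  refine ⟨L, is.map fun i : ℤ => ((L : ℤ) + i).toNat, ((L : ℤ) + (j + m * e)).toNat, y',
    g1.map fun i : ℤ => ((L : ℤ) + i).toNat, g2.map fun i : ℤ => ((L : ℤ) + i).toNat, D, u,
    ?_, ?_, ?_, ?_, ?_, ?_, hy', ?_, ?_, ?_⟩
  · intro h2
    rw [h2, Col.mk_nil] at hy
    exact hc.ne hy
  · rw [hyy, show ((L : ℤ) + (j + m * e)).toNat = d1 + ((L0 : ℤ) + (j + m * e)).toNat by omega,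
      it_add]
    exact hd1
  · have h2 := hc.eq
    rw [tkN_w0 hw L, tkN_we hw L e, tok_at hw L hps, hy, mul_assoc, Col.mk_mul_mk,
      Col.mk_mul_mk] at h2
    exact (Col.mk_inj h2).symm
  · intro k hk
    rw [List.length_map] at hk
    have h3 := hc.inc _ _ _ (show is = is.take k ++ is[k] :: is.drop (k + 1) by
      rw [List.cons_getElem_drop_succ, List.take_append_drop])
    have h5 := hps _ (List.getElem_mem hk)
    have h6 : (tkN hw).w (is[k] + e) = Col.mk H L (it H (((L : ℤ) + is[k]).toNat + e) b0) := by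
      rw [tkN_w' hw (L := L) (by omega)]
      congr 2
      omega
    rw [tkN_w0 hw L, tkN_we hw L e, tok_at hw L (fun i hi => hps i (List.mem_of_mem_take hi)),
      h6, mul_assoc, Col.mk_mul_mk, Col.mk_mul_mk] at h3
    rw [List.getD_eq_getElem _ _ (by simpa using hk), List.getElem_map, ← List.map_take]
    exact ⟨fun h7 => h3.1 (Col.mk_dvd.2 ⟨kap, h7⟩), fun h7 => h3.2 (Col.mk_dvd.2 ⟨kap, h7⟩)⟩
  · exact_mod_cast hl.pos
  · intro h2
    exact hl.ne (List.map_eq_nil_iff.1 h2)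
  · have h2 := hl.cyc
    rw [hu, tok_at hw L hp2, Col.mk_mul_mk] at h2
    rw [hx] at h2
    exact Col.mk_inj h2
  · refine cgN_of_cg hw hp1 ?_ kap
    rw [← hx]
    exact hl.gr1
  · refine cgN_of_cg hw hp2 ?_ kap
    rw [← hu]
    exact hl.gr2

/-- If `w e` is a product of tokens which starts with `w 0`, the system is locally catenative. -/
theorem lc_of_tok [HInj H] (hw : PW H b0 lam l) {e : ℕ} (he : 0 < e) {is : List ℤ}
    (h : (tkN hw).w e = (tkN hw).w 0 * (tkN hw).pr is) : LC H b0 := by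
  have hlt : ∀ i ∈ is, i < e := by
    intro i hi
    obtain ⟨l1, l2, rfl⟩ := List.append_of_mem hi
    have h1 := congrArg (tkN hw).len h
    rw [Tk.pr_append, Tk.pr_cons, (tkN hw).len_mul, (tkN hw).len_mul, (tkN hw).len_mul,
      Tk.len_w, Tk.len_w, Tk.len_w, zpow_zero, one_mul] at h1
    have h2 := (tkN hw).len_nonneg ((tkN hw).pr l1)
    have h3 := (tkN hw).len_nonneg ((tkN hw).pr l2)
    have h4 := (tkN hw).len_w0
    have h5 : (tkN hw).lam ^ i * (tkN hw).len (tkN hw).w0 <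
        (tkN hw).lam ^ (e : ℤ) * (tkN hw).len (tkN hw).w0 := by linarith
    exact (zpow_lt_zpow_iff_right₀ (tkN hw).one_lt).1 (lt_of_mul_lt_mul_right h5 h4.le)
  obtain ⟨L, -, hL⟩ := exists_level 0 is
  rw [tkN_w0 hw L, tkN_we hw L e, tok_at hw L hL, Col.mk_mul_mk] at h
  refine ⟨L + e, L :: is.map fun i : ℤ => ((L : ℤ) + i).toNat, List.cons_ne_nil _ _, ?_, ?_⟩
  · intro j hj
    rcases List.mem_cons.1 hj with rfl | hj
    · omega
    · obtain ⟨i, hi, rfl⟩ := List.mem_map.1 hj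
      have h1 := hlt i hi
      have h2 := hL i hi
      omega
  · rw [Col.mk_inj h, ckf]
    rfl

end

end D0L
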