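import Pool.Agent.H.MP_374efc_lc.Zt.Re1

/-!
# MP_374efc_lc, Theorem Z: bad codes

Certificates, with a primitive recursive check, for: the code is not well formed, a closed proper set of
letters, a singular matrix, a periodic image, a letter which is not a first (last) letter.
-/

set_option autoImplicit false

namespace D0L

section tools

open Primrec

variable {β γ : Type} [Primcodable β] [Primcodable γ]

theorem pr_all {f : β → List γ} {R : γ → β → Prop} (hf : Primrec f) (hR : PrimrecRel R) :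
    PrimrecPred (fun b => ∀ a ∈ f b, R a b) :=
  (hR.forall_mem_list).comp hf .id

theorem pr_ex {f : β → List γ} {R : γ → β → Prop} (hf : Primrec f) (hR : PrimrecRel R) :
    PrimrecPred (fun b => ∃ a ∈ f b, R a b) :=
  (hR.exists_mem_list).comp hf .id

theorem pr_all_lt {f : β → ℕ} {R : ℕ → β → Prop} (hf : Primrec f) (hR : PrimrecRel R) :
    PrimrecPred (fun b => ∀ a < f b, R a b) :=
  (pr_all (list_range.comp hf) hR).of_eq fun b => by simp

theorem pr_ex_lt {f : β → ℕ} {R : ℕ → β → Prop} (hf : Primrec f) (hR : PrimrecRel R) :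
    PrimrecPred (fun b => ∃ a < f b, R a b) :=
  (pr_ex (list_range.comp hf) hR).of_eq fun b => by simp

theorem pr_eq {σ : Type} [Primcodable σ] {f g : β → σ} (hf : Primrec f) (hg : Primrec g) :
    PrimrecPred (fun b => f b = g b) := Primrec.eq.comp hf hg

theorem pr_ne {σ : Type} [Primcodable σ] {f g : β → σ} (hf : Primrec f) (hg : Primrec g) :
    PrimrecPred (fun b => f b ≠ g b) := (pr_eq hf hg).not

theorem pr_lt {f g : β → ℕ} (hf : Primrec f) (hg : Primrec g) :
    PrimrecPred (fun b => f b < g b) := Primrec.nat_lt.comp hf hg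

theorem pr_mem {f : β → γ} {g : β → List γ} (hf : Primrec f) (hg : Primrec g) :
    PrimrecPred (fun b => f b ∈ g b) := by
  have h1 : PrimrecRel (fun (a : γ) (b : β) => a = f b) := Primrec.eq.comp₂ fst.to₂ (hf.comp snd).to₂
  refine (pr_ex hg h1).of_eq fun b => ?_
  simp

theorem pr_count {f : β → ℕ} {g : β → List ℕ} (hf : Primrec f) (hg : Primrec g) :
    Primrec (fun b => (g b).count (f b)) := by
  have h1 : Primrec (fun b => ((g b).flatMap (fun a => if a = f b then [a] else [])).length) := by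
    refine list_length.comp (list_flatMap hg ?_)
    have h2 : PrimrecPred (fun x : β × ℕ => x.2 = f x.1) := pr_eq snd (hf.comp fst)
    exact (Primrec.ite h2 (list_cons.comp snd (.const [])) (.const [])).to₂
  refine h1.of_eq fun b => ?_
  induction g b with
  | nil => rfl
  | cons a x ih =>
    rw [List.flatMap_cons, List.length_append, ih, List.count_cons]
    by_cases h : a = f b
    · simp [h, Nat.add_comm]
    · simp [h]

theorem pr_it {f : β → List (List ℕ) × List ℕ} {p : β → ℕ} {g : β → List ℕ} (hf : Primrec f)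
    (hp : Primrec p) (hg : Primrec g) : Primrec (fun b => it (hs (f b)) (p b) (g b)) := by
  refine nat_iterate (f := p) (g := g) (h := fun b w => app (hs (f b)) w) hp hg ?_
  exact prim_app.comp₂ (hf.comp fst).to₂ snd.to₂

theorem pr_app {f : β → List (List ℕ) × List ℕ} {g : β → List ℕ} (hf : Primrec f)
    (hg : Primrec g) : Primrec (fun b => app (hs (f b)) (g b)) := prim_app.comp hf hg

theorem pr_rep {f : β → ℕ} {g : β → List ℕ} (hf : Primrec f) (hg : Primrec g) :
    Primrec (fun b => (List.replicate (f b) (g b)).flatten) := by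
  have h1 : Primrec (fun b => ((List.range (f b)).map (fun _ => g b)).flatten) := by
    refine list_flatten.comp (list_map (list_range.comp hf) ?_)
    exact (hg.comp fst).to₂
  refine h1.of_eq fun b => ?_
  congr 1
  rw [List.map_const']
  simp

end tools

/-! ### the conditions -/

/-- Well-formed codes. -/
def WfC (c : List (List ℕ) × List ℕ) : Prop :=
  (∀ w ∈ c.1, ∀ a ∈ w, a < c.1.length) ∧ (∀ a ∈ c.2, a < c.1.length) ∧ [] ∉ c.1 ∧ c.2 ≠ []

/-- A closed proper nonempty set of letters. -/
def BadA (c : List (List ℕ) × List ℕ) (x : List ℕ) : Prop :=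
  x ≠ [] ∧ (∀ a ∈ x, a < c.1.length) ∧ (∀ a ∈ x, ∀ b ∈ hs c a, b ∈ x) ∧
    ∃ j < c.1.length, j ∉ x

/-- A kernel vector of the matrix. -/
def BadD (c : List (List ℕ) × List ℕ) (x y : List ℕ) : Prop :=
  (∀ a ∈ x, a < c.1.length) ∧ (∀ a ∈ y, a < c.1.length) ∧
    (∀ j < c.1.length, (app (hs c) x).count j = (app (hs c) y).count j) ∧
    ∃ j < c.1.length, x.count j ≠ y.count j

/-- A periodic image. -/
def BadP (c : List (List ℕ) × List ℕ) (x : List ℕ) (p s s' : ℕ) : Prop :=
  x ≠ [] ∧ (∀ a ∈ x, a < c.1.length) ∧ 0 < p ∧ 0 < s ∧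
    it (hs c) p (List.replicate s x).flatten = (List.replicate s' x).flatten

/-- Some letter is not the first letter of any of the first words. -/
def BadF (c : List (List ℕ) × List ℕ) : Prop :=
  ∃ j < c.1.length, ∀ i < c.1.length, (sqn c i).head? ≠ some j

/-- Some letter is not the last letter of any of the first words. -/
def BadL (c : List (List ℕ) × List ℕ) : Prop :=
  ∃ j < c.1.length, ∀ i < c.1.length, (sqn c i).reverse.head? ≠ some j

/-- Certificates of bad codes. -/
def Bad (c : List (List ℕ) × List ℕ) (d : List ℕ × List ℕ × ℕ × ℕ × ℕ) : Prop :=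
  ¬ WfC c ∨ BadA c d.1 ∨ BadD c d.1 d.2.1 ∨ BadP c d.1 d.2.2.1 d.2.2.2.1 d.2.2.2.2 ∨ BadF c ∨
    BadL c

section prim

open Primrec

theorem pr_len {β : Type} [Primcodable β] {f : β → List (List ℕ) × List ℕ} (hf : Primrec f) :
    Primrec (fun b => (f b).1.length) := list_length.comp (fst.comp hf)

theorem prim_wfC : PrimrecPred WfC := by
  have h1 : PrimrecPred (fun c : List (List ℕ) × List ℕ => ∀ w ∈ c.1, ∀ a ∈ w, a < c.1.length) := by
    refine pr_all (f := fun c : List (List ℕ) × List ℕ => c.1)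
      (R := fun w c => ∀ a ∈ w, a < c.1.length) fst ?_
    refine pr_all (β := List ℕ × (List (List ℕ) × List ℕ)) (f := fun x => x.1)
      (R := fun a x => a < x.2.1.length) fst ?_
    exact pr_lt fst (pr_len (f := fun x : ℕ × (List ℕ × (List (List ℕ) × List ℕ)) => x.2.2)
      (snd.comp snd))
  have h2 : PrimrecPred (fun c : List (List ℕ) × List ℕ => ∀ a ∈ c.2, a < c.1.length) :=
    pr_all (f := fun c : List (List ℕ) × List ℕ => c.2) (R := fun a c => a < c.1.length) snd
      (pr_lt fst (pr_len (f := fun x : ℕ × (List (List ℕ) × List ℕ) => x.2) snd))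
  have h3 : PrimrecPred (fun c : List (List ℕ) × List ℕ => [] ∉ c.1) :=
    (pr_mem (.const []) fst).not
  have h4 : PrimrecPred (fun c : List (List ℕ) × List ℕ => c.2 ≠ []) := pr_ne snd (.const [])
  exact h1.and (h2.and (h3.and h4))

theorem pr_ltall {β : Type} [Primcodable β] {f : β → List (List ℕ) × List ℕ} {g : β → List ℕ}
    (hf : Primrec f) (hg : Primrec g) : PrimrecPred (fun b => ∀ a ∈ g b, a < (f b).1.length) :=
  pr_all (R := fun a b => a < (f b).1.length) hg (pr_lt fst (pr_len (hf.comp snd)))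

theorem prim_badA : PrimrecRel BadA := by
  have h0 : Primrec (fun x : (List (List ℕ) × List ℕ) × List ℕ => x.1) := fst
  refine (pr_ne snd (.const [])).and ((pr_ltall fst snd).and (PrimrecPred.and ?_ ?_))
  · refine pr_all (R := fun a x => ∀ b ∈ hs x.1 a, b ∈ x.2) snd ?_
    refine pr_all (β := ℕ × ((List (List ℕ) × List ℕ) × List ℕ)) (f := fun y => hs y.2.1 y.1)
      (R := fun b y => b ∈ y.2.2) (prim_hs.comp (fst.comp snd) fst) ?_
    exact pr_mem fst (snd.comp (snd.comp snd))
  · refine pr_ex_lt (f := fun x : (List (List ℕ) × List ℕ) × List ℕ => x.1.1.length)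
      (R := fun j x => j ∉ x.2) (pr_len fst) ?_
    exact (pr_mem fst (snd.comp snd)).not

theorem prim_badD : PrimrecPred (fun x : (List (List ℕ) × List ℕ) × List ℕ × List ℕ =>
    BadD x.1 x.2.1 x.2.2) := by
  have h1 : Primrec (fun x : (List (List ℕ) × List ℕ) × List ℕ × List ℕ => x.2.1) := fst.comp snd
  have h2 : Primrec (fun x : (List (List ℕ) × List ℕ) × List ℕ × List ℕ => x.2.2) := snd.comp snd
  refine (pr_ltall fst h1).and ((pr_ltall fst h2).and (PrimrecPred.and ?_ ?_))
  · refine pr_all_lt (f := fun x : (List (List ℕ) × List ℕ) × List ℕ × List ℕ => x.1.1.length)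
      (R := fun j x => (app (hs x.1) x.2.1).count j = (app (hs x.1) x.2.2).count j)
      (pr_len fst) ?_
    exact pr_eq (pr_count fst (pr_app (fst.comp snd) (h1.comp snd)))
      (pr_count fst (pr_app (fst.comp snd) (h2.comp snd)))
  · refine pr_ex_lt (f := fun x : (List (List ℕ) × List ℕ) × List ℕ × List ℕ => x.1.1.length)
      (R := fun j x => x.2.1.count j ≠ x.2.2.count j) (pr_len fst) ?_
    exact pr_ne (pr_count fst (h1.comp snd)) (pr_count fst (h2.comp snd))

theorem prim_badP : PrimrecPred (fun x : (List (List ℕ) × List ℕ) × List ℕ × ℕ × ℕ × ℕ =>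
    BadP x.1 x.2.1 x.2.2.1 x.2.2.2.1 x.2.2.2.2) := by
  have h1 : Primrec (fun x : (List (List ℕ) × List ℕ) × List ℕ × ℕ × ℕ × ℕ => x.2.1) :=
    fst.comp snd
  have h2 : Primrec (fun x : (List (List ℕ) × List ℕ) × List ℕ × ℕ × ℕ × ℕ => x.2.2.1) :=
    fst.comp (snd.comp snd)
  have h3 : Primrec (fun x : (List (List ℕ) × List ℕ) × List ℕ × ℕ × ℕ × ℕ => x.2.2.2.1) :=
    fst.comp (snd.comp (snd.comp snd))
  have h4 : Primrec (fun x : (List (List ℕ) × List ℕ) × List ℕ × ℕ × ℕ × ℕ => x.2.2.2.2) :=
    snd.comp (snd.comp (snd.comp snd))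
  refine (pr_ne h1 (.const [])).and ((pr_ltall fst h1).and ((pr_lt (.const 0) h2).and
    ((pr_lt (.const 0) h3).and ?_)))
  exact pr_eq (pr_it fst h2 (pr_rep h3 h1)) (pr_rep h4 h1)

theorem prim_badF : PrimrecPred BadF := by
  refine pr_ex_lt (R := fun j c => ∀ i < c.1.length, (sqn c i).head? ≠ some j) (pr_len .id) ?_
  refine pr_all_lt (β := ℕ × (List (List ℕ) × List ℕ)) (f := fun x => x.2.1.length)
    (R := fun i x => (sqn x.2 i).head? ≠ some x.1) (pr_len snd) ?_
  exact pr_ne (list_head?.comp (prim_sqn.comp (snd.comp snd) fst))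
    (option_some.comp (fst.comp snd))

theorem prim_badL : PrimrecPred BadL := by
  refine pr_ex_lt (R := fun j c => ∀ i < c.1.length, (sqn c i).reverse.head? ≠ some j)
    (pr_len .id) ?_
  refine pr_all_lt (β := ℕ × (List (List ℕ) × List ℕ)) (f := fun x => x.2.1.length)
    (R := fun i x => (sqn x.2 i).reverse.head? ≠ some x.1) (pr_len snd) ?_
  exact pr_ne (list_head?.comp (list_reverse.comp (prim_sqn.comp (snd.comp snd) fst)))
    (option_some.comp (fst.comp snd))

/-- The check of bad codes is primitive recursive. -/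
theorem prim_bad : PrimrecPred (fun x : (List (List ℕ) × List ℕ) ×
    (List ℕ × List ℕ × ℕ × ℕ × ℕ) => Bad x.1 x.2) := by
  have h1 : Primrec (fun x : (List (List ℕ) × List ℕ) × (List ℕ × List ℕ × ℕ × ℕ × ℕ) => x.2.1) :=
    fst.comp snd
  have h2 : Primrec (fun x : (List (List ℕ) × List ℕ) × (List ℕ × List ℕ × ℕ × ℕ × ℕ) =>
      x.2.2.1) := fst.comp (snd.comp snd)
  have h3 : Primrec (fun x : (List (List ℕ) × List ℕ) × (List ℕ × List ℕ × ℕ × ℕ × ℕ) =>
      x.2.2.2) := snd.comp (snd.comp snd)
  refine (prim_wfC.comp fst).not.or ((PrimrecRel.comp prim_badA fst h1).or (PrimrecPred.or ?_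
    (PrimrecPred.or ?_ ((prim_badF.comp fst).or (prim_badL.comp fst)))))
  · exact prim_badD.comp (fst.pair (h1.pair h2))
  · exact prim_badP.comp (fst.pair (h1.pair h3))

end prim

end D0L
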