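import Pool.Agent.H.MP_374efc_lc.Zt.LwN
import Pool.Agent.H.MP_374efc_lc.Zt.Cp
import Pool.Agent.H.MP_374efc_lc.Zt.Re2

/-!
# MP_374efc_lc: the landing certificate on codes is primitive recursive
-/

set_option autoImplicit false

namespace D0L

/-- The data of a landing certificate: `e`, `L`, `is`, `j`, `y`, `g1`, `g2`, `D`, `x`. -/
abbrev LW : Type := ℕ × ℕ × List ℕ × ℕ × List ℕ × List ℕ × List ℕ × ℕ × List ℕ

/-- The landing certificate on codes. -/
def LwC (c : List (List ℕ) × List ℕ) (kap : ℕ) (d : LW) : Prop :=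
  LwN (hs c) c.2 kap d.1 d.2.1 d.2.2.1 d.2.2.2.1 d.2.2.2.2.1 d.2.2.2.2.2.1 d.2.2.2.2.2.2.1
    d.2.2.2.2.2.2.2.1 d.2.2.2.2.2.2.2.2

theorem cgN_cd {n : ℕ} {H : Fin n → List (Fin n)} {b0 : List (Fin n)} {kap e : ℕ} {g : List ℕ}
    {x : List (Fin n)} :
    CgN (hs (cd H b0)) (cd H b0).2 kap e g (x.map Fin.val) ↔ CgN H b0 kap e g x := by
  have e1 : ∀ k, it (hs (cd H b0)) k (cd H b0).2 = (it H k b0).map Fin.val := fun k => it_cd k b0
  simp only [CgN, ckf_cd, it_cd, e1, ← List.map_append, map_pre]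

/-- The certificate on the code of a system over `Fin n`. -/
theorem lwC_cd {n : ℕ} {H : Fin n → List (Fin n)} {b0 : List (Fin n)} {kap e L j D : ℕ}
    {is g1 g2 : List ℕ} {y x : List (Fin n)} :
    LwC (cd H b0) kap (e, L, is, j, y.map Fin.val, g1, g2, D, x.map Fin.val) ↔
      LwN H b0 kap e L is j y g1 g2 D x := by
  have e1 : ∀ k, it (hs (cd H b0)) k (cd H b0).2 = (it H k b0).map Fin.val := fun k => it_cd k b0
  have hinj : Function.Injective (List.map (Fin.val : Fin n → ℕ)) :=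
    List.map_injective_iff.2 Fin.val_injective
  constructor
  · rintro ⟨h1, h2, h3, h4, h5, h6, h7, h8, h9, h10⟩
    simp only [it_cd, cgN_cd] at h9 h10
    simp only [ckf_cd, it_cd, e1, ← List.map_append, map_pre, NoPre] at h1 h2 h3 h4 h5 h6 h7 h8
    exact ⟨fun h => h1 (by rw [h, List.map_nil]), h2, hinj h3, h4, h5, h6, hinj h7, hinj h8, h9,
      h10⟩
  · rintro ⟨h1, h2, h3, h4, h5, h6, h7, h8, h9, h10⟩
    refine ⟨?_, ?_, ?_, ?_, h5, h6, ?_, ?_, ?_, ?_⟩
    · exact fun h => h1 (List.map_eq_nil_iff.1 h)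
    · simp only [e1, map_pre]
      exact h2
    · simp only [ckf_cd, e1, ← List.map_append]
      exact congrArg _ h3
    · simp only [ckf_cd, it_cd, e1, ← List.map_append, map_pre, NoPre]
      exact h4
    · simp only [ckf_cd, it_cd, ← List.map_append]
      exact congrArg _ h7
    · simp only [ckf_cd, it_cd, ← List.map_append]
      exact congrArg _ h8
    · simp only [it_cd, cgN_cd]
      exact h9
    · simp only [cgN_cd]
      exact h10

/-- A certificate on the code of a system over `Fin n` comes from words over `Fin n`. -/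
theorem lwC_lift {n : ℕ} {H : Fin n → List (Fin n)} {b0 : List (Fin n)} {kap e L j D : ℕ}
    {is g1 g2 y x : List ℕ} (h : LwC (cd H b0) kap (e, L, is, j, y, g1, g2, D, x)) :
    ∃ y' x' : List (Fin n), y = y'.map Fin.val ∧ x = x'.map Fin.val := by
  have e1 : ∀ k, it (hs (cd H b0)) k (cd H b0).2 = (it H k b0).map Fin.val := fun k => it_cd k b0
  have h1 : y <+: (it H j b0).map Fin.val := by
    rw [← e1]
    exact h.mem
  have h2 := List.prefix_iff_eq_take.1 h1
  rw [← List.map_take] at h2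
  have h3 : x <:+ y := by
    have h4 : y = ckf (hs (cd H b0)) (cd H b0).2 g1 ++ it (hs (cd H b0)) D x := h.yeq
    have h5 : it (hs (cd H b0)) D x = ckf (hs (cd H b0)) (cd H b0).2 g2 ++ x := h.cyc
    rw [h4, h5, ← List.append_assoc]
    exact List.suffix_append _ _
  refine ⟨(it H j b0).take y.length, ((it H j b0).take y.length).drop (y.length - x.length),
    h2, ?_⟩
  rw [List.map_drop, ← h2]
  exact List.suffix_iff_eq_drop.1 h3

section prim

open Primrec

variable {β : Type} [Primcodable β]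

theorem pr_ckf {f : β → List (List ℕ) × List ℕ} {g : β → List ℕ} (hf : Primrec f)
    (hg : Primrec g) : Primrec (fun b => ckf (hs (f b)) (f b).2 (g b)) :=
  prim_ckf.comp (Primrec.pair hf hg)

theorem pr_pre {f g : β → List ℕ} (hf : Primrec f) (hg : Primrec g) :
    PrimrecPred (fun b => f b <+: g b) := prim_prefix.comp hf hg

theorem pr_noPre {f g : β → List ℕ} (hf : Primrec f) (hg : Primrec g) :
    PrimrecPred (fun b => NoPre (f b) (g b)) := prim_noPre.comp hf hg

theorem pr_app2 {f g : β → List ℕ} (hf : Primrec f) (hg : Primrec g) :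
    Primrec (fun b => f b ++ g b) := list_append.comp hf hg

theorem pr_getD {f : β → List ℕ} {g : β → ℕ} (hf : Primrec f) (hg : Primrec g) :
    Primrec (fun b => (f b).getD (g b) 0) := (list_getD 0).comp hf hg

theorem pr_add {f g : β → ℕ} (hf : Primrec f) (hg : Primrec g) :
    Primrec (fun b => f b + g b) := nat_add.comp hf hg

/-- The word of a token. -/
theorem pr_tok {f : β → List (List ℕ) × List ℕ} {g : β → ℕ} (hf : Primrec f)
    (hg : Primrec g) : Primrec (fun b => it (hs (f b)) (g b) (f b).2) :=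
  pr_it hf hg (snd.comp hf)

/-- The check of the greedy tokens. -/
theorem pr_cgN {c : β → List (List ℕ) × List ℕ} {kap e : β → ℕ} {g x : β → List ℕ}
    (hc : Primrec c) (hk : Primrec kap) (he : Primrec e) (hg : Primrec g) (hx : Primrec x) :
    PrimrecPred (fun b => CgN (hs (c b)) (c b).2 (kap b) (e b) (g b) (x b)) := by
  have h1 : PrimrecRel (fun (k : ℕ) (b : β) =>
      ¬ it (hs (c b)) (kap b) (it (hs (c b)) ((g b).getD k 0 + e b) (c b).2) <+:
        it (hs (c b)) (kap b) (it (hs (c b)) ((g b).getD k 0) (c b).2 ++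
          (ckf (hs (c b)) (c b).2 ((g b).drop (k + 1)) ++ x b))) := by
    have hc' : Primrec (fun z : ℕ × β => c z.2) := hc.comp snd
    have hk' : Primrec (fun z : ℕ × β => kap z.2) := hk.comp snd
    have hg' : Primrec (fun z : ℕ × β => g z.2) := hg.comp snd
    have ha : Primrec (fun z : ℕ × β => (g z.2).getD z.1 0) := pr_getD hg' fst
    exact (pr_pre (pr_it hc' hk' (pr_tok hc' (pr_add ha (he.comp snd))))
      (pr_it hc' hk' (pr_app2 (pr_tok hc' ha)
        (pr_app2 (pr_ckf hc' (list_drop.comp (succ.comp fst) hg')) (hx.comp snd))))).not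
  exact pr_all_lt (list_length.comp hg) h1

/-- The check of a landing certificate is primitive recursive. -/
theorem prim_lwC : PrimrecPred (fun x : (List (List ℕ) × List ℕ) × ℕ × LW =>
    LwC x.1 x.2.1 x.2.2) := by
  have c0 : Primrec (fun x : (List (List ℕ) × List ℕ) × ℕ × LW => x.1) := fst
  have k0 : Primrec (fun x : (List (List ℕ) × List ℕ) × ℕ × LW => x.2.1) := fst.comp snd
  have d0 : Primrec (fun x : (List (List ℕ) × List ℕ) × ℕ × LW => x.2.2) := snd.comp snd
  have e0 : Primrec (fun x : (List (List ℕ) × List ℕ) × ℕ × LW => x.2.2.1) := fst.comp d0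
  have d1 : Primrec (fun x : (List (List ℕ) × List ℕ) × ℕ × LW => x.2.2.2) := snd.comp d0
  have L0 : Primrec (fun x : (List (List ℕ) × List ℕ) × ℕ × LW => x.2.2.2.1) := fst.comp d1
  have d2 : Primrec (fun x : (List (List ℕ) × List ℕ) × ℕ × LW => x.2.2.2.2) := snd.comp d1
  have i0 : Primrec (fun x : (List (List ℕ) × List ℕ) × ℕ × LW => x.2.2.2.2.1) := fst.comp d2
  have d3 : Primrec (fun x : (List (List ℕ) × List ℕ) × ℕ × LW => x.2.2.2.2.2) := snd.comp d2
  have j0 : Primrec (fun x : (List (List ℕ) × List ℕ) × ℕ × LW => x.2.2.2.2.2.1) := fst.comp d3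
  have d4 : Primrec (fun x : (List (List ℕ) × List ℕ) × ℕ × LW => x.2.2.2.2.2.2) := snd.comp d3
  have y0 : Primrec (fun x : (List (List ℕ) × List ℕ) × ℕ × LW => x.2.2.2.2.2.2.1) := fst.comp d4
  have d5 : Primrec (fun x : (List (List ℕ) × List ℕ) × ℕ × LW => x.2.2.2.2.2.2.2) := snd.comp d4
  have p0 : Primrec (fun x : (List (List ℕ) × List ℕ) × ℕ × LW => x.2.2.2.2.2.2.2.1) :=
    fst.comp d5
  have d6 : Primrec (fun x : (List (List ℕ) × List ℕ) × ℕ × LW => x.2.2.2.2.2.2.2.2) :=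
    snd.comp d5
  have q0 : Primrec (fun x : (List (List ℕ) × List ℕ) × ℕ × LW => x.2.2.2.2.2.2.2.2.1) :=
    fst.comp d6
  have d7 : Primrec (fun x : (List (List ℕ) × List ℕ) × ℕ × LW => x.2.2.2.2.2.2.2.2.2) :=
    snd.comp d6
  have D0 : Primrec (fun x : (List (List ℕ) × List ℕ) × ℕ × LW => x.2.2.2.2.2.2.2.2.2.1) :=
    fst.comp d7
  have x0 : Primrec (fun x : (List (List ℕ) × List ℕ) × ℕ × LW => x.2.2.2.2.2.2.2.2.2.2) :=
    snd.comp d7
  have hwL := pr_tok c0 L0
  have hwe := pr_tok c0 (pr_add L0 e0)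
  have hDx := pr_it c0 D0 x0
  have h1 := pr_ne y0 (const [])
  have h2 := pr_pre y0 (pr_tok c0 j0)
  have h3 := pr_eq (pr_app2 hwL (pr_app2 (pr_ckf c0 i0) y0)) hwe
  have h4 : PrimrecRel (fun (k : ℕ) (x : (List (List ℕ) × List ℕ) × ℕ × LW) => NoPre
      (it (hs x.1) x.2.1 (it (hs x.1) x.2.2.2.1 x.1.2 ++
        (ckf (hs x.1) x.1.2 (x.2.2.2.2.1.take k) ++
          it (hs x.1) (x.2.2.2.2.1.getD k 0 + x.2.2.1) x.1.2)))
      (it (hs x.1) x.2.1 (it (hs x.1) (x.2.2.2.1 + x.2.2.1) x.1.2))) := by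
    refine pr_noPre (pr_it (c0.comp snd) (k0.comp snd) (pr_app2 (hwL.comp snd) (pr_app2
      (pr_ckf (c0.comp snd) (list_take.comp fst (i0.comp snd)))
      (pr_tok (c0.comp snd) (pr_add (pr_getD (i0.comp snd) fst) (e0.comp snd))))))
      (pr_it (c0.comp snd) (k0.comp snd) (hwe.comp snd))
  have h4' := pr_all_lt (list_length.comp i0) h4
  have h5 := pr_lt (const 0) D0
  have h6 := pr_ne q0 (const [])
  have h7 := pr_eq y0 (pr_app2 (pr_ckf c0 p0) hDx)
  have h8 := pr_eq hDx (pr_app2 (pr_ckf c0 q0) x0)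
  have h9 := pr_cgN c0 k0 e0 p0 hDx
  have h10 := pr_cgN c0 k0 e0 q0 x0
  refine (h1.and (h2.and (h3.and (h4'.and (h5.and (h6.and (h7.and (h8.and
    (h9.and h10))))))))).of_eq fun x => ?_
  constructor
  · rintro ⟨a1, a2, a3, a4, a5, a6, a7, a8, a9, a10⟩
    exact ⟨a1, a2, a3, a4, a5, a6, a7, a8, a9, a10⟩
  · rintro ⟨a1, a2, a3, a4, a5, a6, a7, a8, a9, a10⟩
    exact ⟨a1, a2, a3, a4, a5, a6, a7, a8, a9, a10⟩

end prim

end D0L
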