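import Pool.Agent.H.MP_374efc_lc.Zt.Re4
import Pool.Agent.H.MP_374efc_lc.Asm.Rev

/-!
# MP_374efc_lc: mirror images of good systems and of codes

`GoodS.reverse : GoodS H b0 → GoodS (rev H) b0.reverse`; `rvC` is the mirror image of a code.
-/

set_option autoImplicit false

namespace D0L

theorem epw_rev {α : Type} (m : ℕ) (z : List α) : (epw m z).reverse = epw m z.reverse := by
  unfold epw
  rw [← flatten_rev, List.reverse_replicate, List.map_replicate]

theorem eper_rev {α : Type} [Fintype α] {h : α → List α} (hne : ∀ a, h a ≠ []) :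
    EPer (rev h) ↔ EPer h := by
  have key : ∀ g : α → List α, (∀ a, g a ≠ []) → EPer g → EPer (rev g) := by
    intro g hg hE
    obtain ⟨p, z, s, s', h1, h2, h3, h4⟩ := epw_of_eper hg hE
    refine eper_of_epw (p := p) (s := s) (s' := s') (z := z.reverse) h1 h2 (by simpa using h3) ?_
    rw [← epw_rev, it_rev, h4, epw_rev]
  constructor
  · intro h1
    have h2 := key (rev h) (fun a => ne_rev (hne a)) h1
    rwa [rev_rev] at h2
  · exact key h hne

theorem lc_rev_iff {α : Type} {h : α → List α} {w : List α} :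
    LC (rev h) w.reverse ↔ LC h w := by
  constructor
  · rintro ⟨p, hp⟩
    exact ⟨p, rel_rev_iff.1 hp⟩
  · rintro ⟨p, hp⟩
    exact ⟨p, rel_rev_iff.2 hp⟩

variable {n : ℕ} {H : Fin n → List (Fin n)} {b0 : List (Fin n)}

theorem firstS_rev (h : LastS H b0) : FirstS (rev H) b0.reverse := by
  obtain ⟨f, hf, hf'⟩ := h
  refine ⟨f, hf, fun i => ?_⟩
  obtain ⟨s, hs⟩ := hf' i
  refine ⟨s.reverse, ?_⟩
  rw [it_rev, hs]
  simp

theorem lastS_rev (h : FirstS H b0) : LastS (rev H) b0.reverse := by
  obtain ⟨f, hf, hf'⟩ := h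
  refine ⟨f, hf, fun i => ?_⟩
  obtain ⟨s, hs⟩ := hf' i
  refine ⟨s.reverse, ?_⟩
  rw [it_rev, hs]
  simp

/-- The mirror image of a good system. -/
theorem GoodS.reverse (hg : GoodS H b0) : GoodS (rev H) b0.reverse where
  hne := fun a => ne_rev (hg.hne a)
  ne := by simpa using hg.ne
  irr := by
    intro i j
    obtain ⟨q, hq, h1⟩ := hg.irr i j
    refine ⟨q, hq, ?_⟩
    rw [Z1_it_rev_one]
    simpa using h1
  det := by
    have h1 : (Matrix.of fun (j i : Fin n) => ((rev H i).count j : ℚ)) =
        Matrix.of fun (j i : Fin n) => ((H i).count j : ℚ) := by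
      ext j i
      rw [Matrix.of_apply, Matrix.of_apply, rev, List.count_reverse]
    rw [h1]
    exact hg.det
  eper := fun h => hg.eper ((eper_rev hg.hne).1 h)
  first := firstS_rev hg.last
  last := lastS_rev hg.first

theorem sz_reverse {s : ℕ} (h : Sz s H b0) : Sz s (rev H) b0.reverse := sz_rev h

/-- The mirror image of a code. -/
def rvC (c : List (List ℕ) × List ℕ) : List (List ℕ) × List ℕ := (c.1.map List.reverse, c.2.reverse)

theorem rvC_cd : rvC (cd H b0) = cd (rev H) b0.reverse := by
  unfold rvC cd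
  rw [List.map_ofFn, List.map_reverse]
  congr 2
  funext i
  simp only [Function.comp, rev]
  rw [List.map_reverse]

theorem prim_rvC : Primrec rvC := by
  refine Primrec.pair ?_ (Primrec.list_reverse.comp Primrec.snd)
  exact Primrec.list_map Primrec.fst (Primrec.list_reverse.comp Primrec.snd).to₂

end D0L
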