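import Pool.Agent.H.MP_374efc_lc.Zt.TopC
import Pool.Agent.H.MP_374efc_lc.Zt.Hyp1
import Pool.Agent.H.MP_374efc_lc.Zt.LwP
import Pool.Agent.H.MP_374efc_lc.Zt.Mir1

/-!
# MP_374efc_lc: certificates on both sides

`bound_of_ZX`: a computable bound, if the normal forms with a landing certificate on both sides have no certificate `X`,
and the good systems without relation which have a landing certificate on both sides have one.
-/

set_option autoImplicit false

namespace D0L

open Bim

section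

variable {n : ℕ} {H : Fin n → List (Fin n)} {b0 : List (Fin n)} {lam : ℝ} {l : Fin n → ℝ}

theorem lw_reverse (l : Fin n → ℝ) (u : List (Fin n)) : lw l u.reverse = lw l u := by
  unfold lw
  rw [List.map_reverse, List.sum_reverse]

/-- Perron weights of the mirror image. -/
theorem Bim.PW.reverse (hw : PW H b0 lam l) : PW (rev H) b0.reverse lam l where
  one_lt := hw.one_lt
  pos := hw.pos
  eig := by
    intro a
    rw [rev, lw_reverse]
    exact hw.eig a
  ax := by
    rw [lw_reverse]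
    exact hw.ax

instance hinj_rev [h : HInj H] : HInj (rev H) := ⟨inj_rev h.inj⟩

/-- There is a landing certificate. -/
def LwS [HInj H] (hw : PW H b0 lam l) : Prop :=
  ∃ (e j0 : ℕ) (is : List ℤ) (j : ℤ) (y : Col H) (g1 g2 : List ℤ) (d : ℤ) (x : Col H),
    Cls H b0 j0 e ∧ (tkN hw).Cov e is j y ∧ (tkN hw).Lw e y g1 g2 d x

/-- The level of the tests. -/
def kC (c : List (List ℕ) × List ℕ) : ℕ := cLc (sz c)

theorem GoodS.lev_kC (hg : GoodS H b0) : Hlev H (kC (cd H b0)) := hg.lev sz_cd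

/-- Certificates of the first two kinds. -/
def TA (c : List (List ℕ) × List ℕ) (d : LD) : Prop :=
  ClsC d.1 c ∧ (PfC (kC c) d.1 c ∨ LpC c (kC c) d)

/-- Certificates of the third kind. -/
def TB (c : List (List ℕ) × List ℕ) (d : LW) : Prop :=
  ClsC d.1 c ∧ LwC c (kC c) d

/-- Good systems without relation have a certificate. -/
theorem GoodS.tA_or [HInj H] (hw : PW H b0 lam l) (hg : GoodS H b0) (hn : ¬ LC H b0) :
    (∃ d, TA (cd H b0) d) ∨ (LwS hw ∧ ∃ d, TB (cd H b0) d) := by
  obtain ⟨e, hce, hcl⟩ := hg.exists_clsC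
  rcases hg.cert hw hn hg.lev_kC hce with h | ⟨d, hd, h⟩ | ⟨is, j, y, g1, g2, d, x, h1, h2⟩
  · exact Or.inl ⟨(e, 0, [], [], 0, []), hce, Or.inl h⟩
  · subst hd
    exact Or.inl ⟨d, hce, Or.inr h⟩
  · right
    refine ⟨⟨e, _, is, j, y, g1, g2, d, x, hcl, h1, h2⟩, ?_⟩
    obtain ⟨L, is', j', y', g1', g2', D, x', h3⟩ := lwN_of_lw hw h1 h2 (kC (cd H b0))
    exact ⟨(e, L, is', j', y'.map Fin.val, g1', g2', D, x'.map Fin.val), hce, lwC_cd.2 h3⟩

/-- Normal forms have no certificate of the first two kinds. -/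
theorem not_tA [HInj H] (hw : PW H b0 lam l) {N : ℕ} (hnf : NF H b0 N) (hg : GoodS H b0) (d : LD) :
    ¬ TA (cd H b0) d := by
  rintro ⟨h1, h2 | h2⟩
  · exact top_pf hw hnf (hg.cls h1) hg.lev_kC h2
  · exact top_lp hw hnf (hg.cls h1) hg.lev_kC rfl h2

/-- Certificates of the third kind give landing certificates. -/
theorem lwS_of_tB [HInj H] (hw : PW H b0 lam l) {N : ℕ} (hnf : NF H b0 N) (hg : GoodS H b0) {d : LW}
    (h : TB (cd H b0) d) : LwS hw := by
  obtain ⟨h1, h2⟩ := h
  obtain ⟨e, L, is, j, y, g1, g2, D, x⟩ := d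
  obtain ⟨y', x', rfl, rfl⟩ := lwC_lift h2
  have h3 := (lwC_cd.1 h2).sound hw hg.hne hg.lev_kC (nf_legal hnf) hnf.ne
  exact ⟨e, n - e, _, _, _, _, _, _, _, hg.cls h1, h3.1, h3.2⟩

end

section prim

open Primrec

theorem prim_kC : Primrec kC := cLc_primrec.comp prim_sz

theorem prim_tA : PrimrecPred (fun x : (List (List ℕ) × List ℕ) × LD => TA x.1 x.2) := by
  refine PrimrecPred.and (prim_clsC.comp (fst.comp snd) fst) (PrimrecPred.or ?_ ?_)
  · exact prim_pfC (prim_kC.comp fst) (fst.comp snd) fst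
  · exact prim_lpC.comp (fst.pair ((prim_kC.comp fst).pair snd))

theorem prim_tB : PrimrecPred (fun x : (List (List ℕ) × List ℕ) × LW => TB x.1 x.2) := by
  refine PrimrecPred.and (prim_clsC.comp (fst.comp snd) fst) ?_
  exact prim_lwC.comp (fst.pair ((prim_kC.comp fst).pair snd))

end prim

open Primrec in
/-- **A computable bound** from certificates `X` of the good systems without relation which have landing certificates on
both sides, if they are refuted for the normal forms. -/
theorem bound_of_ZX {γ : Type} [Primcodable γ] {X : List (List ℕ) × List ℕ → γ → Prop}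
    (hX : PrimrecPred (fun x : (List (List ℕ) × List ℕ) × γ => X x.1 x.2))
    (hcomp : ∀ (n : ℕ) (H : Fin n → List (Fin n)) (b0 : List (Fin n)) (lam : ℝ) (l : Fin n → ℝ)
      (_ : HInj H) (hw : PW H b0 lam l), GoodS H b0 → ¬ LC H b0 → LwS hw → LwS hw.reverse →
      ∃ g, X (cd H b0) g)
    (hsound : ∀ (n N : ℕ) (H : Fin n → List (Fin n)) (b0 : List (Fin n)) (lam : ℝ) (l : Fin n → ℝ)
      (_ : HInj H) (hw : PW H b0 lam l), CNF H b0 N → GoodS H b0 → LwS hw → LwS hw.reverse →
      ∀ g, ¬ X (cd H b0) g) :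
    ∃ F', Computable F' ∧ Bound F' := by
  refine bound_of_good (β := LD × LD × LW × LW × Option γ) (T := fun c b =>
    TA c b.1 ∨ TA (rvC c) b.2.1 ∨
      (TB c b.2.2.1 ∧ TB (rvC c) b.2.2.2.1 ∧ ∃ g, b.2.2.2.2 = some g ∧ X c g)) ?_ ?_ ?_
  · refine PrimrecPred.or (prim_tA.comp (fst.pair (fst.comp snd))) (PrimrecPred.or
      (prim_tA.comp ((prim_rvC.comp fst).pair (fst.comp (snd.comp snd)))) (PrimrecPred.and
      (prim_tB.comp (fst.pair (fst.comp (snd.comp (snd.comp snd))))) (PrimrecPred.and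
      (prim_tB.comp ((prim_rvC.comp fst).pair (fst.comp (snd.comp (snd.comp (snd.comp snd)))))) ?_)))
    obtain ⟨hd, h2⟩ := hX
    have h4 : Primrec (fun x : (List (List ℕ) × List ℕ) × LD × LD × LW × LW × Option γ =>
        (Option.casesOn x.2.2.2.2.2 false
          (fun b => @decide (X x.1 b) (hd (x.1, b))) : Bool)) := by
      refine Primrec.option_casesOn (snd.comp (snd.comp (snd.comp (snd.comp snd))))
        (Primrec.const false) ?_
      exact (h2.comp (Primrec.pair (Primrec.fst.comp Primrec.fst) Primrec.snd)).to₂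
    refine (pr_eq h4 (Primrec.const true)).of_eq ?_
    intro x
    cases hx : x.2.2.2.2.2 with
    | none => simp
    | some b => simp
  · intro n H b0 hg hn
    obtain ⟨hi, lam, l, hw⟩ := good_pw hg
    have hg' := hg.reverse
    rcases hg.tA_or hw hn with ⟨d, hd⟩ | ⟨h1, d, hd⟩
    · exact ⟨(d, (0, 0, [], [], 0, []), (0, 0, [], 0, [], [], [], 0, []),
        (0, 0, [], 0, [], [], [], 0, []), none), Or.inl hd⟩
    rcases hg'.tA_or hw.reverse (fun h => hn (lc_rev_iff.1 h)) with ⟨d', hd'⟩ | ⟨h2, d', hd'⟩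
    · refine ⟨((0, 0, [], [], 0, []), d', (0, 0, [], 0, [], [], [], 0, []),
        (0, 0, [], 0, [], [], [], 0, []), none), Or.inr (Or.inl ?_)⟩
      rw [rvC_cd]
      exact hd'
    · obtain ⟨g, hgx⟩ := hcomp n H b0 lam l hi hw hg hn h1 h2
      refine ⟨((0, 0, [], [], 0, []), (0, 0, [], [], 0, []), d, d', some g),
        Or.inr (Or.inr ⟨hd, ?_, g, rfl, hgx⟩)⟩
      rw [rvC_cd]
      exact hd'
  · intro n N H b0 hc hg b hb
    obtain ⟨hi, lam, l, hw⟩ := good_pw hg
    have hnf := hc.1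
    have hnf' := hnf.reverse
    have hg' := hg.reverse
    rcases hb with h | h | ⟨h1, h2, g, -, h3⟩
    · exact not_tA hw hnf hg _ h
    · rw [rvC_cd] at h
      exact not_tA hw.reverse hnf' hg' _ h
    · rw [rvC_cd] at h2
      exact hsound n N H b0 lam l hi hw hc hg (lwS_of_tB hw hnf hg h1)
        (lwS_of_tB hw.reverse hnf' hg' h2) g h3

/-- **A computable bound** if normal forms do not have landing certificates on both sides. -/
theorem bound_of_ZZ
    (hZ : ∀ (n N : ℕ) (H : Fin n → List (Fin n)) (b0 : List (Fin n)) (lam : ℝ) (l : Fin n → ℝ)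
      (_ : HInj H) (hw : PW H b0 lam l), CNF H b0 N → GoodS H b0 → LwS hw → LwS hw.reverse → False) :
    ∃ F', Computable F' ∧ Bound F' := by
  refine bound_of_ZX (γ := Unit) (X := fun _ _ => True)
    ((pr_eq (Primrec.const 0) (Primrec.const 0)).of_eq fun _ => by simp) ?_ ?_
  · intro n H b0 lam l _ hw _ _ _ _
    exact ⟨(), trivial⟩
  · intro n N H b0 lam l _ hw hc hg h1 h2 _ _
    exact hZ n N H b0 lam l inferInstance hw hc hg h1 h2

end D0L
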