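import Pool.Agent.H.MP_374efc_lc.Zt.Mir2

/-!
# MP_374efc_lc: the frozen form of the statement from the two-sided hypotheses
-/

set_option autoImplicit false

namespace D0L

open Bim

/-- The statement of the problem from a computable bound. -/
theorem fin_of_bound (h : ∃ F' : ℕ → ℕ, Computable F' ∧ Bound F') :
    ComputablePred (fun s : List (List ℕ) × List ℕ =>
      ∃ is : List ℕ, is ≠ [] ∧ (∀ i ∈ is, 0 < i) ∧ ∃ p : ℕ, (∀ i ∈ is, i ≤ p) ∧
        ∀ n : ℕ, p ≤ n →
          (fun w : List ℕ => w.flatMap (fun a => s.1.getD a []))^[n] s.2 =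
            (is.map (fun i =>
              (fun w : List ℕ => w.flatMap (fun a => s.1.getD a []))^[n - i] s.2)).flatten) := by
  obtain ⟨F, hF, hB⟩ := h
  exact shell hF hB

/-- **The statement of the problem from the two-sided hypothesis.** -/
theorem fin_of_ZZ
    (hZ : ∀ (n N : ℕ) (H : Fin n → List (Fin n)) (b0 : List (Fin n)) (lam : ℝ) (l : Fin n → ℝ)
      (_ : HInj H) (hw : PW H b0 lam l), CNF H b0 N → GoodS H b0 → LwS hw → LwS hw.reverse → False) :
    ComputablePred (fun s : List (List ℕ) × List ℕ =>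
      ∃ is : List ℕ, is ≠ [] ∧ (∀ i ∈ is, 0 < i) ∧ ∃ p : ℕ, (∀ i ∈ is, i ≤ p) ∧
        ∀ n : ℕ, p ≤ n →
          (fun w : List ℕ => w.flatMap (fun a => s.1.getD a []))^[n] s.2 =
            (is.map (fun i =>
              (fun w : List ℕ => w.flatMap (fun a => s.1.getD a []))^[n - i] s.2)).flatten) :=
  fin_of_bound (bound_of_ZZ hZ)

/-- **The statement of the problem from certificates of the systems with landing certificates on both sides.** -/
theorem fin_of_ZX {γ : Type} [Primcodable γ] {X : List (List ℕ) × List ℕ → γ → Prop}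
    (hX : PrimrecPred (fun x : (List (List ℕ) × List ℕ) × γ => X x.1 x.2))
    (hcomp : ∀ (n : ℕ) (H : Fin n → List (Fin n)) (b0 : List (Fin n)) (lam : ℝ) (l : Fin n → ℝ)
      (_ : HInj H) (hw : PW H b0 lam l), GoodS H b0 → ¬ LC H b0 → LwS hw → LwS hw.reverse →
      ∃ g, X (cd H b0) g)
    (hsound : ∀ (n N : ℕ) (H : Fin n → List (Fin n)) (b0 : List (Fin n)) (lam : ℝ) (l : Fin n → ℝ)
      (_ : HInj H) (hw : PW H b0 lam l), CNF H b0 N → GoodS H b0 → LwS hw → LwS hw.reverse →
      ∀ g, ¬ X (cd H b0) g) :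
    ComputablePred (fun s : List (List ℕ) × List ℕ =>
      ∃ is : List ℕ, is ≠ [] ∧ (∀ i ∈ is, 0 < i) ∧ ∃ p : ℕ, (∀ i ∈ is, i ≤ p) ∧
        ∀ n : ℕ, p ≤ n →
          (fun w : List ℕ => w.flatMap (fun a => s.1.getD a []))^[n] s.2 =
            (is.map (fun i =>
              (fun w : List ℕ => w.flatMap (fun a => s.1.getD a []))^[n - i] s.2)).flatten) :=
  fin_of_bound (bound_of_ZX hX hcomp hsound)

end D0L
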