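import Pool.Agent.H.MP_374efc_lc.Red.Main

/-!
# MP_374efc_lc: locally catenative over a code

`Cdw h w n d`: the words `w_n, ..., w_(n+d-1)` form a code.  `Rdw h w n d`: the word `w_(n+d)` is a product of them.
`CLC h w`: both for some `n`, `d`.  `CK h w`: the words form a code for every `n`.  `CLC h w → CK h w`.
-/

set_option autoImplicit false

namespace D0L

section

variable {α β δ : Type} {h : α → List α} {w : List α}

/-- The words `w_n, ..., w_(n+d-1)` form a code. -/
def Cdw (h : α → List α) (w : List α) (n d : ℕ) : Prop :=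
  ∀ ks ls : List ℕ, (∀ k ∈ ks, k < d) → (∀ k ∈ ls, k < d) →
    (ks.map fun k => it h (n + k) w).flatten = (ls.map fun k => it h (n + k) w).flatten → ks = ls

/-- The word `w_(n+d)` is a product of the words `w_n, ..., w_(n+d-1)`. -/
def Rdw (h : α → List α) (w : List α) (n d : ℕ) : Prop :=
  ∃ js : List ℕ, js ≠ [] ∧ (∀ j ∈ js, j < d) ∧
    it h (n + d) w = (js.map fun k => it h (n + k) w).flatten

/-- Locally catenative over a code. -/
def CLC (h : α → List α) (w : List α) : Prop := ∃ n d, Cdw h w n d ∧ Rdw h w n d

/-- Locally catenative over a code; `d` consecutive words always form a code. -/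
def CK (h : α → List α) (w : List α) : Prop := ∃ d, (∀ n, Cdw h w n d) ∧ ∃ n, Rdw h w n d

theorem it_prod (m n : ℕ) (ks : List ℕ) :
    it h m (ks.map fun k => it h (n + k) w).flatten =
      (ks.map fun k => it h (m + n + k) w).flatten := by
  rw [it_flatten, List.map_map]
  congr 1
  apply List.map_congr_left
  intro k _
  simp only [Function.comp]
  rw [← it_add, Nat.add_assoc]

theorem Rdw.shift {n d : ℕ} (hr : Rdw h w n d) (m : ℕ) : Rdw h w (m + n) d := by
  obtain ⟨js, h1, h2, h3⟩ := hr
  refine ⟨js, h1, h2, ?_⟩
  rw [Nat.add_assoc, it_add, h3, it_prod]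

theorem Cdw.back {n d : ℕ} (m : ℕ) (hc : Cdw h w (m + n) d) : Cdw h w n d := by
  intro ks ls h1 h2 h3
  apply hc ks ls h1 h2
  rw [← it_prod, ← it_prod, h3]

theorem Cdw.le {n n' d : ℕ} (hc : Cdw h w n d) (hn : n' ≤ n) : Cdw h w n' d := by
  obtain ⟨m, rfl⟩ := Nat.exists_eq_add_of_le' hn
  exact Cdw.back m hc

/-! ### the words of the next window -/

/-- The list of indices of the image of the `k`-th word. -/
def qsg (d : ℕ) (js : List ℕ) (k : ℕ) : List ℕ := if k + 1 < d then [k + 1] else js

theorem flatMap_prod {γ : Type} (f : ℕ → List γ) (g : ℕ → List ℕ) (ks : List ℕ) :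
    ((ks.flatMap g).map f).flatten = (ks.map fun k => ((g k).map f).flatten).flatten := by
  induction ks with
  | nil => rfl
  | cons k ks ih =>
    rw [List.flatMap_cons, List.map_append, List.flatten_append, ih, List.map_cons, List.flatten_cons]

theorem first_zero {u v a b : List ℕ} (h1 : u ++ 0 :: v = a ++ 0 :: b) (hu : 0 ∉ u) (ha : 0 ∉ a) :
    u = a := by
  induction u generalizing a with
  | nil =>
    rcases a with _ | ⟨x, a⟩
    · rfl
    · rw [List.nil_append, List.cons_append] at h1
      rw [← (List.cons.inj h1).1] at ha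
      exact absurd List.mem_cons_self ha
  | cons y u ih =>
    rcases a with _ | ⟨x, a⟩
    · rw [List.nil_append, List.cons_append] at h1
      rw [(List.cons.inj h1).1] at hu
      exact absurd List.mem_cons_self hu
    · rw [List.cons_append, List.cons_append] at h1
      obtain ⟨h2, h3⟩ := List.cons.inj h1
      rw [h2, ih h3 (fun h => hu (List.mem_cons_of_mem _ h)) (fun h => ha (List.mem_cons_of_mem _ h))]

theorem qsg_first {d : ℕ} {a b : List ℕ} (ha : 0 ∉ a) (xs : List ℕ) :
    ∀ u v : List ℕ, xs.flatMap (qsg d (a ++ 0 :: b)) = u ++ 0 :: v → 0 ∉ u → a.length ≤ u.length := by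
  induction xs with
  | nil =>
    intro u v h1 _
    exact absurd h1 (by simp)
  | cons k xs ih =>
    intro u v h1 hu
    rw [List.flatMap_cons] at h1
    unfold qsg at h1
    split_ifs at h1 with hk
    · rcases u with _ | ⟨y, u⟩
      · rw [List.nil_append, List.singleton_append] at h1
        exact absurd (List.cons.inj h1).1 (by omega)
      · rw [List.singleton_append, List.cons_append] at h1
        have h2 := ih u v (List.cons.inj h1).2 (fun h => hu (List.mem_cons_of_mem _ h))
        rw [List.length_cons]
        omega
    · rw [List.append_assoc, List.cons_append] at h1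
      rw [first_zero h1 ha hu]

/-- The substitution `k → k + 1`, `d - 1 → js` is injective if `0` occurs in `js`. -/
theorem qsg_inj {d : ℕ} {js : List ℕ} (h0 : 0 ∈ js) :
    ∀ ks ls : List ℕ, (∀ k ∈ ks, k < d) → (∀ k ∈ ls, k < d) →
      ks.flatMap (qsg d js) = ls.flatMap (qsg d js) → ks = ls := by
  obtain ⟨a, b, hab, ha⟩ := List.eq_append_cons_of_mem h0
  subst hab
  have hne : ∀ k, qsg d (a ++ 0 :: b) k ≠ [] := by
    intro k
    unfold qsg
    split_ifs <;> simp
  have hmix : ∀ (k : ℕ) (xs ys : List ℕ), k + 1 < d →
      [k + 1] ++ xs.flatMap (qsg d (a ++ 0 :: b)) = (a ++ 0 :: b) ++ ys → False := by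
    intro k xs ys hk h1
    rw [List.singleton_append, List.append_assoc, List.cons_append] at h1
    rcases a with _ | ⟨y, a⟩
    · rw [List.nil_append] at h1
      exact absurd (List.cons.inj h1).1 (by omega)
    · rw [List.cons_append] at h1
      have h2 := qsg_first (d := d) ha xs a (b ++ ys) (List.cons.inj h1).2
        (fun h => ha (List.mem_cons_of_mem _ h))
      rw [List.length_cons] at h2
      omega
  intro ks
  induction ks with
  | nil =>
    intro ls _ _ h1
    rcases ls with _ | ⟨l, ls⟩
    · rfl
    · rw [List.flatMap_nil, List.flatMap_cons] at h1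
      exact absurd (List.append_eq_nil_iff.1 h1.symm).1 (hne l)
  | cons k ks ih =>
    intro ls hk hl h1
    rcases ls with _ | ⟨l, ls⟩
    · rw [List.flatMap_nil, List.flatMap_cons] at h1
      exact absurd (List.append_eq_nil_iff.1 h1).1 (hne k)
    · have hk1 := hk k List.mem_cons_self
      have hl1 := hl l List.mem_cons_self
      have h2 : k = l := by
        by_contra hne'
        rw [List.flatMap_cons, List.flatMap_cons] at h1
        by_cases hkd : k + 1 < d
        · by_cases hld : l + 1 < d
          · have e1 : qsg d (a ++ 0 :: b) k = [k + 1] := if_pos hkd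
            have e2 : qsg d (a ++ 0 :: b) l = [l + 1] := if_pos hld
            rw [e1, e2, List.singleton_append, List.singleton_append] at h1
            exact hne' (by have := (List.cons.inj h1).1; omega)
          · have e1 : qsg d (a ++ 0 :: b) k = [k + 1] := if_pos hkd
            have e2 : qsg d (a ++ 0 :: b) l = a ++ 0 :: b := if_neg hld
            rw [e1, e2] at h1
            exact hmix k ks _ hkd h1
        · by_cases hld : l + 1 < d
          · have e1 : qsg d (a ++ 0 :: b) k = a ++ 0 :: b := if_neg hkd
            have e2 : qsg d (a ++ 0 :: b) l = [l + 1] := if_pos hld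
            rw [e1, e2] at h1
            exact hmix l ls _ hld h1.symm
          · omega
      subst h2
      rw [List.flatMap_cons, List.flatMap_cons] at h1
      rw [ih ls (fun x hx => hk x (List.mem_cons_of_mem _ hx))
        (fun x hx => hl x (List.mem_cons_of_mem _ hx)) (List.append_cancel_left h1)]

/-- The next window is a code. -/
theorem Cdw.succ {n d : ℕ} {js : List ℕ} (hc : Cdw h w n d) (h0 : 0 ∈ js) (hj : ∀ j ∈ js, j < d)
    (hr : it h (n + d) w = (js.map fun k => it h (n + k) w).flatten) : Cdw h w (n + 1) d := by
  intro ks ls h1 h2 h3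
  have hd : 0 < d := lt_of_le_of_lt (Nat.zero_le _) (hj 0 h0)
  have key : ∀ xs : List ℕ, (∀ k ∈ xs, k < d) →
      (xs.map fun k => it h (n + 1 + k) w).flatten =
        ((xs.flatMap (qsg d js)).map fun k => it h (n + k) w).flatten ∧
      ∀ k ∈ xs.flatMap (qsg d js), k < d := by
    intro xs hxs
    constructor
    · rw [flatMap_prod]
      congr 1
      apply List.map_congr_left
      intro k hk
      have hkd := hxs k hk
      unfold qsg
      split_ifs with hk1
      · rw [List.map_singleton, List.flatten_singleton]
        congr 1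
        omega
      · rw [← hr]
        congr 1
        omega
    · intro k hk
      obtain ⟨x, hx, hx'⟩ := List.mem_flatMap.1 hk
      unfold qsg at hx'
      split_ifs at hx' with hx1
      · rw [List.mem_singleton] at hx'
        omega
      · exact hj k hx'
  obtain ⟨e1, e2⟩ := key ks h1
  obtain ⟨e3, e4⟩ := key ls h2
  rw [e1, e3] at h3
  exact qsg_inj h0 ks ls h1 h2 (hc _ _ e2 e4 h3)

/-- A relation over a code which uses the first word of the window. -/
theorem CLC.first (hc : CLC h w) : ∃ (n d : ℕ) (js : List ℕ), Cdw h w n d ∧ 0 ∈ js ∧ (∀ j ∈ js, j < d) ∧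
    it h (n + d) w = (js.map fun k => it h (n + k) w).flatten := by
  obtain ⟨n, d, h1, h2⟩ := hc
  induction d generalizing n with
  | zero =>
    obtain ⟨js, h3, h4, -⟩ := h2
    obtain ⟨j, hj⟩ := List.exists_mem_of_ne_nil js h3
    exact absurd (h4 j hj) (Nat.not_lt_zero _)
  | succ d ih =>
    obtain ⟨js, h3, h4, h5⟩ := h2
    by_cases h0 : 0 ∈ js
    · exact ⟨n, d + 1, js, h1, h0, h4, h5⟩
    · refine ih (n + 1) ?_ ?_
      · intro ks ls e1 e2 e3
        have e4 : ∀ xs : List ℕ, (xs.map fun k => it h (n + 1 + k) w) =
            ((xs.map (· + 1)).map fun k => it h (n + k) w) := by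
          intro xs
          rw [List.map_map]
          apply List.map_congr_left
          intro k _
          simp only [Function.comp]
          congr 1
          omega
        rw [e4, e4] at e3
        have e5 := h1 _ _ (by
          intro k hk
          obtain ⟨x, hx, rfl⟩ := List.mem_map.1 hk
          have := e1 x hx
          omega) (by
          intro k hk
          obtain ⟨x, hx, rfl⟩ := List.mem_map.1 hk
          have := e2 x hx
          omega) e3
        exact List.map_injective_iff.2 (fun a b hab => Nat.succ_injective hab) e5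
      · refine ⟨js.map (· - 1), by simpa using h3, ?_, ?_⟩
        · intro k hk
          obtain ⟨x, hx, rfl⟩ := List.mem_map.1 hk
          have e1 := h4 x hx
          have e2 : x ≠ 0 := fun h => h0 (h ▸ hx)
          omega
        · rw [show n + 1 + d = n + (d + 1) by omega, h5, List.map_map]
          congr 1
          apply List.map_congr_left
          intro k hk
          have e2 : k ≠ 0 := fun h => h0 (h ▸ hk)
          simp only [Function.comp]
          congr 1
          omega

/-- A relation of least depth over a code. -/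
theorem CLC.ck (hc : CLC h w) : CK h w := by
  obtain ⟨n, d, js, h1, h0, h4, h5⟩ := hc.first
  have hr : ∀ m, it h (n + m + d) w = (js.map fun k => it h (n + m + k) w).flatten := by
    intro m
    have e1 := it_prod (h := h) (w := w) m n js
    rw [← h5, ← it_add] at e1
    rw [show n + m + d = m + (n + d) by omega, e1, Nat.add_comm m n]
  have h6 : ∀ m, Cdw h w (n + m) d := by
    intro m
    induction m with
    | zero => exact h1
    | succ m ihm => exact Cdw.succ ihm h0 h4 (hr m)
  exact ⟨d, fun m => (h6 m).le (Nat.le_add_left m n), n, js, List.ne_nil_of_mem h0, h4, h5⟩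

theorem CK.lc (hk : CK h w) : LC h w := by
  obtain ⟨d, -, n, js, h1, h2, h3⟩ := hk
  refine ⟨n + d, js.map (n + ·), by simpa using h1, ?_, ?_⟩
  · intro j hj
    obtain ⟨x, hx, rfl⟩ := List.mem_map.1 hj
    have := h2 x hx
    omega
  · rw [h3, List.map_map]
    rfl

/-- In every relation the word is not a product of fewer than `d` words. -/
theorem CK.le_of_rel {d p : ℕ} (hc : Cdw h w 0 d) (hp : Rel h w p) : d ≤ p := by
  by_contra hlt
  push Not at hlt
  obtain ⟨js, h1, h2, h3⟩ := hp
  have h4 := hc [p] js (by simpa using hlt) (fun k hk => (h2 k hk).trans hlt) (by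
    simp only [Nat.zero_add, List.map_singleton, List.flatten_singleton]
    exact h3)
  subst h4
  exact lt_irrefl p (h2 p (by simp))

/-! ### transfers -/

/-- Codes. -/
theorem CK.code {g : β → List β} {u : List β} {c : β → List α} (hc : Function.Injective (app c))
    (hk : ∀ b, app h (c b) = app c (g b)) {m : ℕ} (hw : it h m w = app c u) (hck : CK h w) :
    CK g u := by
  have key : ∀ p, app c (it g p u) = it h (m + p) w := by
    intro p
    rw [it_code hk, ← hw, ← it_add, Nat.add_comm]
  have key2 : ∀ n (ks : List ℕ), app c (ks.map fun k => it g (n + k) u).flatten =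
      (ks.map fun k => it h (m + n + k) w).flatten := by
    intro n ks
    rw [app_flatten, List.map_map]
    congr 1
    apply List.map_congr_left
    intro k _
    simp only [Function.comp]
    rw [key, Nat.add_assoc]
  obtain ⟨d, h1, n, hr⟩ := hck
  refine ⟨d, ?_, n, ?_⟩
  · intro n ks ls e1 e2 e3
    apply h1 (m + n) ks ls e1 e2
    rw [← key2, ← key2, e3]
  · obtain ⟨js, h2, h3, h4⟩ := hr.shift m
    refine ⟨js, h2, h3, ?_⟩
    apply hc
    rw [key, key2, ← Nat.add_assoc]
    exact h4

/-- Factorizations of the morphism. -/
theorem CK.gf {f : α → List δ} {g : δ → List α} (hfg : ∀ a, app g (f a) = h a) (hck : CK h w) :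
    CK (fun d => app f (g d)) (app f w) := by
  have key : ∀ n (ks : List ℕ),
      (ks.map fun k => it (fun d => app f (g d)) (n + k) (app f w)).flatten =
        app f (ks.map fun k => it h (n + k) w).flatten := by
    intro n ks
    rw [app_flatten, List.map_map]
    congr 1
    apply List.map_congr_left
    intro k _
    simp only [Function.comp]
    rw [it_gf hfg]
  have hgf : ∀ x : List α, app g (app f x) = app h x := by
    intro x
    rw [app_app]
    congr 1
    funext a
    exact hfg a
  obtain ⟨d, h1, n, hr⟩ := hck
  refine ⟨d, ?_, n, ?_⟩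
  · intro n ks ls e1 e2 e3
    apply h1 (1 + n) ks ls e1 e2
    rw [← it_prod, ← it_prod, it_one, it_one, ← hgf, ← hgf, ← key, ← key, e3]
  · obtain ⟨js, h2, h3, h4⟩ := hr
    refine ⟨js, h2, h3, ?_⟩
    rw [key, it_gf hfg, h4]

end

end D0L
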