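import Pool.Agent.H.MP_374efc_lc.Zt.Qd

/-!
# MP_374efc_lc: the orbit step for systems which are locally catenative over a code
-/

set_option autoImplicit false

namespace D0L

/-- `orbit_step` with the divisibility of the differences. -/
theorem orbit_step2 {α : Type} [Fintype α] {h : α → List α} {w : List α} {s : ℕ} (hs : Sz s h w)
    (hne : ∀ a, h a ≠ []) (hw : w ≠ []) (hlc : LC h w) :
    ∃ (β : Type) (_ : Fintype β) (g : β → List β) (u : List β) (ι : β → α) (t m : ℕ),
      Function.Injective ι ∧ 0 < t ∧ t ≤ 2 ^ s ∧ m ≤ 2 ^ (s + 1) ∧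
      (∀ b, (g b).map ι = it h t [ι b]) ∧ u.map ι = it h m w ∧ LC g u ∧
      (∀ n b, b ∈ it g n u) ∧
      (∀ a, Gr g a → ∀ i, 2 ^ Fintype.card β ≤ i → ∀ b, b ∈ it g i [a]) ∧
      (∀ p, Rel g u p → Rel h w (t * p + m)) ∧
      ∀ N (js : List ℕ), (∀ j ∈ js, j < N) → it h N w = (js.map fun j => it h j w).flatten →
        ∀ j ∈ js, t ∣ N - j := by
  classical
  obtain ⟨n0, t, hn0, ht, htle, hper, hmin⟩ := Orbit_period h w
  have hcs : 2 ^ Fintype.card α ≤ 2 ^ s := Nat.pow_le_pow_right (by norm_num) hs.1
  obtain ⟨N, js, hjs0, hjsN, hrel⟩ := hlc.shift n0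
  -- the differences are divisible by the period
  have hdvd0 : ∀ (N : ℕ) (js : List ℕ), (∀ j ∈ js, j < N) →
      it h N (it h n0 w) = (js.map fun j => it h j (it h n0 w)).flatten → ∀ j ∈ js, t ∣ N - j := by
    intro N js hjsN hrel j hj
    apply hmin
    have hjN := hjsN j hj
    have hsub : Orbit_set (it h j (it h n0 w)) ⊆
        (Orbit_Phi h)^[N - j] (Orbit_set (it h j (it h n0 w))) := by
      rw [← Orbit_set_it, ← it_add h (N - j) j, Nat.sub_add_cancel hjN.le]
      intro b hb
      rw [Orbit_mem_set] at hb ⊢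
      rw [hrel, List.mem_flatten]
      exact ⟨it h j (it h n0 w), List.mem_map.2 ⟨j, hj, rfl⟩, hb⟩
    have hcyc : (Orbit_Phi h)^[t * (N - j)] (Orbit_set (it h j (it h n0 w))) =
        Orbit_set (it h j (it h n0 w)) := by
      rw [Orbit_set_it h j, ← Function.iterate_add_apply, Nat.add_comm,
        Function.iterate_add_apply, hper]
    have heq := Orbit_chain (Orbit_mono h) ht hsub hcyc
    rw [Orbit_set_it h j] at heq
    -- push to the starting point
    have hk : ∃ k c, k + j = t * c := by
      refine ⟨(t - 1) * j, j, ?_⟩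
      obtain ⟨t', rfl⟩ : ∃ t', t = t' + 1 := ⟨t - 1, by omega⟩
      rw [Nat.add_sub_cancel]
      ring
    obtain ⟨k, c, hkc⟩ := hk
    have h5 := congrArg (Orbit_Phi h)^[k] heq
    rw [← Function.iterate_add_apply, Nat.add_comm k (N - j), Function.iterate_add_apply,
      ← Function.iterate_add_apply (Orbit_Phi h) k j, hkc, hper] at h5
    exact h5
  have hdvd := hdvd0 N js hjsN hrel
  obtain ⟨m, hm⟩ : ∃ m, m = N % t + n0 := ⟨_, rfl⟩
  have hmw : it h m w = it h (N % t) (it h n0 w) := by rw [hm, it_add]
  have hrt : N % t < t := Nat.mod_lt _ ht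
  -- the alphabet is invariant
  have hinv : ∀ k, Orbit_set (it h (t * k + m) w) = Orbit_set (it h m w) := by
    intro k
    rw [it_add, Orbit_set_it, hmw, Orbit_set_it h (N % t), ← Function.iterate_add_apply,
      Nat.add_comm, Function.iterate_add_apply, hper]
  have hclosed : ∀ a ∈ it h m w, ∀ c ∈ it h t [a], c ∈ it h m w := by
    intro a ha c hc
    rw [← Orbit_mem_set, ← hinv 1, Orbit_mem_set, Nat.mul_one, it_add, it_eq_app, mem_app]
    exact ⟨a, ha, hc⟩
  let β : Type := {a : α // a ∈ it h m w}
  let ι : β → α := Subtype.val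
  let g : β → List β := fun b => (it h t [b.1]).attachWith (fun a => a ∈ it h m w)
    (fun c hc => hclosed b.1 b.2 c hc)
  let u : List β := (it h m w).attach
  have hinj : Function.Injective ι := Subtype.val_injective
  have hg : ∀ b, (g b).map ι = it h t [ι b] := by
    intro b
    simp only [g, ι]
    exact List.attachWith_map_subtype_val _
  have hu : u.map ι = it h m w := by
    simp only [u, ι]
    exact List.attach_map_subtype_val _
  have hall : ∀ n b, b ∈ it g n u := by
    intro n b
    have h1 : ι b ∈ (it g n u).map ι := by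
      rw [Orbit_map_it hg, hu, ← it_add, ← Orbit_mem_set, hinv, Orbit_mem_set]
      exact b.2
    rw [List.mem_map] at h1
    obtain ⟨b', hb', he⟩ := h1
    rw [← hinj he]
    exact hb'
  have hdecomp : ∀ j ∈ js, j = t * (j / t) + N % t := by
    intro j hj
    have h1 : j ≡ N [MOD t] := (Nat.modEq_iff_dvd' (hjsN j hj).le).2 (hdvd j hj)
    have h2 : j % t = N % t := h1
    rw [← h2]
    exact (Nat.div_add_mod j t).symm
  have hLC : LC g u := by
    refine ⟨N / t, js.map (fun j => j / t), by simpa using hjs0, ?_, ?_⟩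
    · intro j hj
      rw [List.mem_map] at hj
      obtain ⟨i, hi, rfl⟩ := hj
      have h1 := hdecomp i hi
      have h2 := hjsN i hi
      have h3 := Nat.div_add_mod N t
      have h4 : t * (i / t) < t * (N / t) := by omega
      exact Nat.lt_of_mul_lt_mul_left h4
    · apply (List.map_injective_iff.2 hinj)
      rw [Orbit_map_it hg, hu, hmw, ← it_add h (t * (N / t)) (N % t), Nat.div_add_mod, hrel, List.map_flatten,
        List.map_map, List.map_map]
      congr 1
      apply List.map_congr_left
      intro j hj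
      simp only [Function.comp]
      rw [Orbit_map_it hg, hu, hmw, ← it_add h (t * (j / t)) (N % t), ← hdecomp j hj]
  refine ⟨β, inferInstance, g, u, ι, t, m, hinj, ht, htle.trans hcs, ?_, hg, hu, hLC, hall, ?_, ?_, ?_⟩
  · rw [pow_succ]
    omega
  · intro a ha i hi b
    exact Orbit_grow hLC hall a ha i hi b
  · intro p hp
    exact Orbit_rel ht hg hu p hp
  · intro N js h1 h2
    apply hdvd0 N js h1
    rw [← it_add, rel_shift h2 n0]
    congr 1
    apply List.map_congr_left
    intro j _
    rw [it_add]

/-- The class `CK` passes to the orbit. -/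
theorem CK.orbit {α β : Type} {h : α → List α} {w : List α} {g : β → List β} {u : List β}
    {ι : β → α} {t m : ℕ} (hι : Function.Injective ι) (ht : 0 < t)
    (hg : ∀ b, (g b).map ι = it h t [ι b]) (hu : u.map ι = it h m w)
    (hd : ∀ N (js : List ℕ), (∀ j ∈ js, j < N) → it h N w = (js.map fun j => it h j w).flatten →
      ∀ j ∈ js, t ∣ N - j) (hck : CK h w) : CK g u := by
  have key : ∀ k, (it g k u).map ι = it h (t * k + m) w := by
    intro k
    rw [Orbit_map_it hg, hu, ← it_add]
  have key2 : ∀ n (ks : List ℕ), ((ks.map fun k => it g (n + k) u).flatten).map ι =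
      ((ks.map (t * ·)).map fun k => it h (t * n + m + k) w).flatten := by
    intro n ks
    rw [List.map_flatten, List.map_map, List.map_map]
    congr 1
    apply List.map_congr_left
    intro k _
    simp only [Function.comp]
    rw [key]
    congr 1
    ring
  obtain ⟨d, hc, n0, js, h1, h2, h3⟩ := hck
  -- the differences are divisible by `t`
  have h4 : ∀ j ∈ js, t ∣ d - j := by
    intro j hj
    have h5 := hd (n0 + d) (js.map (n0 + ·)) (by
      intro k hk
      obtain ⟨x, hx, rfl⟩ := List.mem_map.1 hk
      have := h2 x hx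
      omega) (by rw [h3, List.map_map]; rfl) (n0 + j) (List.mem_map.2 ⟨j, hj, rfl⟩)
    rwa [show n0 + d - (n0 + j) = d - j by omega] at h5
  refine ⟨d / t, ?_, ?_⟩
  · intro n ks ls e1 e2 e3
    have e4 := congrArg (List.map ι) e3
    rw [key2, key2] at e4
    have e5 : ∀ xs : List ℕ, (∀ k ∈ xs, k < d / t) → ∀ k ∈ xs.map (t * ·), k < d := by
      intro xs hxs k hk
      obtain ⟨x, hx, rfl⟩ := List.mem_map.1 hk
      have h5 := hxs x hx
      have h6 : t * x < t * (d / t) := Nat.mul_lt_mul_of_pos_left h5 ht
      exact h6.trans_le (Nat.mul_div_le d t)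
    have e6 := hc _ _ _ (e5 ks e1) (e5 ls e2) e4
    exact List.map_injective_iff.2 (fun a b hab => Nat.eq_of_mul_eq_mul_left ht hab) e6
  · -- the relation, shifted to the orbit
    obtain ⟨M, q, hM, hq⟩ : ∃ M q, M + n0 + d = t * q + m ∧ d / t ≤ q := by
      refine ⟨(t - 1) * (n0 + d) + m + t * d, n0 + d + d, ?_, ?_⟩
      · obtain ⟨t', rfl⟩ : ∃ t', t = t' + 1 := ⟨t - 1, by omega⟩
        rw [Nat.add_sub_cancel]
        ring
      · exact (Nat.div_le_self d t).trans (by omega)
    have h5 : ∀ j ∈ js, t * ((d - j) / t) = d - j := fun j hj => Nat.mul_div_cancel' (h4 j hj)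
    have h6 : ∀ j ∈ js, (d - j) / t ≤ d / t := fun j _ => Nat.div_le_div_right (Nat.sub_le d j)
    have h7 : ∀ j ∈ js, 0 < (d - j) / t := by
      intro j hj
      have e1 := h2 j hj
      have e2 := h5 j hj
      rcases Nat.eq_zero_or_pos ((d - j) / t) with h | h
      · rw [h, Nat.mul_zero] at e2
        omega
      · exact h
    refine ⟨q - d / t, js.map (fun j => d / t - (d - j) / t), by simpa using h1, ?_, ?_⟩
    · intro k hk
      obtain ⟨j, hj, rfl⟩ := List.mem_map.1 hk
      have e1 := h6 j hj
      have e2 := h7 j hj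
      omega
    · apply List.map_injective_iff.2 hι
      rw [key, key2, List.map_map, List.map_map]
      have e1 : it h (M + (n0 + d)) w = (js.map fun k => it h (M + n0 + k) w).flatten := by
        rw [it_add, h3, it_prod]
      rw [show t * (q - d / t + d / t) + m = M + (n0 + d) by
        rw [Nat.sub_add_cancel hq, ← hM, Nat.add_assoc], e1]
      congr 1
      apply List.map_congr_left
      intro j hj
      simp only [Function.comp]
      congr 1
      have e2 := h2 j hj
      have e3 := h5 j hj
      have e4 := h6 j hj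
      have e5 : t * (q - d / t) + t * (d / t - (d - j) / t) + t * ((d - j) / t) = t * q := by
        rw [← Nat.mul_add, ← Nat.mul_add]
        congr 1
        omega
      omega

end D0L
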