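import Pool.Agent.H.MP_374efc_lc.Zt.Qn
import Pool.Agent.H.MP_374efc_lc.Zt.Qo
import Pool.Agent.H.MP_374efc_lc.Zt.Qz
import Pool.Agent.H.MP_374efc_lc.Asm.Free

/-!
# MP_374efc_lc: a computable bound for the systems which are locally catenative over a code
-/

set_option autoImplicit false

namespace D0L

/-- Elementary primitive systems. -/
theorem bdc_elem : BdOn (fun _ _ h w => (Elem h ∧ Prim h) ∧ CK h w) (fun s => freeF s + s + 1) := by
  intro α _ h w s hs hq hlc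
  change ∃ p ≤ freeF s + s + 1, Rel h w p
  obtain ⟨⟨he, hp⟩, hck⟩ := hq
  have hg := he.good
  by_cases hw : w = []
  · subst hw
    exact ⟨1, by omega, rel_nil h⟩
  by_cases hgr : ∀ a, Gr h a
  · have hl := legal hg.ne hg.inj hw hlc hgr
    by_cases hper : Per h
    · obtain ⟨σ, hσ⟩ := per1 hg hp hgr hper
      obtain ⟨p, h1, h2⟩ := per2 hσ hgr hl hw hlc
      have := hs.1
      exact ⟨p, by omega, h2⟩
    · obtain ⟨n, t, H, b0, N, hcod, hnf, hrel⟩ := exists_nf he.inj hgr hw hlc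
      have h1 : n ≤ freeF s := freeBound α h w s hs he hp hper hl hw n t H b0 hcod
      have h2 : CK H b0 := CK.code (m := 0) hcod.inj hcod.comm hcod.ax.symm hck
      have h3 := nf_ck hnf h2
      exact ⟨N, by omega, (hrel N).2 hnf.rel⟩
  · push Not at hgr
    obtain ⟨a, ha⟩ := hgr
    exact ⟨1, by omega, rel_of_prim_bdd hg.ne hp ha w⟩

/-- Step D: all letters grow. -/
theorem bdc_grow (F : ℕ → ℕ) (hb : BdOn (fun _ _ h w => Prim h ∧ CK h w) F) :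
    BdOn (fun _ _ h w => ((∀ a, h a ≠ []) ∧ (∀ a, Gr h a) ∧ w ≠ []) ∧ CK h w)
      (fun s => 2 ^ s * F (tO s) + 2 ^ (s + 1)) := by
  intro α _ h w s hs hq hlc
  change ∃ p ≤ 2 ^ s * F (tO s) + 2 ^ (s + 1), Rel h w p
  obtain ⟨⟨hne, hgr, hw⟩, hck⟩ := hq
  obtain ⟨β, _, g, u, ι, t, m, hι, ht0, ht, hm, hg, hu, hlc', hfull, hmix, hrel, hd⟩ :=
    orbit_step2 hs hne hw hlc
  have hs' := sz_orbit hs hι ht hm hg hu
  have hp : Prim g := by
    refine ⟨2 ^ Fintype.card β, by positivity, ?_⟩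
    intro a b
    exact hmix a (gr_of_map hne ht0 hg (hgr _)) _ le_rfl b
  obtain ⟨p, h1, h2⟩ := hb β g u (tO s) hs' ⟨hp, CK.orbit hι ht0 hg hu hd hck⟩ hlc'
  refine ⟨t * p + m, ?_, hrel p h2⟩
  have h3 := Nat.mul_le_mul ht h1
  omega

/-- Step C: removal of the bounded letters. -/
theorem bdc_mix (tz : ℕ → ℕ) (htz : ∀ (α : Type) [Fintype α] (h : α → List α) (w : List α)
    (s : ℕ), Sz s h w → Mix h w → ∃ (β : Type) (_ : Fintype β) (k : β → List β) (v : List β),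
      Sz (tz s) k v ∧ LC k v ∧ (∀ b, k b ≠ []) ∧ (∀ b, Gr k b) ∧ v ≠ [] ∧
      (∀ p, Rel k v p → Rel h w (p + s)) ∧ ∃ c : β → List α, Function.Injective (app c) ∧
        (∀ b, app h (c b) = app c (k b)) ∧ it h s w = app c v) (F : ℕ → ℕ)
    (hb : BdOn (fun _ _ h w => ((∀ a, h a ≠ []) ∧ (∀ a, Gr h a) ∧ w ≠ []) ∧ CK h w) F) :
    BdOn (fun _ _ h w => Mix h w ∧ CK h w) (fun s => F (tz s) + s) := by
  intro α _ h w s hs hq hlc
  change ∃ p ≤ F (tz s) + s, Rel h w p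
  obtain ⟨β, _, k, v, h1, h2, h3, h4, h5, h6, c, h9, h10, h11⟩ := htz α h w s hs hq.1
  obtain ⟨p, h7, h8⟩ := hb β k v (tz s) h1 ⟨⟨h3, h4, h5⟩, CK.code h9 h10 h11 hq.2⟩ h2
  exact ⟨p + s, by omega, h6 p h8⟩

/-- Step B: injective systems. -/
theorem bdc_inj (F : ℕ → ℕ) (hb : BdOn (fun _ _ h w => Mix h w ∧ CK h w) F) :
    BdOn (fun _ _ h w => Function.Injective (app h) ∧ CK h w)
      (fun s => 2 ^ s * F (tO s) + 2 ^ (s + 1) + (s + 1) ^ (s + 1)) := by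
  intro α _ h w s hs hq hlc
  obtain ⟨inj, hck⟩ := hq
  change ∃ p ≤ 2 ^ s * F (tO s) + 2 ^ (s + 1) + (s + 1) ^ (s + 1), Rel h w p
  have hne := ne_of_inj inj
  by_cases hbw : Bw h w
  · obtain ⟨p, h1, h2⟩ := rel_of_bw hs inj hbw
    exact ⟨p, h1.trans (Nat.le_add_left _ _), h2⟩
  have hw : w ≠ [] := by
    rintro rfl
    exact hbw (by simp [Bw])
  obtain ⟨β, _, g, u, ι, t, m, hι, ht0, ht, hm, hg, hu, hlc', hfull, hmix, hrel, hd⟩ :=
    orbit_step2 hs hne hw hlc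
  have hs' := sz_orbit hs hι ht hm hg hu
  have hM : Mix g u := by
    refine ⟨inj_of_map inj hι hg, hfull, hmix, ?_, hlc'⟩
    simp only [Bw, not_forall, not_not] at hbw
    obtain ⟨a, ha, ha'⟩ := hbw
    obtain ⟨b, hb1, hb2⟩ := (gr_iff hne a m).1 ha'
    have h1 : b ∈ u.map ι := by
      rw [hu, it_eq_app, mem_app]
      exact ⟨a, ha, hb1⟩
    rw [List.mem_map] at h1
    obtain ⟨c, -, rfl⟩ := h1
    exact ⟨c, gr_of_map hne ht0 hg hb2⟩
  obtain ⟨p, h1, h2⟩ := hb β g u (tO s) hs' ⟨hM, CK.orbit hι ht0 hg hu hd hck⟩ hlc'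
  refine ⟨t * p + m, ?_, hrel p h2⟩
  have h3 := Nat.mul_le_mul ht h1
  omega

/-- **A computable bound for the systems which are locally catenative over a code.** -/
theorem bound_ck : ∃ F' : ℕ → ℕ, Computable F' ∧ BdOn (fun _ _ h w => CK h w) F' := by
  obtain ⟨G, hG, hFG⟩ := CM.hull freeF_computable
  obtain ⟨tz, htz, hz⟩ := zrec2
  have two : CM (fun s => 2 ^ s) := CM.pow (CM.const 1) CM.id
  have two' : CM (fun s => 2 ^ (s + 1)) := CM.pow (CM.const 1) (CM.add CM.id (CM.const 1))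
  have ctO : CM tO := CM.pow CM.id (CM.add two' (CM.const 1))
  have selfpow : CM (fun s => (s + 1) ^ 2 ^ s) := CM.pow CM.id two
  -- F
  set F1 : ℕ → ℕ := fun s => G s + s + 1 with hF1
  have c1 : CM F1 := CM.add (CM.add hG CM.id) (CM.const 1)
  have b1 : BdOn (fun _ _ h w => Elem h ∧ Prim h ∧ CK h w) F1 := by
    intro α _ h w s hs hq hlc
    obtain ⟨p, h1, h2⟩ := bdc_elem α h w s hs ⟨⟨hq.1, hq.2.1⟩, hq.2.2⟩ hlc
    refine ⟨p, h1.trans ?_, h2⟩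
    have := hFG s
    simp only [hF1]
    omega
  -- E
  set F2 : ℕ → ℕ := fun s => F1 ((s + 1) ^ 2 ^ s) + s with hF2
  have c2 : CM F2 := CM.add (CM.comp' c1 selfpow) CM.id
  have b2 : BdOn (fun _ _ h w => Prim h ∧ CK h w) F2 := by
    intro α _ h w s hs hq hlc
    obtain ⟨p, h1, h2⟩ := bd_simpE (fun _ _ h w => Prim h ∧ CK h w)
      (fun α δ _ _ h f g w h1 h2 h3 h4 => ⟨prim_gf h1 h2 h3 h4.1, h4.2.gf h1⟩) F1 c1.mono b1 α h w s hs hq hlc
    refine ⟨p, h1.trans ?_, h2⟩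
    have := c1.mono (Nat.pow_le_pow_left (Nat.le_succ s) (2 ^ s))
    simp only [hF2]
    exact Nat.add_le_add_right this s
  -- D
  set F3 : ℕ → ℕ := fun s => 2 ^ s * F2 (tO s) + 2 ^ (s + 1) with hF3
  have c3 : CM F3 := CM.add (CM.mul two (CM.comp' c2 ctO)) two'
  have b3 := bdc_grow F2 b2
  -- C
  set F4 : ℕ → ℕ := fun s => F3 (tz s) + s with hF4
  have c4 : CM F4 := CM.add (CM.comp' c3 htz) CM.id
  have b4 : BdOn (fun _ _ h w => Mix h w ∧ CK h w) F4 := bdc_mix tz hz F3 b3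
  -- B
  set F5 : ℕ → ℕ := fun s => 2 ^ s * F4 (tO s) + 2 ^ (s + 1) + (s + 1) ^ (s + 1) with hF5
  have c5 : CM F5 := CM.add (CM.add (CM.mul two (CM.comp' c4 ctO)) two')
    (CM.pow CM.id (CM.add CM.id (CM.const 1)))
  have b5 : BdOn (fun _ _ h w => Function.Injective (app h) ∧ CK h w) F5 := bdc_inj F4 b4
  -- A
  refine ⟨fun s => F5 ((s + 1) ^ 2 ^ s) + s,
    (CM.add (CM.comp' c5 selfpow) CM.id).comp, ?_⟩
  intro α _ h w s hs hck hlc
  obtain ⟨p, h1, h2⟩ := bd_simp (fun _ _ h w => CK h w)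
    (fun α δ _ _ h f g w h1 h2 h3 h4 => h4.gf h1) F5 c5.mono
    (fun α _ h w s hs hq hlc => b5 α h w s hs ⟨hq.1.inj, hq.2⟩ hlc) α h w s hs hck hlc
  refine ⟨p, h1.trans ?_, h2⟩
  have := c5.mono (Nat.pow_le_pow_left (Nat.le_succ s) (2 ^ s))
  exact Nat.add_le_add_right this s

end D0L
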