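import Pool.Agent.H.MP_374efc_lc.Zt.Qd
import Pool.Agent.H.MP_374efc_lc.Asm.Cod

/-!
# MP_374efc_lc: normal forms which are locally catenative over a code

If the words `w_0, .., w_(d-1)` form a code and `w_d` is a product of them, then in a normal form they are the letters.
-/

set_option autoImplicit false

namespace D0L

theorem nf_ck {n N : ℕ} {H : Fin n → List (Fin n)} {b0 : List (Fin n)} (hnf : NF H b0 N)
    (hck : CK H b0) : N ≤ n := by
  classical
  obtain ⟨d, hc, n', js, h1, h2, h3⟩ := hck
  have hne : ∀ a, H a ≠ [] := fun a => ne_of_inj hnf.inj a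
  have hitne : ∀ k, it H k b0 ≠ [] := by
    intro k h
    have h4 := length_it_mono hne b0 (Nat.zero_le k)
    rw [it_zero, h, List.length_nil] at h4
    exact hnf.ne (List.length_eq_zero_iff.1 (Nat.le_zero.1 h4))
  -- the relation at `0`
  have hr : it H d b0 = (js.map fun k => it H k b0).flatten := by
    have h4 : it H n' (it H d b0) = it H n' (js.map fun k => it H (0 + k) b0).flatten := by
      rw [it_prod, ← it_add, h3]
      rfl
    have h5 := (hnf.inj.iterate n') h4
    simpa only [Nat.zero_add] using h5
  have hc0 : ∀ ks ls : List ℕ, (∀ k ∈ ks, k < d) → (∀ k ∈ ls, k < d) →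
      (ks.map fun k => it H k b0).flatten = (ls.map fun k => it H k b0).flatten → ks = ls := by
    intro ks ls e1 e2 e3
    refine hc 0 ks ls e1 e2 ?_
    simpa only [Nat.zero_add] using e3
  have hNd : N ≤ d := hnf.least d ⟨js, h1, h2, hr⟩
  -- the monoid of the words is stable
  have hall := hnf.hull (fun x => ∃ ks : List ℕ, (∀ k ∈ ks, k < d) ∧
      x = (ks.map fun k => it H k b0).flatten) ⟨[], by simp, rfl⟩
    (by
      rintro _ _ ⟨ks, e1, rfl⟩ ⟨ls, e2, rfl⟩
      refine ⟨ks ++ ls, ?_, by rw [List.map_append, List.flatten_append]⟩
      intro k hk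
      exact (List.mem_append.1 hk).elim (e1 k) (e2 k))
    (by
      rintro x y z ⟨a, ha, hxa⟩ ⟨b, hb, hyb⟩ ⟨p, hp, hxz⟩ ⟨q, hq, hzy⟩
      have e1 : p ++ b = a ++ q := by
        refine hc0 _ _ ?_ ?_ ?_
        · intro k hk
          exact (List.mem_append.1 hk).elim (hp k) (hb k)
        · intro k hk
          exact (List.mem_append.1 hk).elim (ha k) (hq k)
        · rw [List.map_append, List.flatten_append, List.map_append, List.flatten_append, ← hxz,
            ← hyb, ← hxa, ← hzy, List.append_assoc]
      rcases List.append_eq_append_iff.1 e1 with ⟨m, e2, e3⟩ | ⟨m, e2, e3⟩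
      · -- `a = p ++ m`
        have e4 : x = x ++ z ++ (m.map fun k => it H k b0).flatten := by
          rw [hxz, ← List.flatten_append, ← List.map_append, ← e2]
          exact hxa
        have e5 := congrArg List.length e4
        rw [List.length_append, List.length_append] at e5
        refine ⟨[], by simp, ?_⟩
        exact List.length_eq_zero_iff.1 (by omega)
      · -- `p = a ++ m`
        refine ⟨m, ?_, ?_⟩
        · intro k hk
          exact hp k (by rw [e2]; exact List.mem_append_right _ hk)
        · rw [e2, List.map_append, List.flatten_append, ← hxa] at hxz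
          exact List.append_cancel_left hxz)
    (fun i hi => ⟨[i], by simpa using hi.trans_le hNd, by simp⟩)
  -- the letters are words
  have hlet : ∀ a : Fin n, ∃ i, i < d ∧ it H i b0 = [a] := by
    intro a
    obtain ⟨ks, e1, e2⟩ := hall [a]
    rcases ks with _ | ⟨i, ks⟩
    · exact absurd e2 (by simp)
    · rw [List.map_cons, List.flatten_cons] at e2
      refine ⟨i, e1 i List.mem_cons_self, ?_⟩
      have e3 := congrArg List.length e2
      rw [List.length_singleton, List.length_append] at e3
      have e4 := List.length_pos_of_ne_nil (hitne i)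
      have e5 : (ks.map fun k => it H k b0).flatten = [] := List.length_eq_zero_iff.1 (by omega)
      rw [e5, List.append_nil] at e2
      exact e2.symm
  choose idx hidx1 hidx2 using hlet
  have hflat : ∀ x : List (Fin n), ((x.map idx).map fun k => it H k b0).flatten = x := by
    intro x
    induction x with
    | nil => rfl
    | cons a x ih => rw [List.map_cons, List.map_cons, List.flatten_cons, ih, hidx2]; rfl
  have hrange : ∀ i, i < d → ∃ a, idx a = i := by
    intro i hi
    have e1 := hc0 [i] ((it H i b0).map idx) (by simpa using hi) (by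
      intro k hk
      obtain ⟨a, -, rfl⟩ := List.mem_map.1 hk
      exact hidx1 a) (by rw [hflat]; simp)
    obtain ⟨a, x, hax⟩ := List.exists_cons_of_ne_nil (hitne i)
    rw [hax, List.map_cons] at e1
    exact ⟨a, (List.cons.inj e1).1.symm⟩
  have hsub : Finset.range d ⊆ Finset.univ.image idx := by
    intro i hi
    obtain ⟨a, ha⟩ := hrange i (Finset.mem_range.1 hi)
    exact Finset.mem_image.2 ⟨a, Finset.mem_univ _, ha⟩
  have hcard := (Finset.card_le_card hsub).trans Finset.card_image_le
  rw [Finset.card_range, Finset.card_univ, Fintype.card_fin] at hcard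
  exact hNd.trans hcard

end D0L
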