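import Pool.Agent.H.MP_374efc_lc.Asm.Search

/-!
# MP_374efc_lc, Theorem Z: recursively enumerable certificates

`re_of_prim`: certificates with a primitive recursive check give a recursively enumerable predicate.
`bound_of_re'`: the version of `bound_of_re` whose soundness is required only for the normal forms which
are codes of primitive aperiodic elementary locally catenative systems with growing letters.
-/

set_option autoImplicit false

namespace D0L

/-- Certificates with a primitive recursive check are recursively enumerable. -/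
theorem re_of_prim {β : Type} [Primcodable β] {T : List (List ℕ) × List ℕ → β → Prop}
    (hT : PrimrecPred (fun x : (List (List ℕ) × List ℕ) × β => T x.1 x.2)) :
    REPred (fun c => ∃ b, T c b) := by
  classical
  obtain ⟨hd, h2⟩ := hT
  have h3 : PrimrecPred (fun x : (List (List ℕ) × List ℕ) × ℕ =>
      (Option.casesOn (Encodable.decode (α := β) x.2) false
        (fun b => @decide (T x.1 b) (hd (x.1, b))) : Bool) = true) := by
    refine ⟨inferInstance, ?_⟩
    have h4 : Primrec (fun x : (List (List ℕ) × List ℕ) × ℕ =>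
        (Option.casesOn (Encodable.decode (α := β) x.2) false
          (fun b => @decide (T x.1 b) (hd (x.1, b))) : Bool)) := by
      refine Primrec.option_casesOn (Primrec.decode.comp Primrec.snd) (Primrec.const false) ?_
      exact (h2.comp (Primrec.pair (Primrec.fst.comp Primrec.fst) Primrec.snd)).to₂
    exact h4.of_eq fun x => by simp
  refine REPred.of_eq (re_of_ex (T := fun c m =>
    (Option.casesOn (Encodable.decode (α := β) m) false
        (fun b => @decide (T c b) (hd (c, b))) : Bool) = true) ?_) (fun c => ?_)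
  · obtain ⟨hd', h5⟩ := h3
    exact ⟨hd', h5.to_comp⟩
  · constructor
    · rintro ⟨m, hm⟩
      cases hb : Encodable.decode (α := β) m with
      | none => rw [hb] at hm; exact absurd hm (by simp)
      | some b =>
        rw [hb] at hm
        exact ⟨b, by simpa using hm⟩
    · rintro ⟨b, hb⟩
      refine ⟨Encodable.encode b, ?_⟩
      rw [Encodable.encodek]
      simpa using hb

/-- `(H, b0)` is a normal form which is a code of a primitive aperiodic elementary locally catenative
system with growing letters. -/
def CNF {n : ℕ} (H : Fin n → List (Fin n)) (b0 : List (Fin n)) (N : ℕ) : Prop :=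
  NF H b0 N ∧ ∃ (α : Type) (_ : Fintype α) (h : α → List α) (w : List α) (t : Fin n → List α),
    Elem h ∧ Prim h ∧ ¬ Per h ∧ Legal h w ∧ w ≠ [] ∧ LC h w ∧ (∀ a, Gr h a) ∧ Cod h w t H b0

/-- A computable bound of `N` for these normal forms is enough. -/
theorem bound_of_cnf {G : ℕ → ℕ} (hG : Computable G)
    (hb : ∀ (n N s : ℕ) (H : Fin n → List (Fin n)) (b0 : List (Fin n)), Sz s H b0 → CNF H b0 N →
      N ≤ G s) : ∃ F', Computable F' ∧ Bound F' := by
  have hcomp : Computable (fun s => G (freeF s + (s + 1) ^ (freeF s + 2)) + 1) := by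
    have h2 : Computable (fun s => (s + 1) ^ (freeF s + 2)) :=
      Cm_pow.to_comp.comp (Computable.succ.comp Computable.id)
        (Primrec.nat_add.to_comp.comp freeF_computable (Computable.const 2))
    have h3 : Computable (fun s => freeF s + (s + 1) ^ (freeF s + 2)) :=
      Primrec.nat_add.to_comp.comp freeF_computable h2
    exact Computable.succ.comp (hG.comp h3)
  refine main4E _ hcomp ?_
  intro α iα h w s hs he hp hper hl hw hlc
  by_cases hgr : ∀ a, Gr h a
  · obtain ⟨n, t, H, b0, N, hcod, hnf, hrel⟩ := exists_nf he.inj hgr hw hlc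
    have h1 : n ≤ freeF s := freeBound α h w s hs he hp hper hl hw n t H b0 hcod
    have h2 := hb n N _ H b0 (nf_size hs hcod hnf h1)
      ⟨hnf, α, iα, h, w, t, he, hp, hper, hl, hw, hlc, hgr, hcod⟩
    have h3 : N ≤ G (freeF s + (s + 1) ^ (freeF s + 2)) + 1 := h2.trans (Nat.le_succ _)
    exact ⟨N, h3, (hrel N).2 hnf.rel⟩
  · push Not at hgr
    obtain ⟨a, ha⟩ := hgr
    have h3 : 1 ≤ G (freeF s + (s + 1) ^ (freeF s + 2)) + 1 := Nat.le_add_left _ _
    exact ⟨1, h3, rel_of_prim_bdd he.good.ne hp ha w⟩

/-- **A computable bound from recursively enumerable certificates**, which are refuted only for the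
codes of primitive aperiodic systems. -/
theorem bound_of_re' {R : List (List ℕ) × List ℕ → Prop} (hR : REPred R)
    (hcomp : ∀ c, ¬ FP c → R c)
    (hsound : ∀ (n N : ℕ) (H : Fin n → List (Fin n)) (b0 : List (Fin n)), CNF H b0 N →
      ¬ R (cd H b0)) :
    ∃ F', Computable F' ∧ Bound F' := by
  obtain ⟨hd, h2⟩ := prim_rel
  set b : (List (List ℕ) × List ℕ) → ℕ → Bool := fun s p =>
    @decide ((fun x : (List (List ℕ) × List ℕ) × ℕ => Rel (hs x.1) x.1.2 x.2) (s, p)) (hd (s, p))
    with hb
  have hb1 : ∀ s p, b s p = true ↔ Rel (hs s) s.2 p := fun s p =>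
    @decide_eq_true_iff _ (hd (s, p))
  have h3 : Partrec (fun s : List (List ℕ) × List ℕ =>
      Nat.rfind (fun p => (Part.some (b s p) : Part Bool))) := by
    refine Partrec.rfind (p := fun s p => (Part.some (b s p) : Part Bool)) ?_
    exact (Computable.partrec h2.to_comp).to₂
  have h4 : Partrec (fun s : List (List ℕ) × List ℕ =>
      (Part.assert (R s) fun _ => Part.some ()).map (fun _ => (0 : ℕ))) :=
    Partrec.map hR ((Computable.const 0).to₂)
  obtain ⟨k, hk, hk'⟩ := Partrec.merge' h3 h4
  have hdom : ∀ s, (k s).Dom := by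
    intro s
    rw [(hk' s).2]
    by_cases hfp : FP s
    · left
      rw [Nat.rfind_dom]
      obtain ⟨p, hp⟩ := (fp_iff s).1 hfp
      exact ⟨p, by simpa using (hb1 s p).2 hp, fun {m} _ => trivial⟩
    · right
      have h5 := hcomp s hfp
      exact ⟨h5, trivial⟩
  set F : List (List ℕ) × List ℕ → ℕ := fun s => (k s).get (hdom s) with hF
  have hFc : Computable F := hk.of_eq fun s => (Part.some_get (hdom s)).symm
  have hFs : ∀ (n N : ℕ) (H : Fin n → List (Fin n)) (b0 : List (Fin n)), CNF H b0 N →
      N ≤ F (cd H b0) := by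
    intro n N H b0 hnf
    have h5 : F (cd H b0) ∈ k (cd H b0) := Part.get_mem _
    rcases (hk' (cd H b0)).1 _ h5 with h6 | h6
    · have h7 := Nat.rfind_spec h6
      have h8 : b (cd H b0) (F (cd H b0)) = true := by simpa using h7
      exact hnf.1.least _ ((rel_cd _).1 ((hb1 _ _).1 h8))
    · exfalso
      rw [Part.mem_map_iff] at h6
      obtain ⟨u, hu, _⟩ := h6
      rw [Part.mem_assert_iff] at hu
      obtain ⟨hr, _⟩ := hu
      exact hsound n N H b0 hnf hr
  refine bound_of_cnf (comp_Gmax hFc) ?_
  intro n N s H b0 hs hnf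
  exact (hFs n N H b0 hnf).trans (le_Gmax (cd_mem_cdl hs))

/-- The version for certificates with a primitive recursive check. -/
theorem bound_of_cert {β : Type} [Primcodable β] {T : List (List ℕ) × List ℕ → β → Prop}
    (hT : PrimrecPred (fun x : (List (List ℕ) × List ℕ) × β => T x.1 x.2))
    (hcomp : ∀ c, ¬ FP c → ∃ b, T c b)
    (hsound : ∀ (n N : ℕ) (H : Fin n → List (Fin n)) (b0 : List (Fin n)), CNF H b0 N →
      ∀ b, ¬ T (cd H b0) b) :
    ∃ F', Computable F' ∧ Bound F' := by
  refine bound_of_re' (re_of_prim hT) hcomp ?_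
  rintro n N H b0 hnf ⟨b, hb⟩
  exact hsound n N H b0 hnf b hb

end D0L
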