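import Pool.Agent.H.MP_374efc_lc.Zt.Re2
import Pool.Agent.H.MP_374efc_lc.Asm.Al8

/-!
# MP_374efc_lc, Theorem Z: bad codes and systems over `Fin n`
-/

set_option autoImplicit false

namespace D0L

variable {n : ℕ} {H : Fin n → List (Fin n)} {b0 : List (Fin n)}

theorem lift_word {x : List ℕ} (h : ∀ a ∈ x, a < n) : ∃ x' : List (Fin n), x = x'.map Fin.val := by
  induction x with
  | nil => exact ⟨[], rfl⟩
  | cons a x ih =>
    obtain ⟨x', rfl⟩ := ih fun b hb => h b (List.mem_cons_of_mem _ hb)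
    exact ⟨⟨a, h a List.mem_cons_self⟩ :: x', rfl⟩

theorem map_val_lt (x : List (Fin n)) : ∀ a ∈ x.map Fin.val, a < n := by
  intro a ha
  obtain ⟨b, -, rfl⟩ := List.mem_map.1 ha
  exact b.2

theorem cd_len : (cd H b0).1.length = n := by
  unfold cd
  rw [List.length_ofFn]

theorem cd_snd : (cd H b0).2 = b0.map Fin.val := rfl

theorem wfC_cd (hne : ∀ a, H a ≠ []) (hb0 : b0 ≠ []) : WfC (cd H b0) := by
  refine ⟨?_, ?_, ?_, ?_⟩
  · intro w hw a ha
    rw [cd_len]
    unfold cd at hw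
    rw [List.mem_ofFn] at hw
    obtain ⟨i, rfl⟩ := hw
    exact map_val_lt _ a ha
  · intro a ha
    rw [cd_len]
    exact map_val_lt _ a ha
  · intro hw
    unfold cd at hw
    rw [List.mem_ofFn] at hw
    obtain ⟨i, hi⟩ := hw
    exact hne i (List.map_eq_nil_iff.1 hi)
  · rw [cd_snd]
    simpa using hb0

/-- A well-formed code is the code of a system. -/
theorem exists_cd {c : List (List ℕ) × List ℕ} (hc : WfC c) :
    ∃ (n : ℕ) (H : Fin n → List (Fin n)) (b0 : List (Fin n)), c = cd H b0 ∧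
      (∀ a, H a ≠ []) ∧ b0 ≠ [] := by
  obtain ⟨h1, h2, h3, h4⟩ := hc
  obtain ⟨u, v⟩ := c
  simp only at h1 h2 h3 h4
  have h5 : ∀ i : Fin u.length, ∃ x : List (Fin u.length), u[i] = x.map Fin.val := fun i =>
    lift_word (h1 _ (List.getElem_mem i.2))
  choose H hH using h5
  obtain ⟨b0, hb0⟩ := lift_word h2
  refine ⟨u.length, H, b0, ?_, ?_, ?_⟩
  · unfold cd
    rw [Prod.mk.injEq]
    refine ⟨?_, hb0⟩
    apply List.ext_getElem
    · rw [List.length_ofFn]
    · intro i hi _
      rw [List.getElem_ofFn, ← hH ⟨i, hi⟩]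
      rfl
  · intro a ha
    apply h3
    have := hH a
    rw [ha, List.map_nil] at this
    rw [← this]
    exact List.getElem_mem a.2
  · rintro rfl
    exact h4 hb0

/-- The code is read at the size `sz`. -/
theorem sz_cd : Sz (sz (cd H b0)) H b0 := by
  refine ⟨?_, ?_, ?_⟩
  · rw [Fintype.card_fin]
    have : (cd H b0).1.length = n := cd_len
    unfold sz nl
    omega
  · intro a
    have h1 := hs_len (cd H b0) a
    rw [hs_cd, List.length_map] at h1
    unfold sz
    omega
  · have : (cd H b0).2.length = b0.length := by rw [cd_snd, List.length_map]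
    unfold sz
    omega

/-! ### the certificates -/

theorem mem_map_val {a : Fin n} {x : List (Fin n)} : (a : ℕ) ∈ x.map Fin.val ↔ a ∈ x :=
  List.mem_map_of_injective Fin.val_injective

theorem badA_cd : (∃ x, BadA (cd H b0) x) ↔ ∃ x : List (Fin n), x ≠ [] ∧
    (∀ a ∈ x, ∀ b ∈ H a, b ∈ x) ∧ ∃ j, j ∉ x := by
  constructor
  · rintro ⟨x, h1, h2, h3, j, hj, hjx⟩
    rw [cd_len] at hj
    rw [cd_len] at h2
    obtain ⟨x, rfl⟩ := lift_word h2
    refine ⟨x, by simpa using h1, ?_, ⟨j, hj⟩, ?_⟩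
    · intro a ha b hb
      refine mem_map_val.1 (h3 a (mem_map_val.2 ha) b ?_)
      rw [hs_cd]
      exact mem_map_val.2 hb
    · intro h
      exact hjx (mem_map_val.2 h)
  · rintro ⟨x, h1, h2, j, hj⟩
    refine ⟨x.map Fin.val, by simpa using h1, ?_, ?_, j, ?_, ?_⟩
    · rw [cd_len]
      exact map_val_lt x
    · intro a ha b hb
      obtain ⟨a', ha', rfl⟩ := List.mem_map.1 ha
      rw [hs_cd] at hb
      obtain ⟨b', hb', rfl⟩ := List.mem_map.1 hb
      exact mem_map_val.2 (h2 a' ha' b' hb')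
    · rw [cd_len]
      exact j.2
    · exact fun h => hj (mem_map_val.1 h)

theorem count_val (x : List (Fin n)) (j : Fin n) : (x.map Fin.val).count (j : ℕ) = x.count j :=
  List.count_map_of_injective x _ Fin.val_injective j

theorem badD_cd : (∃ x y, BadD (cd H b0) x y) ↔ ∃ x y : List (Fin n),
    (∀ j, (app H x).count j = (app H y).count j) ∧ ∃ j, x.count j ≠ y.count j := by
  constructor
  · rintro ⟨x, y, h1, h2, h3, j, hj, hjx⟩
    rw [cd_len] at h1 h2 h3 hj
    obtain ⟨x, rfl⟩ := lift_word h1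
    obtain ⟨y, rfl⟩ := lift_word h2
    refine ⟨x, y, ?_, ⟨j, hj⟩, ?_⟩
    · intro i
      have h4 := h3 i i.2
      rwa [app_cd, app_cd, count_val, count_val] at h4
    · have h4 := hjx
      have e : j = ((⟨j, hj⟩ : Fin n) : ℕ) := rfl
      rw [e, count_val, count_val] at h4
      exact h4
  · rintro ⟨x, y, h1, j, hj⟩
    refine ⟨x.map Fin.val, y.map Fin.val, ?_, ?_, ?_, j, ?_, ?_⟩
    · rw [cd_len]
      exact map_val_lt x
    · rw [cd_len]
      exact map_val_lt y
    · rw [cd_len]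
      intro i hi
      have h4 := h1 ⟨i, hi⟩
      have e : i = ((⟨i, hi⟩ : Fin n) : ℕ) := rfl
      rw [e, app_cd, app_cd, count_val, count_val]
      exact h4
    · rw [cd_len]
      exact j.2
    · rw [count_val, count_val]
      exact hj

theorem rep_map (s : ℕ) (x : List (Fin n)) : (List.replicate s (x.map Fin.val)).flatten =
    ((List.replicate s x).flatten).map Fin.val := by
  rw [List.map_flatten, List.map_replicate]

theorem badP_cd : (∃ x p s s', BadP (cd H b0) x p s s') ↔ ∃ (p : ℕ) (z : List (Fin n)) (s s' : ℕ),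
    0 < p ∧ 0 < s ∧ z ≠ [] ∧
      it H p (List.replicate s z).flatten = (List.replicate s' z).flatten := by
  constructor
  · rintro ⟨x, p, s, s', h1, h2, h3, h4, h5⟩
    rw [cd_len] at h2
    obtain ⟨x, rfl⟩ := lift_word h2
    refine ⟨p, x, s, s', h3, h4, by simpa using h1, ?_⟩
    rw [rep_map, rep_map, it_cd] at h5
    exact List.map_injective_iff.2 Fin.val_injective h5
  · rintro ⟨p, z, s, s', h1, h2, h3, h4⟩
    refine ⟨z.map Fin.val, p, s, s', by simpa using h3, ?_, h1, h2, ?_⟩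
    · rw [cd_len]
      exact map_val_lt z
    · rw [rep_map, rep_map, it_cd, h4]

theorem sqn_cd (i : ℕ) : sqn (cd H b0) i = (it H i b0).map Fin.val := it_cd i b0

theorem it_ne (hne : ∀ a, H a ≠ []) (hb0 : b0 ≠ []) (k : ℕ) : it H k b0 ≠ [] := by
  intro h
  have h1 := length_le_it hne k b0
  rw [h, List.length_nil] at h1
  exact hb0 (List.length_eq_zero_iff.1 (Nat.le_zero.1 h1))

/-- All letters are first letters of the first words. -/
def FirstS (H : Fin n → List (Fin n)) (b0 : List (Fin n)) : Prop :=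
  ∃ f : Fin n → Fin n, Function.Bijective f ∧ ∀ i : Fin n, ∃ s, it H i b0 = f i :: s

/-- All letters are last letters of the first words. -/
def LastS (H : Fin n → List (Fin n)) (b0 : List (Fin n)) : Prop :=
  ∃ f : Fin n → Fin n, Function.Bijective f ∧ ∀ i : Fin n, ∃ s, it H i b0 = s ++ [f i]

theorem badF_cd (hne : ∀ a, H a ≠ []) (hb0 : b0 ≠ []) : BadF (cd H b0) ↔ ¬ FirstS H b0 := by
  have hit := it_ne hne hb0
  constructor
  · rintro ⟨j, hj, h⟩ ⟨f, hf, hf'⟩
    rw [cd_len] at hj h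
    obtain ⟨i, hi⟩ := hf.2 ⟨j, hj⟩
    obtain ⟨s, hs⟩ := hf' i
    apply h i i.2
    rw [sqn_cd, hs, hi]
    rfl
  · intro h
    by_contra hc
    apply h
    choose f s hf using fun i : Fin n => List.exists_cons_of_ne_nil (hit i)
    refine ⟨f, Finite.injective_iff_bijective.1 (Finite.injective_iff_surjective.2 ?_),
      fun i => ⟨s i, hf i⟩⟩
    intro j
    by_contra hj
    apply hc
    refine ⟨j, by rw [cd_len]; exact j.2, ?_⟩
    intro i hi h1
    rw [cd_len] at hi
    apply hj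
    refine ⟨⟨i, hi⟩, ?_⟩
    have h2 := hf ⟨i, hi⟩
    simp only at h2
    rw [sqn_cd, h2] at h1
    have h3 : ((f ⟨i, hi⟩ : Fin n) : ℕ) = j := by simpa using h1
    exact Fin.ext h3

theorem badL_cd (hne : ∀ a, H a ≠ []) (hb0 : b0 ≠ []) : BadL (cd H b0) ↔ ¬ LastS H b0 := by
  have hit := it_ne hne hb0
  constructor
  · rintro ⟨j, hj, h⟩ ⟨f, hf, hf'⟩
    rw [cd_len] at hj h
    obtain ⟨i, hi⟩ := hf.2 ⟨j, hj⟩
    obtain ⟨s, hs⟩ := hf' i
    apply h i i.2
    rw [sqn_cd, hs, hi]
    simp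
  · intro h
    by_contra hc
    apply h
    have hit' : ∀ i : Fin n, ∃ a s, it H i b0 = s ++ [a] := fun i =>
      ⟨_, _, (List.dropLast_append_getLast (hit i)).symm⟩
    choose f s hf using hit'
    refine ⟨f, Finite.injective_iff_bijective.1 (Finite.injective_iff_surjective.2 ?_),
      fun i => ⟨s i, hf i⟩⟩
    intro j
    by_contra hj
    apply hc
    refine ⟨j, by rw [cd_len]; exact j.2, ?_⟩
    intro i hi h1
    rw [cd_len] at hi
    apply hj
    refine ⟨⟨i, hi⟩, ?_⟩
    have h2 := hf ⟨i, hi⟩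
    simp only at h2
    rw [sqn_cd, h2] at h1
    have h3 : ((f ⟨i, hi⟩ : Fin n) : ℕ) = j := by simpa using h1
    exact Fin.ext h3

end D0L
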