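import Pool.Agent.H.MP_374efc_lc.Zt.TopC
import Pool.Agent.H.MP_374efc_lc.Zt.LwP
import Pool.Agent.H.MP_374efc_lc.Zt.Hyp1

/-!
# MP_374efc_lc, Theorem Z: a computable bound from the statement (Z)

`bound_of_Z`: if no normal form has a first cover with a periodic landing walk (`Zst`), then the least relation is
bounded by a computable function of the size.
-/

set_option autoImplicit false

namespace D0L

open Bim

/-- The certificates: class period `x.1` and one of three kinds. -/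
def TZ (c : List (List ℕ) × List ℕ) (x : ℕ × LD × LW) : Prop :=
  ClsC x.1 c ∧ (PfC (cLc (sz c)) x.1 c ∨ (x.2.1.1 = x.1 ∧ LpC c (cLc (sz c)) x.2.1) ∨
    (x.2.2.1 = x.1 ∧ LwC c (cLc (sz c)) x.2.2))

section prim

open Primrec

theorem prim_tZ : PrimrecPred (fun x : (List (List ℕ) × List ℕ) × ℕ × LD × LW => TZ x.1 x.2) := by
  have c0 : Primrec (fun x : (List (List ℕ) × List ℕ) × ℕ × LD × LW => x.1) := fst
  have e0 : Primrec (fun x : (List (List ℕ) × List ℕ) × ℕ × LD × LW => x.2.1) := fst.comp snd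
  have d0 : Primrec (fun x : (List (List ℕ) × List ℕ) × ℕ × LD × LW => x.2.2.1) :=
    fst.comp (snd.comp snd)
  have w0 : Primrec (fun x : (List (List ℕ) × List ℕ) × ℕ × LD × LW => x.2.2.2) :=
    snd.comp (snd.comp snd)
  have k0 : Primrec (fun x : (List (List ℕ) × List ℕ) × ℕ × LD × LW => cLc (sz x.1)) :=
    cLc_primrec.comp (prim_sz.comp c0)
  have h1 : PrimrecPred (fun x : (List (List ℕ) × List ℕ) × ℕ × LD × LW => ClsC x.2.1 x.1) :=
    prim_clsC.comp e0 c0
  have h2 : PrimrecPred (fun x : (List (List ℕ) × List ℕ) × ℕ × LD × LW =>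
      PfC (cLc (sz x.1)) x.2.1 x.1) := prim_pfC k0 e0 c0
  have h3 : PrimrecPred (fun x : (List (List ℕ) × List ℕ) × ℕ × LD × LW =>
      x.2.2.1.1 = x.2.1 ∧ LpC x.1 (cLc (sz x.1)) x.2.2.1) :=
    (pr_eq (fst.comp d0) e0).and (prim_lpC.comp (c0.pair (k0.pair d0)))
  have h4 : PrimrecPred (fun x : (List (List ℕ) × List ℕ) × ℕ × LD × LW =>
      x.2.2.2.1 = x.2.1 ∧ LwC x.1 (cLc (sz x.1)) x.2.2.2) :=
    (pr_eq (fst.comp w0) e0).and (prim_lwC.comp (c0.pair (k0.pair w0)))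
  exact h1.and (h2.or (h3.or h4))

end prim

/-- **The statement (Z)**: in a normal form the landing walk from the first cover is not periodic. -/
def Zst : Prop :=
  ∀ (n N : ℕ) (H : Fin n → List (Fin n)) (b0 : List (Fin n)) [HInj H] (lam : ℝ) (l : Fin n → ℝ)
    (hw : PW H b0 lam l) (j0 e : ℕ) (is : List ℤ) (j : ℤ) (y : Col H) (g1 g2 : List ℤ) (d : ℤ)
    (x : Col H), CNF H b0 N → Cls H b0 j0 e → (tkN hw).Cov e is j y →
    ¬ (tkN hw).Lw e y g1 g2 d x

/-- **A computable bound from (Z).** -/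
theorem bound_of_Z (hZ : Zst) : ∃ F', Computable F' ∧ Bound F' := by
  refine bound_of_good prim_tZ ?_ ?_
  · intro n H b0 hg hn
    obtain ⟨hi, lam, l, hw⟩ := good_pw hg
    obtain ⟨e, hce, -⟩ := hg.exists_clsC
    have hlev := hg.lev sz_cd
    rcases hg.cert hw hn hlev hce with h | ⟨d, hd, h⟩ | ⟨is, j, y, g1, g2, d, x, h1, h2⟩
    · exact ⟨(e, default, default), hce, Or.inl h⟩
    · exact ⟨(e, d, default), hce, Or.inr (Or.inl ⟨hd, h⟩)⟩
    · obtain ⟨L, is', j', y', g1', g2', D, x', h3⟩ := lwN_of_lw hw h1 h2 (cLc (sz (cd H b0)))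
      exact ⟨(e, default, (e, L, is', j', y'.map Fin.val, g1', g2', D, x'.map Fin.val)), hce,
        Or.inr (Or.inr ⟨rfl, lwC_cd.2 h3⟩)⟩
  · intro n N H b0 hc hg x hx
    obtain ⟨hi, lam, l, hw⟩ := good_pw hg
    have hlev := hg.lev sz_cd
    have hcl := hg.cls hx.1
    have hnf := hc.1
    rcases hx.2 with h | ⟨hd, h⟩ | ⟨hd, h⟩
    · exact top_pf hw hnf hcl hlev h
    · exact top_lp hw hnf hcl hlev hd h
    · obtain ⟨e, d, w⟩ := x
      obtain ⟨e', L, is, j, y, g1, g2, D, x'⟩ := w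
      simp only at hd
      subst hd
      obtain ⟨y, x', rfl, rfl⟩ := lwC_lift h
      obtain ⟨h1, h2⟩ := (lwC_cd.1 h).sound hw hg.hne hlev (nf_legal hnf) hg.ne
      exact hZ n N H b0 lam l hw _ _ _ _ _ _ _ _ _ hc hcl h1 h2

end D0L
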