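import Pool.Agent.H.MP_374efc_lc.Zt.TopS
import Pool.Agent.H.MP_374efc_lc.Zt.Hyp2
import Pool.Agent.H.MP_374efc_lc.Zt.Hyp3
import Pool.Agent.H.MP_374efc_lc.Zt.Hyp4

/-!
# MP_374efc_lc, Theorem Z: good systems have a relation or a certificate
-/

set_option autoImplicit false

namespace D0L

open Bim

variable {n : ℕ} {H : Fin n → List (Fin n)} {b0 : List (Fin n)} {lam : ℝ} {l : Fin n → ℝ}

/-- A relation from a product of at least two tokens. -/
theorem lc_of_pr [HInj H] (hw : PW H b0 lam l) {e : ℕ} {g : List ℤ} (h2 : 2 ≤ g.length)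
    (h : (tkN hw).w e = (tkN hw).pr g) : LC H b0 := by
  obtain ⟨L, hL⟩ : ∃ L : ℕ, ∀ i ∈ g, 0 ≤ (L : ℤ) + i := by
    refine ⟨(g.map Int.natAbs).sum, fun i hi => ?_⟩
    have := List.single_le_sum (fun _ _ => Nat.zero_le _) _ (List.mem_map.2 ⟨i, hi, rfl⟩ :
      i.natAbs ∈ g.map Int.natAbs)
    omega
  have hlt : ∀ i ∈ g, i < e := by
    intro i hi
    obtain ⟨a, b, rfl⟩ := List.append_of_mem hi
    have h3 : 0 < (tkN hw).len ((tkN hw).pr (a ++ b)) := by
      have h4 : a ++ b ≠ [] := by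
        intro h5
        have h6 := congrArg List.length h5
        simp only [List.length_append, List.length_cons, List.length_nil] at h2 h6
        omega
      obtain ⟨i0, g0, h5⟩ := List.exists_cons_of_ne_nil h4
      rw [h5]
      exact Tk.len_pr_pos
    have h4 := congrArg (tkN hw).len h
    rw [Tk.pr_append, Tk.pr_cons, (tkN hw).len_mul, (tkN hw).len_mul] at h4
    rw [Tk.pr_append, (tkN hw).len_mul] at h3
    rw [Tk.len_w, Tk.len_w] at h4
    have h5 : (tkN hw).lam ^ i * (tkN hw).len (tkN hw).w0 <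
        (tkN hw).lam ^ (e : ℤ) * (tkN hw).len (tkN hw).w0 := by linarith
    exact (zpow_lt_zpow_iff_right₀ (tkN hw).one_lt).1
      (lt_of_mul_lt_mul_right h5 (tkN hw).len_w0.le)
  rw [tok_at hw L hL] at h
  have hwe : (tkN hw).w e = Col.mk H L (it H (L + e) b0) := by
    have := tkN_w hw L (L + e)
    rwa [show (((L + e : ℕ) : ℤ) - L) = (e : ℤ) by push_cast; ring] at this
  rw [hwe] at h
  refine ⟨L + e, g.map fun i : ℤ => (L + i).toNat, ?_, ?_, Col.mk_inj h⟩
  · intro h3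
    rw [List.map_eq_nil_iff.1 h3] at h2
    simp at h2
  · intro j hj
    obtain ⟨i, hi, rfl⟩ := List.mem_map.1 hj
    have h3 := hlt i hi
    have h4 := hL i hi
    omega

/-- A covering product of tokens gives a relation. -/
theorem lc_of_cov [HInj H] (hw : PW H b0 lam l) {e : ℕ} {is g : List ℤ} {j : ℤ} {y : Col H}
    (hc : (tkN hw).Cov e is j y) (hy : y = (tkN hw).pr g) : LC H b0 := by
  refine lc_of_pr hw (e := e) (g := 0 :: (is ++ g)) ?_ ?_
  · have h1 : g ≠ [] := by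
      rintro rfl
      exact hc.ne (by rw [hy, Tk.pr_nil])
    have := List.length_pos_of_ne_nil h1
    simp only [List.length_cons, List.length_append]
    omega
  · rw [hc.eq, hy, Tk.pr_cons, Tk.pr_append, mul_assoc]

/-- **Completeness**: a good system without relation has a certificate. -/
theorem GoodS.cert [HInj H] (hw : PW H b0 lam l) (hg : GoodS H b0) (hn : ¬ LC H b0) {kap e : ℕ}
    (hlev : Hlev H kap) (hce : ClsC e (cd H b0)) :
    PfC kap e (cd H b0) ∨ (∃ d : LD, d.1 = e ∧ LpC (cd H b0) kap d) ∨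
      ∃ (is : List ℤ) (j : ℤ) (y : Col H) (g1 g2 : List ℤ) (d : ℤ) (x : Col H),
        (tkN hw).Cov e is j y ∧ (tkN hw).Lw e y g1 g2 d x := by
  have hc := hg.cls hce
  have he := hc.1
  by_cases hP0 : it H kap b0 <+: it H (kap + e) b0
  · right
    have hleg := legal_of_pre hw he hP0
    obtain ⟨L⟩ := hg.lv hw he hlev hleg hP0
    have hP := tkN_P hw hP0
    have hD := cls_D hw hg.hne hc
    by_cases hcov : ∃ (is : List ℤ) (j : ℤ) (y : Col H), (tkN hw).Grd e is ∧ y ≠ 1 ∧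
        y ∈ (tkN hw).R e j ∧ (tkN hw).w e = (tkN hw).w 0 * (tkN hw).pr is * y
    · right
      obtain ⟨is, j, y, h1, h2⟩ := Tk.lw_of_lv L hP hD he hcov
      rcases h2 with ⟨g, h3, -⟩ | h2
      · exfalso
        exact hn (lc_of_cov hw h1 h3)
      · obtain ⟨g1, g2, d, x, h3⟩ := h2
        exact ⟨is, j, y, g1, g2, d, x, h1, h3⟩
    · left
      obtain ⟨pre, cyc, D, x, hD0, hl⟩ := Tk.loop_of_lv L hP hD he hcov
      obtain ⟨D', rfl⟩ : ∃ D' : ℕ, D = D' := ⟨D.toNat, by omega⟩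
      obtain ⟨M, pre', cyc', x', h1⟩ := loopN_of_loop hw hl kap
      exact ⟨(e, M, pre', cyc', D', x'.map Fin.val), rfl, lpC_cd.2 h1⟩
  · exact Or.inl (pfC_cd.2 hP0)

end D0L
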