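import Pool.Agent.H.MP_374efc_lc.Zt.Cp
import Pool.Agent.H.MP_374efc_lc.Zt.Cl
import Pool.Agent.H.MP_374efc_lc.Zt.Lw

/-!
# MP_374efc_lc, Theorem Z: soundness of the certificates

`PfC`: `w_0` does not divide `w_e`.  `top_pf`, `top_lp`: normal forms have no certificate of the first two kinds.
-/

set_option autoImplicit false

namespace D0L

open Bim

/-- `w_0` does not divide `w_e` (tested at level `K`). -/
def PfC (K e : ℕ) (c : List (List ℕ) × List ℕ) : Prop := ¬ sqn c K <+: sqn c (K + e)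

theorem pfC_cd {n : ℕ} {H : Fin n → List (Fin n)} {b0 : List (Fin n)} {K e : ℕ} :
    PfC K e (cd H b0) ↔ ¬ it H K b0 <+: it H (K + e) b0 := by
  have h2 : ∀ k, sqn (cd H b0) k = (it H k b0).map Fin.val := fun k => it_cd k b0
  rw [PfC, h2, h2, map_pre]

section prim

open Primrec

theorem prim_pfC {β : Type} [Primcodable β] {K e : β → ℕ} {f : β → List (List ℕ) × List ℕ}
    (hK : Primrec K) (he : Primrec e) (hf : Primrec f) :
    PrimrecPred (fun b => PfC (K b) (e b) (f b)) :=
  (prim_prefix.comp (prim_sqn.comp hf hK) (prim_sqn.comp hf (nat_add.comp hK he))).not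

end prim

section

variable {n N : ℕ} {H : Fin n → List (Fin n)} {b0 : List (Fin n)} {lam : ℝ} {l : Fin n → ℝ}

theorem nf_legal (hnf : NF H b0 N) : Legal H b0 :=
  legal (fun a => ne_of_inj hnf.inj a) hnf.inj hnf.ne ⟨N, hnf.rel⟩ hnf.gr

/-- In a normal form `w_0` is a prefix of `w_e` at the level `kap`. -/
theorem nf_pre [HInj H] (hw : PW H b0 lam l) (hnf : NF H b0 N) {j0 e kap : ℕ}
    (hc : Cls H b0 j0 e) (hlev : Hlev H kap) : it H kap b0 <+: it H (kap + e) b0 := by
  have hP := cls_P hw hnf hc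
  have h0 : (tkN hw).w 0 = Col.mk H 0 (it H 0 b0) := by
    have := tkN_w hw 0 0
    simpa using this
  have h1 : (tkN hw).w e = Col.mk H 0 (it H e b0) := by
    have := tkN_w hw 0 e
    simpa using this
  unfold Tk.P at hP
  rw [h0, h1] at hP
  obtain ⟨d, hd⟩ := Col.mk_dvd.1 hP
  have h2 := hlev.tok (nf_legal hnf) hnf.ne (q := []) (Nat.zero_le e) hd
  rw [List.nil_append, it_zero, ← it_add] at h2
  exact h2

/-- A normal form has no certificate of the first kind. -/
theorem top_pf [HInj H] (hw : PW H b0 lam l) (hnf : NF H b0 N) {j0 e kap : ℕ}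
    (hc : Cls H b0 j0 e) (hlev : Hlev H kap) : ¬ PfC kap e (cd H b0) := by
  rw [pfC_cd, not_not]
  exact nf_pre hw hnf hc hlev

/-- A normal form has no loop certificate. -/
theorem top_lp [HInj H] (hw : PW H b0 lam l) (hnf : NF H b0 N) {j0 e kap : ℕ}
    (hc : Cls H b0 j0 e) (hlev : Hlev H kap) {d : LD} (hd : d.1 = e) :
    ¬ LpC (cd H b0) kap d := by
  intro h
  obtain ⟨e', L, pre, cyc, D, y⟩ := d
  simp only at hd
  subst hd
  obtain ⟨x, rfl⟩ := lpC_lift h
  have h1 := lpC_cd.1 h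
  have hne := fun a => ne_of_inj hnf.inj a
  have h2 := h1.sound hw hne hlev (nf_legal hnf) hnf.ne
  obtain ⟨is, j, z, hg, -, hz, hwe, -⟩ := greedy_cover hw hnf hc
  exact h2.sound (cls_P hw hnf hc) (cls_D hw hne hc) hg hz hwe

end

end D0L
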