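import Pool.Agent.H.MP_374efc_lc.Zt.Lv

/-!
# MP_374efc_lc: Theorem Z, first step (helper25)

If the tokens of a greedy path with a finite limit are small compared with the distance to the limit, then some
greedy path goes to infinity with tokens which are small compared with the distance (`step1`).
-/

set_option autoImplicit false

namespace D0L

/-- Some value is taken infinitely often. -/
theorem freq_fiber {α : Type*} {s : Set α} (hs : s.Finite) (f : ℕ → α) {p : ℕ → Prop}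
    (hp : ∃ᶠ i in Filter.atTop, p i) (hf : ∀ i, p i → f i ∈ s) :
    ∃ a ∈ s, ∃ᶠ i in Filter.atTop, p i ∧ f i = a := by
  by_contra hcon
  push Not at hcon
  have h1 : ∀ᶠ i in Filter.atTop, ∀ a ∈ s, ¬ (p i ∧ f i = a) := by
    rw [Filter.eventually_all_finite hs]
    intro a ha
    filter_upwards [hcon a ha] with i hi h2
    exact hi h2.1 h2.2
  obtain ⟨i, hi, hi'⟩ := (hp.and_eventually h1).exists
  exact hi' (f i) (hf i hi) ⟨hi, rfl⟩

namespace Tk

variable {C : Type} [CancelMonoid C] {S : Tk C} {e : ℕ}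

theorem R_congr {c c' : ℤ} (h : (e : ℤ) ∣ c' - c) : S.R e c' = S.R e c := by
  obtain ⟨m, hm⟩ := h
  rw [show c' = c + m * e by linarith, R_add]

theorem Lg.mem {c : ℤ} {x : C} (h : S.Lg e (S.R e c) x) : x ∈ S.R e c := by
  obtain ⟨i, hi, -⟩ := h
  exact R_down (Dvd.intro _ rfl) hi

/-- the constant of the windows -/
noncomputable def th (S : Tk C) : ℝ := min (S.len S.w0) 1 / 2

theorem th_pos (S : Tk C) : 0 < S.th := by
  unfold th
  have := S.len_w0
  positivity

theorem th_le (S : Tk C) : S.th ≤ S.len S.w0 / 2 := by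
  unfold th
  have := min_le_left (S.len S.w0) 1
  linarith

theorem th_le' (S : Tk C) : S.th ≤ 1 / 2 := by
  unfold th
  have := min_le_right (S.len S.w0) 1
  linarith

/-- The greedy path in a window: unnormalised form. -/
theorem Lv.win (L : Lv S e) (hP : S.P e) (hD : S.D e) (he : 0 < e) {x0 : C} {u : ℝ}
    (H : S.Thin e x0 u) {η : ℝ} (hη : 0 < η) (h1 : η ≤ 1 / 4) (h2 : S.lam ^ e * η ≤ 1 / 2) :
    ∃ (n g : ℤ) (y : C), S.lam ^ g ≤ 2 * η * S.lam ^ n ∧ S.len y ≤ S.lam ^ g * S.len S.w0 ∧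
      S.s (L.kap - g) y ∈ L.F ∧
      (∀ m, (∀ m' ≤ m, S.len (S.gp e (S.R e n) y m') ≤ S.th * S.lam ^ n) →
        S.Lg e (S.R e n) (S.gp e (S.R e n) y m) ∧
          S.lam ^ (S.G e (S.R e n) (S.gp e (S.R e n) y m)) ≤ η * S.lam ^ n) ∧
      ∃ m, S.th * S.lam ^ n < S.len (S.gp e (S.R e n) y m) := by
  obtain ⟨hg, hu, hthin⟩ := H
  obtain ⟨q, hq⟩ : ∃ q : ℕ → C, q = S.gp e (S.R e 0) x0 := ⟨_, rfl⟩
  rw [← hq] at hg hu hthin
  have hmem : ∀ k, q k ∈ S.R e 0 := fun k => (hg k).mem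
  have hmono : StrictMono fun k => S.len (q k) := by
    rw [hq]
    exact strictMono_nat_of_lt_succ fun k => len_gp_lt k
  have hltu : ∀ k, S.len (q k) < u := fun k =>
    lt_of_lt_of_le (hmono (Nat.lt_succ_self k)) (hmono.monotone.ge_of_tendsto hu _)
  obtain ⟨A, hA⟩ := L.syn
  have hA0 : 0 ≤ A := by
    obtain ⟨q', -, h3, h4⟩ := hA 0 le_rfl
    linarith
  have hl0 := S.len_w0
  have hlp := S.lam_pos
  obtain ⟨ε, hε⟩ : ∃ ε, ε = η / (A + 1 + S.len S.w0) := ⟨_, rfl⟩
  have hden : 0 < A + 1 + S.len S.w0 := by linarith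
  have hε0 : 0 < ε := by rw [hε]; exact div_pos hη hden
  have hεη : ε * (A + 1 + S.len S.w0) = η := by rw [hε]; exact div_mul_cancel₀ _ hden.ne'
  have hεA : ε * (A + 1) ≤ η := by nlinarith [mul_pos hε0 hl0]
  have hεl : ε * S.len S.w0 ≤ 1 / 4 := by nlinarith [mul_pos hε0 (show 0 < A + 1 by linarith)]
  obtain ⟨K1, hK1⟩ := (Filter.eventually_atTop.1 (hthin ε hε0))
  have hgap : 0 < u - S.len (q K1) := by linarith [hltu K1]
  obtain ⟨k0, hk0⟩ := pow_unbounded_of_one_lt ((A + 1) / (u - S.len (q K1))) S.one_lt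
  obtain ⟨n, hn⟩ : ∃ n : ℤ, n = -(k0 * e : ℤ) := ⟨_, rfl⟩
  obtain ⟨σ, hσ⟩ : ∃ σ : ℝ, σ = S.lam ^ n := ⟨_, rfl⟩
  have hσ0 : 0 < σ := by rw [hσ]; exact zpow_pos hlp n
  have hσ1 : (A + 1) * σ ≤ u - S.len (q K1) := by
    have h3 : σ * S.lam ^ (k0 * e) = 1 := by
      rw [hσ, hn, zpow_neg, ← Nat.cast_mul, zpow_natCast, inv_mul_cancel₀ (pow_pos hlp _).ne']
    have h4 : S.lam ^ k0 ≤ S.lam ^ (k0 * e) :=
      pow_le_pow_right₀ S.one_lt.le (Nat.le_mul_of_pos_right _ he)
    rw [div_lt_iff₀ hgap] at hk0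
    have h5 : A + 1 ≤ S.lam ^ (k0 * e) * (u - S.len (q K1)) :=
      hk0.le.trans (mul_le_mul_of_nonneg_right h4 hgap.le)
    have h6 := mul_le_mul_of_nonneg_left h5 hσ0.le
    rw [← mul_assoc, h3, one_mul] at h6
    linarith
  have hRn : S.R e n = S.R e 0 := R_congr ⟨-k0, by rw [hn]; ring⟩
  have hlen0 : 0 ≤ S.len (q K1) := S.len_nonneg _
  obtain ⟨q', hq1, hq2, hq3⟩ := hA ((u - (A + 1) * σ) / σ) (div_nonneg (by linarith) hσ0.le)
  obtain ⟨x, hx⟩ : ∃ x, x = S.s n q' := ⟨_, rfl⟩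
  have hxlen : S.len x = σ * S.len q' := by rw [hx, S.len_s, hσ]
  have hxw : x * S.w n ∈ S.R e 0 := by
    have h3 := (R_s (S := S) (e := e) (c := 0) (k := n)).2 hq1
    rwa [map_mul, S.s_w, ← hx, add_zero, zero_add, hRn] at h3
  have hxR : x ∈ S.R e 0 := R_down (Dvd.intro _ rfl) hxw
  have hx1 : u - (A + 1) * σ ≤ S.len x := by
    rw [hxlen]
    have h3 := mul_le_mul_of_nonneg_left hq2 hσ0.le
    rwa [mul_div_cancel₀ _ hσ0.ne'] at h3
  have hx2 : S.len x ≤ u - σ := by
    rw [hxlen]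
    have h3 := mul_le_mul_of_nonneg_left hq3 hσ0.le
    rw [mul_add, mul_div_cancel₀ _ hσ0.ne'] at h3
    linarith
  -- the token over `x`
  classical
  have hex : ∃ k, S.len x < S.len (q k) := by
    have h3 : ∀ᶠ k in Filter.atTop, S.len x < S.len (q k) :=
      hu.eventually_const_lt (by linarith)
    exact h3.exists
  obtain ⟨j, hj⟩ : ∃ j, Nat.find hex = j + 1 := by
    refine Nat.exists_eq_succ_of_ne_zero ?_
    intro h0
    have h3 := Nat.find_spec hex
    rw [h0] at h3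
    have h4 := hmono.monotone (Nat.zero_le K1)
    linarith
  have hj1 : S.len x < S.len (q (j + 1)) := by rw [← hj]; exact Nat.find_spec hex
  have hj2 : S.len (q j) ≤ S.len x := by
    have h3 := Nat.find_min hex (m := j) (by omega)
    exact not_lt.1 h3
  have hjK : K1 ≤ j := by
    by_contra hcon
    have h3 := hmono.monotone (show j + 1 ≤ K1 by omega)
    linarith
  obtain ⟨g, hgdef⟩ : ∃ g, g = S.G e (S.R e 0) (q j) := ⟨_, rfl⟩
  have hqs : ∀ k, q (k + 1) = q k * S.w (S.G e (S.R e 0) (q k)) := fun k => by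
    rw [hq]
    exact gp_succ k
  have hqj : q (j + 1) = q j * S.w g := by rw [hgdef]; exact hqs j
  obtain ⟨y, hy⟩ := hP.R_le hxR (hmem (j + 1)) hj1.le
  have hgp : 0 < S.lam ^ g := zpow_pos hlp g
  have hleny : S.len y ≤ S.lam ^ g * S.len S.w0 := by
    have h3 : S.len (q (j + 1)) = S.len (q j) + S.lam ^ g * S.len S.w0 := by
      rw [hqj, S.len_mul, S.len_w]
    have h4 : S.len (q (j + 1)) = S.len x + S.len y := by rw [hy, S.len_mul]
    linarith
  have hsz : S.lam ^ g ≤ 2 * η * σ := by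
    have h3 := hK1 j hjK
    rw [← hgdef] at h3
    have h4 : S.len (q (j + 1)) = S.len (q j) + S.lam ^ g * S.len S.w0 := by
      rw [hqj, S.len_mul, S.len_w]
    have h5 : u - S.len (q j) ≤ (A + 1) * σ + S.lam ^ g * S.len S.w0 := by linarith
    have h6 := mul_le_mul_of_nonneg_left h5 hε0.le
    have h7 : ε * ((A + 1) * σ) ≤ η * σ := by
      rw [← mul_assoc]
      exact mul_le_mul_of_nonneg_right hεA hσ0.le
    have h8 : ε * (S.lam ^ g * S.len S.w0) ≤ 1 / 4 * S.lam ^ g := by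
      have := mul_le_mul_of_nonneg_right hεl hgp.le
      linarith
    rw [mul_add] at h6
    have h9 : 0 < η * σ := mul_pos hη hσ0
    linarith
  have hgn : g ≤ n := by
    have h3 : S.lam ^ g ≤ S.lam ^ n := by
      rw [← hσ]
      have := mul_le_mul_of_nonneg_right h1 hσ0.le
      linarith
    exact (zpow_le_zpow_iff_right₀ S.one_lt).1 h3
  have hF : S.s (L.kap - g) y ∈ L.F := by
    refine L.ins (c := 0) hgn (q := q j) ?_ hxw ?_
    · rw [← hqj]
      exact hmem _
    · rw [← hy, hqj]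
  -- the copy
  have hdec : ∀ m, x * S.gp e (S.R e n) y m = q (j + 1 + m) →
      S.len (S.gp e (S.R e n) y m) ≤ S.th * σ →
      S.Lg e (S.R e n) (S.gp e (S.R e n) y m) ∧
        S.G e (S.R e n) (S.gp e (S.R e n) y m) = S.G e (S.R e 0) (q (j + 1 + m)) ∧
        S.lam ^ (S.G e (S.R e n) (S.gp e (S.R e n) y m)) ≤ η * σ := by
    intro m hm hlen
    obtain ⟨i, hi⟩ : ∃ i, i = S.G e (S.R e 0) (q (j + 1 + m)) := ⟨_, rfl⟩
    have h3 := G_spec (hg (j + 1 + m))
    have h4 := hK1 (j + 1 + m) (by omega)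
    rw [← hi] at h3 h4
    have h5 : u - S.len (q (j + 1 + m)) ≤ (A + 1) * σ := by
      have h6 := hmono.monotone (show j + 1 ≤ j + 1 + m by omega)
      linarith
    have h6 : S.lam ^ i ≤ η * σ := by
      have h7 := mul_le_mul_of_nonneg_left h5 hε0.le
      have h8 : ε * ((A + 1) * σ) ≤ η * σ := by
        rw [← mul_assoc]
        exact mul_le_mul_of_nonneg_right hεA hσ0.le
      linarith
    have h7 : S.len (S.gp e (S.R e n) y m * S.w (i + e)) ≤ S.len (S.w n) := by
      rw [S.len_mul, S.len_w, S.len_w, ← hσ, zpow_add₀ hlp.ne', zpow_natCast]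
      have h8 := mul_le_mul_of_nonneg_right S.th_le hσ0.le
      have h9 : S.lam ^ i * S.lam ^ e ≤ 1 / 2 * σ := by
        have h10 := mul_le_mul_of_nonneg_right h6 (pow_pos hlp e).le
        have h11 := mul_le_mul_of_nonneg_right h2 hσ0.le
        nlinarith
      have h12 := mul_le_mul_of_nonneg_right h9 hl0.le
      linarith
    rw [← hm] at h3
    obtain ⟨h8, h9⟩ := hP.loc hxw h3.1 h3.2 h7
    have h10 := hP.G_eq hD h8 h9
    refine ⟨⟨i, h8, h9⟩, ?_, ?_⟩
    · rw [h10, hi]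
    · rw [h10]
      exact h6
  have hcopy : ∀ m, (∀ m' < m, S.len (S.gp e (S.R e n) y m') ≤ S.th * σ) →
      x * S.gp e (S.R e n) y m = q (j + 1 + m) := by
    intro m
    induction m with
    | zero =>
      intro _
      rw [gp_zero, Nat.add_zero]
      exact hy.symm
    | succ m ih =>
      intro hlen
      have h3 := ih fun m' hm' => hlen m' (by omega)
      have h4 := hdec m h3 (hlen m (by omega))
      rw [gp_succ, h4.2.1, ← mul_assoc, h3, ← Nat.add_assoc, hqs]
  refine ⟨n, g, y, by rw [← hσ]; exact hsz, hleny, hF, ?_, ?_⟩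
  · intro m hm
    rw [← hσ] at hm ⊢
    have h3 := hcopy m fun m' hm' => hm m' hm'.le
    have h4 := hdec m h3 (hm m le_rfl)
    exact ⟨h4.1, h4.2.2⟩
  · by_contra hcon
    push Not at hcon
    rw [← hσ] at hcon
    have h3 : ∀ m, S.len (q (j + 1 + m)) ≤ u - σ / 2 := by
      intro m
      rw [← hcopy m fun m' _ => hcon m', S.len_mul]
      have h4 := hcon m
      have h5 := mul_le_mul_of_nonneg_right S.th_le' hσ0.le
      linarith
    have h4 : ∀ᶠ k in Filter.atTop, u - σ / 2 < S.len (q k) :=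
      hu.eventually_const_lt (by linarith)
    obtain ⟨K, hK⟩ := Filter.eventually_atTop.1 h4
    have h5 := hK (j + 1 + K) (by omega)
    have h6 := h3 K
    linarith

/-- The greedy path in a window: normalised form. -/
theorem Lv.win' (L : Lv S e) (hP : S.P e) (hD : S.D e) (he : 0 < e) {x0 : C} {u : ℝ}
    (H : S.Thin e x0 u) {D ε : ℝ} (hD0 : 0 < D) (hε : 0 < ε) :
    ∃ (N : ℤ) (st : C), st ∈ L.F ∧ S.len st ≤ S.lam ^ L.kap * S.len S.w0 ∧ D ≤ S.lam ^ N ∧
      (∀ m, S.len (S.gp e (S.R e N) st m) ≤ S.th * S.lam ^ N →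
        S.Lg e (S.R e N) (S.gp e (S.R e N) st m) ∧
          S.lam ^ (S.G e (S.R e N) (S.gp e (S.R e N) st m)) ≤ ε * S.lam ^ N) ∧
      ∃ m, S.th * S.lam ^ N < S.len (S.gp e (S.R e N) st m) := by
  have hlp := S.lam_pos
  obtain ⟨η, hη⟩ : ∃ η, η = min (min (1 / 4) (1 / (2 * S.lam ^ e)))
    (min (S.lam ^ L.kap / (2 * D)) ε) := ⟨_, rfl⟩
  have hη0 : 0 < η := by
    rw [hη]
    have h1 := pow_pos hlp e
    have h2 := zpow_pos hlp L.kap
    positivity
  have h1 : η ≤ 1 / 4 := by rw [hη]; exact (min_le_left _ _).trans (min_le_left _ _)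
  have h2 : S.lam ^ e * η ≤ 1 / 2 := by
    have h3 : η ≤ 1 / (2 * S.lam ^ e) := by
      rw [hη]; exact (min_le_left _ _).trans (min_le_right _ _)
    have h4 := mul_le_mul_of_nonneg_left h3 (pow_pos hlp e).le
    have h5 : S.lam ^ e * (1 / (2 * S.lam ^ e)) = 1 / 2 := by
      have := (pow_pos hlp e).ne'
      field_simp
    rwa [h5] at h4
  have h3 : η ≤ S.lam ^ L.kap / (2 * D) := by
    rw [hη]; exact (min_le_right _ _).trans (min_le_left _ _)
  have h4 : η ≤ ε := by rw [hη]; exact (min_le_right _ _).trans (min_le_right _ _)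
  obtain ⟨n, g, y, hg, hly, hF, hpath, hex⟩ := L.win hP hD he H hη0 h1 h2
  obtain ⟨k, hk⟩ : ∃ k, k = L.kap - g := ⟨_, rfl⟩
  rw [← hk] at hF
  have hkp := zpow_pos hlp k
  have hlN : S.lam ^ (n + k) = S.lam ^ k * S.lam ^ n := by rw [add_comm, zpow_add₀ hlp.ne']
  have hlk : S.lam ^ k * S.lam ^ g = S.lam ^ L.kap := by
    rw [← zpow_add₀ hlp.ne', hk, sub_add_cancel]
  -- the normalised path
  have hcp : ∀ m, (∀ m' < m, S.len (S.gp e (S.R e (n + k)) (S.s k y) m') ≤
      S.th * S.lam ^ (n + k)) →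
      S.gp e (S.R e (n + k)) (S.s k y) m = S.s k (S.gp e (S.R e n) y m) ∧
        ∀ m' < m, S.len (S.gp e (S.R e n) y m') ≤ S.th * S.lam ^ n := by
    intro m
    induction m with
    | zero => intro _; exact ⟨rfl, by simp⟩
    | succ m ih =>
      intro hm
      obtain ⟨h5, h6⟩ := ih fun m' hm' => hm m' (by omega)
      have h7 : ∀ m' < m + 1, S.len (S.gp e (S.R e n) y m') ≤ S.th * S.lam ^ n := by
        intro m' hm'
        rcases Nat.lt_succ_iff_lt_or_eq.1 hm' with h8 | rfl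
        · exact h6 m' h8
        · have h8 := hm m' (by omega)
          rw [h5, S.len_s, hlN] at h8
          have h9 : S.th * (S.lam ^ k * S.lam ^ n) = S.lam ^ k * (S.th * S.lam ^ n) := by ring
          rw [h9] at h8
          exact le_of_mul_le_mul_left h8 hkp
      refine ⟨?_, h7⟩
      refine hP.gp_s hD (m + 1) fun m' hm' => ?_
      exact (hpath m' fun m'' hm'' => h7 m'' (by omega)).1
  have hmon : ∀ m, S.len (S.gp e (S.R e (n + k)) (S.s k y) m) ≤ S.th * S.lam ^ (n + k) →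
      ∀ m' ≤ m, S.len (S.gp e (S.R e (n + k)) (S.s k y) m') ≤ S.th * S.lam ^ (n + k) :=
    fun m hm m' hm' => (len_gp_mono hm').trans hm
  refine ⟨n + k, S.s k y, hF, ?_, ?_, ?_, ?_⟩
  · rw [S.len_s, ← hlk, mul_assoc]
    exact mul_le_mul_of_nonneg_left hly hkp.le
  · have h5 : η * (2 * D) ≤ S.lam ^ L.kap := by
      rwa [le_div_iff₀ (by linarith)] at h3
    have h6 := mul_le_mul_of_nonneg_left hg hkp.le
    rw [hlk] at h6
    have h7 : 2 * η * (S.lam ^ k * S.lam ^ n) = S.lam ^ k * (2 * η * S.lam ^ n) := by ring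
    rw [hlN]
    have h8 : 2 * η * D ≤ 2 * η * (S.lam ^ k * S.lam ^ n) := by rw [h7]; linarith
    exact le_of_mul_le_mul_left h8 (by linarith)
  · intro m hm
    have h5 : ∀ m' ≤ m, S.len (S.gp e (S.R e n) y m') ≤ S.th * S.lam ^ n := by
      have h6 := hmon m hm
      intro m' hm'
      obtain ⟨h7, h8⟩ := hcp m' fun m'' hm'' => h6 m'' (by omega)
      have h9 := h6 m' hm'
      rw [h7, S.len_s, hlN] at h9
      have h10 : S.th * (S.lam ^ k * S.lam ^ n) = S.lam ^ k * (S.th * S.lam ^ n) := by ring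
      rw [h10] at h9
      exact le_of_mul_le_mul_left h9 hkp
    obtain ⟨h6, h7⟩ := hpath m h5
    obtain ⟨h8, -⟩ := hcp m fun m' hm' => hmon m hm m' hm'.le
    rw [h8]
    refine ⟨Lg_s.2 h6, ?_⟩
    rw [hP.G_s hD h6, zpow_add₀ hlp.ne', hlN]
    have h9 := mul_le_mul_of_nonneg_left h7 hkp.le
    have h10 := mul_le_mul_of_nonneg_right h4 (mul_pos hkp (zpow_pos hlp n)).le
    linarith
  · by_contra hcon
    push Not at hcon
    obtain ⟨m, hm⟩ := hex
    obtain ⟨h5, -⟩ := hcp m fun m' _ => hcon m'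
    have h6 := hcon m
    rw [h5, S.len_s, hlN] at h6
    have h10 : S.th * (S.lam ^ k * S.lam ^ n) = S.lam ^ k * (S.th * S.lam ^ n) := by ring
    rw [h10] at h6
    have h7 := le_of_mul_le_mul_left h6 hkp
    linarith

/-- **Theorem Z, first step**: a live path exists. -/
theorem Lv.step1 (L : Lv S e) (hP : S.P e) (hD : S.D e) (he : 0 < e) {x0 : C} {u : ℝ}
    (H : S.Thin e x0 u) : ∃ c st, S.Live e c st := by
  have hlp := S.lam_pos
  have he' : (e : ℤ) ≠ 0 := by omega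
  have hth := S.th_pos
  -- pigeonhole
  have h1 : ∀ i : ℕ, ∃ (N : ℤ) (st : C), st ∈ L.F ∧ S.len st ≤ S.lam ^ L.kap * S.len S.w0 ∧
      ((i : ℝ) + 1) ≤ S.lam ^ N ∧
      (∀ m, S.len (S.gp e (S.R e N) st m) ≤ S.th * S.lam ^ N →
        S.Lg e (S.R e N) (S.gp e (S.R e N) st m) ∧
          S.lam ^ (S.G e (S.R e N) (S.gp e (S.R e N) st m)) ≤ 1 / ((i : ℝ) + 1) * S.lam ^ N) ∧
      ∃ m, S.th * S.lam ^ N < S.len (S.gp e (S.R e N) st m) := fun i =>
    L.win' hP hD he H (by positivity) (by positivity)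
  choose N st hstF hstl hNi hpath hex using h1
  obtain ⟨⟨c, x⟩, -, hcx⟩ := freq_fiber
    (s := Set.Ico (0 : ℤ) e ×ˢ {x | x ∈ L.F ∧ S.len x ≤ S.lam ^ L.kap * S.len S.w0})
    ((Set.finite_Ico _ _).prod (L.fin _)) (fun i => (N i % e, st i)) (p := fun _ => True)
    (Filter.Eventually.frequently (Filter.Eventually.of_forall fun _ => trivial))
    (fun i _ => ⟨⟨Int.emod_nonneg _ he', Int.emod_lt_of_pos _ (by omega)⟩, hstF i, hstl i⟩)
  obtain ⟨π, hπ⟩ : ∃ π : ℕ → C, π = S.gp e (S.R e c) x := ⟨_, rfl⟩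
  have hW : ∀ D ε : ℝ, 0 < ε → ∃ T : ℝ, D ≤ T ∧ (∀ m, S.len (π m) ≤ S.th * T →
      S.Lg e (S.R e c) (π m) ∧ S.lam ^ (S.G e (S.R e c) (π m)) ≤ ε * T) ∧
      ∃ m, S.th * T < S.len (π m) := by
    intro D ε hε
    obtain ⟨i0, hi0⟩ := exists_nat_ge (max D (1 / ε))
    obtain ⟨i, hi, -, hi'⟩ := Filter.frequently_atTop.1 hcx i0
    obtain ⟨hc, hx⟩ := Prod.mk.inj hi'
    have hR : S.R e (N i) = S.R e c := R_congr ⟨N i / e, by
      have := Int.emod_add_mul_ediv (N i) e
      rw [hc] at this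
      linarith⟩
    have h2 := hpath i
    have h3 := hex i
    rw [hR, hx, ← hπ] at h2 h3
    have hi1 : (i0 : ℝ) ≤ i := by exact_mod_cast hi
    have hD1 : D ≤ i0 := (le_max_left _ _).trans hi0
    have hE1 : 1 / ε ≤ i0 := (le_max_right _ _).trans hi0
    refine ⟨S.lam ^ N i, by linarith [hNi i], ?_, h3⟩
    intro m hm
    refine ⟨(h2 m hm).1, (h2 m hm).2.trans ?_⟩
    refine mul_le_mul_of_nonneg_right ?_ (zpow_pos hlp _).le
    rw [div_le_iff₀ (by positivity)]
    rw [div_le_iff₀ hε] at hE1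
    have h4 := mul_le_mul_of_nonneg_right hi1 hε.le
    linarith
  have hlg : ∀ m, S.Lg e (S.R e c) (π m) := by
    intro m
    obtain ⟨T, hT, h2, -⟩ := hW (S.len (π m) / S.th) 1 one_pos
    refine (h2 m ?_).1
    rw [div_le_iff₀ hth] at hT
    linarith
  refine ⟨c, x, ?_, ?_, ?_⟩
  · rw [← hπ]
    exact hlg
  · rw [← hπ]
    intro B
    obtain ⟨T, hT, -, m, hm⟩ := hW (B / S.th) 1 one_pos
    refine ⟨m, lt_of_le_of_lt ?_ hm⟩
    rw [div_le_iff₀ hth] at hT
    linarith
  · rw [← hπ]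
    intro η hη
    by_contra hcon
    rw [Filter.not_eventually] at hcon
    -- two cuts of the same type
    obtain ⟨⟨c', x'⟩, -, hcx'⟩ := freq_fiber
      (s := Set.Ico (0 : ℤ) e ×ˢ {x | x ∈ L.F ∧ S.len x ≤ S.lam ^ L.kap / η})
      ((Set.finite_Ico _ _).prod (L.fin _))
      (fun m => (S.G e (S.R e c) (π m) % e, S.s (L.kap - S.G e (S.R e c) (π m)) (π m))) hcon
      (fun m hm => ⟨⟨Int.emod_nonneg _ he', Int.emod_lt_of_pos _ (by omega)⟩,
        L.start (G_spec (hlg m)).1, by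
          push Not at hm
          rw [S.len_s, zpow_sub₀ hlp.ne', div_mul_eq_mul_div, div_le_div_iff₀ (zpow_pos hlp _) hη,
            mul_assoc]
          refine mul_le_mul_of_nonneg_left ?_ (zpow_pos hlp _).le
          linarith⟩)
    obtain ⟨m1, -, -, h3⟩ := Filter.frequently_atTop.1 hcx' 0
    obtain ⟨m2, hm2, -, h4⟩ := Filter.frequently_atTop.1 hcx' (m1 + 1)
    obtain ⟨h5, h6⟩ := Prod.mk.inj h3
    obtain ⟨h7, h8⟩ := Prod.mk.inj h4
    obtain ⟨g1, hg1⟩ : ∃ g1, g1 = S.G e (S.R e c) (π m1) := ⟨_, rfl⟩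
    obtain ⟨g2, hg2⟩ : ∃ g2, g2 = S.G e (S.R e c) (π m2) := ⟨_, rfl⟩
    rw [← hg1] at h5 h6
    rw [← hg2] at h7 h8
    obtain ⟨d, hd⟩ : ∃ d, d = g2 - g1 := ⟨_, rfl⟩
    have hde : (e : ℤ) ∣ d := by
      rw [hd]
      exact Int.ModEq.dvd (by rw [Int.ModEq, h5, h7])
    have hsd : π m2 = S.s d (π m1) := by
      have h9 : S.s (L.kap - g1) (π m1) = S.s (L.kap - g2) (π m2) := by rw [h6, h8]
      have h10 := congrArg (S.s (g2 - L.kap)) h9
      rw [← S.s_add, ← S.s_add, show g2 - L.kap + (L.kap - g2) = 0 by ring, S.s_zero,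
        show g2 - L.kap + (L.kap - g1) = d by rw [hd]; ring] at h10
      exact h10.symm
    have hl1 : 0 < S.len (π m1) := by
      rcases (S.len_nonneg (π m1)).lt_or_eq with h9 | h9
      · exact h9
      · exfalso
        have h10 : S.len (π m1) < S.len (π m2) := by
          rw [hπ]
          exact len_gp_strict (by omega)
        rw [hsd, S.len_s, ← h9, mul_zero] at h10
        exact lt_irrefl _ h10
    have hd1 : 1 < S.lam ^ d := by
      have h10 : S.len (π m1) < S.len (π m2) := by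
        rw [hπ]
        exact len_gp_strict (by omega)
      rw [hsd, S.len_s] at h10
      by_contra h11
      push Not at h11
      have := mul_le_mul_of_nonneg_right h11 hl1.le
      linarith
    have hloop : ∀ K : ℕ, ∃ m, π m = S.s (K * d) (π m1) := by
      intro K
      induction K with
      | zero => exact ⟨m1, by rw [Nat.cast_zero, zero_mul, S.s_zero]⟩
      | succ K ih =>
        obtain ⟨m, hm⟩ := ih
        refine ⟨m + (m2 - m1), ?_⟩
        have h9 : S.R e c = S.R e (c + K * d) := by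
          refine (R_congr ?_).symm
          rw [add_sub_cancel_left]
          exact hde.mul_left _
        have h10 : π (m + (m2 - m1)) = S.gp e (S.R e (c + K * d)) (S.s (K * d) (π m1))
            (m2 - m1) := by
          rw [← hm, ← h9, hπ, gp_add]
        have h11 : S.gp e (S.R e c) (π m1) (m2 - m1) = π m2 := by
          rw [hπ, gp_add, show m1 + (m2 - m1) = m2 by omega]
        rw [h10, hP.gp_s hD, h11, hsd, ← S.s_add]
        · congr 1
          push_cast
          congr 1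
          ring
        · intro m' _
          rw [hπ, gp_add, ← hπ]
          exact hlg _
    -- the contradiction
    have hlh := zpow_pos hlp g1
    have hld := zpow_pos hlp d
    obtain ⟨T, hT, hT2, -⟩ := hW (S.len (π m1) / S.th)
      (S.lam ^ g1 * S.th / (2 * S.len (π m1) * S.lam ^ d)) (by positivity)
    have hT1 : S.len (π m1) ≤ S.th * T := by
      rw [div_le_iff₀ hth] at hT
      linarith
    obtain ⟨K, hK1, hK2⟩ := exists_nat_pow_near (x := S.th * T / S.len (π m1))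
      (by rwa [le_div_iff₀ hl1, one_mul]) hd1
    obtain ⟨m, hm⟩ := hloop K
    have hlK : S.lam ^ ((K : ℤ) * d) = (S.lam ^ d) ^ K := by
      rw [mul_comm, zpow_mul, zpow_natCast]
    rw [le_div_iff₀ hl1] at hK1
    rw [div_lt_iff₀ hl1] at hK2
    have h9 : S.len (π m) ≤ S.th * T := by
      rw [hm, S.len_s, hlK]
      exact hK1
    have h10 := (hT2 m h9).2
    have h11 : S.G e (S.R e c) (π m) = K * d + g1 := by
      have h12 : S.R e c = S.R e (c + K * d) := by
        refine (R_congr ?_).symm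
        rw [add_sub_cancel_left]
        exact hde.mul_left _
      rw [hm, hg1]
      conv_lhs => rw [h12]
      exact hP.G_s hD (hlg m1)
    rw [h11, zpow_add₀ hlp.ne', hlK, div_mul_eq_mul_div, le_div_iff₀ (by positivity)] at h10
    rw [pow_succ] at hK2
    have h12 := mul_lt_mul_of_pos_left hK2 hlh
    have h13 := pow_pos hld K
    nlinarith [mul_pos (mul_pos h13 hlh) (mul_pos hl1 hld)]

end Tk

end D0L
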