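import Pool.Agent.H.MP_374efc_lc.Zt.Lv

/-!
# MP_374efc_lc: Theorem Z, steps 2 and 3

`step2`: a live path gives arbitrarily small largest tokens over every point of the ray `R 0`.
`step3`: this is impossible if `u` is the limit of a greedy path with tokens small compared with the distance to `u`.
-/

set_option autoImplicit false

namespace D0L

namespace Tk

variable {C : Type} [CancelMonoid C] {S : Tk C} {e : ℕ}

/-- Small tokens over `u`. -/
def Sm (S : Tk C) (e : ℕ) (u : ℝ) : Prop :=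
  ∀ η : ℝ, 0 < η → ∃ (p : C) (n : ℤ), S.len p < u ∧ u < S.len (p * S.w n) ∧
    p * S.w n ∈ S.R e 0 ∧ p * S.w (n + e) ∉ S.R e 0 ∧ S.lam ^ n ≤ η

/-- A small token which contains `u` (possibly as its start). -/
theorem step2_aux (he : 0 < e) {c : ℤ} {st : C} (hl : Live S e c st) {u : ℝ}
    (hu : 0 < u) {η : ℝ} (hη : 0 < η) : ∃ (p : C) (n : ℤ), S.len p ≤ u ∧
      u < S.len (p * S.w n) ∧ p * S.w n ∈ S.R e 0 ∧ p * S.w (n + e) ∉ S.R e 0 ∧
      S.lam ^ n ≤ η := by
  classical
  obtain ⟨h1, h2, h3⟩ := hl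
  obtain ⟨M, hM⟩ := Filter.eventually_atTop.1 (h3 (η / u) (div_pos hη hu))
  set g : ℕ → C := S.gp e (S.R e c) st with hg
  have hlam := S.one_lt
  have hpe : 1 < S.lam ^ e := one_lt_pow₀ hlam he.ne'
  -- the scale
  obtain ⟨K, hK⟩ := pow_unbounded_of_one_lt (S.lam ^ (-c) * S.len (g M) / u) hpe
  obtain ⟨k, hk⟩ : ∃ k : ℤ, k = -c - K * e := ⟨_, rfl⟩
  have ha : 0 < S.lam ^ k := zpow_pos S.lam_pos k
  have hkM : S.lam ^ k * S.len (g M) ≤ u := by
    have h4 : S.lam ^ k * (S.lam ^ e) ^ K = S.lam ^ (-c) := by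
      rw [← pow_mul, ← zpow_natCast S.lam (e * K), ← zpow_add₀ S.lam_pos.ne', hk]
      congr 1
      push_cast
      ring
    have h5 : 0 < (S.lam ^ e) ^ K := pow_pos (by linarith) K
    rw [div_lt_iff₀ hu, ← h4] at hK
    have h6 : (S.lam ^ e) ^ K * (S.lam ^ k * S.len (g M)) < (S.lam ^ e) ^ K * u := by
      linarith
    exact (lt_of_mul_lt_mul_left h6 h5.le).le
  -- the token over `u`
  have hex : ∃ m, u < S.lam ^ k * S.len (g m) := by
    obtain ⟨m, hm⟩ := h2 (u / S.lam ^ k)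
    rw [div_lt_iff₀ ha] at hm
    exact ⟨m, by rw [mul_comm]; exact hm⟩
  obtain ⟨m1, hm1, hmin⟩ : ∃ m1, u < S.lam ^ k * S.len (g m1) ∧
      ∀ m < m1, ¬ u < S.lam ^ k * S.len (g m) :=
    ⟨Nat.find hex, Nat.find_spec hex, fun m hm => Nat.find_min hex hm⟩
  have hMm : M < m1 := by
    by_contra hcon
    push Not at hcon
    have h4 : S.len (g m1) ≤ S.len (g M) := len_gp_mono hcon
    have h5 := mul_le_mul_of_nonneg_left h4 ha.le
    linarith
  obtain ⟨m, rfl⟩ : ∃ m, m1 = m + 1 := ⟨m1 - 1, by omega⟩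
  have hm0 := hmin m (Nat.lt_succ_self m)
  push Not at hm0
  have hR : S.R e (c + k) = S.R e 0 := by
    have h4 := R_add (S := S) (e := e) 0 (-(K : ℤ))
    rw [← h4, hk]
    congr 1
    ring
  obtain ⟨h4, h5⟩ := G_spec (h1 m)
  have hgs : g (m + 1) = g m * S.w (S.G e (S.R e c) (g m)) := gp_succ m
  refine ⟨S.s k (g m), k + S.G e (S.R e c) (g m), ?_, ?_, ?_, ?_, ?_⟩
  · rw [S.len_s]
    exact hm0
  · have h6 : S.s k (g m) * S.w (k + S.G e (S.R e c) (g m)) = S.s k (g (m + 1)) := by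
      rw [hgs, map_mul, S.s_w]
    rw [h6, S.len_s]
    exact hm1
  · rw [← hR]
    refine R_s_mul.2 ?_
    rwa [add_sub_cancel_left]
  · rw [← hR]
    intro h6
    apply h5
    have h7 := R_s_mul.1 h6
    rwa [show k + S.G e (S.R e c) (g m) + (e : ℤ) - k = S.G e (S.R e c) (g m) + e by ring] at h7
  · have h6 := hM m (by omega)
    rw [zpow_add₀ S.lam_pos.ne']
    have h7 := mul_le_mul_of_nonneg_left h6 ha.le
    refine h7.trans ?_
    have h8 : S.lam ^ k * (η / u * S.len (g m)) = η / u * (S.lam ^ k * S.len (g m)) := by ring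
    rw [h8]
    have h9 := mul_le_mul_of_nonneg_left hm0 (div_pos hη hu).le
    rwa [div_mul_cancel₀ _ hu.ne'] at h9

/-- **Step 2**: arbitrarily small largest tokens strictly over `u`. -/
theorem step2 (hP : S.P e) (hD : S.D e) (he : 0 < e) {c : ℤ} {st : C} (hl : Live S e c st)
    {u : ℝ} (hu : 0 < u) : Sm S e u := by
  classical
  intro η hη
  by_cases hst : ∃ (p : C) (n : ℤ), S.len p = u ∧ p * S.w n ∈ S.R e 0 ∧ p * S.w (n + e) ∉ S.R e 0
  · obtain ⟨p0, n0, h1, h2, h3⟩ := hst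
    have hpos : 0 < S.lam ^ n0 := zpow_pos S.lam_pos n0
    obtain ⟨p, n, h4, h5, h6, h7, h8⟩ := step2_aux he hl hu (lt_min hη (half_pos hpos))
    refine ⟨p, n, ?_, h5, h6, h7, h8.trans (min_le_left _ _)⟩
    rcases h4.lt_or_eq with h9 | h9
    · exact h9
    · exfalso
      have h10 : p = p0 := by
        have ha : p ∈ S.R e 0 := R_down (Dvd.intro _ rfl) h6
        have hb : p0 ∈ S.R e 0 := R_down (Dvd.intro _ rfl) h2
        exact hP.R_eq ha hb (h9.trans h1.symm)
      rw [h10] at h6 h7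
      have h11 : n = n0 := by
        rw [← hP.G_eq hD h6 h7, hP.G_eq hD h2 h3]
      have h12 := h8.trans (min_le_right _ _)
      rw [h11] at h12
      linarith
  · obtain ⟨p, n, h4, h5, h6, h7, h8⟩ := step2_aux he hl hu hη
    refine ⟨p, n, ?_, h5, h6, h7, h8⟩
    rcases h4.lt_or_eq with h9 | h9
    · exact h9
    · exact absurd ⟨p, n, h9, h6, h7⟩ hst

namespace Lv

variable (L : Lv S e)

include L in
/-- The greedy path from a cut different from the origin. -/
theorem gp_mem (he : 0 < e) {c : ℤ} {x : C} (hx : x ∈ S.R e c) (hx1 : x ≠ 1) (m : ℕ) :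
    S.gp e (S.R e c) x m ∈ S.R e c ∧ S.gp e (S.R e c) x m ≠ 1 ∧
      S.Lg e (S.R e c) (S.gp e (S.R e c) x m) := by
  induction m with
  | zero => exact ⟨hx, hx1, L.lg he hx hx1⟩
  | succ m ih =>
    obtain ⟨h1, h2, h3⟩ := ih
    have h4 := (G_spec h3).1
    have h5 : S.gp e (S.R e c) x (m + 1) ≠ 1 := by
      intro h6
      have h7 := len_gp_lt (S := S) (e := e) (A := S.R e c) (x := x) m
      rw [h6, S.len_one] at h7
      have := S.len_nonneg (S.gp e (S.R e c) x m)
      linarith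
    exact ⟨h4, h5, L.lg he h4 h5⟩

/-- A bound of the bounded greedy paths from normalised states. -/
theorem bound (he : 0 < e) : ∃ B : ℝ, 0 < B ∧ ∀ (c : ℤ) (z : C), S.s L.kap z ∈ L.F →
    S.len z ≤ S.len S.w0 → (∃ B' : ℝ, ∀ m, S.len (S.gp e (S.R e c) z m) ≤ B') →
    ∀ m, S.len (S.gp e (S.R e c) z m) ≤ B := by
  classical
  have hT : {z | S.s L.kap z ∈ L.F ∧ S.len z ≤ S.len S.w0}.Finite := by
    have h1 := L.fin (S.lam ^ L.kap * S.len S.w0)
    have h2 := h1.preimage (f := fun z => S.s L.kap z) (fun a _ b _ h => S.s_inj h)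
    refine h2.subset ?_
    rintro z ⟨h3, h4⟩
    refine ⟨h3, ?_⟩
    change S.len (S.s L.kap z) ≤ _
    rw [S.len_s]
    exact mul_le_mul_of_nonneg_left h4 (zpow_pos S.lam_pos _).le
  set f : ℕ × C → ℝ := fun a =>
    if h : ∃ B' : ℝ, ∀ m, S.len (S.gp e (S.R e (a.1 : ℤ)) a.2 m) ≤ B' then h.choose else 0
    with hf
  have hfin : (f '' ((Set.Iio e) ×ˢ {z | S.s L.kap z ∈ L.F ∧ S.len z ≤ S.len S.w0})).Finite :=
    (((Set.finite_Iio e).prod hT).image f)
  obtain ⟨B, hB⟩ := hfin.bddAbove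
  refine ⟨max B 1, lt_max_of_lt_right one_pos, ?_⟩
  intro c z hz hz' hb m
  have he' : (0 : ℤ) < e := by exact_mod_cast he
  obtain ⟨r, hr, hrc⟩ : ∃ r : ℕ, r < e ∧ S.R e (r : ℤ) = S.R e c := by
    refine ⟨(c % e).toNat, ?_, ?_⟩
    · have h1 := Int.emod_lt_of_pos c he'
      have h2 := Int.emod_nonneg c he'.ne'
      omega
    · have h2 := Int.emod_nonneg c he'.ne'
      rw [Int.toNat_of_nonneg h2]
      have h3 := R_add (S := S) (e := e) (c % e) (c / e)
      rw [← h3]
      congr 1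
      have := Int.emod_add_mul_ediv c e
      linarith
  rw [← hrc] at hb ⊢
  have h1 : f (r, z) ≤ B := hB ⟨(r, z), ⟨hr, hz, hz'⟩, rfl⟩
  have h2 : S.len (S.gp e (S.R e (r : ℤ)) z m) ≤ f (r, z) := by
    simp only [hf]
    rw [dif_pos hb]
    exact hb.choose_spec m
  exact (h2.trans h1).trans (le_max_left _ _)

end Lv

/-- **Step 3**: no small tokens over the limit of a thin greedy path. -/
theorem step3 (L : Lv S e) (hP : S.P e) (hD : S.D e) (he : 0 < e) {x : C} {u : ℝ}
    (ht : Thin S e x u) (hs : Sm S e u) : False := by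
  classical
  obtain ⟨B, hB0, hB⟩ := L.bound he
  obtain ⟨hlg, hlim, hth⟩ := ht
  set q : ℕ → C := S.gp e (S.R e 0) x with hq
  have hW := S.len_w0
  have hlam := S.one_lt
  have hE : 0 < S.lam ^ e := pow_pos S.lam_pos e
  -- the path stays below `u`
  have hmono : Monotone fun k => S.len (q k) := fun a b hab => len_gp_mono hab
  have hlt : ∀ k, S.len (q k) < u := fun k =>
    lt_of_lt_of_le (len_gp_lt k) (hmono.ge_of_tendsto hlim (k + 1))
  -- the constant
  obtain ⟨ε, hε0, hε1, hε2⟩ : ∃ ε : ℝ, 0 < ε ∧ ε * (B + S.len S.w0) ≤ 1 / 2 ∧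
      ε * (S.lam ^ e * S.len S.w0) ≤ 1 := by
    have h1 : 0 < B + S.len S.w0 := by linarith
    have h2 : 0 < S.lam ^ e * S.len S.w0 := mul_pos hE hW
    refine ⟨min (1 / 2 / (B + S.len S.w0)) (1 / (S.lam ^ e * S.len S.w0)),
      lt_min (by positivity) (by positivity), ?_, ?_⟩
    · have h3 := mul_le_mul_of_nonneg_right (min_le_left (1 / 2 / (B + S.len S.w0))
        (1 / (S.lam ^ e * S.len S.w0))) h1.le
      rwa [div_mul_cancel₀ _ h1.ne'] at h3
    · have h3 := mul_le_mul_of_nonneg_right (min_le_right (1 / 2 / (B + S.len S.w0))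
        (1 / (S.lam ^ e * S.len S.w0))) h2.le
      rwa [div_mul_cancel₀ _ h2.ne'] at h3
  have hε3 : ε * S.len S.w0 ≤ 1 / 2 := by nlinarith
  obtain ⟨k0, hk0⟩ := Filter.eventually_atTop.1 (hth ε hε0)
  -- the small token over `u`
  obtain ⟨p, n, hp1, hp2, hp3, hp4, hp5⟩ := hs ((u - S.len (q k0)) / S.len S.w0)
    (div_pos (by linarith [hlt k0]) hW)
  have hpR : p ∈ S.R e 0 := R_down (Dvd.intro _ rfl) hp3
  have hpn : S.len (p * S.w n) = S.len p + S.lam ^ n * S.len S.w0 := by rw [S.len_mul, S.len_w]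
  have hpk : S.len (q k0) < S.len p := by
    rw [le_div_iff₀ hW] at hp5
    linarith
  -- the step of the path over the start of this token
  have hex : ∃ m, S.len p < S.len (q m) := by
    obtain ⟨m, hm⟩ := (hlim.eventually (lt_mem_nhds hp1)).exists
    exact ⟨m, hm⟩
  obtain ⟨m1, hm1, hmin⟩ : ∃ m1, S.len p < S.len (q m1) ∧
      ∀ m < m1, ¬ S.len p < S.len (q m) :=
    ⟨Nat.find hex, Nat.find_spec hex, fun m hm => Nat.find_min hex hm⟩
  have hkm : k0 < m1 := by
    by_contra hcon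
    push Not at hcon
    have h4 := hmono hcon
    simp only at h4
    linarith
  obtain ⟨j, rfl⟩ : ∃ j, m1 = j + 1 := ⟨m1 - 1, by omega⟩
  have hj0 := hmin j (Nat.lt_succ_self j)
  push Not at hj0
  have hjk : k0 ≤ j := by omega
  have hqR : ∀ k, q k ∈ S.R e 0 := fun k => R_down (Dvd.intro _ rfl) (G_spec (hlg k)).1
  obtain ⟨i, hi⟩ : ∃ i, i = S.G e (S.R e 0) (q j) := ⟨_, rfl⟩
  have hqs : q (j + 1) = q j * S.w i := by rw [hi]; exact gp_succ j
  have hqi : q j * S.w i ∈ S.R e 0 := by rw [hi]; exact (G_spec (hlg j)).1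
  have hlen : S.len (q (j + 1)) = S.len (q j) + S.lam ^ i * S.len S.w0 := by
    rw [hqs, S.len_mul, S.len_w]
  have hthin : S.lam ^ i ≤ ε * (u - S.len (q j)) := by rw [hi]; exact hk0 j hjk
  have hj1 : S.len (q j) < S.len p := by
    rcases hj0.lt_or_eq with h1 | h1
    · exact h1
    · exfalso
      have h2 : q j = p := hP.R_eq (hqR j) hpR h1
      have h3 : i = n := by
        rw [hi, h2]
        exact hP.G_eq hD hp3 hp4
      have h4 := hlt (j + 1)
      rw [hqs, h2, h3] at h4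
      linarith
  have hli : 0 < S.lam ^ i := zpow_pos S.lam_pos i
  have hln : 0 < S.lam ^ n := zpow_pos S.lam_pos n
  have hin : i ≤ n := by
    have h1 : S.lam ^ i ≤ S.lam ^ n := by
      have h2 : u - S.len (q j) ≤ S.lam ^ n * S.len S.w0 + S.lam ^ i * S.len S.w0 := by linarith
      have h3 := mul_le_mul_of_nonneg_left h2 hε0.le
      have h4 : ε * (S.lam ^ n * S.len S.w0 + S.lam ^ i * S.len S.w0) =
          ε * S.len S.w0 * (S.lam ^ n + S.lam ^ i) := by ring
      have h5 := mul_le_mul_of_nonneg_right hε3 (add_pos hln hli).le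
      linarith
    exact (zpow_le_zpow_iff_right₀ hlam).1 h1
  obtain ⟨y, hy⟩ : p ∣ q (j + 1) := hP.R_le hpR (hqR (j + 1)) hm1.le
  have hyF : S.s (L.kap - i) y ∈ L.F := L.ins hin hqi hp3 (by rw [← hy, hqs])
  have hyn : y ∈ S.R e n := by
    have h1 : q (j + 1) ∣ p * S.w n :=
      hP.R_le (hqR (j + 1)) hp3 ((hlt (j + 1)).trans hp2).le
    rw [hy] at h1
    exact R_down (mul_dvd_iff.1 h1) (w_mem_R n)
  have hylen : S.len (q (j + 1)) = S.len p + S.len y := by rw [hy, S.len_mul]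
  have hy1 : y ≠ 1 := by
    rintro rfl
    rw [S.len_one] at hylen
    linarith
  -- the tail of the path is the greedy path on the ray of class `n`
  have hcopy : ∀ m, q (j + 1 + m) = p * S.gp e (S.R e n) y m := by
    intro m
    induction m with
    | zero => exact hy
    | succ m ih =>
      obtain ⟨i', hi'⟩ : ∃ i', i' = S.G e (S.R e 0) (q (j + 1 + m)) := ⟨_, rfl⟩
      have h1 : q (j + 1 + (m + 1)) = q (j + 1 + m) * S.w i' := by rw [hi']; exact gp_succ _
      have h2 := G_spec (hlg (j + 1 + m))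
      rw [← hi'] at h2
      have h3 := hk0 (j + 1 + m) (by omega)
      rw [← hi'] at h3
      rw [ih] at h2
      have h4 : S.len (S.gp e (S.R e n) y m * S.w (i' + e)) ≤ S.len (S.w n) := by
        have h5 : S.len (q (j + 1 + m)) = S.len p + S.len (S.gp e (S.R e n) y m) := by
          rw [ih, S.len_mul]
        have h6 : S.len (S.w (i' + e)) = S.lam ^ i' * (S.lam ^ e * S.len S.w0) := by
          rw [S.len_w, zpow_add₀ S.lam_pos.ne', zpow_natCast]
          ring
        have h7 : S.lam ^ i' * (S.lam ^ e * S.len S.w0) ≤ u - S.len (q (j + 1 + m)) := by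
          have h8 := mul_le_mul_of_nonneg_right h3 (mul_pos hE hW).le
          have h9 : ε * (u - S.len (q (j + 1 + m))) * (S.lam ^ e * S.len S.w0) =
              ε * (S.lam ^ e * S.len S.w0) * (u - S.len (q (j + 1 + m))) := by ring
          have h10 := mul_le_mul_of_nonneg_right hε2
            (show 0 ≤ u - S.len (q (j + 1 + m)) by linarith [hlt (j + 1 + m)])
          linarith
        rw [S.len_mul, h6]
        rw [S.len_mul] at hp2
        linarith
      obtain ⟨h5, h6⟩ := hP.loc hp3 h2.1 h2.2 h4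
      rw [h1, ih, gp_succ, hP.G_eq hD h5 h6, mul_assoc]
  -- the normalised state
  obtain ⟨z, hz⟩ : ∃ z, z = S.s (-i) y := ⟨_, rfl⟩
  have hzy : S.s i z = y := by rw [hz]; exact S.s_neg' i y
  have hzF : S.s L.kap z ∈ L.F := by
    rw [hz, ← S.s_add, ← sub_eq_add_neg]
    exact hyF
  have hzlen : S.len y = S.lam ^ i * S.len z := by rw [← hzy, S.len_s]
  have hzW : S.len z ≤ S.len S.w0 := by
    have h1 : S.lam ^ i * S.len z ≤ S.lam ^ i * S.len S.w0 := by linarith
    exact le_of_mul_le_mul_left h1 hli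
  have hz1 : z ≠ 1 := by
    rintro h
    rw [h, map_one] at hzy
    exact hy1 hzy.symm
  have hzR : z ∈ S.R e (n - i) := by
    have h1 : S.s i z ∈ S.R e (n - i + i) := by rw [sub_add_cancel, hzy]; exact hyn
    exact R_s.1 h1
  have hscale : ∀ m, S.gp e (S.R e n) y m = S.s i (S.gp e (S.R e (n - i)) z m) := by
    intro m
    have h1 := hP.gp_s hD (c := n - i) (k := i) (x := z) m
      (fun m' _ => (L.gp_mem he hzR hz1 m').2.2)
    rwa [sub_add_cancel, hzy] at h1
  have hlenm : ∀ m, S.len (q (j + 1 + m)) =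
      S.len p + S.lam ^ i * S.len (S.gp e (S.R e (n - i)) z m) := by
    intro m
    rw [hcopy, S.len_mul, hscale, S.len_s]
  have hb := hB (n - i) z hzF hzW ⟨(u - S.len p) / S.lam ^ i, fun m => by
    rw [le_div_iff₀ hli]
    have h1 := hlt (j + 1 + m)
    rw [hlenm] at h1
    linarith⟩
  -- the limit
  have hu : u ≤ S.len p + S.lam ^ i * B := by
    refine le_of_tendsto hlim (Filter.eventually_atTop.2 ⟨j + 1, fun m hm => ?_⟩)
    obtain ⟨d, rfl⟩ : ∃ d, m = j + 1 + d := ⟨m - (j + 1), by omega⟩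
    rw [hlenm]
    have h1 := mul_le_mul_of_nonneg_left (hb d) hli.le
    linarith
  have h1 : u - S.len (q j) ≤ S.lam ^ i * (B + S.len S.w0) := by
    rw [mul_add]
    linarith
  have h2 := mul_le_mul_of_nonneg_left h1 hε0.le
  have h3 : ε * (S.lam ^ i * (B + S.len S.w0)) = ε * (B + S.len S.w0) * S.lam ^ i := by ring
  have h4 := mul_le_mul_of_nonneg_right hε1 hli.le
  linarith

end Tk

end D0L
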