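import Pool.Agent.H.MP_374efc_lc.Zt.Z2

/-!
# MP_374efc_lc: Theorem Z from step 1

`thmZ_of`: Theorem Z for greedy paths `gp`; `hZ_of`: the same in the form used by `exists_loop`.
-/

set_option autoImplicit false

namespace D0L

namespace Tk

variable {C : Type} [CancelMonoid C] {S : Tk C} {e : ℕ}

/-- **Theorem Z** (given step 1). -/
theorem thmZ_of (L : Lv S e) (hP : S.P e) (hD : S.D e) (he : 0 < e)
    (hstep : ∀ (x : C) (u : ℝ), Thin S e x u → ∃ c st, Live S e c st) {x : C} {u : ℝ}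
    (hlg : ∀ k, S.Lg e (S.R e 0) (S.gp e (S.R e 0) x k))
    (hlim : Filter.Tendsto (fun k => S.len (S.gp e (S.R e 0) x k)) Filter.atTop (nhds u)) :
    ∃ ε : ℝ, 0 < ε ∧ ∃ᶠ k in Filter.atTop, ε * (u - S.len (S.gp e (S.R e 0) x k)) ≤
      S.lam ^ (S.G e (S.R e 0) (S.gp e (S.R e 0) x k)) := by
  by_contra hcon
  push Not at hcon
  have ht : Thin S e x u := by
    refine ⟨hlg, hlim, fun ε hε => ?_⟩
    have h1 := hcon ε hε
    exact h1.mono fun k hk => hk.le
  obtain ⟨c, st, hl⟩ := hstep x u ht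
  have hu : 0 < u := by
    have hmono : Monotone fun k => S.len (S.gp e (S.R e 0) x k) := fun a b hab =>
      len_gp_mono hab
    have h1 := hmono.ge_of_tendsto hlim 1
    have h2 := len_gp_lt (S := S) (e := e) (A := S.R e 0) (x := x) 0
    have h3 := S.len_nonneg (S.gp e (S.R e 0) x 0)
    linarith
  exact step3 L hP hD he ht (step2 hP hD he hl hu)

/-- Theorem Z for sequences of cuts. -/
theorem hZ_of (L : Lv S e) (hP : S.P e) (hD : S.D e) (he : 0 < e)
    (hstep : ∀ (x : C) (u : ℝ), Thin S e x u → ∃ c st, Live S e c st)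
    (q : ℕ → C) (i : ℕ → ℤ) (u : ℝ) (hq : ∀ m, q (m + 1) = q m * S.w (i m))
    (h1 : ∀ m, q m * S.w (i m) ∈ S.R e 0) (h2 : ∀ m, q m * S.w (i m + e) ∉ S.R e 0)
    (h3 : ∀ m, S.len (q m) < u) (h4 : ∀ ε > 0, ∃ m, u - ε < S.len (q m)) :
    ∃ ε > 0, ∀ K : ℕ, ∃ m, K ≤ m ∧ ε * (u - S.len (q m)) ≤ S.lam ^ (i m) := by
  have hG : ∀ m, S.G e (S.R e 0) (q m) = i m := fun m => hP.G_eq hD (h1 m) (h2 m)
  have hgp : ∀ m, S.gp e (S.R e 0) (q 0) m = q m := by
    intro m
    induction m with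
    | zero => rfl
    | succ m ih => rw [gp_succ, ih, hG, hq]
  have hmono : Monotone fun k => S.len (q k) := by
    refine monotone_nat_of_le_succ fun k => ?_
    rw [hq, S.len_mul]
    linarith [S.len_nonneg (S.w (i k))]
  have hlim : Filter.Tendsto (fun k => S.len (q k)) Filter.atTop (nhds u) := by
    refine tendsto_order.2 ⟨fun a ha => ?_, fun a ha => ?_⟩
    · obtain ⟨m, hm⟩ := h4 (u - a) (by linarith)
      refine Filter.eventually_atTop.2 ⟨m, fun k hk => ?_⟩
      have h5 := hmono hk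
      simp only at h5
      linarith
    · exact Filter.Eventually.of_forall fun k => (h3 k).trans ha
  obtain ⟨ε, hε, hf⟩ := thmZ_of L hP hD he hstep (x := q 0) (u := u)
    (fun k => by rw [hgp]; exact ⟨i k, h1 k, h2 k⟩) (by simpa only [hgp] using hlim)
  refine ⟨ε, hε, fun K => ?_⟩
  obtain ⟨m, hm, hm'⟩ := (Filter.frequently_atTop.1 hf) K
  rw [hgp, hG] at hm'
  exact ⟨m, hm, hm'⟩

end Tk

end D0L
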