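import Pool.Agent.H.MP_374efc_lc.Zt.Z1
import Pool.Agent.H.MP_374efc_lc.Zt.Z3
import Pool.Agent.H.MP_374efc_lc.Zt.CtC

/-!
# MP_374efc_lc: Theorem Z and the loop certificate from the axioms `Lv`

`thmZ`, `hZ`: Theorem Z.  `loop_of_lv`: if no greedy path covers `w e`, there is a loop certificate.
-/

set_option autoImplicit false

namespace D0L

namespace Tk

variable {C : Type} [CancelMonoid C] {S : Tk C} {e : ℕ}

/-- **Theorem Z**: along a convergent greedy path the tokens are infinitely often comparable with the distance to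
the limit. -/
theorem thmZ (L : Lv S e) (hP : S.P e) (hD : S.D e) (he : 0 < e) {x : C} {u : ℝ}
    (hlg : ∀ k, S.Lg e (S.R e 0) (S.gp e (S.R e 0) x k))
    (hlim : Filter.Tendsto (fun k => S.len (S.gp e (S.R e 0) x k)) Filter.atTop (nhds u)) :
    ∃ ε : ℝ, 0 < ε ∧ ∃ᶠ k in Filter.atTop, ε * (u - S.len (S.gp e (S.R e 0) x k)) ≤
      S.lam ^ (S.G e (S.R e 0) (S.gp e (S.R e 0) x k)) :=
  thmZ_of L hP hD he (fun _ _ ht => L.step1 hP hD he ht) hlg hlim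

/-- Theorem Z for sequences of cuts. -/
theorem hZ (L : Lv S e) (hP : S.P e) (hD : S.D e) (he : 0 < e)
    (q : ℕ → C) (i : ℕ → ℤ) (u : ℝ) (hq : ∀ m, q (m + 1) = q m * S.w (i m))
    (h1 : ∀ m, q m * S.w (i m) ∈ S.R e 0) (h2 : ∀ m, q m * S.w (i m + e) ∉ S.R e 0)
    (h3 : ∀ m, S.len (q m) < u) (h4 : ∀ ε > 0, ∃ m, u - ε < S.len (q m)) :
    ∃ ε > 0, ∀ K : ℕ, ∃ m, K ≤ m ∧ ε * (u - S.len (q m)) ≤ S.lam ^ (i m) :=
  hZ_of L hP hD he (fun _ _ ht => L.step1 hP hD he ht) q i u hq h1 h2 h3 h4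

/-- Cuts behind a token start, in every distance, of the level of the token. -/
theorem Lv.h5 (L : Lv S e) (hP : S.P e) : ∃ c : ℝ, ∀ (q : C) (i : ℤ), q * S.w i ∈ S.R e 0 →
    ∀ s : ℝ, 0 ≤ s → ∃ x, q * x ∈ S.R e 0 ∧ s ≤ S.len x ∧ S.len x ≤ s + c * S.lam ^ i ∧
      S.s (-i) x ∈ {y | S.s L.kap y ∈ L.F} := by
  obtain ⟨A, hA⟩ := L.dense
  refine ⟨A * S.lam ^ (-L.kap), ?_⟩
  intro q i hqi s hs
  have hq := (L.tok 0 i q hqi).1
  have hqR := L.sub _ _ hq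
  obtain ⟨y, hy, hy1, hy2⟩ := hA 0 (i - L.kap) (S.len q + s)
    (add_nonneg (S.len_nonneg q) hs)
  obtain ⟨x, rfl⟩ : q ∣ y := hP.R_le hqR (L.sub _ _ hy) (by linarith)
  rw [S.len_mul] at hy1 hy2
  refine ⟨x, L.sub _ _ hy, by linarith, ?_, ?_⟩
  · rw [sub_eq_add_neg, zpow_add₀ S.lam_pos.ne'] at hy2
    linarith
  · have h1 := L.diff 0 (i - L.kap) q x hq hy
    change S.s L.kap (S.s (-i) x) ∈ L.F
    rw [← S.s_add, show L.kap + -i = -(i - L.kap) by ring]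
    exact h1

/-- **The loop certificate**: if no greedy path covers `w e`. -/
theorem loop_of_lv (L : Lv S e) (hP : S.P e) (hD : S.D e) (he : 0 < e)
    (hno : ¬ ∃ (is : List ℤ) (j : ℤ) (y : C), S.Grd e is ∧ y ≠ 1 ∧ y ∈ S.R e j ∧
      S.w e = S.w 0 * S.pr is * y) :
    ∃ (pre cyc : List ℤ) (D : ℤ) (x : C), 0 < D ∧ Loop S e pre cyc D x := by
  obtain ⟨c, hc⟩ := L.h5 hP
  refine exists_loop hP hD he (fun q hq hq1 => L.lg he hq hq1)
    (F := {y | S.s L.kap y ∈ L.F}) ?_ hc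
    (fun q i u _ hq h1 h2 h3 h4 => hZ L hP hD he q i u hq h1 h2 h3 h4) hno
  intro K
  have h1 := L.fin (S.lam ^ L.kap * K)
  have h2 := h1.preimage (f := fun z => S.s L.kap z) (fun a _ b _ h => S.s_inj h)
  refine h2.subset ?_
  rintro z ⟨h3, h4⟩
  refine ⟨h3, ?_⟩
  change S.len (S.s L.kap z) ≤ _
  rw [S.len_s]
  exact mul_le_mul_of_nonneg_left h4 (zpow_pos S.lam_pos _).le

end Tk

end D0L
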